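import Pool.Agent.Work.MP_f96e05_an.FS.T2

-- merged part: Pool.Agent.Work.MP_f96e05_an.FS.L1
section
/-!
The transfer operator.

PLAN. `exists_isL`: adjoint of the operator of `IsPre.exists_clm` (`inner_LL`, test with `conj T`). `unique`: test with `conj (F' - G')`, `ae_zero_of_normsq`.
`re_nonneg`: test with the indicator of a measurable version of `{re F' < 0}`. `norm_le`: `π = conj F' / ‖F'‖` is `Bd`; apply `re_nonneg` to `G - π ∘ S * F`.
`isH0`: `ee ^ j ∘ S` is in `IsH`, `integral_mul_eq_zero`. `bl`: `IsH.mean_mul`, `IsBdry.ev_comp` at `0`, `bl a a = 0`.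
-/

set_option autoImplicit false

open MeasureTheory Filter Topology Complex Metric
open scoped ComplexConjugate InnerProductSpace

namespace Pool.Agent.Work.MP_f96e05_an

variable {φ : ℂ → ℂ} {S : TT → TT} {ω μ p z : ℂ} {w b : ℝ} {F G F' G' u v χ l π : TT → ℂ}
  {r X : TT → ℝ} {σ : ℂ → ℂ}

lemma IsPre.exists_isL (h : IsPre S) (hF : MemLp F 2 mm) : ∃ F', IsL S F F' := by
  obtain ⟨C, hC⟩ := h.exists_clm
  refine ⟨ContinuousLinearMap.adjoint C (hF.toLp F), hF, Lp.memLp _, fun T hT => ?_⟩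
  have hT' := memLp_conj hT
  have e := ContinuousLinearMap.adjoint_inner_right C (hT'.toLp _) (hF.toLp F)
  rw [inner_LL, inner_LL] at e
  have e1 : ∫ x, T x * (ContinuousLinearMap.adjoint C (hF.toLp F)) x ∂mm =
      ∫ x, conj ((hT'.toLp _) x) * (ContinuousLinearMap.adjoint C (hF.toLp F)) x ∂mm := by
    refine integral_congr_ae ?_
    filter_upwards [hT'.coeFn_toLp] with x hx
    rw [hx, conj_conj]
  rw [e1, e]
  refine integral_congr_ae ?_
  filter_upwards [hC (hT'.toLp _), h.ae hT'.coeFn_toLp, hF.coeFn_toLp] with x h1 h2 h3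
  rw [h1, h2, h3, conj_conj]

lemma IsL.unique (h1 : IsL S F F') (h2 : IsL S F G') : F' =ᵐ[mm] G' := by
  have hd : MemLp (fun x => F' x - G' x) 2 mm := h1.2.1.sub h2.2.1
  have hT := memLp_conj hd
  have e : ∫ x, conj (F' x - G' x) * (F' x - G' x) ∂mm = 0 := by
    simp only [mul_sub]
    rw [integral_sub (integrable_mul2 hT h1.2.1) (integrable_mul2 hT h2.2.1), h1.2.2 _ hT,
      h2.2.2 _ hT, sub_self]
  rw [integral_conj_mul_self (fun x => F' x - G' x), ofReal_eq_zero] at e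
  filter_upwards [ae_zero_of_normsq hd e] with x hx
  exact sub_eq_zero.1 hx

lemma IsL.congr (h : IsL S F F') (e : F =ᵐ[mm] G) (e' : F' =ᵐ[mm] G') : IsL S G G' := by
  refine ⟨h.1.ae_eq e, h.2.1.ae_eq e', fun T hT => ?_⟩
  have e1 : ∫ x, T x * G' x ∂mm = ∫ x, T x * F' x ∂mm := by
    refine integral_congr_ae ?_
    filter_upwards [e'] with x hx
    rw [hx]
  rw [e1, h.2.2 T hT]
  refine integral_congr_ae ?_
  filter_upwards [e] with x hx
  rw [hx]

lemma IsL.add (hS : IsPre S) (h1 : IsL S F F') (h2 : IsL S G G') :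
    IsL S (fun x => F x + G x) fun x => F' x + G' x := by
  refine ⟨h1.1.add h2.1, h1.2.1.add h2.2.1, fun T hT => ?_⟩
  simp only [mul_add]
  rw [integral_add (integrable_mul2 hT h1.2.1) (integrable_mul2 hT h2.2.1),
    integral_add (integrable_mul2 (hS.memLp hT) h1.1) (integrable_mul2 (hS.memLp hT) h2.1),
    h1.2.2 T hT, h2.2.2 T hT]

lemma IsL.sub (hS : IsPre S) (h1 : IsL S F F') (h2 : IsL S G G') :
    IsL S (fun x => F x - G x) fun x => F' x - G' x := by
  refine ⟨h1.1.sub h2.1, h1.2.1.sub h2.2.1, fun T hT => ?_⟩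
  simp only [mul_sub]
  rw [integral_sub (integrable_mul2 hT h1.2.1) (integrable_mul2 hT h2.2.1),
    integral_sub (integrable_mul2 (hS.memLp hT) h1.1) (integrable_mul2 (hS.memLp hT) h2.1),
    h1.2.2 T hT, h2.2.2 T hT]

lemma IsL.const_mul (h : IsL S F F') (c : ℂ) : IsL S (fun x => c * F x) fun x => c * F' x := by
  refine ⟨h.1.const_mul c, h.2.1.const_mul c, fun T hT => ?_⟩
  simp only [mul_left_comm _ c]
  rw [integral_const_mul, integral_const_mul, h.2.2 T hT]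

lemma IsL.comp_mul (hS : IsPre S) (h : IsL S F F') (hπ : Bd π) :
    IsL S (fun x => π (S x) * F x) fun x => π x * F' x := by
  refine ⟨(hπ.comp hS).mul_memLp h.1, hπ.mul_memLp h.2.1, fun T hT => ?_⟩
  have e := h.2.2 (fun x => π x * T x) (hπ.mul_memLp hT)
  simp only [mul_left_comm (T _), ← mul_assoc]
  exact e

lemma IsL.re_nonneg (hS : IsPre S) (h : IsL S F F') (h0 : ∀ᵐ x ∂mm, 0 ≤ (F x).re) :
    ∀ᵐ x ∂mm, 0 ≤ (F' x).re := by
  classical
  have hm := h.2.1.1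
  have hA : MeasurableSet {x | (hm.mk F' x).re < 0} :=
    measurableSet_lt (measurable_re.comp hm.stronglyMeasurable_mk.measurable) measurable_const
  obtain ⟨A, hAe⟩ : ∃ A, A = {x | (hm.mk F' x).re < 0} := ⟨_, rfl⟩
  rw [← hAe] at hA
  have hT : MemLp (A.indicator fun _ => (1 : ℂ)) 2 mm := memLp_one.indicator hA
  have e := congrArg re (h.2.2 _ hT)
  have i1 := integrable_mul2 hT h.2.1
  have i2 := integrable_mul2 (hS.memLp hT) h.1
  have r1 := integral_re i1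
  have r2 := integral_re i2
  simp only [RCLike.re_to_complex] at r1 r2
  rw [← r1, ← r2] at e
  have h1 : 0 ≤ ∫ x, (A.indicator (fun _ => (1 : ℂ)) (S x) * F x).re ∂mm := by
    refine integral_nonneg_of_ae ?_
    filter_upwards [h0] with x hx
    by_cases hx' : S x ∈ A
    · simpa [hx'] using hx
    · simp [hx']
  have h2 : ∀ᵐ x ∂mm, 0 ≤ -(A.indicator (fun _ => (1 : ℂ)) x * F' x).re := by
    filter_upwards [hm.ae_eq_mk] with x hx
    by_cases hx' : x ∈ A
    · have : (hm.mk F' x).re < 0 := by rwa [hAe] at hx'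
      rw [← hx] at this
      simpa [hx'] using this.le
    · simp [hx']
  have h3 : ∫ x, -(A.indicator (fun _ => (1 : ℂ)) x * F' x).re ∂mm = 0 := by
    refine le_antisymm ?_ (integral_nonneg_of_ae h2)
    rw [integral_neg, e]
    linarith only [h1]
  rw [integral_eq_zero_iff_of_nonneg_ae h2 i1.re.neg] at h3
  filter_upwards [h3, hm.ae_eq_mk] with x hx hx1
  by_cases hx' : x ∈ A
  · have : (F' x).re = 0 := by simpa [hx'] using hx
    exact this.ge
  · rw [hx1]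
    rw [hAe] at hx'
    exact not_lt.1 hx'

lemma IsL.norm_le (hS : IsPre S) (h : IsL S F F') (h' : IsL S G G')
    (hle : ∀ᵐ x ∂mm, ‖F x‖ ≤ (G x).re) : ∀ᵐ x ∂mm, ‖F' x‖ ≤ (G' x).re := by
  have hn : ∀ x, ‖conj (F' x) / (‖F' x‖ : ℂ)‖ ≤ 1 := fun x => by
    rw [norm_div, norm_conj, norm_real, norm_norm]
    exact div_self_le_one _
  have hπ : Bd fun x => conj (F' x) / (‖F' x‖ : ℂ) := by
    refine ⟨?_, 1, Eventually.of_forall hn⟩
    have m1 : AEMeasurable (fun x => conj (F' x)) mm := (memLp_conj h.2.1).1.aemeasurable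
    have m2 : AEMeasurable (fun x => ‖F' x‖) mm := h.2.1.1.norm.aemeasurable
    have m3 : AEMeasurable (fun x => (‖F' x‖ : ℂ)) mm := measurable_ofReal.comp_aemeasurable m2
    have m4 : AEMeasurable (fun x => conj (F' x) / (‖F' x‖ : ℂ)) mm := m1.div m3
    exact m4.aestronglyMeasurable
  have h1 := (h'.sub hS (h.comp_mul hS hπ)).re_nonneg hS (by
    filter_upwards [hle] with x hx
    have h2 := (re_le_norm (conj (F' (S x)) / (‖F' (S x)‖ : ℂ) * F x)).trans
      (norm_mul_le _ _)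
    have h3 := mul_le_of_le_one_left (norm_nonneg (F x)) (hn (S x))
    rw [sub_re]
    linarith only [hx, h2, h3])
  filter_upwards [h1] with x hx
  have e : conj (F' x) / (‖F' x‖ : ℂ) * F' x = (‖F' x‖ : ℂ) := by
    rw [div_mul_eq_mul_div, conj_mul', sq, mul_self_div_self]
  rw [e, sub_re, ofReal_re] at hx
  linarith

lemma IsL.isH0 (hS : IsSys S) (h : IsL S F F') (hF : IsH0 F) : IsH0 F' := by
  refine ⟨h.2.1, fun j => ?_⟩
  rw [h.2.2 _ (memLp_ee_pow j)]
  have e := integral_mul_eq_zero hF (hS.presH _ (isH_ee_pow j))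
  rw [← e]
  exact integral_congr_ae (Eventually.of_forall fun x => mul_comm _ _)

lemma IsL.bl (hS : IsBdry φ S) (h : IsL S F F') (hF : IsH F) :
    IsH fun x => bl (φ 0) (ee x) * F' x := by
  have ha : ‖φ 0‖ < 1 := hS.norm_lt (by simp)
  obtain ⟨b1, -, b3, b4⟩ := bl_isH ha
  refine ⟨b3.mul_memLp h.2.1, fun j => ?_⟩
  have hT := b1.mul_bd b3 (isH_ee_pow (j + 1))
  have e := h.2.2 _ hT.1
  simp only [mul_left_comm (ee _ ^ (j + 1)), ← mul_assoc]
  rw [e, (hS.isSys.presH _ hT).mean_mul hF, ← ev_zero, hS.ev_comp hT (by simp),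
    ev_mul b1 b3 (isH_ee_pow (j + 1)) ha, b4 _ ha]
  simp [MP_f96e05_an.bl]

end Pool.Agent.Work.MP_f96e05_an
end

-- merged part: Pool.Agent.Work.MP_f96e05_an.FS.X1
section
/-!
Extremal functions.

PLAN. `InN.isL`: test the definition with `conj T`. `InN.isH0`: the image under `L` is in `IsH`, so `0 = ∫ ee * L F = ∫ ee (S x) * F = φ 0 * ∫ F` (`IsH.mean_mul`, `IsBdry.pow`).
`InN.split`: `exists_decomp0`; test with `W = conj g`; the cross terms vanish by `integral_mul_eq_zero`; `inN_of_extremal`; `isLin_N`. (Model: `IsGround.decomp`.)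
`exists_ext`: `r = ‖G ∘ S‖ / ‖G‖`; `IsH.ae_ne_zero`, `InN.pointwise` (real part equal to the norm), `InN.isL` for `‖G‖` and `IsL.re_nonneg` give `r ≤ 2 w`.
`ell_one`: `‖G‖ = μ * conj η (S x) * G` with `η = G / ‖G‖` (`η ∘ S = μ η`), `IsL.comp_mul`. `Ell.isL`: `G χ = conj μ * η (S x) * (‖G‖ χ)`.
-/

set_option autoImplicit false

open MeasureTheory Filter Topology Complex Metric
open scoped ComplexConjugate InnerProductSpace

namespace Pool.Agent.Work.MP_f96e05_an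

variable {φ : ℂ → ℂ} {S : TT → TT} {ω μ p z : ℂ} {w b : ℝ} {F G F' G' u v χ l π : TT → ℂ}
  {r X : TT → ℝ} {σ : ℂ → ℂ}

lemma X1_mu (hμ : ‖μ‖ = 1) : conj μ * μ = 1 := by
  rw [mul_comm, mul_conj, normSq_eq_norm_sq, hμ]; simp

lemma InN.conj' (hF : InN S μ w F) : InN S (conj μ) w fun x => conj (F x) := by
  refine ⟨memLp_conj hF.1, fun G hG => ?_⟩
  have h1 := congrArg (starRingEnd ℂ) (hF.2 _ (memLp_conj hG))
  simp only [map_mul, map_add, ← integral_conj, conj_conj, conj_ofReal, map_ofNat] at h1 ⊢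
  exact h1

lemma InN.isL (hS : IsPre S) (hμ : ‖μ‖ = 1) (hF : InN S μ w F) :
    IsL S F fun x => conj μ * (2 * w * F x - conj μ * F (S x)) := by
  have m1 : MemLp (fun x => 2 * w * F x) 2 mm := hF.1.const_mul _
  have m2 : MemLp (fun x => conj μ * F (S x)) 2 mm := (hS.memLp hF.1).const_mul _
  have m3 : MemLp (fun x => 2 * w * F x - conj μ * F (S x)) 2 mm := m1.sub m2
  refine ⟨hF.1, m3.const_mul _, fun T hT => ?_⟩
  have h1 := hF.2 _ (memLp_conj hT)
  simp only [conj_conj] at h1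
  have e : (fun x => T x * (conj μ * (2 * w * F x - conj μ * F (S x)))) =
      fun x => conj μ * (2 * w) * (T x * F x) - conj μ * conj μ * (T x * F (S x)) := by
    funext x; ring
  rw [e, integral_sub ((integrable_mul2 hT hF.1).const_mul _)
    ((integrable_mul2 hT (hS.memLp hF.1)).const_mul _), integral_const_mul, integral_const_mul]
  linear_combination conj μ * h1 + (∫ x, T (S x) * F x ∂mm) * X1_mu hμ

lemma InN.isH0 (h : IsBdry φ S) (h0 : φ 0 ≠ 0) (hμ : ‖μ‖ = 1) (hF : InN S μ w F) (hH : IsH F) :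
    IsH0 F := by
  have hL := hF.isL h.isPre hμ
  have h1 : IsH fun x => conj μ * (2 * w * F x - conj μ * F (S x)) :=
    ((hH.const_mul _).sub ((h.isSys.presH F hH).const_mul _)).const_mul _
  have h2 := h1.2 0
  have h3 := hL.2.2 (fun x => ee x ^ (0 + 1)) (memLp_ee_pow _)
  rw [h2, IsH.mean_mul (h.pow (0 + 1)).1 hH, ← ev_zero, (h.pow (0 + 1)).2 0 (by simp)] at h3
  refine hH.isH0 ?_
  rcases mul_eq_zero.1 h3.symm with h4 | h4
  · exact absurd (by simpa using h4) h0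
  · exact h4

lemma InN.split (h : IsSys S) (hw : ∀ F, MemLp F 2 mm → ‖qq S F F‖ ≤ w * nn F) (hμ : ‖μ‖ = 1)
    (hF : InN S μ w F) (h0 : ∫ x, F x ∂mm = 0) :
    ∃ f g : TT → ℂ, IsH0 f ∧ IsH0 g ∧ InN S μ w f ∧ InN S (conj μ) w g ∧
      ∀ᵐ x ∂mm, F x = f x + conj (g x) := by
  have hS : IsPre S := h.toIsPre
  obtain ⟨f, g, hf, hg', e⟩ := exists_decomp0 hF.1 h0
  have hfN : InN S μ w f := by
    refine inN_of_extremal hS (fun G hG => ?_) hf.1 ?_
    · unfold Bnd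
      refine (re_le_norm _).trans (le_trans (le_of_eq ?_) (hw G hG))
      simp [hμ]
    · have h1 := hF.2 f hf.1
      have z : ∀ {a b : TT → ℂ}, IsH0 a → IsH b → ∫ x, conj (a x) * conj (b x) ∂mm = 0 := by
        intro a b ha hb
        have := congrArg conj (integral_mul_eq_zero ha hb)
        rw [← integral_conj, map_zero] at this
        simpa using this
      have e1 : ∫ x, conj (f x) * F x ∂mm = ∫ x, conj (f x) * f x ∂mm := by
        rw [← add_zero (∫ x, conj (f x) * f x ∂mm), ← z hf hg'.isH,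
          ← integral_add (integrable_mul2 (memLp_conj hf.1) hf.1)
            (integrable_mul2 (memLp_conj hf.1) (memLp_conj hg'.1))]
        refine integral_congr_ae ?_
        filter_upwards [e] with x hx
        rw [hx, mul_add]
      have e2 : ∫ x, conj (f x) * F (S x) ∂mm = ∫ x, conj (f x) * f (S x) ∂mm := by
        rw [← add_zero (∫ x, conj (f x) * f (S x) ∂mm), ← z hf (h.presH _ hg'.isH),
          ← integral_add (integrable_mul2 (memLp_conj hf.1) (hS.memLp hf.1))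
            (integrable_mul2 (memLp_conj hf.1) (memLp_conj (hS.memLp hg'.1)))]
        refine integral_congr_ae ?_
        filter_upwards [hS.ae e] with x hx
        rw [hx, mul_add]
      have e3 : ∫ x, conj (f (S x)) * F x ∂mm = conj (qq S f f) := by
        have z1 := z hg' (h.presH _ hf.isH)
        have z2 : ∫ x, conj (f (S x)) * f x ∂mm = conj (qq S f f) := by
          rw [qq, ← integral_conj]
          refine integral_congr_ae (Eventually.of_forall fun x => ?_)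
          simp [mul_comm]
        rw [← z2, ← add_zero (∫ x, conj (f (S x)) * f x ∂mm), ← z1,
          ← integral_add (integrable_mul2 (memLp_conj (hS.memLp hf.1)) hf.1)
            (integrable_mul2 (memLp_conj hg'.1) (memLp_conj (hS.memLp hf.1)))]
        refine integral_congr_ae ?_
        filter_upwards [e] with x hx
        rw [hx]; ring
      rw [e1, e2, e3, integral_conj_mul_self] at h1
      have h3 := congrArg Complex.re h1
      change _ = (conj μ * qq S f f + _).re at h3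
      simp only [mul_re, mul_im, add_re, conj_re, conj_im, ofReal_re, ofReal_im, re_ofNat,
        im_ofNat] at h3 ⊢
      unfold nn
      linear_combination (-1 / 2) * h3
  refine ⟨f, g, hf, hg', hfN, ?_, e⟩
  refine (isLin_N hS).congr ((isLin_N hS).sub' hF hfN).conj' ?_
  filter_upwards [e] with x hx
  rw [hx]; simp

lemma exists_ext (h : IsBdry φ S) (h0 : φ 0 ≠ 0)
    (hw : ∀ F, MemLp F 2 mm → ‖qq S F F‖ ≤ w * nn F) (hμ : ‖μ‖ = 1) (hG : IsH G)
    (hne : ¬ ∀ᵐ x ∂mm, G x = 0) (hN : InN S μ w G) : ∃ r, Ext φ S w μ G r := by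
  have hS := h.isPre
  have hG0 := hG.ae_ne_zero hne
  obtain ⟨hp, hA⟩ := hN.pointwise hS hw hμ
  have hc : ∀ᵐ x ∂mm, G (S x) = μ * ((‖G (S x)‖ / ‖G x‖ : ℝ) : ℂ) * G x := by
    filter_upwards [hp, hG0] with x hx h1
    have h2 : (conj μ * (conj (G x) * G (S x))).re = ‖conj μ * (conj (G x) * G (S x))‖ := by
      rw [hx]; simp [hμ]
    have h3 := Complex.eq_coe_norm_of_nonneg (Complex.re_eq_norm.1 h2)
    rw [← h2, hx] at h3
    have h4 : (‖G x‖ : ℂ) ≠ 0 := by exact_mod_cast norm_ne_zero_iff.2 h1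
    have h5 : G x * conj (G x) = (‖G x‖ : ℂ) ^ 2 := by
      rw [mul_conj, normSq_eq_norm_sq]; push_cast; rfl
    push_cast at h3 ⊢
    field_simp
    have h6 : (‖G x‖ : ℂ) * (G (S x) * ‖G x‖) = ‖G x‖ * (μ * ‖G (S x)‖ * G x) := by
      linear_combination (μ * G x) * h3 - G (S x) * h5 -
        (G x * conj (G x) * G (S x)) * X1_mu hμ
    exact mul_left_cancel₀ h4 h6
  refine ⟨fun x => ‖G (S x)‖ / ‖G x‖, h, hμ, hN.isH0 h h0 hμ hG, hG0,
    ((hS.memLp hG.1).1.norm.aemeasurable.div hG.1.1.norm.aemeasurable).aestronglyMeasurable,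
    ?_, hc, ?_⟩
  · have h1 := (hA.isL hS (by simp)).re_nonneg hS (Eventually.of_forall fun x => by simp)
    filter_upwards [h1, hG0, hS.ae hG0] with x h2 h3 h4
    have h5 : 0 < ‖G x‖ := norm_pos_iff.2 h3
    refine ⟨div_pos (norm_pos_iff.2 h4) h5, ?_⟩
    rw [div_le_iff₀ h5]
    simp only [map_one, one_mul, sub_re, mul_re, re_ofNat, ofReal_re, im_ofNat, ofReal_im,
      mul_zero, sub_zero, mul_im, zero_mul, add_zero] at h2
    linarith
  · refine (hN.isL hS hμ).congr EventuallyEq.rfl ?_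
    filter_upwards [hc] with x hx
    set ρ : ℂ := ((‖G (S x)‖ / ‖G x‖ : ℝ) : ℂ)
    rw [hx]
    linear_combination (-(conj μ) * ρ * G x) * X1_mu hμ

lemma Ext.w_pos (h : Ext φ S w μ G r) : 0 < w := by
  obtain ⟨x, h1, h2⟩ := h.pos.exists
  linarith

lemma X1_eta (h : Ext φ S w μ G r) : Bd (fun x => G x / ‖G x‖) ∧
    ∀ᵐ x ∂mm, G (S x) / ‖G (S x)‖ = μ * (G x / ‖G x‖) := by
  have hm := h.isH.1.1
  refine ⟨⟨(hm.aemeasurable.div
    (continuous_ofReal.comp_aestronglyMeasurable hm.norm).aemeasurable).aestronglyMeasurable,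
    1, Eventually.of_forall fun x => ?_⟩, ?_⟩
  · rw [norm_div, norm_real, norm_norm]
    exact div_self_le_one _
  · filter_upwards [h.comp, h.pos, h.ne] with x h1 h2 h3
    have h4 : (‖G x‖ : ℂ) ≠ 0 := by exact_mod_cast norm_ne_zero_iff.2 h3
    have h5 : (r x : ℂ) ≠ 0 := by exact_mod_cast h2.1.ne'
    have h6 : ‖G (S x)‖ = r x * ‖G x‖ := by
      rw [h1, norm_mul, norm_mul, h.mu, one_mul, norm_real, Real.norm_of_nonneg h2.1.le]
    rw [h6, h1]
    push_cast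
    field_simp

lemma X1_conj (z : ℂ) (hz : z ≠ 0) : conj (z / ‖z‖) * z = ‖z‖ := by
  have h4 : (‖z‖ : ℂ) ≠ 0 := by exact_mod_cast norm_ne_zero_iff.2 hz
  have h5 : z * conj z = (‖z‖ : ℂ) ^ 2 := by
    rw [mul_conj, normSq_eq_norm_sq]; push_cast; rfl
  rw [map_div₀, conj_ofReal]
  field_simp
  linear_combination h5

lemma Ext.ell_one (h : Ext φ S w μ G r) : Ell S G (fun _ => 1) fun x => 2 * w - r x := by
  obtain ⟨h1, h2⟩ := X1_eta h
  refine ⟨aestronglyMeasurable_const.sub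
    (continuous_ofReal.comp_aestronglyMeasurable h.meas), ?_⟩
  refine (h.lop.comp_mul h.bd.isPre ((bd_const μ).mul h1.conj)).congr ?_ ?_
  · filter_upwards [h2, h.ne] with x h3 h4
    rw [h3, map_mul]
    linear_combination (conj (G x / ‖G x‖) * G x) * X1_mu h.mu + X1_conj _ h4
  · filter_upwards [h.ne] with x h4
    linear_combination (conj (G x / ‖G x‖) * (2 * w - r x) * G x) * X1_mu h.mu +
      (2 * w - r x) * X1_conj _ h4

lemma Ext.exists_ell (h : Ext φ S w μ G r) (hχ : Bd χ) : ∃ l, Ell S G χ l := by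
  have hA : MemLp (fun x => (‖G x‖ : ℂ)) 2 mm := h.isH.1.norm.ofReal
  have h1 : MemLp (fun x => (‖G x‖ : ℂ) * χ x) 2 mm := by
    simpa only [mul_comm] using hχ.mul_memLp hA
  obtain ⟨F', hF'⟩ := h.bd.isPre.exists_isL h1
  refine ⟨fun x => F' x / ‖G x‖,
    (hF'.2.1.1.aemeasurable.div hA.1.aemeasurable).aestronglyMeasurable,
    hF'.congr EventuallyEq.rfl ?_⟩
  filter_upwards [h.ne] with x h3
  have h4 : (‖G x‖ : ℂ) ≠ 0 := by exact_mod_cast norm_ne_zero_iff.2 h3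
  field_simp

lemma Ell.norm_le (hl : Ell S G χ l) (h : Ext φ S w μ G r) {K : ℝ} (hK : ∀ᵐ x ∂mm, ‖χ x‖ ≤ K) :
    ∀ᵐ x ∂mm, ‖l x‖ ≤ K * (2 * w - r x) := by
  have h1 := hl.2.norm_le h.bd.isPre (h.ell_one.2.const_mul K) (by
    filter_upwards [hK] with x hx
    rw [norm_mul, norm_real, norm_norm, mul_one, ← ofReal_mul, ofReal_re, mul_comm K]
    exact mul_le_mul_of_nonneg_left hx (norm_nonneg _))
  filter_upwards [h1, h.ne] with x h2 h3
  have e : (K : ℂ) * (‖G x‖ * (2 * w - r x)) = ((‖G x‖ * (K * (2 * w - r x)) : ℝ) : ℂ) := by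
    push_cast; ring
  rw [e, ofReal_re, norm_mul, norm_real, norm_norm] at h2
  exact le_of_mul_le_mul_left h2 (norm_pos_iff.2 h3)

lemma Ell.bd (hl : Ell S G χ l) (h : Ext φ S w μ G r) (hχ : Bd χ) : Bd l := by
  obtain ⟨K, hK⟩ := hχ.2
  refine ⟨hl.1, K * (2 * w), ?_⟩
  filter_upwards [hl.norm_le h hK, hK, h.pos] with x h1 h2 h3
  exact h1.trans (mul_le_mul_of_nonneg_left (by linarith) ((norm_nonneg _).trans h2))

lemma Ell.re_le (hl : Ell S G χ l) (h : Ext φ S w μ G r) {χ' l' : TT → ℂ} (hl' : Ell S G χ' l')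
    {δ : ℝ} (hle : ∀ᵐ x ∂mm, (χ' x).re - δ ≤ (χ x).re) :
    ∀ᵐ x ∂mm, (l' x).re - δ * (2 * w - r x) ≤ (l x).re := by
  have hS := h.bd.isPre
  have h1 := ((hl.2.sub hS hl'.2).add hS (h.ell_one.2.const_mul δ)).re_nonneg hS (by
    filter_upwards [hle] with x hx
    have e : (‖G x‖ : ℂ) * χ x - ‖G x‖ * χ' x + δ * (‖G x‖ * 1) =
        ‖G x‖ * (χ x - χ' x + δ) := by ring
    rw [e, re_ofReal_mul, add_re, sub_re, ofReal_re]
    exact mul_nonneg (norm_nonneg _) (by linarith))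
  filter_upwards [h1, h.ne] with x h2 h3
  have e : (‖G x‖ : ℂ) * l x - ‖G x‖ * l' x + δ * (‖G x‖ * (2 * w - r x)) =
      ‖G x‖ * (l x - l' x + ((δ * (2 * w - r x) : ℝ) : ℂ)) := by
    push_cast; ring
  rw [e, re_ofReal_mul, add_re, sub_re, ofReal_re] at h2
  have h4 := (mul_nonneg_iff_of_pos_left (norm_pos_iff.2 h3)).1 h2
  linarith

lemma Ell.isL (hl : Ell S G χ l) (h : Ext φ S w μ G r) :
    IsL S (fun x => G x * χ x) fun x => conj μ * (l x * G x) := by
  obtain ⟨h1, h2⟩ := X1_eta h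
  refine (hl.2.comp_mul h.bd.isPre ((bd_const (conj μ)).mul h1)).congr ?_ ?_
  · filter_upwards [h2, h.ne] with x h3 h4
    have h5 : (‖G x‖ : ℂ) ≠ 0 := by exact_mod_cast norm_ne_zero_iff.2 h4
    rw [h3, ← mul_assoc (conj μ), X1_mu h.mu]
    field_simp
  · filter_upwards [h.ne] with x h4
    have h5 : (‖G x‖ : ℂ) ≠ 0 := by exact_mod_cast norm_ne_zero_iff.2 h4
    field_simp

end Pool.Agent.Work.MP_f96e05_an
end

-- merged part: Pool.Agent.Work.MP_f96e05_an.FS.C1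
section
/-!
The module of multipliers.

PLAN. `r G = conj μ * G ∘ S` (`Ext.comp`), so `(2 w - r) G π = 2 w G π - conj μ (G ∘ S) π ∈ IsH` for `Rc π`. `step1`: `π ∘ S` is `Pc` (`Ext.lop`, `IsL.comp_mul`).
`step2`: by `step1`, `χ * G * (bl p * π) ∘ S ∈ IsH`, its image under `L` is `bl p * π * conj μ * l * G` (`Ell.isL`), so `bl a * bl p * π * l * G ∈ IsH` (`IsL.bl`); `π' = sfn * (bl a * bl p * π) ∘ S` is `Pc`
with image `0` under `L`. `bezout`: `Y = G * conj (u ∘ S)`, `q = (u - ev u p) / (ee - p)` is `IsH` (`div_sub`) and bounded, `ev u p * Y = G - q (S x) * (1 - conj p * ee (S x)) * (bl p (ee (S x)) * Y)`.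
`hs`: `G (S x) * sfn = χ * ((2 w - r) G) ∘ S - (l G) ∘ S`; `l G = μ * L (G χ) ∈ IsH0` (`IsL.isH0`), `ev` of it by the definition of `IsL` with `T = cau (φ z)`.
-/

set_option autoImplicit false

open MeasureTheory Filter Topology Complex Metric
open scoped ComplexConjugate InnerProductSpace

namespace Pool.Agent.Work.MP_f96e05_an

variable {φ : ℂ → ℂ} {S : TT → TT} {ω μ p z : ℂ} {w b : ℝ} {F G F' G' u v χ l π : TT → ℂ}
  {r X : TT → ℝ} {σ : ℂ → ℂ}

lemma C1_mu (h : Ext φ S w μ G r) : conj μ * μ = 1 := by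
  rw [mul_comm, mul_conj, normSq_eq_norm_sq, h.mu]; simp

lemma C1_bd (h : Ext φ S w μ G r) : Bd fun x => 2 * (w : ℂ) - r x := by
  refine (bd_const _).sub ⟨continuous_ofReal.comp_aestronglyMeasurable h.meas, 2 * w, ?_⟩
  filter_upwards [h.pos] with x hx
  rw [norm_real, Real.norm_eq_abs, abs_of_pos hx.1]
  exact hx.2

lemma C1_eq (h : Ext φ S w μ G r) :
    ∀ᵐ x ∂mm, 2 * w * G x - conj μ * G (S x) = (2 * w - r x) * G x := by
  filter_upwards [h.comp] with x hx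
  rw [hx]
  linear_combination (-(r x * G x)) * C1_mu h

lemma C1_two (h : Ext φ S w μ G r) (hπ : Rc S G π) : IsH fun x => (2 * w - r x) * G x * π x := by
  refine ((hπ.2.1.const_mul (2 * w)).sub (hπ.2.2.const_mul (conj μ))).congr ?_
  filter_upwards [C1_eq h] with x hx
  rw [← hx]; ring

lemma C1_ev_const_mul (c : ℂ) (F : TT → ℂ) (z : ℂ) : ev (fun x => c * F x) z = c * ev F z := by
  unfold ev
  rw [← integral_const_mul]
  refine integral_congr_ae (Eventually.of_forall fun x => ?_)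
  simp only; ring

lemma C1_of_eq (hF : IsH F) (e : ∀ x, F x = G x) : IsH G := hF.congr (Eventually.of_forall e)

lemma PP.step1 (hP : PP S G p) (h : Ext φ S w μ G r) (hπ : Rc S G π) :
    Rc S G fun x => bl p (ee (S x)) * π (S x) := by
  have hS := h.bd.isPre
  obtain ⟨b1, -, b2, -⟩ := bl_isH hP.1
  refine ⟨((b2.mul hπ.1).comp hS :), ?_, ?_⟩
  · have h1 : Pc S G fun x => π (S x) := by
      refine ⟨hπ.1.comp hS, (h.bd.isSys.presH _ hπ.2.1 :), _,
        (h.lop.comp_mul hS hπ.1).congr (Eventually.of_forall fun x => mul_comm _ _)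
          (Eventually.of_forall fun _ => rfl), ?_⟩
      exact C1_of_eq ((C1_two h hπ).const_mul (conj μ)) fun x => by ring
    exact C1_of_eq (hP.2 _ h1) fun x => by ring
  · exact C1_of_eq (h.bd.isSys.presH _ (b1.mul_bd b2 hπ.2.1)) fun x => by ring

lemma sfn_bd (h : Ext φ S w μ G r) (hχ : Bd χ) (hl : Ell S G χ l) : Bd (sfn S w r χ l) := by
  exact (hχ.mul ((C1_bd h).comp h.bd.isPre)).sub ((hl.bd h hχ).comp h.bd.isPre)

lemma PP.step2 (hP : PP S G p) (h : Ext φ S w μ G r) (hχ : IsH χ) (hb : Bd χ) (hl : Ell S G χ l)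
    (hπ : Rc S G π) : Rc S G fun x =>
      sfn S w r χ l x * (bl p (ee (S x)) ^ 2 * bl (φ 0) (ee (S x)) * π (S x)) := by
  have hS := h.bd.isPre
  have hsys := h.bd.isSys
  obtain ⟨b1, -, b2, -⟩ := bl_isH hP.1
  obtain ⟨a1, -, a2, -⟩ := bl_isH (h.bd.norm_lt (z := 0) (by simp))
  have hlb := hl.bd h hb
  have hρ : Bd fun x => bl (φ 0) (ee x) * (bl p (ee x) * π x) := a2.mul (b2.mul hπ.1)
  have hs := sfn_bd h hb hl
  have h1 := hP.step1 h hπ
  have h2 : IsH fun x => bl p (ee (S x)) * π (S x) * (G x * χ x) :=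
    C1_of_eq (hχ.mul_bd hb h1.2.1) fun x => by ring
  have h3 := ((hl.isL h).comp_mul hS (b2.mul hπ.1)).bl h.bd h2
  have h4 : IsH fun x => l x * G x * (bl (φ 0) (ee x) * (bl p (ee x) * π x)) :=
    C1_of_eq (h3.const_mul μ) fun x => by
      linear_combination (l x * G x * (bl (φ 0) (ee x) * (bl p (ee x) * π x))) * C1_mu h
  have h5 := a1.mul_bd a2 (b1.mul_bd b2 (C1_two h hπ))
  have h6 : IsH fun x => G (S x) *
      (sfn S w r χ l x * (bl (φ 0) (ee (S x)) * (bl p (ee (S x)) * π (S x)))) :=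
    C1_of_eq ((hχ.mul_bd hb (hsys.presH _ h5)).sub (hsys.presH _ h4)) fun x => by
      unfold sfn; ring
  have h7 : IsL S (fun x => G x *
      (sfn S w r χ l x * (bl (φ 0) (ee (S x)) * (bl p (ee (S x)) * π (S x))))) fun _ => 0 := by
    refine (((hl.isL h).comp_mul hS ((C1_bd h).mul hρ)).sub hS
      (h.lop.comp_mul hS (hlb.mul hρ))).congr (Eventually.of_forall fun x => ?_)
        (Eventually.of_forall fun x => ?_)
    · simp only [sfn]; ring
    · simp only; ring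
  have h8 := hP.2 _ ⟨hs.mul (hρ.comp hS), h6, _, h7, isH_const 0⟩
  refine ⟨?_, C1_of_eq h8 fun x => by ring,
    C1_of_eq ((hsys.presH _ b1).mul_bd (b2.comp hS) h6) fun x => by ring⟩
  have h9 := hs.mul ((b2.mul hρ).comp hS)
  convert h9 using 2 with x
  ring

lemma PP.bezout (hP : PP S G p) (h : Ext φ S w μ G r) (hu : IsH u) (h1 : ∀ᵐ x ∂mm, ‖u x‖ = 1)
    (h0 : ev u p ≠ 0) (hπ : Rc S G fun x => conj (u x)) : Rc S G fun x => conj (u (S x)) := by
  have hS := h.bd.isPre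
  have hsys := h.bd.isSys
  have hp := hP.1
  refine ⟨(hπ.1.comp hS :), ?_, (hsys.presH _ hπ.2.1 :)⟩
  have h2 := (hP.step1 h hπ).2.1
  have h3 : IsH fun x => u x - ev u p := hu.sub (isH_const _)
  have h4 : IsH fun x => (u x - ev u p) / (ee x - p) :=
    h3.div_sub hp (by rw [ev_sub hu.1 (memLp_const _) hp, ev_const _ hp, sub_self])
  have h5 : Bd fun x => (u x - ev u p) / (ee x - p) := by
    refine ⟨h4.1.1, (1 + ‖ev u p‖) / (1 - ‖p‖), ?_⟩
    filter_upwards [h1] with x hx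
    rw [norm_div]
    have e1 := norm_sub_le (u x) (ev u p)
    have e2 := norm_sub_norm_le (ee x) p
    rw [ee_norm] at e2
    rw [hx] at e1
    exact div_le_div₀ (by positivity) e1 (by linarith) e2
  have h6 : IsH fun x => 1 - conj p * ee x :=
    (isH_const 1).sub (C1_of_eq ((isH_ee_pow 1).const_mul (conj p)) fun x => by rw [pow_one])
  have h7 : Bd fun x => 1 - conj p * ee x :=
    (bd_const 1).sub ((bd_const _).mul ⟨ee_cont.aestronglyMeasurable, 1,
      Eventually.of_forall fun x => (ee_norm x).le⟩)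
  have h8 := (hsys.presH _ (h4.mul_bd h5 h6)).mul_bd ((h5.mul h7).comp hS) h2
  refine ((h.isH.isH.sub h8).const_mul (ev u p)⁻¹).congr ?_
  filter_upwards [hS.ae h1] with x hx
  have e1 : u (S x) * conj (u (S x)) = 1 := by
    rw [mul_conj, normSq_eq_norm_sq, hx]; simp
  have e2 := ee_sub_ne hp (S x)
  have e3 : 1 - conj p * ee (S x) ≠ 0 := by
    intro e
    have e4 : ‖conj p * ee (S x)‖ = ‖(1 : ℂ)‖ := by rw [sub_eq_zero.1 e]
    rw [norm_mul, ee_norm, norm_one, mul_one, RCLike.norm_conj] at e4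
    exact hp.ne e4
  have e4 : (u (S x) - ev u p) / (ee (S x) - p) * (1 - conj p * ee (S x)) *
      (G x * (bl p (ee (S x)) * conj (u (S x)))) =
      (u (S x) - ev u p) * (G x * conj (u (S x))) := by
    unfold bl
    generalize 1 - conj p * ee (S x) = d at e3
    field_simp
  rw [e4, inv_mul_eq_iff_eq_mul₀ h0]
  linear_combination (-G x) * e1

lemma Ext.hs (h : Ext φ S w μ G r) (hχ : IsH χ) (hb : Bd χ) (hl : Ell S G χ l) :
    IsH (fun x => G (S x) * sfn S w r χ l x) ∧ ∀ z : ℂ, ‖z‖ < 1 →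
      ev (fun x => G (S x) * sfn S w r χ l x) z =
        ev χ z * (2 * w * ev G (φ z) - conj μ * ev G (φ (φ z))) -
          μ * ∫ x, cau (φ z) (S x) * (G x * χ x) ∂mm := by
  have hS := h.bd.isPre
  have hsys := h.bd.isSys
  have hG := h.isH.isH
  have h1 : IsH fun x => 2 * w * G x - conj μ * G (S x) :=
    (hG.const_mul _).sub ((hsys.presH _ hG).const_mul _)
  have h2 : IsH fun x => (2 * w - r x) * G x := h1.congr (C1_eq h)
  have h3 := hl.isL h
  obtain ⟨K, hK⟩ := hb.2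
  have h4 : IsH0 fun x => G x * χ x :=
    (hχ.mul0 hK h.isH).congr (Eventually.of_forall fun x => mul_comm _ _)
  have h5 := (h3.isH0 hsys h4).isH
  have h6 := hχ.mul_bd hb (hsys.presH _ h2)
  have h7 := hsys.presH _ (h5.const_mul μ)
  have e : ∀ x, χ x * ((2 * w - r (S x)) * G (S x)) - μ * (conj μ * (l (S x) * G (S x))) =
      G (S x) * sfn S w r χ l x := fun x => by
    unfold sfn
    linear_combination (-(l (S x) * G (S x))) * C1_mu h
  refine ⟨C1_of_eq (h6.sub h7) e, fun z hz => ?_⟩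
  have hz' := h.bd.norm_lt hz
  rw [← ev_congr (Eventually.of_forall e), ev_sub h6.1 h7.1 hz,
    ev_mul hχ hb (hsys.presH _ h2) hz, h.bd.ev_comp h2 hz, h.bd.ev_comp (h5.const_mul μ) hz,
    C1_ev_const_mul, ← ev_congr (C1_eq h),
    ev_sub (hG.const_mul _).1 ((hsys.presH _ hG).const_mul _).1 hz', C1_ev_const_mul,
    C1_ev_const_mul, h.bd.ev_comp hG hz', ← h3.2.2 _ (memLp_cont (cau_cont hz'))]
  rfl

end Pool.Agent.Work.MP_f96e05_an
end

-- merged part: Pool.Agent.Work.MP_f96e05_an.FS.T3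
section
/-!
The Cayley transform.

PLAN. `cay_im`, `XX_eq`, `ae_ne` are in file Parab. `cay ω z + I = 2 * I * ω / (ω - z)`. `jul_of`: `julia` with `α = 1`, `‖1 - conj ω * z‖ = ‖ω - z‖`.
`isH_XX`, `isH_psi`: `bdd_boundary` for `Φ ∘ cay ω` and `Φ ∘ psi φ ω b` (imaginary parts are nonnegative; radial limits exist where `ee x ≠ ω` and `ee (S x) ≠ ω`, `IsPre.ae`).
`hb_exp`, `hb_inv`: `‖1 - I * (ε * u)‖ ≥ re = 1 + ε * u.im ≥ 1`. `geom`: `‖(u' ± I) / (u ± I) - 1‖ ≤ B / (u.im - 1)`, `‖u' - conj u‖ ≤ 2 * u.im + B`.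
-/

set_option autoImplicit false

open MeasureTheory Filter Topology Complex Metric
open scoped ComplexConjugate InnerProductSpace

namespace Pool.Agent.Work.MP_f96e05_an

variable {φ : ℂ → ℂ} {S : TT → TT} {ω μ p z : ℂ} {w b : ℝ} {F G F' G' u v χ l π : TT → ℂ}
  {r X : TT → ℝ} {σ : ℂ → ℂ}

lemma T3_ne (hω : ‖ω‖ = 1) (hz : ‖z‖ < 1) : ω - z ≠ 0 := by
  intro h
  rw [← sub_eq_zero.1 h, hω] at hz
  exact lt_irrefl _ hz

lemma T3_om (hω : ‖ω‖ = 1) : ω ≠ 0 := norm_ne_zero_iff.1 (by rw [hω]; exact one_ne_zero)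

lemma T3_conj (hω : ‖ω‖ = 1) : ω * conj ω = 1 := by
  rw [Complex.mul_conj', hω]
  simp

lemma T3_geI (u : ℂ) : u.im + 1 ≤ ‖u + I‖ ∧ u.im - 1 ≤ ‖u - I‖ :=
  ⟨by simpa using im_le_norm (u + I), by simpa using im_le_norm (u - I)⟩

lemma T3_addI {u : ℂ} (hu : 0 < u.im) : u + I ≠ 0 :=
  norm_pos_iff.1 (by linarith [(T3_geI u).1])

lemma T3_add (h : ω - z ≠ 0) : cay ω z + I = 2 * I * ω / (ω - z) := by
  unfold cay
  field_simp
  ring

lemma T3_sub (h : ω - z ≠ 0) : cay ω z - I = 2 * I * z / (ω - z) := by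
  unfold cay
  field_simp
  ring

lemma T3_norm (hω : ‖ω‖ = 1) (hz : ‖z‖ < 1) : ‖cay ω z + I‖ = 2 / ‖ω - z‖ := by
  rw [T3_add (T3_ne hω hz)]
  simp [hω]
lemma cay_pos (hω : ‖ω‖ = 1) (hz : ‖z‖ < 1) : 0 < (cay ω z).im := by
  rw [cay, cay_im hω]
  exact div_pos (by linarith only [hz, norm_nonneg z, mul_nonneg_of_nonpos_of_nonpos (le_of_lt (Mathlib.Tactic.Linarith.sub_neg_of_lt hz)) (Mathlib.Tactic.Linarith.sub_nonpos_of_le (norm_nonneg z))]) (pow_pos (norm_pos_iff.2 (T3_ne hω hz)) 2)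

lemma icay_lt (hω : ‖ω‖ = 1) {u : ℂ} (hu : 0 < u.im) : ‖icay ω u‖ < 1 := by
  rw [icay, norm_div, norm_mul, hω, one_mul, div_lt_one (norm_pos_iff.2 (T3_addI hu))]
  refine lt_of_pow_lt_pow_left₀ 2 (norm_nonneg _) ?_
  rw [Complex.sq_norm, Complex.sq_norm, normSq_apply, normSq_apply]
  simp only [sub_re, I_re, sub_im, I_im, add_re, add_im]
  linarith only [hu]

lemma cay_icay (hω : ‖ω‖ = 1) {u : ℂ} (hu : 0 < u.im) : cay ω (icay ω u) = u := by
  have h1 := T3_addI hu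
  have h2 := T3_om hω
  have e1 : ω - icay ω u = 2 * I * ω / (u + I) := by
    unfold icay
    field_simp
    ring
  have e2 : ω + icay ω u = 2 * u * ω / (u + I) := by
    unfold icay
    field_simp
    ring
  rw [cay, e1, e2]
  field_simp

lemma icay_cay (hω : ‖ω‖ = 1) (hz : ‖z‖ < 1) : icay ω (cay ω z) = z := by
  have h1 := T3_ne hω hz
  have h2 := T3_om hω
  rw [icay, T3_add h1, T3_sub h1]
  field_simp

lemma cay_diff (hω : ‖ω‖ = 1) : DifferentiableOn ℂ (cay ω) (ball 0 1) := by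
  exact DifferentiableOn.div (by fun_prop) (by fun_prop) fun z hz =>
    T3_ne hω (mem_ball_zero_iff.1 hz)

lemma icay_diff (ω : ℂ) : DifferentiableOn ℂ (icay ω) {u | 0 < u.im} := by
  exact DifferentiableOn.div (by fun_prop) (by fun_prop) fun u hu => T3_addI hu

lemma one_sub_normsq (hω : ‖ω‖ = 1) (hz : ‖z‖ < 1) :
    1 - ‖z‖ ^ 2 = 4 * (cay ω z).im / ‖cay ω z + I‖ ^ 2 := by
  have h1 := norm_ne_zero_iff.2 (T3_ne hω hz)
  rw [T3_norm hω hz, cay, cay_im hω]
  field_simp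
  ring

lemma one_sub_normsq_le (hω : ‖ω‖ = 1) (hz : ‖z‖ < 1) : 1 - ‖z‖ ^ 2 ≤ 4 / (cay ω z).im := by
  have h1 := cay_pos hω hz
  have h2 := (T3_geI (cay ω z)).1
  rw [one_sub_normsq hω hz, div_le_div_iff₀ (pow_pos (by linarith) 2) h1]
  linarith only [h1, h2, mul_nonneg_of_nonpos_of_nonpos (le_of_lt (Mathlib.Tactic.Linarith.sub_neg_of_lt h1)) (Mathlib.Tactic.Linarith.sub_nonpos_of_le h2), mul_nonneg_of_nonpos_of_nonpos (Mathlib.Tactic.Linarith.sub_nonpos_of_le h2) (Mathlib.Tactic.Linarith.sub_nonpos_of_le h2)]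

lemma ker_eq (hω : ‖ω‖ = 1) (hz : ‖z‖ < 1) {z' : ℂ} (hz' : ‖z'‖ < 1) :
    (1 - ‖z‖ ^ 2) / ‖1 - conj z * z'‖ = 2 * (cay ω z).im * ‖cay ω z' + I‖ /
      (‖cay ω z + I‖ * ‖cay ω z' - conj (cay ω z)‖) := by
  have h1 := T3_ne hω hz
  have h2 := T3_ne hω hz'
  have h3 : conj ω - conj z ≠ 0 := by
    rw [← map_sub]
    exact (map_ne_zero _).2 h1
  have h4 := norm_ne_zero_iff.2 (den_ne hz hz')
  have e : cay ω z' - conj (cay ω z) =
      2 * I * (1 - conj z * z') / ((ω - z') * conj (ω - z)) := by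
    simp only [cay, map_div₀, map_mul, map_add, map_sub, conj_I]
    field_simp
    linear_combination 2 * T3_conj hω
  have h5 := norm_ne_zero_iff.2 h1
  have h6 := norm_ne_zero_iff.2 h2
  rw [e, T3_norm hω hz, T3_norm hω hz', cay, cay_im hω, norm_div, norm_mul, norm_mul, norm_mul,
    Complex.norm_conj, norm_I, Complex.norm_ofNat]
  field_simp

lemma jul_of (h : IsBdry φ S) (hω : ‖ω‖ = 1)
    (hα : Tendsto (fun r : ℝ => (φ (r * ω) - ω) / (r * ω - ω)) (𝓝[<] 1) (𝓝 1)) : Jul φ ω := by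
  intro z hz
  have e : ∀ v : ℂ, ‖1 - conj ω * v‖ = ‖ω - v‖ := fun v => by
    rw [show ω - v = ω * (1 - conj ω * v) by linear_combination v * T3_conj hω, norm_mul, hω,
      one_mul]
  have := julia h.diff h.maps hω (α := 1) (by simpa using hα) hz
  rw [one_mul, e, e] at this
  rw [cay, cay, cay_im hω, cay_im hω]
  exact this

lemma T3_rad (x : TT) : Tendsto (fun n => (rr n : ℂ) * ee x) atTop (𝓝 (ee x)) := by
  simpa using ((continuous_ofReal.tendsto 1).comp rr_tendsto).mul_const (ee x)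

lemma T3_lim (hω : ‖ω‖ = 1) {x : TT} (hx : ee x ≠ ω) {f : ℕ → ℂ} (hf : Tendsto f atTop (𝓝 (ee x))) :
    Tendsto (fun n => cay ω (f n)) atTop (𝓝 (XX ω x)) := by
  rw [XX_eq hω]
  exact ((hf.const_add ω).const_mul I).div (hf.const_sub ω) (sub_ne_zero.2 hx.symm)
lemma isH_XX (hω : ‖ω‖ = 1) {Φ : ℂ → ℂ} (hΦ : HB Φ) : IsH (fun x => Φ (XX ω x)) ∧
    ∀ z : ℂ, ‖z‖ < 1 → ev (fun x => Φ (XX ω x)) z = Φ (cay ω z) := by
  obtain ⟨hd, K, hK⟩ := hΦ
  refine bdd_boundary (g := fun z => Φ (cay ω z)) (K := K) (fun z hz => ?_)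
    (fun z hz => hK _ (cay_pos hω (mem_ball_zero_iff.1 hz)).le) ?_
  · exact (hd _ (cay_pos hω (mem_ball_zero_iff.1 hz)).le).comp_differentiableWithinAt z
      (cay_diff hω z hz)
  · filter_upwards [ae_ne ω] with x hx
    exact (hd _ (ofReal_im _).ge).continuousAt.tendsto.comp (T3_lim hω hx (T3_rad x))

lemma isH_psi (h : IsBdry φ S) (hω : ‖ω‖ = 1) (hJ : Jul φ ω) (b : ℝ) {Φ : ℂ → ℂ} (hΦ : HB Φ) :
    IsH (fun x => Φ (psiB S ω b x)) ∧
      ∀ z : ℂ, ‖z‖ < 1 → ev (fun x => Φ (psiB S ω b x)) z = Φ (psi φ ω b z) := by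
  obtain ⟨hd, K, hK⟩ := hΦ
  have him : ∀ z ∈ ball (0 : ℂ) 1, 0 ≤ (psi φ ω b z).im := fun z hz => by
    have := hJ z (mem_ball_zero_iff.1 hz)
    simp only [psi, sub_im, ofReal_im]
    linarith
  have hpd : DifferentiableOn ℂ (psi φ ω b) (ball 0 1) :=
    (((cay_diff hω).comp h.diff h.maps).sub (cay_diff hω)).sub_const _
  refine bdd_boundary (g := fun z => Φ (psi φ ω b z)) (K := K)
    (fun z hz => (hd _ (him z hz)).comp_differentiableWithinAt z (hpd z hz))
    (fun z hz => hK _ (him z hz)) ?_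
  filter_upwards [ae_ne ω, h.isPre.ae (ae_ne ω), h.lim] with x h1 h2 h3
  refine (hd _ (ofReal_im _).ge).continuousAt.tendsto.comp ?_
  simp only [psiB, ofReal_sub]
  exact ((T3_lim hω h2 h3).sub (T3_lim hω h1 (T3_rad x))).sub_const _

lemma hb_exp {t : ℝ} (ht : 0 ≤ t) : HB fun u => exp (I * (t * u)) := by
  refine ⟨fun u _ => by fun_prop, 1, fun u hu => ?_⟩
  rw [Complex.norm_exp, Real.exp_le_one_iff]
  simpa using mul_nonneg ht hu

lemma hb_inv {ε : ℝ} (hε : 0 ≤ ε) (n : ℕ) : HB fun u => (1 / (1 - I * (ε * u))) ^ n := by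
  have key : ∀ u : ℂ, 0 ≤ u.im → 1 ≤ ‖1 - I * (ε * u)‖ := fun u hu => by
    refine le_trans ?_ (re_le_norm _)
    simpa using mul_nonneg hε hu
  refine ⟨fun u hu => ?_, 1, fun u hu => ?_⟩
  · exact (DifferentiableAt.div (by fun_prop) (by fun_prop)
      (norm_pos_iff.1 (by linarith [key u hu]))).pow n
  · rw [norm_pow, norm_div, norm_one]
    exact pow_le_one₀ (by positivity) (div_le_one_of_le₀ (key u hu) (norm_nonneg _))

lemma uu_norm (X : TT → ℝ) (t : ℝ) (x : TT) : ‖uu X t x‖ = 1 := by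
  simp [uu, Complex.norm_exp]

lemma uu_add (X : TT → ℝ) (s t : ℝ) (x : TT) : uu X (s + t) x = uu X s x * uu X t x := by
  simp only [uu]
  rw [← Complex.exp_add]
  congr 1
  push_cast
  ring

lemma uu_conj (X : TT → ℝ) (t : ℝ) (x : TT) : conj (uu X t x) = uu X (-t) x := by
  simp only [uu]
  rw [← Complex.exp_conj]
  simp

lemma uu_bd (hX : Measurable X) (t : ℝ) : Bd (uu X t) := by
  have : Measurable (uu X t) := by
    unfold uu
    fun_prop
  exact ⟨this.aestronglyMeasurable, 1, Eventually.of_forall fun x => (uu_norm X t x).le⟩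

lemma geom {η B : ℝ} (hη : 0 < η) : ∃ Y₀ : ℝ, 1 < Y₀ ∧ ∀ u u' : ℂ, Y₀ ≤ u.im → ‖u' - u‖ ≤ B →
    ‖(u' ^ 2 + 1) / (u ^ 2 + 1) - 1‖ ≤ η ∧
      1 - η ≤ 2 * u.im * ‖u' + I‖ / (‖u + I‖ * ‖u' - conj u‖) := by
  obtain ⟨δ, d0, d1, d2⟩ : ∃ δ : ℝ, 0 < δ ∧ 3 * δ ≤ η ∧ δ ≤ 1 / 2 :=
    ⟨min (η / 3) (1 / 2), by positivity, by linarith only [min_le_left (η / 3) (1 / 2)],
      min_le_right _ _⟩
  have hq : 0 ≤ |B| / δ := by positivity
  refine ⟨2 + |B| / δ, by linarith only [d0, d2, hq], fun u u' hu hB => ?_⟩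
  have hy : 2 ≤ u.im := by linarith
  have hb : ‖u' - u‖ ≤ δ * (u.im - 1) := by
    have : |B| / δ ≤ u.im - 1 := by linarith only [d0, d2, hu]
    rw [div_le_iff₀ d0] at this
    linarith [le_abs_self B]
  obtain ⟨g1, g2⟩ := T3_geI u
  have key : ∀ c : ℂ, u.im - 1 ≤ ‖u + c‖ → ‖(u' + c) / (u + c) - 1‖ ≤ δ := fun c hc => by
    have h0 : 0 < ‖u + c‖ := by linarith only [d0, d2, hq, hu, hc]
    rw [div_sub_one (norm_pos_iff.1 h0), add_sub_add_right_eq_sub, norm_div, div_le_iff₀ h0]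
    linarith only [hb, d0, hc, mul_nonneg_of_nonpos_of_nonpos (le_of_lt (Mathlib.Tactic.Linarith.sub_neg_of_lt d0)) (Mathlib.Tactic.Linarith.sub_nonpos_of_le hc)]
  constructor
  · have k1 := key I (by linarith only [d0, d2, g1])
    have k2 := key (-I) (by rwa [← sub_eq_add_neg])
    have e : ∀ v : ℂ, v ^ 2 + 1 = (v + I) * (v + -I) := fun v => by
      linear_combination I_mul_I
    rw [e, e, ← div_mul_div_comm]
    generalize (u' + I) / (u + I) = p at *
    generalize (u' + -I) / (u + -I) = q at *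
    rw [show p * q - 1 = (p - 1) * (q - 1) + (p - 1) + (q - 1) by ring]
    have a1 := norm_add₃_le (a := (p - 1) * (q - 1)) (b := p - 1) (c := q - 1)
    have a2 := mul_le_mul k1 k2 (norm_nonneg _) d0.le
    rw [norm_mul] at a1
    linarith only [d0, d1, k1, k2, a1, a2, hη, d2, mul_nonneg_of_nonpos_of_nonpos (le_of_lt (Mathlib.Tactic.Linarith.sub_neg_of_lt hη)) (Mathlib.Tactic.Linarith.sub_nonpos_of_le d2), mul_nonneg_of_nonpos_of_nonpos (le_of_lt (Mathlib.Tactic.Linarith.sub_neg_of_lt d0)) (Mathlib.Tactic.Linarith.sub_nonpos_of_le d1)]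
  · have e : ‖u - conj u‖ = 2 * u.im := by
      rw [sub_conj, norm_mul, norm_I, mul_one, Complex.norm_real, Real.norm_of_nonneg (by linarith only [d0, d2, hq, hu])]
    have a1 : ‖u' - conj u‖ ≤ 2 * u.im * (1 + δ) := by
      have := norm_sub_le_norm_sub_add_norm_sub u' u (conj u)
      linarith only [d0, hb, e, this, hq, hu, mul_nonneg_of_nonpos_of_nonpos (le_of_lt (Mathlib.Tactic.Linarith.sub_neg_of_lt d0)) (Mathlib.Tactic.Linarith.sub_nonpos_of_le hq), mul_nonneg_of_nonpos_of_nonpos (le_of_lt (Mathlib.Tactic.Linarith.sub_neg_of_lt d0)) (Mathlib.Tactic.Linarith.sub_nonpos_of_le hu)]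
    have a2 : 0 < ‖u' - conj u‖ := by
      have := norm_sub_le_norm_sub_add_norm_sub u u' (conj u)
      rw [norm_sub_rev u u'] at this
      linarith only [d2, hq, hu, hb, e, this, d0, mul_pos_of_neg_of_neg (Mathlib.Tactic.Linarith.sub_neg_of_lt d0) (Mathlib.Tactic.Linarith.sub_neg_of_lt d0), mul_nonneg_of_nonpos_of_nonpos (le_of_lt (Mathlib.Tactic.Linarith.sub_neg_of_lt d0)) (Mathlib.Tactic.Linarith.sub_nonpos_of_le d2), mul_nonneg_of_nonpos_of_nonpos (Mathlib.Tactic.Linarith.sub_nonpos_of_le d2) (Mathlib.Tactic.Linarith.sub_nonpos_of_le hq), mul_nonneg_of_nonpos_of_nonpos (Mathlib.Tactic.Linarith.sub_nonpos_of_le d2) (Mathlib.Tactic.Linarith.sub_nonpos_of_le hu)]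
    have a3 : (1 - δ) * ‖u + I‖ ≤ ‖u' + I‖ := by
      have := norm_sub_norm_le (u + I) (u' + I)
      rw [add_sub_add_right_eq_sub, norm_sub_rev] at this
      linarith only [hb, this, d0, d2, g1, mul_pos_of_neg_of_neg (Mathlib.Tactic.Linarith.sub_neg_of_lt d0) (Mathlib.Tactic.Linarith.sub_neg_of_lt d0), mul_nonneg_of_nonpos_of_nonpos (le_of_lt (Mathlib.Tactic.Linarith.sub_neg_of_lt d0)) (Mathlib.Tactic.Linarith.sub_nonpos_of_le d2), mul_nonneg_of_nonpos_of_nonpos (le_of_lt (Mathlib.Tactic.Linarith.sub_neg_of_lt d0)) (Mathlib.Tactic.Linarith.sub_nonpos_of_le g1)]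
    have a4 : 0 < ‖u + I‖ := by linarith only [d0, d2, hq, hu, g1]
    rw [le_div_iff₀ (mul_pos a4 a2)]
    calc (1 - η) * (‖u + I‖ * ‖u' - conj u‖) ≤ (1 - 2 * δ) * (‖u + I‖ * ‖u' - conj u‖) :=
          mul_le_mul_of_nonneg_right (by linarith only [d0, d1]) (mul_pos a4 a2).le
      _ ≤ (1 - 2 * δ) * (‖u + I‖ * (2 * u.im * (1 + δ))) :=
          mul_le_mul_of_nonneg_left (mul_le_mul_of_nonneg_left a1 a4.le) (by linarith only [d2])
      _ = 2 * u.im * ((1 - 2 * δ) * (1 + δ) * ‖u + I‖) := by ring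
      _ ≤ 2 * u.im * ((1 - δ) * ‖u + I‖) :=
          mul_le_mul_of_nonneg_left (mul_le_mul_of_nonneg_right (by linarith only [d0, mul_pos_of_neg_of_neg (Mathlib.Tactic.Linarith.sub_neg_of_lt d0) (Mathlib.Tactic.Linarith.sub_neg_of_lt d0)]) a4.le) (by linarith only [d0, d2, hq, hu])
      _ ≤ _ := mul_le_mul_of_nonneg_left a3 (by linarith only [d0, d2, hq, hu])

end Pool.Agent.Work.MP_f96e05_an
end

-- merged part: Pool.Agent.Work.MP_f96e05_an.FS.K1
section
/-!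
The test multiplier which vanishes at the other preimages.

PLAN. `ξ = XX ω x`, `ξ₁ = XX ω (S x)`, `ν = 1 / (1 - I * psiB)` (`isH_psi`, `hb_inv` with `ε = 1`), `c = cay ω z`, `c₁ = cay ω (φ z)`. `χ = ν * (ξ₁ - c₁) / (ξ - c) = ν + N / (ξ - c)` with
`N = ν * (psiB - psi z) = -I * (ν - 1) - psi z * ν`, `ev N z = 0`, `‖N‖ ≤ 1 + ‖psi z‖`, `‖ξ - c‖ ≥ c.im`; `1 / (ξ - c) = (ω - ee) (ω - z) / (2 I ω (ee - z))` (`XX_eq`), `IsH.div_sub`.
For the integral: a.e. `cau (φ z) (S x) * χ = cau z x * (conj (ee x) * ee (S x) * ν₁) * ((c₁ + I) / (c + I))` with `ν₁ = ν * (ξ₁ + I) / (ξ + I) = ν + (-I * (ν - 1) + b * ν) * ((ω - ee) / (2 I ω))`,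
bounded, `IsH`, `ev ν₁ z = ν z * (c₁ + I) / (c + I)`; `isH_shift`, `z * ev (conj ee * G) z = ev G z` (`ev_mul`), `z = icay ω c`, `φ z = icay ω c₁`.
-/

set_option autoImplicit false

open MeasureTheory Filter Topology Complex Metric
open scoped ComplexConjugate InnerProductSpace

namespace Pool.Agent.Work.MP_f96e05_an

variable {φ : ℂ → ℂ} {S : TT → TT} {ω μ p z : ℂ} {w b : ℝ} {F G F' G' u v χ l π : TT → ℂ}
  {r X : TT → ℝ} {σ : ℂ → ℂ}

lemma K1_one {u : ℂ} (hu : 0 ≤ u.im) : 1 ≤ ‖1 - I * u‖ := by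
  refine le_trans ?_ (re_le_norm _)
  simpa using hu

lemma K1_ne {u : ℂ} (hu : 0 ≤ u.im) : 1 - I * u ≠ 0 :=
  norm_pos_iff.1 (one_pos.trans_le (K1_one hu))

lemma K1_id {u : ℂ} (hu : 0 ≤ u.im) : -I * (1 / (1 - I * u) - 1) = u * (1 / (1 - I * u)) := by
  have := K1_ne hu
  field_simp
  linear_combination (-u) * I_mul_I

lemma K1_le (t : ℝ) : ‖1 / (1 - I * (t : ℂ))‖ ≤ 1 ∧ ‖(t : ℂ) * (1 / (1 - I * (t : ℂ)))‖ ≤ 1 := by
  have h1 : 1 ≤ ‖1 - I * (t : ℂ)‖ := K1_one (by simp)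
  have h2 : ‖(t : ℂ)‖ ≤ ‖1 - I * (t : ℂ)‖ := by
    refine le_trans (le_of_eq ?_) (abs_im_le_norm _)
    simp
  refine ⟨?_, ?_⟩
  · rw [norm_div, norm_one]
    exact div_le_one_of_le₀ h1 (norm_nonneg _)
  · rw [mul_one_div, norm_div]
    exact div_le_one_of_le₀ h2 (norm_nonneg _)

lemma K1_alg1 {e e1 z z1 ω b ν G : ℂ} (h0 : ω ≠ 0) (h1 : ω - e ≠ 0) (h2 : ω - e1 ≠ 0)
    (h3 : ω - z ≠ 0) (h4 : ω - z1 ≠ 0) (h5 : e - z ≠ 0) (h6 : e1 - z1 ≠ 0) (h7 : e ≠ 0) :
    e1 / (e1 - z1) * (G * (ν + (ω - z) / (2 * I * ω) * ((ω - e) *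
      (((I * (ω + e1) / (ω - e1) - I * (ω + e) / (ω - e) - b) * ν -
        (I * (ω + z1) / (ω - z1) - I * (ω + z) / (ω - z) - b) * ν) / (e - z))))) =
      e / (e - z) * (e1 * (ν + 1 / (2 * I * ω) * ((ω - e) *
        ((I * (ω + e1) / (ω - e1) - I * (ω + e) / (ω - e) - b) * ν + b * ν))) * (e⁻¹ * G)) *
          ((ω - z) / (ω - z1)) := by
  field_simp
  ring

lemma K1_alg2 {z z1 ω b ν g : ℂ} (h0 : ω ≠ 0) (h3 : ω - z ≠ 0) (h4 : ω - z1 ≠ 0) (h5 : z ≠ 0) :
    z1 * (ν + 1 / (2 * I * ω) * ((ω - z) *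
      ((cay ω z1 - cay ω z - b) * ν + b * ν))) * g * ((ω - z) / (ω - z1)) =
        z * g * (ν * ((cay ω z1 ^ 2 + 1) / (cay ω z ^ 2 + 1))) := by
  have e : ∀ u : ℂ, u ^ 2 + 1 = (u + I) * (u - I) := fun u => by linear_combination I_mul_I
  rw [e, e, T3_add h3, T3_add h4, T3_sub h3, T3_sub h4]
  unfold cay
  field_simp
  ring

lemma K1_ee : IsH ee ∧ Bd ee ∧ ∀ z : ℂ, ‖z‖ < 1 → ev ee z = z :=
  ⟨dc_isH (g := fun z => z) (Differentiable.diffContOnCl (by fun_prop)),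
    ⟨ee_cont.aestronglyMeasurable, 1, Eventually.of_forall fun x => (ee_norm x).le⟩,
    fun _ hz => dc_ev (g := fun z => z) (Differentiable.diffContOnCl (by fun_prop)) hz⟩

lemma K1_cm (c : ℂ) (F : TT → ℂ) (z : ℂ) : ev (fun x => c * F x) z = c * ev F z := by
  rw [ev, ev, ← integral_const_mul]
  simp only [mul_left_comm]

lemma exists_chi (h : IsBdry φ S) (hω : ‖ω‖ = 1) (hJ : Jul φ ω) (b : ℝ) (hz : ‖z‖ < 1)
    (hz0 : z ≠ 0) : ∃ χ : TT → ℂ, IsH χ ∧ Bd χ ∧
      (∀ᵐ x ∂mm, ‖χ x - 1 / (1 - I * psiB S ω b x)‖ ≤ (1 + ‖psi φ ω b z‖) / (cay ω z).im) ∧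
      ∀ G, IsH0 G → ∫ x, cau (φ z) (S x) * (G x * χ x) ∂mm =
        ev G z * (1 / (1 - I * psi φ ω b z) * ((cay ω (φ z) ^ 2 + 1) / (cay ω z ^ 2 + 1))) := by
  have hz1 := h.norm_lt hz
  have h0 := T3_om hω
  have h3 := T3_ne hω hz
  have h4 := T3_ne hω hz1
  have hψ : 0 ≤ (psi φ ω b z).im := by simpa [psi] using hJ z hz
  obtain ⟨ν, hν⟩ : ∃ ν : TT → ℂ, ν = fun x => 1 / (1 - I * psiB S ω b x) := ⟨_, rfl⟩
  have hν' : ∀ x, ν x = 1 / (1 - I * psiB S ω b x) := fun x => by rw [hν]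
  obtain ⟨n1, n2⟩ : IsH ν ∧ ev ν z = 1 / (1 - I * psi φ ω b z) := by
    have k := isH_psi h hω hJ b (hb_inv zero_le_one 1)
    simp only [ofReal_one, one_mul, pow_one] at k
    rw [hν]
    exact ⟨k.1, k.2 z hz⟩
  have n3 : Bd ν := ⟨n1.1.1, 1, Eventually.of_forall fun x => hν' x ▸ (K1_le _).1⟩
  obtain ⟨τ, hτ⟩ : ∃ τ : TT → ℂ, τ = fun x => -I * (ν x - 1) := ⟨_, rfl⟩
  have hτ' : ∀ x, τ x = psiB S ω b x * ν x := fun x => by
    rw [hτ, hν']
    simp only [hν']
    exact K1_id (by simp)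
  have t1 : IsH τ := hτ ▸ (n1.sub (isH_const 1)).const_mul _
  have t2 : ev τ z = psi φ ω b z * ev ν z := by
    rw [hτ, K1_cm, ev_sub n1.1 (isH_const 1).1 hz, ev_const 1 hz, n2]
    exact K1_id hψ
  have t3 : Bd τ := hτ ▸ (bd_const _).mul (n3.sub (bd_const 1))
  have w1 : IsH fun x => ω - ee x := (isH_const ω).sub K1_ee.1
  have w3 : Bd fun x => ω - ee x := (bd_const ω).sub K1_ee.2.1
  have w2 : ev (fun x => ω - ee x) z = ω - z := by
    rw [ev_sub (isH_const ω).1 K1_ee.1.1 hz, ev_const ω hz, K1_ee.2.2 z hz]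
  have N1 : IsH fun x => τ x - psi φ ω b z * ν x := t1.sub (n1.const_mul _)
  have N2 : ev (fun x => τ x - psi φ ω b z * ν x) z = 0 := by
    rw [ev_sub t1.1 (n1.const_mul _).1 hz, K1_cm, t2, sub_self]
  have c1 : IsH fun x => ν x + (ω - z) / (2 * I * ω) *
      ((ω - ee x) * ((τ x - psi φ ω b z * ν x) / (ee x - z))) :=
    n1.add ((w1.mul_bd w3 (N1.div_sub hz N2)).const_mul _)
  have c2 : ∀ᵐ x ∂mm, ‖(ω - z) / (2 * I * ω) *
      ((ω - ee x) * ((τ x - psi φ ω b z * ν x) / (ee x - z)))‖ ≤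
        (1 + ‖psi φ ω b z‖) / (cay ω z).im := by
    filter_upwards [ae_ne ω] with x hx
    have h1 : ω - ee x ≠ 0 := sub_ne_zero.2 hx.symm
    have h5 := ee_sub_ne hz x
    have e1 : (XX ω x : ℂ) - cay ω z = 2 * I * ω * (ee x - z) / ((ω - ee x) * (ω - z)) := by
      rw [XX_eq hω, cay]
      field_simp
      ring
    have e2 : (ω - z) / (2 * I * ω) * ((ω - ee x) * ((τ x - psi φ ω b z * ν x) / (ee x - z))) =
        (τ x - psi φ ω b z * ν x) / ((XX ω x : ℂ) - cay ω z) := by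
      rw [e1]
      field_simp
    rw [e2, norm_div]
    refine div_le_div₀ (by positivity) ((norm_sub_le _ _).trans (add_le_add ?_ ?_))
      (cay_pos hω hz) ?_
    · rw [hτ', hν']
      exact (K1_le _).2
    · rw [norm_mul, hν']
      exact mul_le_of_le_one_right (norm_nonneg _) (K1_le _).1
    · refine le_trans ?_ (abs_im_le_norm _)
      rw [sub_im, ofReal_im, zero_sub, abs_neg]
      exact le_abs_self _
  refine ⟨_, c1, ⟨c1.1.1, 1 + (1 + ‖psi φ ω b z‖) / (cay ω z).im, ?_⟩, ?_, fun G hG => ?_⟩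
  · filter_upwards [c2] with x hx
    exact (norm_add_le _ _).trans (add_le_add (hν' x ▸ (K1_le _).1) hx)
  · filter_upwards [c2] with x hx
    rwa [← hν', add_sub_cancel_left]
  · have s1 : IsH fun x => τ x + b * ν x := t1.add (n1.const_mul _)
    have s3 : Bd fun x => τ x + b * ν x := t3.add ((bd_const _).mul n3)
    have s2 : ev (fun x => τ x + b * ν x) z = psi φ ω b z * ev ν z + b * ev ν z := by
      rw [ev_add t1.1 (n1.const_mul _).1 hz, K1_cm, t2]
    have q1 := (w1.mul_bd w3 s1).const_mul (1 / (2 * I * ω))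
    have m1 : IsH fun x => ν x + 1 / (2 * I * ω) * ((ω - ee x) * (τ x + b * ν x)) := n1.add q1
    have m3 : Bd fun x => ν x + 1 / (2 * I * ω) * ((ω - ee x) * (τ x + b * ν x)) :=
      n3.add ((bd_const _).mul (w3.mul s3))
    have m2 : ev (fun x => ν x + 1 / (2 * I * ω) * ((ω - ee x) * (τ x + b * ν x))) z =
        ev ν z + 1 / (2 * I * ω) * ((ω - z) * (psi φ ω b z * ev ν z + b * ev ν z)) := by
      rw [ev_add n1.1 q1.1 hz, K1_cm, ev_mul w1 w3 s1 hz, w2, s2]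
    obtain ⟨a1, a2⟩ : IsH (fun x => ee (S x)) ∧ ev (fun x => ee (S x)) z = φ z := by
      have k := h.pow 1
      simp only [pow_one] at k
      exact ⟨k.1, k.2 z hz⟩
    have a3 : Bd fun x => ee (S x) := K1_ee.2.1.comp h.isPre
    have g1 := isH_shift hG
    have g2 : ev G z = z * ev (fun x => conj (ee x) * G x) z := by
      have k := ev_mul K1_ee.1 K1_ee.2.1 g1 hz
      simp only [← mul_assoc, ee_mul_conj, one_mul] at k
      rwa [K1_ee.2.2 z hz] at k
    have k := ev_mul (a1.mul_bd a3 m1) (a3.mul m3) g1 hz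
    rw [ev_mul a1 a3 m1 hz, a2, m2] at k
    rw [g2, ← n2, ← K1_alg2 (b := b) h0 h3 h4 hz0]
    refine Eq.trans ?_ (congrArg (· * ((ω - z) / (ω - φ z))) k)
    simp only [ev]
    rw [← integral_mul_const]
    refine integral_congr_ae ?_
    filter_upwards [ae_ne ω, h.isPre.ae (p := fun x => ee x ≠ ω) (ae_ne ω)] with x hx hx'
    have e1 : conj (ee x) = (ee x)⁻¹ := eq_inv_of_mul_eq_one_right (ee_mul_conj x)
    have e2 : (psiB S ω b x : ℂ) = I * (ω + ee (S x)) / (ω - ee (S x)) -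
        I * (ω + ee x) / (ω - ee x) - b := by
      rw [psiB, ofReal_sub, ofReal_sub, XX_eq hω, XX_eq hω]
    rw [e1, hτ', e2]
    exact K1_alg1 h0 (sub_ne_zero.2 hx.symm) (sub_ne_zero.2 hx'.symm) h3 h4 (ee_sub_ne hz x)
      (ee_sub_ne hz1 _) (ee_ne x)

end Pool.Agent.Work.MP_f96e05_an
end

-- merged part: Pool.Agent.Work.MP_f96e05_an.FS.P1
section
/-!
The arithmetic-geometric mean inequality for the ground state, and uniqueness for the recurrence.

PLAN. `ag`: `n = ‖G‖`, `n (S x) = r x * n x`. Test `Ell` with the bounded real function `T j = min (‖W‖ ^ 2 / n) j`: `∫ T j * n * re l = ∫ T j (S x) * n * ‖ν‖ ^ 2`; `0 ≤ re l` (`IsL.re_nonneg`), `l` is bounded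
(`Ell.bd`). Pointwise `r ‖V‖ ^ 2 + T j (S x) n ‖ν‖ ^ 2 ≥ 2 ‖ν‖ ‖V‖ sqrt (n (S x) * T j (S x))`, and `sqrt (n T j)` increases to `‖W‖`; dominated convergence.
`null_seq`: `ag` with `ν = 1` (`ell_one`); put `R k = ∫ r ‖Z k‖ ^ 2`, `L k = ∫ (2 w - r) ‖Z k‖ ^ 2`, `B k = re (conj μ * qq S (Z (k+1)) (Z k))`; `2 B k ≤ R (k+1) + L k`, by induction
`R 0 + L N ≤ B N`; `B N → 0` (`|B N| ≤ w (nn + nn)` again by `ag`). `Sq.zero`: test with `Y = conj (V (k+2+j))` and apply `null_seq`.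
-/

set_option autoImplicit false

open MeasureTheory Filter Topology Complex Metric
open scoped ComplexConjugate InnerProductSpace

namespace Pool.Agent.Work.MP_f96e05_an

variable {φ : ℂ → ℂ} {S : TT → TT} {ω μ p z : ℂ} {w b : ℝ} {F G F' G' u v χ l π : TT → ℂ}
  {r X : TT → ℝ} {σ : ℂ → ℂ}

lemma P1_step (h : Ext φ S w μ G r) {ν V U : TT → ℂ}
    (hl : Ell S G (fun x => ((‖ν x‖ ^ 2 : ℝ) : ℂ)) l) (hV : MemLp V 2 mm) (hU : MemLp U 2 mm)
    {c : ℝ} (hc : ∀ᵐ x ∂mm, ‖U x‖ ≤ c * ‖G x‖) :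
    2 * ∫ x, ‖ν x‖ * (‖V x‖ * ‖U (S x)‖) ∂mm ≤
      ∫ x, r x * ‖V x‖ ^ 2 ∂mm + ∫ x, (l x).re * ‖U x‖ ^ 2 ∂mm := by
  have hS := h.bd.isPre
  have hGm : AEStronglyMeasurable G mm := h.isH.1.1
  set T : TT → ℝ := fun x => ‖U x‖ ^ 2 / ‖G x‖ with hT
  have hTm : AEStronglyMeasurable T mm :=
    ((hU.1.norm.aemeasurable.pow_const 2).div hGm.norm.aemeasurable).aestronglyMeasurable
  have hT2 : MemLp (fun x => (T x : ℂ)) 2 mm := by
    refine MemLp.of_le_mul (c := c) hU (continuous_ofReal.comp_aestronglyMeasurable hTm) ?_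
    filter_upwards [hc, h.ne] with x h1 h2
    have h3 : 0 < ‖G x‖ := norm_pos_iff.2 h2
    rw [norm_real, Real.norm_eq_abs, abs_of_nonneg (by positivity), div_le_iff₀ h3]
    linarith only [h1, norm_nonneg (U x), mul_nonneg_of_nonpos_of_nonpos (Mathlib.Tactic.Linarith.sub_nonpos_of_le h1) (Mathlib.Tactic.Linarith.sub_nonpos_of_le (norm_nonneg (U x)))]
  have key := hl.2.2.2 _ hT2
  have i1 := integrable_mul2 hT2 hl.2.2.1
  have i2 := integrable_mul2 (hS.memLp hT2) hl.2.1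
  have e1 : ∫ x, (l x).re * ‖U x‖ ^ 2 ∂mm = (∫ x, (T x : ℂ) * (‖G x‖ * l x) ∂mm).re := by
    have := integral_re i1
    simp only [RCLike.re_to_complex] at this
    rw [← this]
    refine integral_congr_ae ?_
    filter_upwards [h.ne] with x h2
    have h3 : ‖G x‖ ≠ 0 := norm_ne_zero_iff.2 h2
    rw [re_ofReal_mul, re_ofReal_mul, hT]
    field_simp
  have hrS : ∀ᵐ x ∂mm, ‖G (S x)‖ = r x * ‖G x‖ := by
    filter_upwards [h.comp, h.pos] with x h1 h2
    rw [h1, norm_mul, norm_mul, h.mu, one_mul, norm_real, Real.norm_eq_abs, abs_of_pos h2.1]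
  have e3 : ∀ᵐ x ∂mm, ((T (S x) : ℂ) * (‖G x‖ * ((‖ν x‖ ^ 2 : ℝ) : ℂ))).re =
      ‖U (S x)‖ ^ 2 * ‖ν x‖ ^ 2 / r x := by
    filter_upwards [h.ne, hrS, h.pos] with x h2 h4 h5
    have h3 : ‖G x‖ ≠ 0 := norm_ne_zero_iff.2 h2
    have h6 : r x ≠ 0 := h5.1.ne'
    rw [re_ofReal_mul, re_ofReal_mul, ofReal_re, hT]
    simp only
    rw [h4]
    field_simp
  have i3 : Integrable (fun x => ‖U (S x)‖ ^ 2 * ‖ν x‖ ^ 2 / r x) mm := i2.re.congr e3
  have e2 : (∫ x, (T (S x) : ℂ) * (‖G x‖ * ((‖ν x‖ ^ 2 : ℝ) : ℂ)) ∂mm).re =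
      ∫ x, ‖U (S x)‖ ^ 2 * ‖ν x‖ ^ 2 / r x ∂mm := by
    have := integral_re i2
    simp only [RCLike.re_to_complex] at this
    rw [← this]
    exact integral_congr_ae e3
  have i4 : Integrable (fun x => r x * ‖V x‖ ^ 2) mm := by
    refine (integrable_normsq hV).bdd_mul (c := 2 * w) h.meas ?_
    filter_upwards [h.pos] with x hx
    rw [Real.norm_eq_abs, abs_of_pos hx.1]; exact hx.2
  rw [e1, key, e2, ← integral_add i4 i3, ← integral_const_mul]
  refine integral_mono_of_nonneg (Eventually.of_forall fun x => by positivity) (i4.add i3) ?_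
  filter_upwards [h.pos] with x hx
  have h6 := hx.1
  have h7 : r x * ‖V x‖ ^ 2 + ‖U (S x)‖ ^ 2 * ‖ν x‖ ^ 2 / r x -
      2 * (‖ν x‖ * (‖V x‖ * ‖U (S x)‖)) = (r x * ‖V x‖ - ‖U (S x)‖ * ‖ν x‖) ^ 2 / r x := by
    field_simp; ring
  have h8 : 0 ≤ (r x * ‖V x‖ - ‖U (S x)‖ * ‖ν x‖) ^ 2 / r x := by positivity
  linarith only [h7, h8]

lemma P1_int_r (h : Ext φ S w μ G r) {V : TT → ℂ} (hV : MemLp V 2 mm) :
    Integrable (fun x => r x * ‖V x‖ ^ 2) mm := by
  refine (integrable_normsq hV).bdd_mul (c := 2 * w) h.meas ?_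
  filter_upwards [h.pos] with x hx
  rw [Real.norm_eq_abs, abs_of_pos hx.1]; exact hx.2

lemma P1_sum (h : Ext φ S w μ G r) {V : TT → ℂ} (hV : MemLp V 2 mm) :
    ∫ x, (2 * w - r x) * ‖V x‖ ^ 2 ∂mm = 2 * w * nn V - ∫ x, r x * ‖V x‖ ^ 2 ∂mm := by
  unfold nn
  rw [← integral_const_mul, ← integral_sub ((integrable_normsq hV).const_mul _) (P1_int_r h hV)]
  refine integral_congr_ae (Eventually.of_forall fun x => ?_)
  simp only
  ring

lemma Ext.ag (h : Ext φ S w μ G r) {ν V W : TT → ℂ} (hν : Bd ν)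
    (hl : Ell S G (fun x => ((‖ν x‖ ^ 2 : ℝ) : ℂ)) l) (hV : MemLp V 2 mm) (hW : MemLp W 2 mm) :
    2 * ∫ x, ‖ν x‖ * (‖V x‖ * ‖W (S x)‖) ∂mm ≤
      ∫ x, r x * ‖V x‖ ^ 2 ∂mm + ∫ x, (l x).re * ‖W x‖ ^ 2 ∂mm := by
  have hS := h.bd.isPre
  have hGm : AEStronglyMeasurable G mm := h.isH.1.1
  set U : ℕ → TT → ℝ := fun j x => min ‖W x‖ (j * ‖G x‖) with hU
  have hU0 : ∀ j x, 0 ≤ U j x := fun j x => le_min (norm_nonneg _) (by positivity)
  have hUn : ∀ j x, ‖(U j x : ℂ)‖ = U j x := fun j x => by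
    rw [norm_real, Real.norm_eq_abs, abs_of_nonneg (hU0 j x)]
  have hUm : ∀ j, AEStronglyMeasurable (U j) mm := fun j =>
    (hW.1.norm.aemeasurable.min (hGm.norm.aemeasurable.const_mul _)).aestronglyMeasurable
  have hU2 : ∀ j, MemLp (fun x => (U j x : ℂ)) 2 mm := fun j =>
    MemLp.of_le hW (continuous_ofReal.comp_aestronglyMeasurable (hUm j))
      (Eventually.of_forall fun x => by rw [hUn]; exact min_le_left _ _)
  have hχ : Bd fun x => ((‖ν x‖ ^ 2 : ℝ) : ℂ) := by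
    obtain ⟨hm, K, hK⟩ := hν
    refine ⟨continuous_ofReal.comp_aestronglyMeasurable (hm.norm.pow 2), K ^ 2, ?_⟩
    filter_upwards [hK] with x hx
    rw [norm_real, Real.norm_eq_abs, abs_of_nonneg (by positivity)]
    exact pow_le_pow_left₀ (norm_nonneg _) hx 2
  obtain ⟨hlm, K, hK⟩ := hl.bd h hχ
  have hl0 : ∀ᵐ x ∂mm, 0 ≤ (l x).re := by
    have := hl.2.re_nonneg hS (Eventually.of_forall fun x => by
      rw [re_ofReal_mul, ofReal_re]; positivity)
    filter_upwards [this, h.ne] with x h1 h2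
    rw [re_ofReal_mul] at h1
    exact nonneg_of_mul_nonneg_right h1 (norm_pos_iff.2 h2)
  have il : Integrable (fun x => (l x).re * ‖W x‖ ^ 2) mm := by
    refine (integrable_normsq hW).bdd_mul (c := K)
      (continuous_re.comp_aestronglyMeasurable hlm) ?_
    filter_upwards [hK] with x hx
    exact (abs_re_le_norm _).trans hx
  have step : ∀ j, 2 * ∫ x, ‖ν x‖ * (‖V x‖ * U j (S x)) ∂mm ≤
      ∫ x, r x * ‖V x‖ ^ 2 ∂mm + ∫ x, (l x).re * ‖W x‖ ^ 2 ∂mm := by
    intro j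
    have h1 := P1_step h hl hV (hU2 j) (c := j)
      (Eventually.of_forall fun x => by rw [hUn]; exact min_le_right _ _)
    simp only [hUn] at h1
    refine h1.trans (add_le_add le_rfl ?_)
    refine integral_mono_of_nonneg ?_ il ?_
    · filter_upwards [hl0] with x hx
      exact mul_nonneg hx (sq_nonneg _)
    · filter_upwards [hl0] with x hx
      exact mul_le_mul_of_nonneg_left (pow_le_pow_left₀ (hU0 j x) (min_le_left _ _) 2) hx
  have ib : Integrable (fun x => ‖ν x‖ * (‖V x‖ * ‖W (S x)‖)) mm := by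
    have := (integrable_mul2 hV (hS.memLp hW)).norm
    simp only [norm_mul] at this
    obtain ⟨hm, K', hK'⟩ := hν
    refine this.bdd_mul (c := K') hm.norm ?_
    filter_upwards [hK'] with x hx
    rwa [norm_norm]
  have lim : Tendsto (fun j => ∫ x, ‖ν x‖ * (‖V x‖ * U j (S x)) ∂mm) atTop
      (𝓝 (∫ x, ‖ν x‖ * (‖V x‖ * ‖W (S x)‖) ∂mm)) := by
    refine tendsto_integral_of_dominated_convergence _ (fun j => ?_) ib (fun j => ?_) ?_
    · exact hν.1.norm.mul (hV.1.norm.mul ((hUm j).comp_quasiMeasurePreserving hS.qmp))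
    · refine Eventually.of_forall fun x => ?_
      have := hU0 j (S x)
      rw [Real.norm_eq_abs, abs_of_nonneg (by positivity)]
      have h2 : U j (S x) ≤ ‖W (S x)‖ := min_le_left _ _
      gcongr
    · filter_upwards [hS.ae h.ne] with x hx
      have h3 : 0 < ‖G (S x)‖ := norm_pos_iff.2 hx
      refine tendsto_const_nhds.congr' ?_
      obtain ⟨N, hN⟩ := exists_nat_ge (‖W (S x)‖ / ‖G (S x)‖)
      filter_upwards [eventually_ge_atTop N] with j hj
      have h4 : ‖W (S x)‖ ≤ j * ‖G (S x)‖ := by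
        rw [← div_le_iff₀ h3]
        exact hN.trans (by exact_mod_cast hj)
      have h5 : U j (S x) = ‖W (S x)‖ := min_eq_left h4
      rw [h5]
  exact le_of_tendsto' (lim.const_mul 2) step

lemma P1_ag1 (h : Ext φ S w μ G r) {V W : TT → ℂ} (hV : MemLp V 2 mm) (hW : MemLp W 2 mm) :
    2 * |(conj μ * qq S V W).re| ≤
      ∫ x, r x * ‖V x‖ ^ 2 ∂mm + ∫ x, (2 * w - r x) * ‖W x‖ ^ 2 ∂mm := by
  have hl : Ell S G (fun x => ((‖(fun _ => (1 : ℂ)) x‖ ^ 2 : ℝ) : ℂ))
      fun x => 2 * w - r x := by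
    have := h.ell_one
    simpa using this
  have h1 := h.ag (bd_const 1) hl hV hW
  have h2 : |(conj μ * qq S V W).re| ≤ ∫ x, ‖V x‖ * ‖W (S x)‖ ∂mm := by
    refine (abs_re_le_norm _).trans ?_
    rw [norm_mul, Complex.norm_conj, h.mu, one_mul]
    unfold qq
    refine (norm_integral_le_integral_norm _).trans (le_of_eq ?_)
    simp
  have h3 : ∀ x, ((2 : ℂ) * w - r x).re = 2 * w - r x := fun x => by simp
  simp only [norm_one, one_mul, h3] at h1
  linarith

lemma Ext.null_seq (h : Ext φ S w μ G r) (Z : ℕ → TT → ℂ) (hZ : ∀ k, MemLp (Z k) 2 mm)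
    (hl : Tendsto (fun k => nn (Z k)) atTop (𝓝 0))
    (h0 : 2 * w * nn (Z 0) = (conj μ * qq S (Z 1) (Z 0)).re)
    (hk : ∀ k, 2 * w * nn (Z (k + 1)) =
      (conj μ * qq S (Z (k + 1)) (Z k)).re + (conj μ * qq S (Z (k + 2)) (Z (k + 1))).re) :
    ∀ᵐ x ∂mm, Z 0 x = 0 := by
  set R : ℕ → ℝ := fun k => ∫ x, r x * ‖Z k x‖ ^ 2 ∂mm with hR
  set L : ℕ → ℝ := fun k => ∫ x, (2 * w - r x) * ‖Z k x‖ ^ 2 ∂mm with hL
  set B : ℕ → ℝ := fun k => (conj μ * qq S (Z (k + 1)) (Z k)).re with hB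
  have hR0 : ∀ k, 0 ≤ R k := fun k => integral_nonneg_of_ae (by
    filter_upwards [h.pos] with x hx
    exact mul_nonneg hx.1.le (sq_nonneg _))
  have hL0 : ∀ k, 0 ≤ L k := fun k => integral_nonneg_of_ae (by
    filter_upwards [h.pos] with x hx
    exact mul_nonneg (sub_nonneg.2 hx.2) (sq_nonneg _))
  have hRL : ∀ k, L k = 2 * w * nn (Z k) - R k := fun k => P1_sum h (hZ k)
  have hB2 : ∀ k, 2 * |B k| ≤ R (k + 1) + L k := fun k => P1_ag1 h (hZ (k + 1)) (hZ k)
  have hind : ∀ N, R 0 + L N ≤ B N := by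
    intro N
    induction N with
    | zero =>
      have h1 : 2 * w * nn (Z 0) = B 0 := h0
      linarith [hRL 0]
    | succ N ih =>
      have h1 : 2 * w * nn (Z (N + 1)) = B N + B (N + 1) := hk N
      linarith [hRL (N + 1), hB2 N, le_abs_self (B N)]
  have hlim : Tendsto (fun N => w * nn (Z (N + 1)) + w * nn (Z N)) atTop (𝓝 (w * 0 + w * 0)) :=
    (((tendsto_add_atTop_iff_nat 1).2 hl).const_mul w).add (hl.const_mul w)
  have hle : R 0 ≤ w * 0 + w * 0 := by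
    refine ge_of_tendsto' hlim fun N => ?_
    linarith only [hind, hB2, hRL, hR0, hL0, hind N, hB2 N, le_abs_self (B N), hRL N, hRL (N + 1), hR0 N, hL0 N, hL0 (N + 1)]
  have hz : R 0 = 0 := le_antisymm (by simpa using hle) (hR0 0)
  have := (integral_eq_zero_iff_of_nonneg_ae (by
    filter_upwards [h.pos] with x hx
    exact mul_nonneg hx.1.le (sq_nonneg _)) (P1_int_r h (hZ 0))).1 hz
  filter_upwards [this, h.pos] with x h1 h2
  have h3 : r x * ‖Z 0 x‖ ^ 2 = 0 := h1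
  have h4 := (mul_eq_zero.1 h3).resolve_left h2.1.ne'
  simpa using h4

lemma Sq.zero {a : ℂ} {V : ℕ → TT → ℂ} (hV : Sq S w μ a V fun _ => 0) (h : Ext φ S w μ G r)
    (j : ℕ) : ∀ᵐ x ∂mm, V j x = 0 := by
  obtain ⟨hH, hV0, -, hlim, -, hrec⟩ := hV
  have hS := h.bd.isPre
  have hm : ∀ k, MemLp (V k) 2 mm := fun k => by simpa using memLp_conj (hH k).1
  have key : ∀ i, 2 * w * nn (V (i + 1)) = (conj μ * qq S (V (i + 1)) (V i)).re +
      (conj μ * qq S (V (i + 2)) (V (i + 1))).re := by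
    intro i
    have h1 := hrec i _ (hH (i + 1))
    rw [integral_conj_mul_self] at h1
    have h2 : μ * ∫ x, conj (V (i + 1) (S x)) * V (i + 2) x ∂mm =
        conj (conj μ * qq S (V (i + 2)) (V (i + 1))) := by
      unfold qq
      rw [map_mul, conj_conj, ← integral_conj]
      congr 1
      refine integral_congr_ae (Eventually.of_forall fun x => ?_)
      simp only [map_mul, conj_conj]
      ring
    rw [h2] at h1
    have h3 := congrArg re h1
    have h4 : ((2 : ℂ) * w * ((∫ x, ‖V (i + 1) x‖ ^ 2 ∂mm : ℝ) : ℂ)).re =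
        2 * w * nn (V (i + 1)) := by
      unfold nn
      rw [mul_re]
      simp only [ofReal_re, ofReal_im, mul_zero, sub_zero]
      simp
    rw [sub_re, sub_re, conj_re, h4] at h3
    simp only [mul_zero, zero_mul, zero_re] at h3
    unfold qq at h3 ⊢
    linarith only [h3]
  induction j with
  | zero => exact Eventually.of_forall hV0
  | succ j ih =>
    have h1 := h.null_seq (fun k => V (j + k + 1)) (fun k => hm _)
      (by
        have := (tendsto_add_atTop_iff_nat (j + 1)).2 hlim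
        refine this.congr fun k => ?_
        congr 2
        ring)
      (by
        have h2 : qq S (V (j + 1)) (V j) = 0 := by
          unfold qq
          refine integral_eq_zero_of_ae ?_
          filter_upwards [hS.ae ih] with x hx
          simp [hx]
        have h3 := key j
        rw [h2] at h3
        simpa using h3)
      (fun k => key (j + k + 1))
    exact h1

end Pool.Agent.Work.MP_f96e05_an
end

-- merged part: Pool.Agent.Work.MP_f96e05_an.FS.K2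
section
/-!
The boundary mean of the sibling function.

PLAN. `ν = 1 / (1 - I * psiB)`, `re ν = ‖ν‖ ^ 2 ≤ 1`. `l'` from `exists_ell` for `‖ν‖ ^ 2`; `Ell.re_le`; `IsBdry.push`; `integral_pk`. `Ext.ag` with `V = W = κ`, `κ x = sqrt (1 - ‖a‖ ^ 2) / (1 - conj a * ee x)`, `a = φ z`,
`‖κ‖ ^ 2 = pk a`; `∫ ‖ν‖ ‖κ‖ ‖κ ∘ S‖ ≥ ‖∫ conj κ * (ν * κ ∘ S)‖`, `conj κ = sqrt (1 - ‖a‖ ^ 2) * cau a`, `ev_mul`, `ev_comp`, `dc_ev`, `isH_psi`.
-/

set_option autoImplicit false

open MeasureTheory Filter Topology Complex Metric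
open scoped ComplexConjugate InnerProductSpace

namespace Pool.Agent.Work.MP_f96e05_an

variable {φ : ℂ → ℂ} {S : TT → TT} {ω μ p z : ℂ} {w b : ℝ} {F G F' G' u v χ l π : TT → ℂ}
  {r X : TT → ℝ} {σ : ℂ → ℂ}

lemma K2_nu (t : ℝ) : (1 / (1 - I * t) : ℂ).re = ‖(1 / (1 - I * t) : ℂ)‖ ^ 2 ∧
    ‖(1 / (1 - I * t) : ℂ)‖ ≤ 1 := by
  have h1 : (1 - I * t : ℂ).re = 1 := by simp
  have h2 : 1 ≤ ‖(1 - I * t : ℂ)‖ := by
    simpa [h1] using Complex.re_le_norm (1 - I * t : ℂ)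
  rw [one_div, norm_inv]
  refine ⟨?_, inv_le_one_of_one_le₀ h2⟩
  rw [Complex.inv_re, h1, inv_pow, Complex.sq_norm, one_div]

lemma K2_hb : HB fun u => 1 / (1 - I * u) := by
  simpa using hb_inv (ε := 1) zero_le_one 1

lemma K2_r (h : Ext φ S w μ G r) : Bd fun x => (r x : ℂ) :=
  ⟨Complex.continuous_ofReal.comp_aestronglyMeasurable h.meas, 2 * w, by
    filter_upwards [h.pos] with x hx
    rw [Complex.norm_real, Real.norm_of_nonneg hx.1.le]
    exact hx.2⟩

lemma K2_int (hz : ‖z‖ < 1) (hu : Bd u) : Integrable (fun x => pk z x * (u x).re) mm := by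
  have h1 : MemLp (fun x => (pk z x : ℂ)) 2 mm :=
    memLp_cont (Complex.continuous_ofReal.comp (pk_cont hz))
  refine (reCLM.integrable_comp (integrable_mul2 h1 hu.memLp)).congr (.of_forall fun x => ?_)
  simp

lemma K2_ker {a : ℂ} (ha : ‖a‖ < 1) : IsH (fun x => 1 / (1 - conj a * ee x)) ∧
    (∀ z : ℂ, ‖z‖ < 1 → ev (fun x => 1 / (1 - conj a * ee x)) z = 1 / (1 - conj a * z)) ∧
    (∀ x, ‖cau a x‖ = ‖1 / (1 - conj a * ee x)‖) ∧
    ∀ x, pk a x = (1 - ‖a‖ ^ 2) * ‖1 / (1 - conj a * ee x)‖ ^ 2 := by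
  have hd : DiffContOnCl ℂ (fun z => 1 / (1 - conj a * z)) (ball 0 1) := by
    apply DifferentiableOn.diffContOnCl
    rw [closure_ball _ one_ne_zero]
    intro z hz
    have := den_ne' ha (mem_closedBall_zero_iff.1 hz)
    exact DifferentiableAt.differentiableWithinAt (by fun_prop (disch := exact this))
  have hn : ∀ x, ‖1 - conj a * ee x‖ = ‖ee x - a‖ := fun x => by
    have := mob_id' a (ee x)
    rw [ee_norm, one_pow, sub_self, mul_zero, sub_eq_zero] at this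
    exact (pow_left_inj₀ (norm_nonneg _) (norm_nonneg _) two_ne_zero).1 this
  have d1 := dc_isH hd
  have d2 := fun z (hz : ‖z‖ < 1) => dc_ev hd hz
  refine ⟨d1, d2, fun x => ?_, fun x => ?_⟩
  · rw [cau, norm_div, norm_div, hn, ee_norm, norm_one]
  · rw [pk, norm_div, hn, norm_one, div_pow, one_pow, mul_one_div]

lemma K2_main (h : Ext φ S w μ G r) (hω : ‖ω‖ = 1) (hJ : Jul φ ω) {a : ℂ} (ha : ‖a‖ < 1)
    (hl : Ell S G (fun x => ((‖1 / (1 - I * psiB S ω b x)‖ ^ 2 : ℝ) : ℂ)) l) :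
    2 * (‖1 / (1 - I * psi φ ω b a)‖ * ((1 - ‖a‖ ^ 2) / ‖1 - conj a * φ a‖)) ≤
      ∫ x, pk a x * r x ∂mm + ∫ x, pk a x * (l x).re ∂mm := by
  obtain ⟨n1, n2⟩ := isH_psi h.bd hω hJ b K2_hb
  have nb : Bd fun x => 1 / (1 - I * psiB S ω b x) :=
    ⟨n1.1.1, 1, .of_forall fun x => (K2_nu _).2⟩
  obtain ⟨k1, k2, k3, k4⟩ := K2_ker ha
  have ag := h.ag nb hl k1.1 k1.1
  have kS := h.bd.isSys.presH _ k1
  have e1 := ev_mul n1 nb kS ha
  rw [n2 a ha, h.bd.ev_comp k1 ha, k2 _ (h.bd.norm_lt ha)] at e1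
  have e2 : ‖1 / (1 - I * psi φ ω b a)‖ * (1 / ‖1 - conj a * φ a‖) ≤
      ∫ x, ‖1 / (1 - I * psiB S ω b x)‖ *
        (‖1 / (1 - conj a * ee x)‖ * ‖1 / (1 - conj a * ee (S x))‖) ∂mm := by
    have := congrArg norm e1
    rw [norm_mul, norm_div 1 (1 - conj a * φ a), norm_one] at this
    rw [← this, ev]
    refine (norm_integral_le_integral_norm _).trans (le_of_eq (integral_congr_ae ?_))
    refine .of_forall fun x => ?_
    simp only [norm_mul, k3]
    ring
  have p : 0 ≤ 1 - ‖a‖ ^ 2 := by linarith only [ha, norm_nonneg a, mul_nonneg_of_nonpos_of_nonpos (le_of_lt (Mathlib.Tactic.Linarith.sub_neg_of_lt ha)) (Mathlib.Tactic.Linarith.sub_nonpos_of_le (norm_nonneg a))]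
  have e3 : ∀ g : TT → ℝ, ∫ x, pk a x * g x ∂mm =
      (1 - ‖a‖ ^ 2) * ∫ x, g x * ‖1 / (1 - conj a * ee x)‖ ^ 2 ∂mm := fun g => by
    rw [← integral_const_mul]
    refine integral_congr_ae (.of_forall fun x => ?_)
    simp only [k4]
    ring
  rw [e3, e3, ← mul_add]
  calc _ = (1 - ‖a‖ ^ 2) * (2 * (‖1 / (1 - I * psi φ ω b a)‖ * (1 / ‖1 - conj a * φ a‖))) := by
        ring
    _ ≤ _ := mul_le_mul_of_nonneg_left (by linarith only [ag, e2]) p

lemma Ext.sfn_le (h : Ext φ S w μ G r) (hl : Ell S G χ l) {δ : ℝ}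
    (hδ : ∀ᵐ x ∂mm, ‖χ x - 1 / (1 - I * psiB S ω b x)‖ ≤ δ) :
    ∀ᵐ x ∂mm, ‖sfn S w r χ l x‖ ≤ (1 + δ) * (4 * w) := by
  have hχ : ∀ᵐ x ∂mm, ‖χ x‖ ≤ 1 + δ := by
    filter_upwards [hδ] with x hx
    linarith only [hx, norm_le_norm_add_norm_sub' (χ x) (1 / (1 - I * psiB S ω b x)),
      (K2_nu (psiB S ω b x)).2]
  filter_upwards [hχ, h.bd.isPre.ae (hl.norm_le h hχ), h.bd.isPre.ae h.pos] with x h1 h2 h3
  have h4 : ‖(2 * w - r (S x) : ℂ)‖ = 2 * w - r (S x) := by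
    rw [← Real.norm_of_nonneg (sub_nonneg.2 h3.2), ← Complex.norm_real]
    push_cast
    rfl
  have h5 := norm_sub_le (χ x * (2 * w - r (S x))) (l (S x))
  rw [norm_mul, h4] at h5
  have h6 := mul_le_mul_of_nonneg_right h1 (sub_nonneg.2 h3.2)
  have h7 := mul_nonneg ((norm_nonneg _).trans h1) h3.1.le
  rw [sfn]
  linarith only [h2, h5, h6, h7]

lemma Ext.mean_sfn (h : Ext φ S w μ G r) (hω : ‖ω‖ = 1) (hJ : Jul φ ω) (hz : ‖z‖ < 1)
    (hχ : Bd χ) (hl : Ell S G χ l) {δ : ℝ}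
    (hδ : ∀ᵐ x ∂mm, ‖χ x - 1 / (1 - I * psiB S ω b x)‖ ≤ δ) :
    ∫ x, pk z x * (sfn S w r χ l x).re ∂mm ≤ 2 * w -
      2 * (‖1 / (1 - I * psi φ ω b (φ z))‖ * ((1 - ‖φ z‖ ^ 2) / ‖1 - conj (φ z) * φ (φ z)‖)) +
      4 * w * δ := by
  have ha := h.bd.norm_lt hz
  have hS := h.bd.isPre
  obtain ⟨n1, -⟩ := isH_psi h.bd hω hJ b K2_hb
  have nb : Bd fun x => ((‖1 / (1 - I * psiB S ω b x)‖ ^ 2 : ℝ) : ℂ) := by
    refine ⟨Complex.continuous_ofReal.comp_aestronglyMeasurable (n1.1.1.norm.pow 2), 1,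
      .of_forall fun x => ?_⟩
    rw [Complex.norm_real, norm_pow, norm_norm]
    exact pow_le_one₀ (norm_nonneg _) (K2_nu _).2
  obtain ⟨l', hl'⟩ := h.exists_ell nb
  have bl' := hl'.bd h nb
  have hre : ∀ᵐ x ∂mm, |(χ x).re - ‖1 / (1 - I * psiB S ω b x)‖ ^ 2| ≤ δ := by
    filter_upwards [hδ] with x hx
    rw [← (K2_nu _).1, ← Complex.sub_re]
    exact (Complex.abs_re_le_norm _).trans hx
  have hle := hl.re_le h hl' (δ := δ) (by
    filter_upwards [hre] with x hx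
    rw [Complex.ofReal_re]
    linarith only [hx, (abs_le.1 hx).1])
  have bg : Bd fun x => ((2 * w + 4 * w * δ : ℝ) : ℂ) - (r x + l' x) :=
    (bd_const _).sub ((K2_r h).add bl')
  have bs : Bd (sfn S w r χ l) :=
    (hχ.mul ((bd_const (2 * w : ℂ)).sub ((K2_r h).comp hS))).sub ((hl.bd h hχ).comp hS)
  have s1 : ∫ x, pk z x * (sfn S w r χ l x).re ∂mm ≤
      ∫ x, pk z x * (((2 * w + 4 * w * δ : ℝ) : ℂ) - (r (S x) + l' (S x))).re ∂mm := by
    refine integral_mono_ae (K2_int hz bs) (K2_int hz (bg.comp hS)) ?_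
    filter_upwards [hre, hS.ae hle, hS.ae h.pos] with x h1 h2 h3
    refine mul_le_mul_of_nonneg_left ?_ (pk_nonneg hz x)
    have h4 := pow_le_one₀ (n := 2) (norm_nonneg _) (K2_nu (psiB S ω b x)).2
    have h5 : (χ x).re ≤ 1 + δ := by linarith only [h4, h1, (abs_le.1 h1).2]
    have h6 := mul_le_mul_of_nonneg_right h5 (sub_nonneg.2 h3.2)
    have h7 := mul_nonneg ((abs_nonneg _).trans h1) h3.1.le
    simp only [sfn, sub_re, add_re, mul_re, ofReal_re, ofReal_im, sub_im, mul_im, re_ofNat,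
      im_ofNat]
    linarith only [h2, h6, h7]
  rw [h.bd.push hz (g := fun x => (((2 * w + 4 * w * δ : ℝ) : ℂ) - (r x + l' x)).re)
    (Complex.continuous_re.comp_aestronglyMeasurable bg.1)] at s1
  have i1 := K2_int ha (K2_r h)
  have i2 := K2_int ha bl'
  have i3 := K2_int ha (bd_const ((2 * w + 4 * w * δ : ℝ) : ℂ))
  simp only [sub_re, add_re, ofReal_re, mul_sub, mul_add (pk _ _) (r _)] at s1 i1 i3
  have i4 : Integrable (fun x => pk (φ z) x * r x + pk (φ z) x * (l' x).re) mm := i1.add i2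
  rw [integral_sub i3 i4, integral_add i1 i2, integral_mul_const, integral_pk ha] at s1
  linarith only [s1, h, hω, hJ, ha, hl', K2_main h hω hJ ha hl']

end Pool.Agent.Work.MP_f96e05_an
end

-- merged part: Pool.Agent.Work.MP_f96e05_an.FS.P2
section
/-!
The recurrence attached to a multiplier, and the convolution identity.

PLAN. `exists_sq`: `T k = G * π ∘ S^[k]`; `exists_decomp` applied to `conj (T k)` gives `T k = H k + W k`, `IsH (H k)`, `IsH0 (conj (W k))`; `V (k+2) = W k`; `nn (W k) ≤ nn (T k)` by orthogonality.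
`L (T (k+1)) = conj μ (2 w - r) T k` (`Ext.lop`, `IsL.comp_mul`), `T k ∘ S = μ r T (k+1)` (`Ext.comp`), `r T 0 = conj μ (G ∘ S) π ∈ IsH`. For `IsH0 Y`: `∫ Y * H = 0`, `∫ Y * H ∘ S = 0`,
`∫ Y (S x) * H = ev Y (φ 0) * ∫ H` (`IsH.mean_mul`, `ev_comp`, `ev_zero`), `∫ W k = 0`.
`Sq.conv`: `Z j = ∑ i ∈ range (j+1), (β' i * V (j - i) - β i * V' (j - i))` (or over `antidiagonal j`) satisfies `Sq` with right hand side zero (use `V 0 = V 1 = 0`; the right hand side is the symmetric sum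
`∑ β' i * β (j - i) - ∑ β i * β' (j - i)`); `nn (Z j) → 0` since a summable sequence convolved with a null sequence tends to zero (norms in `LL`, `tendsto_tsum_of_dominated_convergence`);
`Sq.zero` at the index `j + 2`.
-/

set_option autoImplicit false

open MeasureTheory Filter Topology Complex Metric
open scoped ComplexConjugate InnerProductSpace

namespace Pool.Agent.Work.MP_f96e05_an

variable {φ : ℂ → ℂ} {S : TT → TT} {ω μ p z : ℂ} {w b : ℝ} {F G F' G' u v χ l π : TT → ℂ}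
  {r X : TT → ℝ} {σ : ℂ → ℂ}

lemma P2_split {T : TT → ℂ} (hT : MemLp T 2 mm) :
    ∃ W : TT → ℂ, IsH0 (fun x => conj (W x)) ∧ IsH fun x => T x - W x := by
  obtain ⟨A, K, hA, hK, e⟩ := exists_decomp (memLp_conj hT)
  refine ⟨fun x => conj (A x), by simpa using hA, hK.congr ?_⟩
  filter_upwards [e] with x hx
  have h := congrArg conj hx
  simp only [conj_conj, map_add] at h
  rw [h]
  ring

lemma P2_mem {W : TT → ℂ} (hW : IsH0 fun x => conj (W x)) : MemLp W 2 mm := by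
  simpa using memLp_conj hW.1

lemma P2_nn_le {T W : TT → ℂ} (hW : IsH0 fun x => conj (W x)) (hH : IsH fun x => T x - W x) :
    nn W ≤ nn T := by
  have h0 := integral_mul_eq_zero hW hH
  have hi := integrable_mul2 hW.1 hH.1
  have h2 : ∫ x, (conj (W x) * (T x - W x)).re ∂mm = 0 := by
    have h := integral_re hi
    simp only [RCLike.re_to_complex] at h
    rw [h, h0]
    simp
  have hi2 : Integrable (fun x => (conj (W x) * (T x - W x)).re) mm := hi.re
  have hW2 := integrable_normsq (P2_mem hW)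
  have hH2 := integrable_normsq hH.1
  have e : ∀ x, ‖T x‖ ^ 2 =
      ‖W x‖ ^ 2 + (‖T x - W x‖ ^ 2 + 2 * (conj (W x) * (T x - W x)).re) := by
    intro x
    simp only [← normSq_eq_norm_sq, normSq_apply, mul_re, sub_re, sub_im, conj_re, conj_im]
    ring
  have hi3 : Integrable (fun x => 2 * (conj (W x) * (T x - W x)).re) mm := hi2.const_mul 2
  have hi4 : Integrable (fun x => ‖T x - W x‖ ^ 2 + 2 * (conj (W x) * (T x - W x)).re) mm :=
    hH2.add hi3
  have h3 : nn T = nn W + nn fun x => T x - W x := by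
    unfold nn
    simp_rw [e]
    rw [integral_add hW2 hi4, integral_add hH2 hi3, integral_const_mul, h2]
    ring
  have h4 := nn_nonneg fun x => T x - W x
  linarith

lemma P2_pair {T W Y : TT → ℂ} (hS : IsBdry φ S) (hT : MemLp T 2 mm)
    (hW : IsH0 fun x => conj (W x)) (hH : IsH fun x => T x - W x) (hY : IsH0 Y) :
    ∫ x, Y x * W x ∂mm = ∫ x, Y x * T x ∂mm ∧
      ∫ x, Y x * W (S x) ∂mm = ∫ x, Y x * T (S x) ∂mm ∧
      ∫ x, Y (S x) * W x ∂mm = ∫ x, Y (S x) * T x ∂mm - (∫ x, T x ∂mm) * ev Y (φ 0) := by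
  have hWm := P2_mem hW
  have hP := hS.isPre
  refine ⟨?_, ?_, ?_⟩
  · have h := integral_mul_eq_zero hY hH
    simp_rw [mul_sub] at h
    rw [integral_sub (integrable_mul2 hY.1 hT) (integrable_mul2 hY.1 hWm)] at h
    exact (sub_eq_zero.1 h).symm
  · have h := integral_mul_eq_zero hY (hS.isSys.presH _ hH)
    simp_rw [mul_sub] at h
    rw [integral_sub (integrable_mul2 hY.1 (hP.memLp hT))
      (integrable_mul2 hY.1 (hP.memLp hWm))] at h
    exact (sub_eq_zero.1 h).symm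
  · have hYS := hS.isSys.presH _ hY.isH
    have h := hYS.mean_mul hH
    have h1 : ∫ x, W x ∂mm = 0 := by
      have h2 := hW.mean
      rw [integral_conj] at h2
      simpa using h2
    have h2 : ∫ x, Y (S x) ∂mm = ev Y (φ 0) := by
      rw [← ev_zero, hS.ev_comp hY.isH (by simp)]
    simp_rw [mul_sub] at h
    rw [integral_sub (integrable_mul2 hYS.1 hT) (integrable_mul2 hYS.1 hWm),
      integral_sub (integrable_of_memLp hT) (integrable_of_memLp hWm), h1, h2] at h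
    linear_combination -h

lemma P2_bd_r (h : Ext φ S w μ G r) : Bd fun x => (r x : ℂ) := by
  refine ⟨continuous_ofReal.comp_aestronglyMeasurable h.meas, 2 * w, ?_⟩
  filter_upwards [h.pos] with x hx
  rw [norm_real, Real.norm_eq_abs, abs_of_pos hx.1]
  exact hx.2

lemma P2_lop (h : Ext φ S w μ G r) (hu : Bd u) {Y : TT → ℂ} (hY : MemLp Y 2 mm) :
    μ * ∫ x, Y (S x) * (G x * u (S x)) ∂mm =
      2 * w * ∫ x, Y x * (G x * u x) ∂mm - conj μ * ∫ x, Y x * (G (S x) * u x) ∂mm := by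
  have hP := h.bd.isPre
  have hμ : μ * conj μ = 1 := by
    rw [mul_conj, normSq_eq_norm_sq, h.mu]
    simp
  have h1 := (h.lop.comp_mul hP hu).2.2 Y hY
  have m1 : MemLp (fun x => G x * u x) 2 mm := by
    simpa only [mul_comm] using hu.mul_memLp h.isH.1
  have m2 : MemLp (fun x => G (S x) * u x) 2 mm := by
    simpa only [mul_comm] using hu.mul_memLp (hP.memLp h.isH.1)
  have e1 : ∫ x, Y (S x) * (G x * u (S x)) ∂mm = ∫ x, Y (S x) * (u (S x) * G x) ∂mm := by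
    simp only [mul_comm]
  rw [e1, ← h1, ← integral_const_mul, ← integral_const_mul, ← integral_const_mul,
    ← integral_sub ((integrable_mul2 hY m1).const_mul _) ((integrable_mul2 hY m2).const_mul _)]
  refine integral_congr_ae ?_
  filter_upwards [h.comp] with x hx
  rw [hx]
  linear_combination (2 * w * Y x * u x * G x) * hμ

lemma Pd.exists_sq (hπ : Pd S G π) (h : Ext φ S w μ G r) :
    ∃ V, Sq S w μ (φ 0) V (fun k => ∫ x, G x * π (S^[k] x) ∂mm) ∧ IsH fun x => G x * π x - V 2 x := by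
  obtain ⟨⟨hb, hGS, F', hL, hF'⟩, hn, hs⟩ := hπ
  have hP := h.bd.isPre
  have hbk : ∀ k, Bd fun x => π (S^[k] x) := fun k => hb.comp (hP.iter k)
  have hT : ∀ k, MemLp (fun x => G x * π (S^[k] x)) 2 mm := fun k => by
    simpa only [mul_comm] using (hbk k).mul_memLp h.isH.1
  choose W hW hH using fun k => P2_split (hT k)
  let V : ℕ → TT → ℂ := fun k => match k with
    | 0 => fun _ => 0
    | 1 => fun _ => 0
    | k + 2 => W k
  have h00 : IsH0 fun x => conj ((fun _ : TT => (0 : ℂ)) x) := by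
    simpa using isLin_H0.zero
  refine ⟨V, ⟨?_, fun _ => rfl, fun _ => rfl, ?_, ?_, ?_⟩, hH 0⟩
  · intro k
    match k with
    | 0 => exact h00
    | 1 => exact h00
    | k + 2 => exact hW k
  · rw [← tendsto_add_atTop_iff_nat 2]
    exact squeeze_zero (fun k => nn_nonneg _) (fun k => P2_nn_le (hW k) (hH k)) hn
  · exact Summable.of_nonneg_of_le (fun k => norm_nonneg _)
      (fun k => norm_integral_le_integral_norm _) hs
  · intro j Y hY
    have hp := fun k => P2_pair h.bd (hT k) (hW k) (hH k) hY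
    match j with
    | 0 =>
      have h1 := hL.2.2 Y hY.1
      rw [integral_mul_eq_zero hY hF'] at h1
      have h2 := (hp 0).2.2
      show 2 * (w : ℂ) * ∫ x, Y x * 0 ∂mm - conj μ * ∫ x, Y x * 0 ∂mm -
        μ * ∫ x, Y (S x) * W 0 x ∂mm = μ * (∫ x, G x * π (S^[0] x) ∂mm) * ev Y (φ 0)
      rw [h2]
      simp only [Function.iterate_zero, id] at h2 ⊢
      rw [← h1]
      simp only [mul_zero, integral_zero]
      ring
    | 1 =>
      have h1 := P2_lop h hb hY.1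
      rw [integral_mul_eq_zero hY hGS] at h1
      show 2 * (w : ℂ) * ∫ x, Y x * W 0 x ∂mm - conj μ * ∫ x, Y x * 0 ∂mm -
        μ * ∫ x, Y (S x) * W 1 x ∂mm = μ * (∫ x, G x * π (S^[1] x) ∂mm) * ev Y (φ 0)
      rw [(hp 1).2.2, (hp 0).1]
      simp only [Function.iterate_zero, id, Function.iterate_one, mul_zero, integral_zero] at h1 ⊢
      linear_combination -h1
    | k + 2 =>
      have h1 := P2_lop h (hbk (k + 1)) hY.1
      show 2 * (w : ℂ) * ∫ x, Y x * W (k + 1) x ∂mm - conj μ * ∫ x, Y x * W k (S x) ∂mm -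
        μ * ∫ x, Y (S x) * W (k + 2) x ∂mm = μ * (∫ x, G x * π (S^[k + 2] x) ∂mm) * ev Y (φ 0)
      rw [(hp (k + 2)).2.2, (hp (k + 1)).1, (hp k).2.1]
      have e1 : ∀ x, S^[k + 1] (S x) = S^[k + 2] x := fun x => rfl
      have e2 : ∀ x, S^[k] (S x) = S^[k + 1] x := fun x => rfl
      simp only [e1, e2] at h1 ⊢
      linear_combination -h1

lemma P2_null {a c : ℕ → ℝ} (ha : Summable fun k => ‖a k‖) (hc : Tendsto c atTop (𝓝 0))
    (h0 : c 0 = 0) :
    Tendsto (fun j => ∑ q ∈ Finset.HasAntidiagonal.antidiagonal j, a q.1 * c q.2) atTop (𝓝 0) := by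
  obtain ⟨K, hK⟩ := hc.norm.bddAbove_range
  have h1 := tendsto_tsum_of_dominated_convergence (𝓕 := atTop) (f := fun j i => a i * c (j - i))
    (g := fun _ => (0 : ℝ)) (bound := fun i => ‖a i‖ * K) (ha.mul_right K) (fun i => by
      simpa using (hc.comp (tendsto_sub_atTop_nat i)).const_mul (a i))
    (Eventually.of_forall fun j i => by
      rw [norm_mul]
      exact mul_le_mul_of_nonneg_left (hK ⟨j - i, rfl⟩) (norm_nonneg _))
  rw [tsum_zero] at h1
  refine h1.congr fun j => ?_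
  rw [Finset.Nat.sum_antidiagonal_eq_sum_range_succ (fun i k => a i * c k) j]
  refine tsum_eq_sum fun i hi => ?_
  rw [Finset.mem_range] at hi
  rw [show j - i = 0 by omega, h0, mul_zero]

lemma P2_isH0_sum {ι : Type} (s : Finset ι) (f : ι → TT → ℂ) (hf : ∀ i, IsH0 (f i)) :
    IsH0 fun x => ∑ i ∈ s, f i x := by
  classical
  induction s using Finset.induction_on with
  | empty => simpa using isLin_H0.zero
  | insert i s hi ih =>
    simp only [Finset.sum_insert hi]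
    exact (hf i).add ih

lemma P2_int_sum {ι : Type} (s : Finset ι) (c : ι → ℂ) (f : ι → TT → ℂ) {Y : TT → ℂ}
    (hY : MemLp Y 2 mm) (hf : ∀ i, MemLp (f i) 2 mm) :
    ∫ x, Y x * ∑ i ∈ s, c i * f i x ∂mm = ∑ i ∈ s, c i * ∫ x, Y x * f i x ∂mm := by
  simp_rw [Finset.mul_sum, mul_left_comm (Y _), ← integral_const_mul]
  exact integral_finsetSum s fun i _ => (integrable_mul2 hY (hf i)).const_mul _

lemma P2_nn_sum {ι : Type} (s : Finset ι) (c : ι → ℂ) (f : ι → TT → ℂ)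
    (hf : ∀ i, MemLp (f i) 2 mm) :
    nn (fun x => ∑ i ∈ s, c i * f i x) ≤ (∑ i ∈ s, ‖c i‖) * ∑ i ∈ s, ‖c i‖ * nn (f i) := by
  have hi : ∀ i ∈ s, Integrable (fun x => ‖c i‖ * ‖f i x‖ ^ 2) mm := fun i _ =>
    (integrable_normsq (hf i)).const_mul _
  unfold nn
  simp_rw [← integral_const_mul]
  rw [← integral_finsetSum s hi, ← integral_const_mul]
  refine integral_mono_of_nonneg (Eventually.of_forall fun x => by positivity)
    ((integrable_finsetSum s hi).const_mul _) (Eventually.of_forall fun x => ?_)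
  have h1 : ‖∑ i ∈ s, c i * f i x‖ ≤ ∑ i ∈ s, ‖c i‖ * ‖f i x‖ := by
    refine (norm_sum_le _ _).trans (le_of_eq ?_)
    simp only [norm_mul]
  refine (pow_le_pow_left₀ (norm_nonneg _) h1 2).trans ?_
  exact Finset.sum_sq_le_sum_mul_sum_of_sq_le_mul s (fun i _ => norm_nonneg _)
    (fun i _ => by positivity) (fun i _ => le_of_eq (by ring))

lemma P2_shift {V : ℕ → TT → ℂ} (h0 : ∀ x, V 0 x = 0) (γ : ℕ → ℂ) (j : ℕ) (x : TT) :
    ∑ q ∈ Finset.HasAntidiagonal.antidiagonal (j + 1), γ q.1 * V q.2 x =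
      ∑ q ∈ Finset.HasAntidiagonal.antidiagonal j, γ q.1 * V (q.2 + 1) x := by
  rw [Finset.Nat.sum_antidiagonal_succ' (f := fun q => γ q.1 * V q.2 x), h0, mul_zero, zero_add]

lemma P2_shift2 {V : ℕ → TT → ℂ} (h0 : ∀ x, V 0 x = 0) (h1 : ∀ x, V 1 x = 0) (γ : ℕ → ℂ) (j : ℕ)
    (x : TT) : ∑ q ∈ Finset.HasAntidiagonal.antidiagonal (j + 2), γ q.1 * V q.2 x =
      ∑ q ∈ Finset.HasAntidiagonal.antidiagonal j, γ q.1 * V (q.2 + 2) x := by
  rw [P2_shift h0 γ (j + 1) x, P2_shift (V := fun k => V (k + 1)) h1 γ j x]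

lemma P2_conv {a : ℂ} {V : ℕ → TT → ℂ} {β γ : ℕ → ℂ} (hV : Sq S w μ a V β) (hS : IsPre S)
    (hγ : Summable fun k => ‖γ k‖) :
    Sq S w μ a (fun j x => ∑ q ∈ Finset.HasAntidiagonal.antidiagonal j, γ q.1 * V q.2 x)
      fun j => ∑ q ∈ Finset.HasAntidiagonal.antidiagonal j, γ q.1 * β q.2 := by
  obtain ⟨hH, h0, h1, hn, hβ, hr⟩ := hV
  have hm : ∀ k, MemLp (V k) 2 mm := fun k => P2_mem (hH k)
  refine ⟨fun k => ?_, fun x => ?_, fun x => ?_, ?_, ?_, fun j Y hY => ?_⟩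
  · simp only [map_sum, map_mul]
    exact P2_isH0_sum _ (fun (q : ℕ × ℕ) x => conj (γ q.1) * conj (V q.2 x))
      fun q => (hH q.2).const_mul _
  · simp [h0]
  · refine (P2_shift h0 γ 0 x).trans ?_
    simp [h1]
  · have hc0 : nn (V 0) = 0 := by simp [nn, h0]
    have h2 := (P2_null (a := fun k => ‖γ k‖) (by simpa using hγ) hn hc0).const_mul (∑' k, ‖γ k‖)
    rw [mul_zero] at h2
    refine squeeze_zero (fun k => nn_nonneg _) (fun k => ?_) h2
    refine (P2_nn_sum (Finset.HasAntidiagonal.antidiagonal k) (fun q => γ q.1) (fun q => V q.2)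
      fun q => hm q.2).trans ?_
    refine mul_le_mul_of_nonneg_right ?_
      (Finset.sum_nonneg fun q _ => mul_nonneg (norm_nonneg _) (nn_nonneg _))
    rw [Finset.Nat.sum_antidiagonal_eq_sum_range_succ (fun i _ => ‖γ i‖) k]
    exact hγ.sum_le_tsum _ fun i _ => norm_nonneg _
  · exact summable_norm_sum_mul_antidiagonal_of_summable_norm hγ hβ
  · simp only [P2_shift2 h0 h1, P2_shift h0]
    rw [P2_int_sum _ (fun q : ℕ × ℕ => γ q.1) (fun q => V (q.2 + 1)) hY.1 fun q => hm _,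
      P2_int_sum _ (fun q : ℕ × ℕ => γ q.1) (fun q x => V q.2 (S x)) hY.1
        fun q => hS.memLp (hm _),
      P2_int_sum _ (fun q : ℕ × ℕ => γ q.1) (fun q => V (q.2 + 2)) (hS.memLp hY.1) fun q => hm _,
      Finset.mul_sum, Finset.mul_sum, Finset.mul_sum, Finset.mul_sum, Finset.sum_mul,
      ← Finset.sum_sub_distrib, ← Finset.sum_sub_distrib]
    refine Finset.sum_congr rfl fun q _ => ?_
    linear_combination γ q.1 * hr q.2 Y hY

lemma P2_sub {a : ℂ} {V V' : ℕ → TT → ℂ} {β : ℕ → ℂ} (hV : Sq S w μ a V β)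
    (hV' : Sq S w μ a V' β) (hS : IsPre S) :
    Sq S w μ a (fun j x => V j x - V' j x) fun _ => 0 := by
  obtain ⟨hH, h0, h1, hn, -, hr⟩ := hV
  obtain ⟨hH', h0', h1', hn', -, hr'⟩ := hV'
  have hm : ∀ k, MemLp (V k) 2 mm := fun k => P2_mem (hH k)
  have hm' : ∀ k, MemLp (V' k) 2 mm := fun k => P2_mem (hH' k)
  refine ⟨fun k => ?_, fun x => ?_, fun x => ?_, ?_, ?_, fun j Y hY => ?_⟩
  · simp only [map_sub]
    exact (hH k).sub (hH' k)
  · simp [h0, h0']
  · simp [h1, h1']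
  · have h2 := (hn.const_mul 2).add (hn'.const_mul 2)
    rw [mul_zero, add_zero] at h2
    refine squeeze_zero (fun k => nn_nonneg _) (fun k => ?_) h2
    have i1 := (integrable_normsq (hm k)).const_mul 2
    have i2 := (integrable_normsq (hm' k)).const_mul 2
    unfold nn
    rw [← integral_const_mul, ← integral_const_mul, ← integral_add i1 i2]
    refine integral_mono_of_nonneg (Eventually.of_forall fun x => by positivity) (i1.add i2)
      (Eventually.of_forall fun x => ?_)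
    have h3 := pow_le_pow_left₀ (norm_nonneg _) (norm_sub_le (V k x) (V' k x)) 2
    beta_reduce
    linarith only [h3, sq_nonneg (‖V k x‖ - ‖V' k x‖), sq_nonneg (‖V k x‖ - ‖V' k x‖)]
  · simp
  · have hYS := hS.memLp hY.1
    simp only [mul_sub]
    rw [integral_sub (integrable_mul2 hY.1 (hm _)) (integrable_mul2 hY.1 (hm' _)),
      integral_sub (integrable_mul2 hY.1 (hS.memLp (hm _))) (integrable_mul2 hY.1 (hS.memLp (hm' _))),
      integral_sub (integrable_mul2 hYS (hm _)) (integrable_mul2 hYS (hm' _))]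
    linear_combination hr j Y hY - hr' j Y hY

lemma Sq.conv {a : ℂ} {V V' : ℕ → TT → ℂ} {β β' : ℕ → ℂ} (hV : Sq S w μ a V β)
    (hV' : Sq S w μ a V' β') (h : Ext φ S w μ G r) (j : ℕ) (h0 : ∀ i < j, β i = 0 ∧ β' i = 0) :
    ∀ᵐ x ∂mm, β' j * V 2 x = β j * V' 2 x := by
  have hP := h.bd.isPre
  have h1 := P2_conv hV hP hV'.2.2.2.2.1
  have h2 := P2_conv hV' hP hV.2.2.2.2.1
  have e : (fun j => ∑ q ∈ Finset.HasAntidiagonal.antidiagonal j, β q.1 * β' q.2) =
      fun j => ∑ q ∈ Finset.HasAntidiagonal.antidiagonal j, β' q.1 * β q.2 := by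
    funext k
    rw [← Finset.Nat.sum_antidiagonal_swap]
    exact Finset.sum_congr rfl fun q _ => mul_comm _ _
  rw [e] at h2
  have key : ∀ (γ : ℕ → ℂ) (U : ℕ → TT → ℂ) (x : TT), (∀ i < j, γ i = 0) →
      ∑ q ∈ Finset.HasAntidiagonal.antidiagonal j, γ q.1 * U (q.2 + 2) x = γ j * U 2 x := by
    intro γ U x hγ
    rw [Finset.sum_eq_single (j, 0)]
    · intro q hq hne
      rw [Finset.HasAntidiagonal.mem_antidiagonal] at hq
      have hlt : q.1 < j := by
        by_contra hh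
        exact hne (Prod.ext (by show q.1 = j; omega) (by show q.2 = 0; omega))
      rw [hγ _ hlt, zero_mul]
    · intro hh
      exact absurd (Finset.HasAntidiagonal.mem_antidiagonal.2 (add_zero j)) hh
  filter_upwards [(P2_sub h1 h2 hP).zero h (j + 2)] with x hx
  rw [P2_shift2 hV.2.1 hV.2.2.1, P2_shift2 hV'.2.1 hV'.2.2.1, key β' V x fun i hi => (h0 i hi).2,
    key β V' x fun i hi => (h0 i hi).1] at hx
  exact sub_eq_zero.1 hx

end Pool.Agent.Work.MP_f96e05_an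
end

-- merged part: Pool.Agent.Work.MP_f96e05_an.FS.P3
section
/-!
The one-pole theorem.

PLAN. `isH_of_big`: `F = H + V` with `IsH0 (conj V)`; `(ee ∘ S - p) V ∈ IsH`, so `∫ ‖V‖ ^ 2 * ee (S x) = p * nn V`; real part against `conj p`: `V = 0` or `ee ∘ S = p` where `V ≠ 0`, that is a.e.
(`IsH.ae_ne_zero`), and then `φ 0 = p` (`IsBdry.pow`), absurd. `Pc.comp_mul`: `IsL.comp_mul`. `exists_p`: `β π k = ∫ G * π ∘ S^[k]`. If all `β π k` vanish, `Sq.zero` gives `G π ∈ IsH`, take `p = 0`. Otherwise let `j` be least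
(`Nat.find`) such that `β π₀ j ≠ 0` for some `π₀`; `Sq.conv` gives `β π₀ j * G π - β π j * G π₀ ∈ IsH`; apply it to `π₁ = ee ∘ S * π₀` (again `Pd`): `p = β π₁ j / β π₀ j`; if `1 ≤ ‖p‖` use `isH_of_big` and `p = 0`.
`exists_pp`: `π ε = π * (1 / (1 - I * (ε * X (S x)))) ^ 2` is `Pd` (`hb_inv`, `Lev.hol`, `Lev0.iter`, `sum_inv_le`, dominated convergence); `ε = 1 / (j + 1)`, `IsH.of_tendsto`; multiply by `1 / (1 - conj p * ee ∘ S)`.
-/

set_option autoImplicit false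

open MeasureTheory Filter Topology Complex Metric
open scoped ComplexConjugate InnerProductSpace

namespace Pool.Agent.Work.MP_f96e05_an

variable {φ : ℂ → ℂ} {S : TT → TT} {ω μ p z : ℂ} {w b : ℝ} {F G F' G' u v χ l π : TT → ℂ}
  {r X : TT → ℝ} {σ : ℂ → ℂ}

lemma P3_pt {e p : ℂ} (y : ℂ) (he : ‖e‖ = 1) (hp : 1 ≤ ‖p‖) :
    ‖(e - p) * y‖ ^ 2 ≤ (-2 * conj p * (y * ((e - p) * conj y))).re := by
  have h1 : e.re * e.re + e.im * e.im = 1 := by
    rw [← normSq_apply, normSq_eq_norm_sq, he, one_pow]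
  have h2 : 1 ≤ p.re * p.re + p.im * p.im := by
    rw [← normSq_apply, normSq_eq_norm_sq]
    exact one_le_pow₀ hp
  have h3 : 0 ≤ y.re * y.re + y.im * y.im := add_nonneg (mul_self_nonneg _) (mul_self_nonneg _)
  have h4 := congrArg (fun t => (y.re * y.re + y.im * y.im) * t) h1
  have h5 := mul_le_mul_of_nonneg_left h2 h3
  rw [← normSq_eq_norm_sq]
  simp only [normSq_apply, mul_re, mul_im, sub_re, sub_im, conj_re, conj_im, neg_re, neg_im,
    re_ofNat, im_ofNat] at h4 ⊢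
  linarith only [h4, h5]

lemma P3_ee : IsH ee ∧ Bd ee :=
  ⟨by simpa using isH_ee_pow 1, ee_cont.aestronglyMeasurable, 1,
    Eventually.of_forall fun x => (ee_norm x).le⟩

lemma P3_u (h : IsSys S) (p : ℂ) : IsH (fun x => ee (S x) - p) ∧ Bd fun x => ee (S x) - p :=
  ⟨(h.presH _ P3_ee.1).sub (isH_const p), (P3_ee.2.comp h.toIsPre).sub (bd_const p)⟩

lemma P3_mulp (h : IsSys S) (hF : IsH F) (p : ℂ) : IsH fun x => F x * (ee (S x) - p) :=
  ((P3_u h p).1.mul_bd (P3_u h p).2 hF).congr (Eventually.of_forall fun _ => mul_comm _ _)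

lemma isH_of_big (h : IsBdry φ S) (hF : MemLp F 2 mm) (hp : 1 ≤ ‖p‖)
    (hH : IsH fun x => F x * (ee (S x) - p)) : IsH F := by
  obtain ⟨Y, K, hY, hK, e⟩ := exists_decomp (memLp_conj hF)
  obtain ⟨hu, hb⟩ := P3_u h.isSys p
  have e' : ∀ᵐ x ∂mm, F x = conj (Y x) + K x := by
    filter_upwards [e] with x hx
    rw [← conj_conj (F x), hx, map_add, conj_conj]
  have h1 : IsH fun x => (ee (S x) - p) * conj (Y x) := by
    refine (hH.sub (hu.mul_bd hb hK)).congr ?_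
    filter_upwards [e'] with x hx
    rw [hx]
    ring
  have h2 := integral_mul_eq_zero hY h1
  have i2 := (integrable_mul2 hY.1 h1.1).const_mul (-2 * conj p)
  have hT := hb.mul_memLp hY.1
  have h3 : ∫ x, ‖(ee (S x) - p) * Y x‖ ^ 2 ∂mm ≤
      ∫ x, (-2 * conj p * (Y x * ((ee (S x) - p) * conj (Y x)))).re ∂mm :=
    integral_mono (integrable_normsq hT) i2.re fun x => P3_pt (Y x) (ee_norm _) hp
  have h4 : ∫ x, (-2 * conj p * (Y x * ((ee (S x) - p) * conj (Y x)))).re ∂mm = 0 := by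
    have := integral_re i2
    rw [integral_const_mul, h2, mul_zero] at this
    exact this
  have h5 := ae_zero_of_normsq hT (le_antisymm (h3.trans h4.le)
    (integral_nonneg fun x => by positivity))
  have h6 : ¬ ∀ᵐ x ∂mm, ee (S x) - p = 0 := by
    intro h7
    have h8 : (fun x => ee (S x) ^ 1) =ᵐ[mm] fun _ => p := by
      filter_upwards [h7] with x hx
      rw [pow_one, sub_eq_zero.1 hx]
    have h0 : ‖(0 : ℂ)‖ < 1 := by simp
    have h9 := (h.pow 1).2 0 h0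
    rw [ev_congr h8, ev_const p h0, pow_one] at h9
    have := h.norm_lt h0
    rw [← h9] at this
    linarith
  refine hK.congr ?_
  filter_upwards [e', h5, hu.ae_ne_zero h6] with x k1 k2 k3
  rw [k1, (mul_eq_zero.1 k2).resolve_left k3, map_zero, zero_add]

lemma Pc.comp_mul (hπ : Pc S G π) (h : IsSys S) (hu : IsH u) (hb : Bd u) :
    Pc S G fun x => u (S x) * π x := by
  obtain ⟨h1, h2, F', h3, h4⟩ := hπ
  have hc := hb.comp h.toIsPre
  refine ⟨hc.mul h1, ((h.presH u hu).mul_bd hc h2).congr (Eventually.of_forall fun x => ?_),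
    fun x => u x * F' x, (h3.comp_mul h.toIsPre hb).congr (Eventually.of_forall fun x => ?_)
      (Eventually.of_forall fun _ => rfl), hu.mul_bd hb h4⟩
  · exact mul_left_comm _ _ _
  · exact mul_left_comm _ _ _

lemma P3_pd (hπ : Pd S G π) (h : IsSys S) : Pd S G fun x => ee (S x) * π x := by
  have e : ∀ (k : ℕ) (x : TT),
      ‖G x * (ee (S (S^[k] x)) * π (S^[k] x))‖ = ‖G x * π (S^[k] x)‖ := fun k x => by
    rw [norm_mul, norm_mul, ee_norm, one_mul, norm_mul]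
  refine ⟨hπ.1.comp_mul h P3_ee.1 P3_ee.2, ?_, ?_⟩
  · have := hπ.2.1
    unfold nn at this ⊢
    simpa only [e] using this
  · simpa only [e] using hπ.2.2

lemma Ext.exists_p (h : Ext φ S w μ G r) :
    ∃ p : ℂ, ‖p‖ < 1 ∧ ∀ π, Pd S G π → IsH fun x => G x * π x * (ee (S x) - p) := by
  classical
  have hS := h.bd.isSys
  have h00 : ‖(0 : ℂ)‖ < 1 := by simp
  by_cases hz : ∃ j : ℕ, ∃ π₀, Pd S G π₀ ∧ ∫ x, G x * π₀ (S^[j] x) ∂mm ≠ 0
  · obtain ⟨π₀, h0, hne⟩ := Nat.find_spec hz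
    have hlt : ∀ π, Pd S G π → ∀ i < Nat.find hz, ∫ x, G x * π (S^[i] x) ∂mm = 0 := by
      intro π hπ i hi
      by_contra hc
      exact Nat.find_min hz hi ⟨π, hπ, hc⟩
    obtain ⟨V₀, hV₀, hH₀⟩ := h0.exists_sq h
    obtain ⟨β₀, hβ₀⟩ : ∃ β₀, β₀ = ∫ x, G x * π₀ (S^[Nat.find hz] x) ∂mm := ⟨_, rfl⟩
    have key : ∀ π, Pd S G π → ∃ β : ℂ, IsH fun x => β₀ * (G x * π x) - β * (G x * π₀ x) := by
      intro π hπ
      obtain ⟨V, hV, hH⟩ := hπ.exists_sq h
      have hc := hV.conv hV₀ h (Nat.find hz) fun i hi => ⟨hlt π hπ i hi, hlt π₀ h0 i hi⟩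
      refine ⟨∫ x, G x * π (S^[Nat.find hz] x) ∂mm, ((hH.const_mul β₀).sub
        (hH₀.const_mul (∫ x, G x * π (S^[Nat.find hz] x) ∂mm))).congr ?_⟩
      filter_upwards [hc] with x hx
      rw [← hβ₀] at hx
      linear_combination -hx
    rw [← hβ₀] at hne
    obtain ⟨β₁, h1⟩ := key _ (P3_pd h0 hS)
    have h2 : IsH fun x => G x * π₀ x * (ee (S x) - β₁ / β₀) := by
      refine (h1.const_mul β₀⁻¹).congr (Eventually.of_forall fun x => ?_)
      field_simp
    have h3 : ∀ π, Pd S G π → IsH fun x => G x * π x * (ee (S x) - β₁ / β₀) := by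
      intro π hπ
      obtain ⟨β, hβ⟩ := key π hπ
      refine (((P3_mulp hS hβ (β₁ / β₀)).add (h2.const_mul β)).const_mul β₀⁻¹).congr
        (Eventually.of_forall fun x => ?_)
      field_simp
      ring
    by_cases hp : ‖β₁ / β₀‖ < 1
    · exact ⟨_, hp, h3⟩
    · refine ⟨0, h00, fun π hπ => P3_mulp hS ?_ 0⟩
      obtain ⟨F', hF', -⟩ := hπ.1.2.2
      exact isH_of_big h.bd hF'.1 (not_lt.1 hp) (h3 π hπ)
  · refine ⟨0, h00, fun π hπ => P3_mulp hS ?_ 0⟩
    obtain ⟨V, hV, hH⟩ := hπ.exists_sq h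
    have e : (fun k => ∫ x, G x * π (S^[k] x) ∂mm) = fun _ => 0 := by
      funext k
      by_contra hc
      exact hz ⟨k, π, hπ, hc⟩
    rw [e] at hV
    refine hH.congr ?_
    filter_upwards [hV.zero h 2] with x hx
    rw [hx, sub_zero]

lemma P3_step {c : ℝ} (hc : 0 < c) (t : ℝ) :
    1 / (1 + t ^ 2) ≤ 2 * (1 + c ^ 2) / c * (Real.arctan (t + c) - Real.arctan t) := by
  obtain ⟨ξ, ⟨h1, h2⟩, h3⟩ := exists_hasDerivAt_eq_slope Real.arctan (fun x => 1 / (1 + x ^ 2))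
    (show t < t + c by linarith) Real.continuous_arctan.continuousOn
    fun x _ => Real.hasDerivAt_arctan x
  rw [add_sub_cancel_left, eq_div_iff hc.ne'] at h3
  have h4 : (ξ - t) ^ 2 ≤ c ^ 2 := pow_le_pow_left₀ (by linarith) (by linarith) 2
  have h5 : 1 + ξ ^ 2 ≤ 2 * (1 + c ^ 2) * (1 + t ^ 2) := by
    linarith only [h4, sq_nonneg (ξ - 2 * t), mul_nonneg (sq_nonneg c) (sq_nonneg t), sq_nonneg (ξ - (2 : ℝ) * t), sq_nonneg c, sq_nonneg t]
  rw [← h3, show 2 * (1 + c ^ 2) / c * (1 / (1 + ξ ^ 2) * c) = 2 * (1 + c ^ 2) / (1 + ξ ^ 2) by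
    field_simp, div_le_div_iff₀ (by positivity) (by positivity), one_mul]
  exact h5

lemma P3_sum {c : ℝ} (hc : 0 < c) :
    ∃ C : ℝ, ∀ (x : ℝ) (N : ℕ), ∑ k ∈ Finset.range N, 1 / (1 + (x + k * c) ^ 2) ≤ C := by
  refine ⟨2 * (1 + c ^ 2) / c * Real.pi, fun x N => ?_⟩
  refine (Finset.sum_le_sum fun (k : ℕ) _ => P3_step hc (x + k * c)).trans ?_
  rw [← Finset.mul_sum]
  refine mul_le_mul_of_nonneg_left ?_ (by positivity)
  have e := Finset.sum_range_sub (fun k : ℕ => Real.arctan (x + k * c)) N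
  simp only [Nat.cast_add, Nat.cast_one, add_mul, one_mul, ← add_assoc, Nat.cast_zero, zero_mul,
    add_zero] at e
  rw [e]
  linarith only [Real.arctan_lt_pi_div_two (x + N * c), Real.neg_pi_div_two_lt_arctan x]

lemma sum_inv_le {c : ℝ} (hc : c ≠ 0) :
    ∃ C : ℝ, ∀ (x : ℝ) (N : ℕ), ∑ k ∈ Finset.range N, 1 / (1 + (x + k * c) ^ 2) ≤ C := by
  rcases hc.lt_or_gt with h | h
  · obtain ⟨C, hC⟩ := P3_sum (neg_pos.2 h)
    refine ⟨C, fun x N => le_trans (le_of_eq (Finset.sum_congr rfl fun k _ => ?_)) (hC (-x) N)⟩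
    ring
  · exact P3_sum h

lemma P3_decay {T : ℕ → TT → ℂ} {a : ℕ → TT → ℝ} {C : ℝ} (hT : ∀ k, MemLp (T k) 2 mm)
    (hG : MemLp G 2 mm) (h0 : ∀ k x, 0 ≤ a k x) (hC : ∀ x N, ∑ k ∈ Finset.range N, a k x ≤ C)
    (hle : ∀ k, ∀ᵐ x ∂mm, ‖T k x‖ ≤ a k x * ‖G x‖) :
    Tendsto (fun k => nn (T k)) atTop (𝓝 0) ∧ Summable fun k => ∫ x, ‖T k x‖ ∂mm := by
  have h1 : ∀ k x, a k x ≤ C := fun k x =>
    (Finset.single_le_sum (f := fun k => a k x) (fun i _ => h0 i x)
      (Finset.self_mem_range_succ k)).trans (hC x (k + 1))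
  constructor
  · have := tendsto_integral_of_dominated_convergence (μ := mm) (F := fun k x => ‖T k x‖ ^ 2)
      (f := fun _ => (0 : ℝ)) (fun x => C ^ 2 * ‖G x‖ ^ 2)
      (fun k => (integrable_normsq (hT k)).1) ((integrable_normsq hG).const_mul _)
      (fun k => by
        filter_upwards [hle k] with x hx
        rw [Real.norm_of_nonneg (by positivity), ← mul_pow]
        exact pow_le_pow_left₀ (norm_nonneg _)
          (hx.trans (mul_le_mul_of_nonneg_right (h1 k x) (norm_nonneg _))) 2)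
      (by
        filter_upwards [ae_all_iff.2 hle] with x hx
        have h2 := (summable_of_sum_range_le (fun k => h0 k x) (hC x)).tendsto_atTop_zero
        have h3 : Tendsto (fun k => ‖T k x‖) atTop (𝓝 0) :=
          squeeze_zero (fun k => norm_nonneg _) hx (by simpa using h2.mul_const ‖G x‖)
        simpa using h3.pow 2)
    rwa [integral_zero] at this
  · refine summable_of_sum_range_le (c := ∫ x, C * ‖G x‖ ∂mm)
      (fun k => integral_nonneg fun x => norm_nonneg _) fun N => ?_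
    have i1 : ∀ k, Integrable (fun x => ‖T k x‖) mm := fun k => (integrable_of_memLp (hT k)).norm
    rw [← integral_finsetSum _ fun k _ => i1 k]
    refine integral_mono_ae (integrable_finsetSum _ fun k _ => i1 k)
      ((integrable_of_memLp hG).norm.const_mul C) ?_
    filter_upwards [ae_all_iff.2 hle] with x hx
    refine (Finset.sum_le_sum fun k _ => hx k).trans ?_
    rw [← Finset.sum_mul]
    exact mul_le_mul_of_nonneg_right (hC x N) (norm_nonneg _)

lemma P3_norm (ε t : ℝ) : ‖(1 / (1 - I * (ε * t)) : ℂ) ^ 2‖ = 1 / (1 + (ε * t) ^ 2) := by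
  rw [norm_pow, norm_div, norm_one, div_pow, one_pow, ← normSq_eq_norm_sq, normSq_apply]
  simp
  ring

lemma P3_reg (h : Ext φ S w μ G r) (hL : Lev φ S ω X b σ) (hb : b ≠ 0) (hπ : Pc S G π) {ε : ℝ}
    (hε : 0 < ε) : Pd S G fun x => (1 / (1 - I * (ε * X (S x)))) ^ 2 * π x := by
  have hS := h.bd.isSys
  have hu := (hL.hol _ (hb_inv hε.le 2)).1
  have hB : Bd fun x => (1 / (1 - I * (ε * X x)) : ℂ) ^ 2 :=
    ⟨hu.1.1, 1, Eventually.of_forall fun x => by
      rw [P3_norm, div_le_one (by positivity)]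
      linarith only [sq_nonneg (ε * X x)]⟩
  have hc := hπ.comp_mul hS hu hB
  obtain ⟨C, hC⟩ := sum_inv_le (mul_ne_zero hε.ne' hb)
  obtain ⟨K, hK⟩ := hπ.1.2
  refine ⟨hc, P3_decay (G := G) (C := max K 0 * C)
    (a := fun k x => max K 0 * (1 / (1 + (ε * X x + ε * b + k * (ε * b)) ^ 2)))
    (fun k => ?_) h.isH.1 (fun k x => by positivity) (fun x N => ?_) fun k => ?_⟩
  · exact (memLp_congr_ae (Eventually.of_forall fun x => mul_comm _ _)).1
      ((hc.1.comp (hS.toIsPre.iter k)).mul_memLp h.isH.1)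
  · rw [← Finset.mul_sum]
    exact mul_le_mul_of_nonneg_left (hC _ N) (le_max_right _ _)
  · filter_upwards [(hS.toIsPre.iter k).ae hK, hL.toLev0.iter hS.toIsPre (k + 1)] with x k1 k2
    rw [Function.iterate_succ_apply'] at k2
    rw [norm_mul, norm_mul, P3_norm, k2, mul_comm, mul_comm (max K 0)]
    refine mul_le_mul_of_nonneg_right ?_ (norm_nonneg _)
    refine mul_le_mul (le_of_eq ?_) (k1.trans (le_max_left _ _)) (norm_nonneg _) (by positivity)
    push_cast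
    ring

lemma Ext.exists_pp (h : Ext φ S w μ G r) (hL : Lev φ S ω X b σ) (hb : b ≠ 0) : ∃ p, PP S G p := by
  obtain ⟨p, hp, hP⟩ := h.exists_p
  have hS := h.bd.isSys
  refine ⟨p, hp, fun π hπ => ?_⟩
  have hε : ∀ j : ℕ, (0 : ℝ) < 1 / ((j : ℝ) + 1) := fun j => by positivity
  obtain ⟨F', hF', -⟩ := hπ.2.2
  have hB : MemLp (fun x => G x * π x * (ee (S x) - p)) 2 mm :=
    (memLp_congr_ae (Eventually.of_forall fun x => mul_comm _ _)).1
      ((P3_u hS p).2.mul_memLp hF'.1)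
  have h1 : IsH fun x => G x * π x * (ee (S x) - p) := by
    refine (IsH.of_tendsto (fun j => hP _ (P3_reg h hL hb hπ (hε j))) hB
      (fun j => Eventually.of_forall fun x => ?_) (Eventually.of_forall fun x => ?_)).1
    · simp only [norm_mul]
      refine mul_le_mul_of_nonneg_right (mul_le_mul_of_nonneg_left
        (mul_le_of_le_one_left (norm_nonneg _) ?_) (norm_nonneg _)) (norm_nonneg _)
      rw [P3_norm, div_le_one (by positivity)]
      linarith only [sq_nonneg (1 / ((j : ℝ) + 1) * X (S x))]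
    · have c1 : ContinuousAt (fun ε : ℝ =>
          G x * ((1 / (1 - I * (ε * X (S x)))) ^ 2 * π x) * (ee (S x) - p)) 0 := by
        have : (1 : ℂ) - I * (((0 : ℝ) : ℂ) * X (S x)) ≠ 0 := by simp
        fun_prop (disch := exact this)
      have c2 := c1.tendsto.comp tendsto_one_div_add_atTop_nhds_zero_nat
      simpa [Function.comp_def] using c2
  obtain ⟨b1, -, b2, -⟩ := bl_isH hp
  have hu : IsH fun x => (1 - conj p * p)⁻¹ * (1 + conj p * bl p (ee (S x))) :=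
    ((isH_const 1).add ((hS.presH _ b1).const_mul _)).const_mul _
  have hv : Bd fun x => (1 - conj p * p)⁻¹ * (1 + conj p * bl p (ee (S x))) :=
    (bd_const _).mul ((bd_const 1).add ((bd_const _).mul (b2.comp hS.toIsPre)))
  refine (hu.mul_bd hv h1).congr (Eventually.of_forall fun x => ?_)
  have d1 := den_ne hp hp
  have d2 := den_ne' hp (ee_norm (S x)).le
  simp only [bl]
  field_simp
  ring

end Pool.Agent.Work.MP_f96e05_an
end

-- merged part: Pool.Agent.Work.MP_f96e05_an.FS.S1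
section
/-!
Julia-Caratheodory estimate in the half-plane.

PLAN. `pick`: Schwarz lemma (`Complex.norm_le_norm_of_mapsTo_ball_self` or `schwarz_pick`) for `ζ ↦ (f (U ζ) - f u₀) / (f (U ζ) - conj (f u₀))`, `U ζ = (u₀ - conj u₀ * ζ) / (1 - ζ)`, first for `f + I η`;
`‖a - conj b‖ ^ 2 = ‖a - b‖ ^ 2 + 4 * a.im * b.im`. `jc`: fix `u₀` with small ratio; on the ball `u.im ≥ Y / 4`, `‖u - u₀‖ ≤ 2 Y`, so `‖f u - f u₀‖ ^ 2 ≤ 16 ε' Y ‖f u‖`.
`jc_lip`: Cauchy estimate on circles of radius `Y / 4` (`Complex.norm_deriv_le_of_forall_mem_sphere_norm_le`), `Convex.norm_image_sub_le_of_norm_deriv_le`.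
-/

set_option autoImplicit false

open MeasureTheory Filter Topology Complex Metric
open scoped ComplexConjugate InnerProductSpace

namespace Pool.Agent.Work.MP_f96e05_an

variable {f : ℂ → ℂ}

lemma S1_id (a b : ℂ) : ‖a - conj b‖ ^ 2 = ‖a - b‖ ^ 2 + 4 * (a.im * b.im) := by
  simp only [Complex.sq_norm, normSq_apply, sub_re, sub_im, conj_re, conj_im]
  ring

lemma S1_ne {a b : ℂ} (ha : 0 ≤ a.im) (hb : 0 < b.im) : a - conj b ≠ 0 := fun h => by
  have := congrArg Complex.im h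
  rw [sub_im, conj_im, zero_im] at this
  linarith

lemma S1_pick (hf : DifferentiableOn ℂ f {u | 0 < u.im}) (h0 : ∀ u : ℂ, 0 < u.im → 0 ≤ (f u).im)
    {u u₀ : ℂ} (hu : 0 < u.im) (hu₀ : 0 < u₀.im) (h1 : 0 < (f u₀).im) :
    ‖f u - f u₀‖ ^ 2 * (u.im * u₀.im) ≤ ‖u - u₀‖ ^ 2 * ((f u).im * (f u₀).im) := by
  let U : ℂ → ℂ := fun ζ => (u₀ - conj u₀ * ζ) / (1 - ζ)
  have hne : ∀ ζ ∈ ball (0 : ℂ) 1, 1 - ζ ≠ 0 := fun ζ hζ h => by
    rw [← sub_eq_zero.1 h] at hζ
    simp at hζ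
  have hU : ∀ ζ ∈ ball (0 : ℂ) 1, 0 < (U ζ).im := fun ζ hζ => by
    have h2 : normSq ζ < 1 := by
      rw [← Complex.sq_norm]
      exact pow_lt_one₀ (norm_nonneg _) (mem_ball_zero_iff.1 hζ) two_ne_zero
    have h3 : (U ζ).im = u₀.im * (1 - normSq ζ) / normSq (1 - ζ) := by
      simp only [U, div_im, normSq_apply ζ, sub_re, sub_im, mul_re, mul_im, conj_re, conj_im,
        one_re, one_im]
      ring
    rw [h3]
    exact div_pos (mul_pos hu₀ (sub_pos.2 h2)) (normSq_pos.2 (hne ζ hζ))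
  have hd : DifferentiableOn ℂ (fun ζ => f (U ζ)) (ball 0 1) :=
    hf.comp (DifferentiableOn.div (by fun_prop) (by fun_prop) hne) hU
  have a1 := S1_ne hu.le hu₀
  have a2 := S1_ne (h0 u hu) h1
  have a3 := S1_ne hu₀.le hu₀
  have b1 := S1_id u u₀
  have b2 := S1_id (f u) (f u₀)
  have h4 := norm_le_norm_of_mapsTo_ball (R := 1) (z := (u - u₀) / (u - conj u₀))
    (f := fun ζ => (f (U ζ) - f u₀) / (f (U ζ) - conj (f u₀)))
    ((hd.sub_const _).div (hd.sub_const _) fun ζ hζ => S1_ne (h0 _ (hU ζ hζ)) h1)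
    (fun ζ hζ => by
      rw [mem_closedBall_zero_iff, norm_div]
      refine div_le_one_of_le₀ (le_of_sq_le_sq ?_ (norm_nonneg _)) (norm_nonneg _)
      rw [S1_id]
      linarith [mul_nonneg (h0 _ (hU ζ hζ)) h1.le])
    (by simp [U]) (by
      rw [norm_div, div_lt_one (norm_pos_iff.2 a1)]
      refine lt_of_pow_lt_pow_left₀ 2 (norm_nonneg _) ?_
      linarith [mul_pos hu hu₀])
  have h5 : U ((u - u₀) / (u - conj u₀)) = u := by
    have h6 : 1 - (u - u₀) / (u - conj u₀) = (u₀ - conj u₀) / (u - conj u₀) := by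
      field_simp
      ring
    simp only [U]
    rw [h6]
    field_simp
    ring
  simp only [h5, norm_div] at h4
  rw [div_le_div_iff₀ (norm_pos_iff.2 a2) (norm_pos_iff.2 a1)] at h4
  have h7 := pow_le_pow_left₀ (by positivity) h4 2
  rw [mul_pow, mul_pow, b1, b2] at h7
  linarith only [h7]

lemma pick (hf : DifferentiableOn ℂ f {u | 0 < u.im}) (h0 : ∀ u : ℂ, 0 < u.im → 0 ≤ (f u).im)
    {u u₀ : ℂ} (hu : 0 < u.im) (hu₀ : 0 < u₀.im) :
    ‖f u - f u₀‖ ^ 2 * (u.im * u₀.im) ≤ ‖u - u₀‖ ^ 2 * ((f u).im * (f u₀).im) := by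
  have hc : Continuous fun η : ℝ => ‖u - u₀‖ ^ 2 * (((f u).im + η) * ((f u₀).im + η)) := by
    fun_prop
  have h1 := (hc.tendsto 0).mono_left (nhdsWithin_le_nhds (s := Set.Ioi 0))
  rw [add_zero, add_zero] at h1
  refine ge_of_tendsto h1 (eventually_nhdsWithin_of_forall fun η hη => ?_)
  have hη' : 0 < η := hη
  have e : ∀ v, (f v + η * I).im = (f v).im + η := fun v => by simp
  have h2 := S1_pick (f := fun v => f v + η * I) (hf.add_const _)
    (fun v hv => by rw [e]; linarith [h0 v hv]) hu hu₀ (by rw [e]; linarith [h0 u₀ hu₀])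
  rwa [add_sub_add_right_eq_sub, e, e] at h2

lemma S1_im {Y : ℝ} {u : ℂ} (hu : u ∈ closedBall (Y * I) (3 * Y / 4)) : Y / 4 ≤ u.im := by
  have h1 := (abs_le.1 ((abs_im_le_norm _).trans (mem_closedBall_iff_norm.1 hu))).1
  simp only [sub_im, mul_im, ofReal_re, ofReal_im, I_re, I_im] at h1
  linarith only [h1]

lemma jc (hf : DifferentiableOn ℂ f {u | 0 < u.im}) (h0 : ∀ u : ℂ, 0 < u.im → 0 ≤ (f u).im)
    (h1 : ∀ ε > 0, ∃ u : ℂ, 0 < u.im ∧ (f u).im ≤ ε * u.im) {ε : ℝ} (hε : 0 < ε) :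
    ∀ᶠ Y : ℝ in atTop, ∀ u ∈ closedBall (Y * I) (3 * Y / 4), ‖f u‖ ≤ ε * Y := by
  obtain ⟨u₀, hu₀, h2⟩ := h1 (ε / 64) (by positivity)
  filter_upwards [eventually_gt_atTop 0, eventually_ge_atTop (4 * ‖u₀‖),
    eventually_ge_atTop (2 * ‖f u₀‖ / ε)] with Y hY h3 h4 u hu
  have h5 := S1_im hu
  have h6 : 0 < u.im := by linarith only [hY, h5]
  have h7 : ‖u - u₀‖ ≤ 2 * Y := by
    have e1 := norm_sub_le_norm_sub_add_norm_sub u (Y * I) u₀
    have e2 := norm_sub_le (Y * I : ℂ) u₀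
    rw [norm_mul, norm_I, norm_real, Real.norm_of_nonneg hY.le] at e2
    linarith only [h3, e1, e2, hu, mem_closedBall_iff_norm.1 hu]
  have h8 : ‖f u - f u₀‖ ^ 2 * (Y / 4 * u₀.im) ≤ (2 * Y) ^ 2 * (‖f u‖ * (ε / 64 * u₀.im)) := by
    refine le_trans (by gcongr) ((pick hf h0 h6 hu₀).trans ?_)
    have e1 := h0 u h6
    have e2 := h0 u₀ hu₀
    gcongr
    exact im_le_norm _
  have h9 : ‖f u - f u₀‖ ^ 2 ≤ ε / 4 * Y * ‖f u‖ := by
    refine le_of_mul_le_mul_right (h8.trans (le_of_eq ?_)) (by positivity)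
    ring
  rw [div_le_iff₀ hε] at h4
  by_contra h
  have e1 := norm_sub_norm_le (f u) (f u₀)
  have e2 : ‖f u‖ / 2 ≤ ‖f u - f u₀‖ := by linarith only [h4, h, e1]
  have e3 := pow_le_pow_left₀ (by positivity) e2 2
  have e4 := mul_pos hε hY
  linarith only [h9, e3, h, e4, mul_pos_of_neg_of_neg (Mathlib.Tactic.Linarith.sub_neg_of_lt (lt_of_not_ge h)) (Mathlib.Tactic.Linarith.sub_neg_of_lt (lt_of_not_ge h)), mul_pos_of_neg_of_neg (Mathlib.Tactic.Linarith.sub_neg_of_lt (lt_of_not_ge h)) (Mathlib.Tactic.Linarith.sub_neg_of_lt e4)]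

lemma jc_lip (hf : DifferentiableOn ℂ f {u | 0 < u.im}) (h0 : ∀ u : ℂ, 0 < u.im → 0 ≤ (f u).im)
    (h1 : ∀ ε > 0, ∃ u : ℂ, 0 < u.im ∧ (f u).im ≤ ε * u.im) {ε : ℝ} (hε : 0 < ε) :
    ∀ᶠ Y : ℝ in atTop, ∀ u ∈ closedBall (Y * I) (Y / 2), ∀ u' ∈ closedBall (Y * I) (Y / 2),
      ‖f u - f u'‖ ≤ ε * ‖u - u'‖ := by
  filter_upwards [eventually_gt_atTop 0, jc hf h0 h1 (ε := ε / 4) (by positivity)]
    with Y hY h2 u hu u' hu'
  have h3 : ∀ v ∈ closedBall (Y * I : ℂ) (Y / 2),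
      closedBall v (Y / 4) ⊆ closedBall (Y * I) (3 * Y / 4) := fun v hv =>
    closedBall_subset_closedBall' (by linarith only [hv, mem_closedBall.1 hv])
  have h4 : ∀ v ∈ closedBall (Y * I : ℂ) (Y / 2), closedBall v (Y / 4) ⊆ {u | 0 < u.im} :=
    fun v hv z hz => lt_of_lt_of_le (by positivity) (S1_im (h3 v hv hz))
  refine (convex_closedBall _ _).norm_image_sub_le_of_norm_deriv_le (fun v hv =>
    hf.differentiableAt (mem_of_superset (closedBall_mem_nhds v (by positivity)) (h4 v hv)))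
    (fun v hv => ?_) hu' hu
  refine (norm_deriv_le_of_forall_mem_sphere_norm_le (by positivity)
    (hf.diffContOnCl_ball (h4 v hv)) fun z hz =>
      h2 z (h3 v hv (sphere_subset_closedBall hz))).trans (le_of_eq ?_)
  field_simp

end Pool.Agent.Work.MP_f96e05_an
end

-- merged part: Pool.Agent.Work.MP_f96e05_an.FS.S2
section
/-!
The dynamics in sectors.

PLAN. `sector`: `s = σ ∘ icay ω`, `τ = inf (s u).im / u.im ≥ 1` (`Lev.im`), `f = s - τ u` satisfies the hypotheses of `jc`. `Φ u = cay ω (φ (icay ω u))`, `g = Φ - id` has `im ≥ 0` (`Jul`), and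
`τ * im (Φ u) ≤ im (s (Φ u)) = im (s u)` (`Lev.abel`) gives `τ * im (g (Y I)) ≤ ‖f (Y I)‖ = o (Y)`; so `jc` applies to `g` and `Φ u ∈ closedBall (Y I) (Y / 2)` for `u ∈ closedBall (Y I) (Y / 4)`.
Then `‖b - τ d‖ ≤ ε ‖d‖` for `d = Φ u - u`. If `b = 0` then `d = 0` on a ball, so `φ = id` (identity theorem on `ball 0 1`, or on the half-plane).
`array`: induction on `k`: `‖W k m - (c + m I)‖ ≤ k (|b / τ| + 1)`; `σ (φ^[k] z) = σ z + k b`; `(9 / 8) τ ‖W - W'‖ ≥ ‖(k - k') b + τ (m - m') I‖ - |m - m'| / 8`.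
-/

set_option autoImplicit false

open MeasureTheory Filter Topology Complex Metric
open scoped ComplexConjugate InnerProductSpace

namespace Pool.Agent.Work.MP_f96e05_an

variable {φ : ℂ → ℂ} {S : TT → TT} {ω μ p z : ℂ} {w b : ℝ} {F G F' G' u v χ l π : TT → ℂ}
  {r X : TT → ℝ} {σ : ℂ → ℂ}

lemma Lev.sector (hL : Lev φ S ω X b σ) (h : IsBdry φ S) (hω : ‖ω‖ = 1) (hJ : Jul φ ω)
    (h0 : φ 0 ≠ 0) : b ≠ 0 ∧ ∃ τ : ℝ, 1 ≤ τ ∧ ∀ δ > 0, ∀ᶠ Y : ℝ in atTop,
      (∀ u ∈ closedBall (Y * I) (Y / 2), ∀ u' ∈ closedBall (Y * I) (Y / 2),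
        ‖σ (icay ω u) - σ (icay ω u') - τ * (u - u')‖ ≤ δ * ‖u - u'‖) ∧
      ∀ u ∈ closedBall (Y * I) (Y / 4), ‖psi φ ω (b / τ) (icay ω u)‖ ≤ δ := by
  have hmap : Set.MapsTo (icay ω) {u | 0 < u.im} (ball 0 1) := fun u hu => by
    simpa using icay_lt hω hu
  have hs : DifferentiableOn ℂ (fun u => σ (icay ω u)) {u | 0 < u.im} :=
    hL.diff.comp (icay_diff ω) hmap
  have hA : ∀ t ∈ {t : ℝ | ∃ u : ℂ, 0 < u.im ∧ t = (σ (icay ω u)).im / u.im}, 1 ≤ t := by
    rintro _ ⟨u, hu, rfl⟩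
    have := hL.im _ (icay_lt hω hu)
    rw [cay_icay hω hu] at this
    rwa [one_le_div hu]
  have hne : {t : ℝ | ∃ u : ℂ, 0 < u.im ∧ t = (σ (icay ω u)).im / u.im}.Nonempty :=
    ⟨_, I, by simp, rfl⟩
  obtain ⟨τ, hτ, t1, t2⟩ : ∃ τ : ℝ, 1 ≤ τ ∧ (∀ u : ℂ, 0 < u.im → τ * u.im ≤ (σ (icay ω u)).im) ∧
      ∀ ε > 0, ∃ u : ℂ, 0 < u.im ∧ (σ (icay ω u)).im ≤ (τ + ε) * u.im := by
    refine ⟨sInf _, le_csInf hne hA, fun u hu => ?_, fun ε hε => ?_⟩
    · rw [← le_div_iff₀ hu]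
      exact csInf_le ⟨1, hA⟩ ⟨u, hu, rfl⟩
    · obtain ⟨_, ⟨u, hu, rfl⟩, h2⟩ := exists_lt_of_csInf_lt hne (lt_add_of_pos_right _ hε)
      exact ⟨u, hu, (div_le_iff₀ hu).1 h2.le⟩
  have hg : DifferentiableOn ℂ (fun u => cay ω (φ (icay ω u)) - u) {u | 0 < u.im} :=
    (((cay_diff hω).comp h.diff h.maps).comp (icay_diff ω) hmap).sub differentiableOn_id
  have g0 : ∀ u : ℂ, 0 < u.im → 0 ≤ (cay ω (φ (icay ω u)) - u).im := fun u hu => by
    have := hJ _ (icay_lt hω hu)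
    rw [cay_icay hω hu] at this
    simpa using this
  have ab : ∀ u : ℂ, 0 < u.im → σ (icay ω (cay ω (φ (icay ω u)))) = σ (icay ω u) + b := fun u hu => by
    rw [icay_cay hω (h.norm_lt (icay_lt hω hu)), hL.abel _ (icay_lt hω hu)]
  have key : ∀ ε > 0, ε ≤ 1 / 2 → ∀ᶠ Y : ℝ in atTop,
      (∀ u ∈ closedBall (Y * I) (Y / 2), ∀ u' ∈ closedBall (Y * I) (Y / 2),
        ‖σ (icay ω u) - σ (icay ω u') - τ * (u - u')‖ ≤ ε * ‖u - u'‖) ∧
      ∀ u ∈ closedBall (Y * I) (Y / 4), ‖cay ω (φ (icay ω u)) - u - (b / τ : ℝ)‖ ≤ 2 * ε * |b| ∧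
        0 < u.im := fun ε hε hε' => by
    filter_upwards [jc_lip (f := fun u => σ (icay ω u) - τ * u) (hs.sub (by fun_prop))
      (fun u hu => by simpa using t1 u hu) (fun ε hε => (t2 ε hε).imp fun u hu =>
        ⟨hu.1, by have := hu.2; simp; linarith⟩) hε,
      jc hg g0 (fun ε hε => (t2 ε hε).imp fun u hu => ⟨hu.1, by
        have h1 := t1 _ (cay_pos hω (h.norm_lt (icay_lt hω hu.1)))
        have h2 := g0 u hu.1
        rw [ab u hu.1] at h1
        have := hu.2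
        simp only [sub_im, add_im, ofReal_im, add_zero] at h1 h2 ⊢
        linarith only [hu, h1, hτ, h2, mul_nonneg_of_nonpos_of_nonpos (Mathlib.Tactic.Linarith.sub_nonpos_of_le hτ) (Mathlib.Tactic.Linarith.sub_nonpos_of_le h2)]⟩) (show (0 : ℝ) < 1 / 4 by norm_num), eventually_gt_atTop 0] with Y h1 h2 hY
    replace h1 : ∀ u ∈ closedBall (Y * I) (Y / 2), ∀ u' ∈ closedBall (Y * I) (Y / 2),
        ‖σ (icay ω u) - σ (icay ω u') - τ * (u - u')‖ ≤ ε * ‖u - u'‖ := fun u hu u' hu' => by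
      convert h1 u hu u' hu' using 2
      ring
    refine ⟨h1, fun u hu => ?_⟩
    have hu0 : 0 < u.im := by
      rw [mem_closedBall, dist_eq_norm] at hu
      have := (abs_le.1 ((abs_im_le_norm _).trans hu)).1
      simp at this
      linarith only [hY, this]
    have h3 := h2 u (closedBall_subset_closedBall (by linarith only [hY]) hu)
    have h4 := h1 (cay ω (φ (icay ω u))) (by
      have := dist_triangle (cay ω (φ (icay ω u))) u (Y * I)
      rw [mem_closedBall] at hu ⊢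
      rw [dist_eq_norm _ u] at this
      linarith only [hu, h3, this]) u (closedBall_subset_closedBall (by linarith only [hY]) hu)
    rw [ab u hu0, add_sub_cancel_left] at h4
    refine ⟨?_, hu0⟩
    generalize cay ω (φ (icay ω u)) - u = d at *
    have h5 := norm_sub_norm_le (τ * d) (b : ℂ)
    rw [norm_sub_rev, norm_mul, norm_real, norm_real, Real.norm_eq_abs, Real.norm_eq_abs,
      abs_of_pos (by linarith only [hτ, hε, hε'])] at h5
    have h6 : ‖d‖ ≤ 2 * |b| := by (refine le_of_not_gt fun h_nl => ?_; linarith only [h_nl, h4, h5, hτ, hε, hε', norm_nonneg d, mul_nonneg_of_nonpos_of_nonpos (Mathlib.Tactic.Linarith.sub_nonpos_of_le hτ) (Mathlib.Tactic.Linarith.sub_nonpos_of_le (norm_nonneg d)), mul_pos_of_neg_of_neg (Mathlib.Tactic.Linarith.sub_neg_of_lt hε) (Mathlib.Tactic.Linarith.sub_neg_of_lt h_nl), mul_nonneg_of_nonpos_of_nonpos (Mathlib.Tactic.Linarith.sub_nonpos_of_le hε') (le_of_lt (Mathlib.Tactic.Linarith.sub_neg_of_lt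 h_nl)), mul_nonneg_of_nonpos_of_nonpos (Mathlib.Tactic.Linarith.sub_nonpos_of_le hε') (Mathlib.Tactic.Linarith.sub_nonpos_of_le (norm_nonneg d))])
    have h7 : (τ : ℂ) ≠ 0 := ofReal_ne_zero.2 (by linarith only [hτ, hε, hε'])
    rw [show d - (b / τ : ℝ) = -(b - τ * d) / τ by push_cast; field_simp; ring, norm_div, norm_neg,
      norm_real, Real.norm_eq_abs, abs_of_pos (by linarith only [hτ, hε, hε'])]
    refine (div_le_self (norm_nonneg _) hτ).trans (h4.trans ?_)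
    linarith only [hε, h6, mul_nonneg_of_nonpos_of_nonpos (le_of_lt (Mathlib.Tactic.Linarith.sub_neg_of_lt hε)) (Mathlib.Tactic.Linarith.sub_nonpos_of_le h6)]
  refine ⟨?_, τ, hτ, fun δ hδ => ?_⟩
  · rintro rfl
    obtain ⟨Y, h1, hY⟩ := ((key (1 / 2) (by norm_num) le_rfl).and (eventually_gt_atTop 0)).exists
    have ho : IsOpen {u : ℂ | 0 < u.im} := isOpen_lt continuous_const continuous_im
    have h2 := (hg.analyticOnNhd ho).eqOn_zero_of_preconnected_of_eventuallyEq_zero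
      (convex_halfSpace_im_gt 0).isPreconnected (z₀ := Y * I) (by simpa using hY) (by
        filter_upwards [closedBall_mem_nhds _ (show 0 < Y / 4 by positivity)] with u hu
        simpa using (h1.2 u hu).1) (show I ∈ {u : ℂ | 0 < u.im} by simp)
    have h3 : icay ω I = 0 := by simp [icay]
    simp only [h3, Pi.zero_apply, sub_eq_zero] at h2
    exact h0 (by rw [← icay_cay hω (h.norm_lt (z := 0) (by simp)), h2, h3])
  · have hb := abs_nonneg b
    filter_upwards [key (min (1 / 2) (δ / (2 * |b| + 1))) (by positivity) (min_le_left _ _)] with Y h1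
    have h2 : min (1 / 2) (δ / (2 * |b| + 1)) * (2 * |b| + 1) ≤ δ :=
      (le_div_iff₀ (by positivity)).1 (min_le_right _ _)
    have h3 : 0 ≤ min (1 / 2) (δ / (2 * |b| + 1)) := by positivity
    refine ⟨fun u hu u' hu' => (h1.1 u hu u' hu').trans ?_, fun u hu => ?_⟩
    · gcongr
      linarith only [h2, hb, h3, mul_nonneg_of_nonpos_of_nonpos (Mathlib.Tactic.Linarith.sub_nonpos_of_le hb) (Mathlib.Tactic.Linarith.sub_nonpos_of_le h3)]
    · unfold psi
      rw [cay_icay hω (h1.2 u hu).2]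
      exact (h1.2 u hu).1.trans (by linarith only [h2, h3])

lemma Lev.array (hL : Lev φ S ω X b σ) (h : IsBdry φ S) (hω : ‖ω‖ = 1) {τ Y : ℝ} {c : ℂ} {K : ℕ}
    (hτ : 1 ≤ τ) (hY : 0 < Y)
    (h1 : ∀ u ∈ closedBall (Y * I) (Y / 2), ∀ u' ∈ closedBall (Y * I) (Y / 2),
      ‖σ (icay ω u) - σ (icay ω u') - τ * (u - u')‖ ≤ 1 / 8 * ‖u - u'‖)
    (h2 : ∀ u ∈ closedBall (Y * I) (Y / 4), ‖psi φ ω (b / τ) (icay ω u)‖ ≤ 1)
    (hc : c ∈ closedBall (Y * I) (Y / 20)) (hK : K * (|b / τ| + 2) < Y / 160)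
    (W : ℕ → ℕ → ℂ) (hW : ∀ k m, W k m = cay ω (φ^[k] (icay ω (c + m * I)))) :
    (∀ k ≤ K, ∀ m ≤ K, W k m ∈ ball c (Y / 40 / 4)) ∧
      (∀ k ≤ K, ∀ m ≤ K, ∀ k' ≤ K, ∀ m' ≤ K,
        min 1 |b / τ| / 3 * (|(k : ℝ) - k'| + |(m : ℝ) - m'|) ≤ ‖W k m - W k' m'‖) ∧
      ∀ k < K, ∀ m ≤ K, ‖W (k + 1) m - W k m‖ ≤ |b / τ| + 1 := by
  have hβ := abs_nonneg (b / τ)
  rw [mem_closedBall, dist_eq_norm] at hc
  have nm : ∀ m : ℕ, ‖(m : ℂ) * I‖ = m := fun m => by simp
  have pos : ∀ m : ℕ, 0 < (c + m * I).im := fun m => by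
    have := (abs_le.1 ((abs_im_le_norm _).trans hc)).1
    have h5 : (0 : ℝ) ≤ m := by positivity
    simp at this ⊢
    linarith only [hY, this]
  have lt : ∀ k m, ‖φ^[k] (icay ω (c + (m : ℕ) * I))‖ < 1 := fun k m => by
    induction k with
    | zero => exact icay_lt hω (pos m)
    | succ k ih => rw [Function.iterate_succ_apply']; exact h.norm_lt ih
  have inv : ∀ k m, icay ω (W k m) = φ^[k] (icay ω (c + m * I)) := fun k m => by
    rw [hW, icay_cay hω (lt k m)]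
  have toB : ∀ u, ‖u - c‖ < Y / 160 → u ∈ closedBall (Y * I) (Y / 4) := fun u hu => by
    rw [mem_closedBall, dist_eq_norm]
    have := norm_add_le (u - c) (c - Y * I)
    rw [sub_add_sub_cancel] at this
    linarith only [hY, hc, hu, this]
  have step : ∀ k m, ‖W k m - c‖ < Y / 160 → ‖W (k + 1) m - W k m‖ ≤ |b / τ| + 1 := fun k m hk => by
    have h3 := h2 _ (toB _ hk)
    rw [inv] at h3
    have e : W (k + 1) m - W k m = psi φ ω (b / τ) (φ^[k] (icay ω (c + m * I))) + (b / τ : ℝ) := by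
      rw [hW, hW, Function.iterate_succ_apply', psi, sub_add_cancel]
    rw [e]
    refine (norm_add_le _ _).trans ?_
    rw [norm_real, Real.norm_eq_abs]
    linarith only [h3]
  have bd : ∀ m ≤ K, ∀ k ≤ K, ‖W k m - c‖ ≤ m + k * (|b / τ| + 1) := fun m hm k => by
    have hm' : (m : ℝ) ≤ K := by exact_mod_cast hm
    induction k with
    | zero => intro _; rw [hW, Function.iterate_zero_apply, cay_icay hω (pos m)]; simp
    | succ k ih =>
      intro hk
      have hk' : (k : ℝ) ≤ K := by exact_mod_cast (by omega)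
      have h3 := ih (by omega)
      have h4 := step k m (by linarith only [hK, hm', hk', h3, hβ, mul_nonneg_of_nonpos_of_nonpos (Mathlib.Tactic.Linarith.sub_nonpos_of_le hβ) (Mathlib.Tactic.Linarith.sub_nonpos_of_le hk')])
      have := norm_add_le (W (k + 1) m - W k m) (W k m - c)
      rw [sub_add_sub_cancel] at this
      push_cast
      linarith only [h3, h4, this]
  have bd' : ∀ k ≤ K, ∀ m ≤ K, ‖W k m - c‖ < Y / 160 := fun k hk m hm => by
    have hm' : (m : ℝ) ≤ K := by exact_mod_cast hm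
    have hk' : (k : ℝ) ≤ K := by exact_mod_cast hk
    have := bd m hm k hk
    linarith only [hK, hm', hk', this, hβ, mul_nonneg_of_nonpos_of_nonpos (Mathlib.Tactic.Linarith.sub_nonpos_of_le hβ) (Mathlib.Tactic.Linarith.sub_nonpos_of_le hk')]
  have ab : ∀ k m, σ (icay ω (W k m)) = σ (icay ω (c + m * I)) + k * b := fun k m => by
    rw [inv]
    induction k with
    | zero => simp
    | succ k ih => rw [Function.iterate_succ_apply', hL.abel _ (lt k m), ih]; push_cast; ring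
  refine ⟨fun k hk m hm => ?_, fun k hk m hm k' hk' m' hm' => ?_, fun k hk m hm =>
    step k m (bd' k hk.le m hm)⟩
  · rw [mem_ball, dist_eq_norm]
    linarith only [bd', hk, hm, bd' k hk m hm]
  · have big : ∀ u, ‖u - c‖ < Y / 160 → u ∈ closedBall (Y * I) (Y / 2) := fun u hu =>
      closedBall_subset_closedBall (by linarith only [hY]) (toB u hu)
    have w0 : ∀ m ≤ K, ‖c + (m : ℕ) * I - c‖ < Y / 160 := fun m hm => by
      have hm' : (m : ℝ) ≤ K := by exact_mod_cast hm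
      rw [add_sub_cancel_left, nm]
      linarith only [hY, hK, hm', hβ, mul_nonneg (Nat.cast_nonneg (α := ℝ) K) hβ]
    have h3 := h1 _ (big _ (bd' k hk m hm)) _ (big _ (bd' k' hk' m' hm'))
    have h4 := h1 _ (big _ (w0 m hm)) _ (big _ (w0 m' hm'))
    rw [ab, ab] at h3
    rw [show c + m * I - (c + m' * I) = ((m : ℝ) - m' : ℝ) * I by push_cast; ring] at h4
    rw [norm_mul _ I, norm_I, mul_one, norm_real, Real.norm_eq_abs] at h4
    generalize σ (icay ω (c + m * I)) = s at *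
    generalize σ (icay ω (c + m' * I)) = s' at *
    generalize W k m - W k' m' = D at *
    have h5 := norm_sub_le (s - s' - τ * (((m : ℝ) - m' : ℝ) * I)) (s + k * b - (s' + k' * b) - τ * D)
    set E := s - s' - τ * (((m : ℝ) - m' : ℝ) * I) - (s + k * b - (s' + k' * b) - τ * D) with hE
    have e1 : E.re = τ * D.re - (k - k') * b := by simp [hE]; ring
    have e2 : E.im = τ * D.im - τ * (m - m') := by simp [hE]
    have h6 := abs_re_le_norm E
    have h7 := abs_im_le_norm E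
    have h8 := abs_re_le_norm D
    have h9 := abs_im_le_norm D
    have τ0 : 0 < τ := by linarith only [hτ]
    have a1 : τ * |(m : ℝ) - m'| ≤ τ * ‖D‖ + ‖E‖ := by
      have := abs_sub (τ * D.im) E.im
      rw [e2, sub_sub_cancel, abs_mul, abs_mul, abs_of_pos τ0, ← e2] at this
      linarith only [h7, h9, this, hτ, mul_nonneg_of_nonpos_of_nonpos (Mathlib.Tactic.Linarith.sub_nonpos_of_le hτ) (Mathlib.Tactic.Linarith.sub_nonpos_of_le h9)]
    have a2 : τ * (|(k : ℝ) - k'| * |b / τ|) ≤ τ * ‖D‖ + ‖E‖ := by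
      have := abs_sub (τ * D.re) E.re
      rw [e1, sub_sub_cancel, abs_mul, abs_mul, abs_of_pos τ0, ← e1] at this
      rw [abs_div, abs_of_pos τ0, ← mul_div_assoc, mul_div_cancel₀ _ τ0.ne']
      linarith only [h6, h8, this, hτ, mul_nonneg_of_nonpos_of_nonpos (Mathlib.Tactic.Linarith.sub_nonpos_of_le hτ) (Mathlib.Tactic.Linarith.sub_nonpos_of_le h8)]
    have p1 := abs_nonneg ((m : ℝ) - m')
    have p2 := abs_nonneg ((k : ℝ) - k')
    have p3 := norm_nonneg D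
    have a3 : ‖E‖ ≤ τ * (1 / 8 * |(m : ℝ) - m'| + 1 / 8 * ‖D‖) := by linarith only [h4, h3, h5, hτ, p1, p3, mul_nonneg_of_nonpos_of_nonpos (Mathlib.Tactic.Linarith.sub_nonpos_of_le hτ) (Mathlib.Tactic.Linarith.sub_nonpos_of_le p1), mul_nonneg_of_nonpos_of_nonpos (Mathlib.Tactic.Linarith.sub_nonpos_of_le hτ) (Mathlib.Tactic.Linarith.sub_nonpos_of_le p3)]
    have a4 : |(m : ℝ) - m'| ≤ ‖D‖ + (1 / 8 * |(m : ℝ) - m'| + 1 / 8 * ‖D‖) :=
      le_of_mul_le_mul_left (by linarith only [a1, a3]) τ0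
    have a5 : |(k : ℝ) - k'| * |b / τ| ≤ ‖D‖ + (1 / 8 * |(m : ℝ) - m'| + 1 / 8 * ‖D‖) :=
      le_of_mul_le_mul_left (by linarith only [a2, a3]) τ0
    have a6 := mul_le_mul_of_nonneg_left (min_le_right 1 |b / τ|) p2
    have a7 := mul_le_mul_of_nonneg_left (min_le_left 1 |b / τ|) p1
    linarith only [p3, a4, a5, a6, a7]

end Pool.Agent.Work.MP_f96e05_an
end

-- merged part: Pool.Agent.Work.MP_f96e05_an.FS.A2
section
/-!
Eigenfunction factors.

PLAN. `Ext.atom`: `u k = uu (XX ω) δ ∘ S^[k]` is `IsH` with `ev (u k) p = exp (..) ≠ 0` (`isH_XX`, `hb_exp`, `IsBdry.iter`); `Rc (conj (u 0))` since `G (S x) * conj (u 0) = (G * conj (u 0)) ∘ S * exp (I δ psiB S ω 0)` (`isH_psi`);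
induction with `PP.bezout`; limit along `Lev0.approx` with the constants `exp (I δ t j)`, `IsH.of_tendsto`. `normalize`: the set of `t ≥ 0` with `IsH (F * uu X (-t))` is closed (`IsH.of_tendsto`) and bounded: pick `z` with `ev F z ≠ 0` (`zero_of_ev`),
`ev F z = exp (I t σ z) * ev (F * uu X (-t)) z` (`ev_mul`), `norm_ev_le`, `0 < im (σ z)`. `Lev.dense`: `conj y = uu X t * K t` with `IsH (K t)`, `‖K t‖ = ‖y‖`, so `ev (conj y) = 0`.
`Lev.norm_le`: model `IsSys.norm_le_of_level`, `IsHyp.norm_le`: the class `P F = MemLp F ∧ ∃ t ≥ 0, IsH (uu X t * F)` is `IsLin`, dense by `IsLin.approx` and `Lev.dense`; `qq S (uu X t * F) (uu X t * F) = exp (I t b) * qq S F F`,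
`t` can be increased so that `exp (I t b)` is any prescribed unit; `IsPre.isClosed_bnd`.
-/

set_option autoImplicit false

open MeasureTheory Filter Topology Complex Metric
open scoped ComplexConjugate InnerProductSpace

namespace Pool.Agent.Work.MP_f96e05_an

variable {φ : ℂ → ℂ} {S : TT → TT} {ω μ p z : ℂ} {w b : ℝ} {F G F' G' u v χ l π : TT → ℂ}
  {r X : TT → ℝ} {σ : ℂ → ℂ}

lemma Lev.uu_isH (hL : Lev φ S ω X b σ) {t : ℝ} (ht : 0 ≤ t) :
    IsH (uu X t) ∧ ∀ z : ℂ, ‖z‖ < 1 → ev (uu X t) z = exp (I * (t * σ z)) := by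
  have h := hL.hol _ (hb_exp ht)
  exact h

lemma Lev0.uu_comp (hL : Lev0 S ω X b) (t : ℝ) :
    ∀ᵐ x ∂mm, uu X t (S x) = exp (I * (t * b)) * uu X t x := by
  filter_upwards [hL.shift] with x hx
  unfold uu
  rw [hx, ← exp_add]
  congr 1
  push_cast
  ring

lemma A2_zero (X : TT → ℝ) (x : TT) : uu X 0 x = 1 := by simp [uu]

lemma A2_cancel (X : TT → ℝ) (t : ℝ) (x : TT) : uu X t x * uu X (-t) x = 1 := by
  rw [← uu_add, add_neg_cancel, A2_zero]

lemma A2_iter (h : Ext φ S w μ G r) (hP : PP S G p) (hω : ‖ω‖ = 1) (hJ : Jul φ ω) {δ : ℝ}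
    (hδ : 0 ≤ δ) (hG : IsH fun x => G x * uu (XX ω) (-δ) x) (k : ℕ) :
    Rc S G fun x => conj (uu (XX ω) δ (S^[k] x)) := by
  have hu : IsH (uu (XX ω) δ) ∧
      ∀ z : ℂ, ‖z‖ < 1 → ev (uu (XX ω) δ) z = exp (I * (δ * cay ω z)) := by
    have h := isH_XX hω (hb_exp hδ)
    exact h
  induction k with
  | zero =>
    have hm : Measurable (psiB S ω 0) :=
      (((XX_meas ω).comp h.bd.meas).sub (XX_meas ω)).sub measurable_const
    have h1 : IsH (uu (psiB S ω 0) δ) := (isH_psi h.bd hω hJ 0 (hb_exp hδ)).1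
    have h2 := h1.mul_bd (uu_bd hm δ) (h.bd.isSys.presH _ hG)
    refine ⟨(uu_bd (XX_meas ω) δ).conj, ?_, h2.congr (Eventually.of_forall fun x => ?_)⟩
    · simpa only [Function.iterate_zero, id_eq, uu_conj] using hG
    · have e : uu (psiB S ω 0) δ x * uu (XX ω) (-δ) (S x) = uu (XX ω) (-δ) x := by
        unfold uu psiB
        rw [← exp_add]
        congr 1
        push_cast
        ring
      simp only [Function.iterate_zero, id_eq, uu_conj]
      rw [← e]
      ring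
  | succ k ih =>
    have h1 := h.bd.iter hu.1 k
    have h2 := hP.bezout h h1.1 (Eventually.of_forall fun x => uu_norm _ _ _) (by
      rw [h1.2 p hP.1, hu.2 _ (h.bd.iter_lt hP.1 k)]
      exact exp_ne_zero _) ih
    simpa only [Function.iterate_succ_apply] using h2

lemma Ext.atom (h : Ext φ S w μ G r) (hP : PP S G p) (hL : Lev0 S ω X b) (hω : ‖ω‖ = 1)
    (hJ : Jul φ ω) {δ : ℝ} (hδ : 0 ≤ δ) (hG : IsH fun x => G x * uu (XX ω) (-δ) x) :
    IsH fun x => G x * uu X (-δ) x := by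
  obtain ⟨n, t, hl⟩ := hL.approx
  have e : ∀ j x, exp (I * (δ * t j)) * (G x * conj (uu (XX ω) δ (S^[n j] x))) =
      G x * exp (I * ((-δ : ℝ) * (XX ω (S^[n j] x) - t j : ℝ))) := fun j x => by
    rw [uu_conj, mul_left_comm]
    unfold uu
    rw [← exp_add]
    congr 2
    push_cast
    ring
  refine (IsH.of_tendsto (f := fun j x =>
    exp (I * (δ * t j)) * (G x * conj (uu (XX ω) δ (S^[n j] x))))
    (fun j => (A2_iter h hP hω hJ hδ hG (n j)).2.1.const_mul _) h.isH.1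
    (fun j => Eventually.of_forall fun x => ?_) ?_).1
  · have e1 := uu_norm (fun _ => t j) δ x
    unfold uu at e1
    simp only [norm_mul, norm_conj, uu_norm, e1, one_mul, mul_one, le_refl]
  · filter_upwards [hl] with x hx
    simp only [e]
    exact ((by fun_prop : Continuous fun s : ℝ => G x * exp (I * ((-δ : ℝ) * s))).tendsto _).comp hx

lemma A2_bdd (hL : Lev φ S ω X b σ) (hω : ‖ω‖ = 1) (hF : IsH F) (h0 : ¬ ∀ᵐ x ∂mm, F x = 0) :
    ∃ T : ℝ, ∀ t : ℝ, 0 ≤ t → IsH (fun x => F x * uu X (-t) x) → t ≤ T := by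
  obtain ⟨z, hz, hne⟩ : ∃ z : ℂ, ‖z‖ < 1 ∧ ev F z ≠ 0 := by
    by_contra k
    push Not at k
    exact h0 (hF.zero_of_ev k)
  have hs : 0 < (σ z).im := (cay_pos hω hz).trans_le (hL.im z hz)
  have ha : 0 < ‖ev F z‖ := norm_pos_iff.2 hne
  refine ⟨(∫ x, pk z x * ‖F x‖ ∂mm) / (‖ev F z‖ * (σ z).im), fun t ht hH => ?_⟩
  have h1 := hL.uu_isH ht
  have h2 := ev_mul h1.1 (uu_bd hL.meas t) hH hz
  have h3 : (fun x => uu X t x * (F x * uu X (-t) x)) = F := funext fun x => by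
    rw [mul_left_comm, A2_cancel, mul_one]
  have h4 := norm_ev_le hH hz
  simp only [norm_mul, uu_norm, mul_one] at h4
  rw [h3, h1.2 z hz] at h2
  have h5 : ‖ev F z‖ = Real.exp (-(t * (σ z).im)) * ‖ev (fun x => F x * uu X (-t) x) z‖ := by
    rw [h2, norm_mul, norm_exp]
    simp
  have h6 : ‖ev F z‖ * Real.exp (t * (σ z).im) = ‖ev (fun x => F x * uu X (-t) x) z‖ := by
    rw [h5, mul_right_comm, ← Real.exp_add, neg_add_cancel, Real.exp_zero, one_mul]
  have h7 := Real.add_one_le_exp (t * (σ z).im)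
  rw [le_div_iff₀ (mul_pos ha hs)]
  linarith only [ha, h4, h6, h7, mul_le_mul_of_nonneg_left h7 ha.le]

lemma Lev.normalize (hL : Lev φ S ω X b σ) (hω : ‖ω‖ = 1) (hF : IsH F)
    (h0 : ¬ ∀ᵐ x ∂mm, F x = 0) : ∃ t : ℝ, 0 ≤ t ∧ IsH (fun x => F x * uu X (-t) x) ∧
      ∀ δ > 0, ¬ IsH fun x => F x * uu X (-t) x * uu X (-δ) x := by
  obtain ⟨T, hT⟩ := A2_bdd hL hω hF h0
  set A : Set ℝ := {t | 0 ≤ t ∧ IsH fun x => F x * uu X (-t) x} with hA
  have hb : BddAbove A := ⟨T, fun t ht => hT t ht.1 ht.2⟩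
  have hne : A.Nonempty := ⟨0, le_rfl, by simpa only [neg_zero, A2_zero, mul_one] using hF⟩
  have hc : IsClosed A := by
    refine IsSeqClosed.isClosed fun t s ht hs => ⟨ge_of_tendsto' hs fun j => (ht j).1, ?_⟩
    refine (IsH.of_tendsto (fun j => (ht j).2) hF.1
      (fun j => Eventually.of_forall fun x => ?_) (Eventually.of_forall fun x => ?_)).1
    · simp only [norm_mul, uu_norm, mul_one, le_refl]
    · exact ((by unfold uu; fun_prop : Continuous fun s : ℝ => F x * uu X (-s) x).tendsto _).comp hs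
  have hm := hc.csSup_mem hne hb
  refine ⟨sSup A, hm.1, hm.2, fun δ hδ hH => ?_⟩
  have h1 : sSup A + δ ∈ A := ⟨by linarith [hm.1], by
    simpa only [neg_add, uu_add, mul_assoc] using hH⟩
  linarith [le_csSup hb h1]

lemma Lev.dense (hL : Lev φ S ω X b σ) (hω : ‖ω‖ = 1)
    (hF : ∀ t : ℝ, 0 ≤ t → IsH fun x => F x * uu X (-t) x) : ∀ᵐ x ∂mm, F x = 0 := by
  by_contra h0
  have h1 : IsH F := by simpa only [neg_zero, A2_zero, mul_one] using hF 0 le_rfl
  obtain ⟨T, hT⟩ := A2_bdd hL hω h1 h0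
  have h2 : 0 ≤ |T| + 1 := by positivity
  linarith [hT _ h2 (hF _ h2), le_abs_self T]

lemma A2_qq (hL : Lev0 S ω X b) (t : ℝ) (F : TT → ℂ) :
    qq S (fun x => uu X t x * F x) (fun x => uu X t x * F x) = exp (I * (t * b)) * qq S F F ∧
      nn (fun x => uu X t x * F x) = nn F := by
  constructor
  · unfold qq
    rw [← integral_const_mul]
    refine integral_congr_ae ?_
    filter_upwards [hL.uu_comp t] with x hx
    rw [hx, map_mul, uu_conj]
    linear_combination (exp (I * (t * b)) * conj (F x) * F (S x)) * A2_cancel X t x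
  · refine integral_congr_ae (Eventually.of_forall fun x => ?_)
    simp only [norm_mul, uu_norm, one_mul]

lemma A2_up (hL : Lev φ S ω X b σ) {s t : ℝ} (hst : s ≤ t) (hF : IsH fun x => uu X s x * F x) :
    IsH fun x => uu X t x * F x := by
  have h1 := (hL.uu_isH (sub_nonneg.2 hst)).1.mul_bd (uu_bd hL.meas _) hF
  simpa only [← mul_assoc, ← uu_add, sub_add_cancel] using h1

lemma A2_bnd (hL : Lev φ S ω X b σ) (h : IsSys S) (hω : ‖ω‖ = 1)
    (hB : ∀ F, IsH F → Bnd S μ w F) (hF : MemLp F 2 mm) : Bnd S μ w F := by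
  let P : (TT → ℂ) → Prop := fun G => MemLp G 2 mm ∧ ∃ t : ℝ, IsH fun x => uu X t x * G x
  have hP : IsLin P := by
    refine ⟨?_, ⟨MemLp.zero, 0, by simpa only [mul_zero] using isH_const 0⟩, ?_, ?_, fun h => h.1⟩
    · rintro F G ⟨h1, t, h2⟩ e
      refine ⟨(memLp_congr_ae e).1 h1, t, h2.congr ?_⟩
      filter_upwards [e] with x hx
      rw [hx]
    · rintro F G ⟨h1, t, h2⟩ ⟨h3, s, h4⟩
      refine ⟨h1.add h3, max t s, ?_⟩
      simpa only [mul_add] using (A2_up hL (le_max_left t s) h2).add (A2_up hL (le_max_right t s) h4)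
    · rintro c F ⟨h1, t, h2⟩
      refine ⟨h1.const_mul c, t, ?_⟩
      simpa only [mul_left_comm c] using h2.const_mul c
  have hcl := hP.approx hF fun y hy ho => by
    have hz := hL.dense hω (F := fun x => conj (y x)) fun t _ => by
      refine ⟨?_, fun j => ?_⟩
      · simpa only [mul_comm] using (uu_bd hL.meas (-t)).mul_memLp (memLp_conj hy)
      · have h1 := ho (fun x => uu X (-t) x * ee x ^ (j + 1))
          ⟨(uu_bd hL.meas (-t)).mul_memLp (memLp_ee_pow _), t, by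
            simpa only [← mul_assoc, A2_cancel, one_mul] using isH_ee_pow (j + 1)⟩
        have h2 := congrArg conj h1
        rw [← integral_conj, map_zero] at h2
        refine Eq.trans (integral_congr_ae (Eventually.of_forall fun x => ?_)) h2
        simp only [map_mul, conj_conj]
        ring
    rw [← integral_zero TT ℂ (μ := mm)]
    refine integral_congr_ae ?_
    filter_upwards [hz] with x hx
    rw [hx, zero_mul]
  have hsub : (hP.sub : Set LL) ⊆ {G : LL | Bnd S μ w G} := by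
    rintro G ⟨-, s, h2⟩
    obtain ⟨t, t1, -, t3⟩ := exists_seq_period b
    obtain ⟨j, hj⟩ := (t1.eventually_ge_atTop s).exists
    have h3 := hB _ (A2_up hL hj h2)
    have h4 := A2_qq hL.toLev0 (t j) G
    unfold Bnd at h3
    rw [h4.1, h4.2, mul_left_comm I, t3, one_mul] at h3
    exact h3
  exact h.bnd_congr (closure_minimal hsub (h.isClosed_bnd μ w) hcl) hF.coeFn_toLp

lemma Lev.norm_le (hL : Lev φ S ω X b σ) (h : IsSys S) (hω : ‖ω‖ = 1) (hb : b ≠ 0) (hμ : ‖μ‖ = 1)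
    (hB : ∀ F, IsH F → Bnd S μ w F) (hF : MemLp F 2 mm) : ‖qq S F F‖ ≤ w * nn F := by
  set a := conj μ * qq S F F with ha
  have h1 := A2_bnd hL h hω hB ((uu_bd hL.meas (-arg a / b)).mul_memLp hF)
  have h2 := A2_qq hL.toLev0 (-arg a / b) F
  unfold Bnd at h1
  rw [h2.1, h2.2, mul_left_comm, ← ha] at h1
  have e3 : exp (I * ((-arg a / b : ℝ) * b)) * a = ‖a‖ := by
    have e4 := norm_mul_exp_arg_mul_I a
    have e5 : exp (I * ((-arg a / b : ℝ) * b)) * exp (arg a * I) = 1 := by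
      have : (b : ℂ) ≠ 0 := by exact_mod_cast hb
      rw [← exp_add, ← exp_zero]
      congr 1
      push_cast
      field_simp
      ring
    linear_combination (-exp (I * ((-arg a / b : ℝ) * b))) * e4 + (‖a‖ : ℂ) * e5
  rw [e3, ofReal_re, ha, norm_mul, norm_conj, hμ, one_mul] at h1
  exact h1

end Pool.Agent.Work.MP_f96e05_an
end
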