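import Pool.Agent.Work.MP_f96e05_an.Julia

-- merged part: Pool.Agent.Work.MP_f96e05_an.Ground
section
set_option autoImplicit false
set_option maxHeartbeats 400000

open MeasureTheory Filter Topology Complex Metric
open scoped ComplexConjugate InnerProductSpace NNReal ENNReal

namespace Pool.Agent.Work.MP_f96e05_an

variable {S : TT → TT} {w : ℝ} {μ : ℂ}

lemma fatou_real {f : TT → ℝ} {F : ℕ → TT → ℝ} (hF : ∀ j, Integrable (F j) mm)
    (h0 : ∀ j, ∀ᵐ x ∂mm, 0 ≤ F j x) (hl : ∀ᵐ x ∂mm, Tendsto (fun j => F j x) atTop (𝓝 (f x)))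
    {C : ℝ} (hC : ∀ j, ∫ x, F j x ∂mm ≤ C) : Integrable f mm := by
  have h1 : eLpNorm f 1 mm ≤ ENNReal.ofReal C := by
    refine Lp.eLpNorm_le_of_ae_tendsto (u := atTop) (f := F) (Eventually.of_forall fun j => ?_)
      (fun j => (hF j).1) hl
    rw [eLpNorm_one_eq_lintegral_enorm, ← ofReal_integral_norm_eq_lintegral_enorm (hF j)]
    refine ENNReal.ofReal_le_ofReal (le_trans (le_of_eq (integral_congr_ae ?_)) (hC j))
    filter_upwards [h0 j] with x hx
    exact abs_of_nonneg hx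
  exact memLp_one_iff_integrable.1
    ⟨aestronglyMeasurable_of_tendsto_ae atTop (fun j => (hF j).1) hl,
      h1.trans_lt ENNReal.ofReal_lt_top⟩

lemma extremal_abstract {H : Type*} [NormedAddCommGroup H] [InnerProductSpace ℂ H]
    (C : H →L[ℂ] H) (hb : ∀ F, (conj μ * ⟪F, C F⟫_ℂ).re ≤ w * ‖F‖ ^ 2) {F : H}
    (hF : (conj μ * ⟪F, C F⟫_ℂ).re = w * ‖F‖ ^ 2) (G : H) :
    2 * w * ⟪G, F⟫_ℂ = conj μ * ⟪G, C F⟫_ℂ + μ * ⟪C G, F⟫_ℂ := by
  set D : ℂ := 2 * w * ⟪G, F⟫_ℂ - conj μ * ⟪G, C F⟫_ℂ - μ * ⟪C G, F⟫_ℂ with hD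
  set q : ℝ := w * ‖G‖ ^ 2 - (conj μ * ⟪G, C G⟫_ℂ).re with hq
  have key : ∀ t : ℂ, 0 ≤ (conj t * D).re + ‖t‖ ^ 2 * q := by
    intro t
    have h1 := hb (F + t • G)
    have h2 : ‖F + t • G‖ ^ 2 = ‖F‖ ^ 2 + 2 * (conj t * ⟪G, F⟫_ℂ).re + ‖t‖ ^ 2 * ‖G‖ ^ 2 := by
      rw [@norm_add_sq ℂ, norm_smul, mul_pow, inner_smul_right, ← inner_conj_symm F G]
      generalize ⟪G, F⟫_ℂ = a
      simp
    rw [h2, map_add, map_smul, inner_add_left, inner_add_right, inner_add_right, inner_smul_left,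
      inner_smul_left, inner_smul_right, inner_smul_right, ← inner_conj_symm F (C G)] at h1
    have h3 : ‖t‖ ^ 2 = t.re ^ 2 + t.im ^ 2 := by rw [← normSq_eq_norm_sq, normSq_apply]; ring
    rw [hD, hq, h3]
    rw [h3] at h1
    simp only [mul_re, mul_im, add_re, add_im, sub_re, sub_im, conj_re, conj_im, ofReal_re,
      ofReal_im, re_ofNat, im_ofNat] at h1 hF ⊢
    linear_combination h1 - hF
  have hq0 : 0 ≤ q := sub_nonneg.2 (hb G)
  have hs : 0 < 1 / (q + 1) := by positivity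
  have h1 := key (-(1 / (q + 1) : ℝ) * D)
  have h2 : (conj (-((1 / (q + 1) : ℝ) : ℂ) * D) * D).re = -(1 / (q + 1)) * ‖D‖ ^ 2 := by
    rw [map_mul, mul_assoc, mul_comm (conj D), mul_conj, normSq_eq_norm_sq, map_neg, conj_ofReal,
      ← ofReal_neg, ← ofReal_mul, ofReal_re]
  rw [h2, norm_mul, norm_neg, norm_real, Real.norm_eq_abs, abs_of_pos hs] at h1
  have h3 : -(1 / (q + 1)) * ‖D‖ ^ 2 + (1 / (q + 1) * ‖D‖) ^ 2 * q =
      -((1 / (q + 1)) ^ 2 * ‖D‖ ^ 2) := by field_simp; ring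
  rw [h3] at h1
  have h4 : ‖D‖ ^ 2 ≤ 0 := by
    by_contra h
    have := mul_pos (pow_pos hs 2) (not_le.1 h)
    linarith
  have h5 : D = 0 := norm_eq_zero.1 (pow_eq_zero_iff two_ne_zero |>.1 (le_antisymm h4 (by positivity)))
  linear_combination h5

/-- the extremal space in direction `μ` -/
def InN (S : TT → TT) (μ : ℂ) (w : ℝ) (F : TT → ℂ) : Prop :=
  MemLp F 2 mm ∧ ∀ G, MemLp G 2 mm → 2 * w * ∫ x, conj (G x) * F x ∂mm =
    conj μ * ∫ x, conj (G x) * F (S x) ∂mm + μ * ∫ x, conj (G (S x)) * F x ∂mm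

lemma inN_iff (h : IsPre S) {C : LL →L[ℂ] LL}
    (hC : ∀ F : LL, (C F : TT → ℂ) =ᵐ[mm] fun x => F (S x)) (F : LL) :
    InN S μ w F ↔ ∀ G : LL, 2 * w * ⟪G, F⟫_ℂ = conj μ * ⟪G, C F⟫_ℂ + μ * ⟪C G, F⟫_ℂ := by
  have e : ∀ G : LL, ⟪C G, F⟫_ℂ = ∫ x, conj (G (S x)) * F x ∂mm := fun G => by
    rw [inner_LL]
    refine integral_congr_ae ?_
    filter_upwards [hC G] with x hx
    rw [hx]
  constructor
  · intro hF G
    rw [e, inner_clm hC, inner_LL]
    exact hF.2 G (Lp.memLp G)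
  · intro hF
    refine ⟨Lp.memLp F, fun G hG => ?_⟩
    have h1 := hF (hG.toLp G)
    rw [e, inner_clm hC, inner_LL, h.qq_congr hG.coeFn_toLp EventuallyEq.rfl] at h1
    have e1 : ∫ x, conj (hG.toLp G x) * F x ∂mm = ∫ x, conj (G x) * F x ∂mm := by
      refine integral_congr_ae ?_
      filter_upwards [hG.coeFn_toLp] with x hx
      rw [hx]
    have e2 : ∫ x, conj (hG.toLp G (S x)) * F x ∂mm = ∫ x, conj (G (S x)) * F x ∂mm := by
      refine integral_congr_ae ?_
      filter_upwards [h.ae hG.coeFn_toLp] with x hx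
      rw [hx]
    rw [e1, e2] at h1
    exact h1

lemma isLin_N (h : IsPre S) : IsLin (InN S μ w) := by
  refine ⟨fun {F G} hF e => ⟨(memLp_congr_ae e).1 hF.1, fun y hy => ?_⟩,
    ⟨memLp_const 0, fun y _ => by simp⟩, fun {F G} hF hG => ⟨hF.1.add hG.1, fun y hy => ?_⟩,
    fun c F hF => ⟨hF.1.const_mul c, fun y hy => ?_⟩, fun hF => hF.1⟩
  · have e1 : ∀ u : TT → ℂ, ∫ x, u x * G x ∂mm = ∫ x, u x * F x ∂mm := fun u => by
      refine integral_congr_ae ?_
      filter_upwards [e] with x hx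
      rw [hx]
    have e2 : ∫ x, conj (y x) * G (S x) ∂mm = ∫ x, conj (y x) * F (S x) ∂mm := by
      refine integral_congr_ae ?_
      filter_upwards [h.ae e] with x hx
      rw [hx]
    rw [e1, e1, e2]; exact hF.2 y hy
  · simp_rw [mul_add]
    rw [integral_add (integrable_mul2 (memLp_conj hy) hF.1) (integrable_mul2 (memLp_conj hy) hG.1),
      integral_add (integrable_mul2 (memLp_conj hy) (h.memLp hF.1))
        (integrable_mul2 (memLp_conj hy) (h.memLp hG.1)),
      integral_add (integrable_mul2 (memLp_conj (h.memLp hy)) hF.1)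
        (integrable_mul2 (memLp_conj (h.memLp hy)) hG.1)]
    linear_combination hF.2 y hy + hG.2 y hy
  · simp_rw [mul_left_comm _ c]
    rw [integral_const_mul, integral_const_mul, integral_const_mul]
    linear_combination c * hF.2 y hy

lemma isClosed_N (h : IsPre S) : IsClosed {G : LL | InN S μ w G} := by
  obtain ⟨C, hC⟩ := h.exists_clm
  simp_rw [inN_iff h hC, Set.ofPred_forall]
  exact isClosed_iInter fun G => isClosed_eq (by fun_prop) (by fun_prop)

lemma inN_of_extremal (h : IsPre S) (hb : ∀ F, MemLp F 2 mm → Bnd S μ w F) {F : TT → ℂ}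
    (hF : MemLp F 2 mm) (he : (conj μ * qq S F F).re = w * nn F) : InN S μ w F := by
  obtain ⟨C, hC⟩ := h.exists_clm
  refine (isLin_N h).congr ((inN_iff h hC (hF.toLp F)).2 ?_) hF.coeFn_toLp
  refine extremal_abstract C (fun G => ?_) ?_
  · rw [inner_clm hC, normsq_LL]; exact hb G (Lp.memLp G)
  · rw [inner_clm hC, normsq_LL, h.qq_congr hF.coeFn_toLp hF.coeFn_toLp, he,
      ← nn_congr hF.coeFn_toLp, nn]

lemma InN.extremal {F : TT → ℂ} (hF : InN S μ w F) : (conj μ * qq S F F).re = w * nn F := by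
  have h1 := hF.2 F hF.1
  have h2 : ∫ x, conj (F (S x)) * F x ∂mm = conj (qq S F F) := by
    rw [qq, ← integral_conj]
    refine integral_congr_ae (Eventually.of_forall fun x => ?_)
    simp [mul_comm]
  rw [h2, integral_conj_mul_self] at h1
  have h3 := congrArg Complex.re h1
  change _ = (conj μ * qq S F F + _).re at h3
  simp only [mul_re, mul_im, add_re, conj_re, conj_im, ofReal_re, ofReal_im, re_ofNat,
    im_ofNat] at h3 ⊢
  unfold nn
  linear_combination (-1 / 2) * h3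

lemma InN.mul_eigen {F : TT → ℂ} (hF : InN S μ w F) {u : TT → ℂ}
    (hu : AEStronglyMeasurable u mm) {K : ℝ} (hK : ∀ᵐ x ∂mm, ‖u x‖ ≤ K) {l : ℂ} (hl : ‖l‖ = 1)
    (he : ∀ᵐ x ∂mm, u (S x) = l * u x) : InN S (l * μ) w fun x => u x * F x := by
  refine ⟨memLp_bdd_mul hu hK hF.1, fun G hG => ?_⟩
  have h1 := hF.2 (fun x => conj (u x) * G x)
    (memLp_bdd_mul (continuous_conj.comp_aestronglyMeasurable hu) (K := K) (by simpa using hK) hG)
  have hl' : l * conj l = 1 := by rw [mul_conj, normSq_eq_norm_sq, hl]; simp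
  have e1 : ∫ x, conj (G x) * (u x * F x) ∂mm = ∫ x, conj (conj (u x) * G x) * F x ∂mm :=
    integral_congr_ae (Eventually.of_forall fun x => by simp only [map_mul, conj_conj]; ring)
  have e2 : ∫ x, conj (G x) * (u (S x) * F (S x)) ∂mm =
      l * ∫ x, conj (conj (u x) * G x) * F (S x) ∂mm := by
    rw [← integral_const_mul]
    refine integral_congr_ae ?_
    filter_upwards [he] with x hx
    simp only [map_mul, conj_conj, hx]; ring
  have e3 : ∫ x, conj (conj (u (S x)) * G (S x)) * F x ∂mm =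
      l * ∫ x, conj (G (S x)) * (u x * F x) ∂mm := by
    rw [← integral_const_mul]
    refine integral_congr_ae ?_
    filter_upwards [he] with x hx
    simp only [map_mul, conj_conj, hx]; ring
  rw [e3] at h1
  rw [e1, e2, h1, map_mul]
  linear_combination (-(conj μ) * ∫ x, conj (conj (u x) * G x) * F (S x) ∂mm) * hl'

lemma InN.mul_inv {F : TT → ℂ} (hF : InN S μ w F) {u : TT → ℂ}
    (hu : AEStronglyMeasurable u mm) {K : ℝ} (hK : ∀ᵐ x ∂mm, ‖u x‖ ≤ K)
    (he : ∀ᵐ x ∂mm, u (S x) = u x) : InN S μ w fun x => u x * F x := by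
  simpa using hF.mul_eigen hu hK (l := 1) (by simp) (by simpa using he)

lemma InN.conj {F : TT → ℂ} (hF : InN S 1 w F) : InN S 1 w fun x => conj (F x) := by
  refine ⟨memLp_conj hF.1, fun G hG => ?_⟩
  have h1 := congrArg (starRingEnd ℂ) (hF.2 _ (memLp_conj hG))
  simp only [map_mul, map_add, ← integral_conj, conj_conj, conj_ofReal, map_one, map_ofNat] at h1 ⊢
  exact h1

lemma InN.pointwise (h : IsPre S) (hw : ∀ F, MemLp F 2 mm → ‖qq S F F‖ ≤ w * nn F)
    (hμ : ‖μ‖ = 1) {F : TT → ℂ} (hF : InN S μ w F) :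
    (∀ᵐ x ∂mm, (conj μ * (conj (F x) * F (S x))).re = ‖F x‖ * ‖F (S x)‖) ∧
      InN S 1 w fun x => (‖F x‖ : ℂ) := by
  have hA : MemLp (fun x => (‖F x‖ : ℂ)) 2 mm := hF.1.norm.ofReal
  have i1 := (integrable_mul2 (memLp_conj hF.1) (h.memLp hF.1)).const_mul (conj μ)
  have i2 : Integrable (fun x => ‖F x‖ * ‖F (S x)‖) mm := by
    simpa [hμ] using i1.norm
  have e1 : qq S (fun x => (‖F x‖ : ℂ)) (fun x => (‖F x‖ : ℂ)) =
      ((∫ x, ‖F x‖ * ‖F (S x)‖ ∂mm : ℝ) : ℂ) := by
    rw [← integral_complex_ofReal, qq]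
    simp
  have e2 : nn (fun x => (‖F x‖ : ℂ)) = nn F := by simp [nn]
  have e3 : (conj μ * qq S F F).re = ∫ x, (conj μ * (conj (F x) * F (S x))).re ∂mm := by
    rw [qq, ← integral_const_mul]
    exact (integral_re i1).symm
  have hle : ∀ x, (conj μ * (conj (F x) * F (S x))).re ≤ ‖F x‖ * ‖F (S x)‖ := fun x =>
    (re_le_norm _).trans (by simp [hμ])
  have h1 := hw _ hA
  rw [e1, e2, norm_real] at h1
  have h2 := (le_abs_self _).trans h1
  have h3 := hF.extremal
  have i3 : Integrable (fun x => (conj μ * (conj (F x) * F (S x))).re) mm := i1.re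
  have h4 := integral_mono i3 i2 hle
  have h5 : ∫ x, ‖F x‖ * ‖F (S x)‖ ∂mm = w * nn F := by linarith
  constructor
  · have := (integral_eq_zero_iff_of_nonneg (fun x => sub_nonneg.2 (hle x)) (i2.sub i3)).1 (by
      rw [integral_sub i2 i3]; linarith)
    filter_upwards [this] with x hx
    exact (sub_eq_zero.1 hx).symm
  · refine inN_of_extremal h (fun G hG => ?_) hA ?_
    · unfold Bnd
      rw [map_one, one_mul]
      exact (re_le_norm _).trans (hw G hG)
    · rw [map_one, one_mul, e1, e2, ofReal_re, h5]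

lemma eq_of_dense {α β : ℂ} {D : Set ℂ} (hD : Dense D)
    (h : ∀ t ∈ D, 0 ≤ (conj (α - t) * (β - t)).re) : α = β := by
  have hc : IsClosed {t : ℂ | 0 ≤ (conj (α - t) * (β - t)).re} :=
    isClosed_le continuous_const (by fun_prop)
  have h1 : (α + β) / 2 ∈ {t : ℂ | 0 ≤ (conj (α - t) * (β - t)).re} :=
    closure_minimal h hc (hD _)
  have h2 : conj (α - (α + β) / 2) * (β - (α + β) / 2) = -(normSq ((α - β) / 2) : ℝ) := by
    rw [normSq_eq_conj_mul_self, show α - (α + β) / 2 = (α - β) / 2 by ring]; ring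
  simp only [Set.mem_ofPred_eq, h2, neg_re, ofReal_re] at h1
  have h3 : normSq ((α - β) / 2) = 0 := le_antisymm (by linarith) (normSq_nonneg _)
  rw [normSq_eq_zero] at h3
  linear_combination 2 * h3

lemma InN.ratio (h : IsPre S) (hw : ∀ F, MemLp F 2 mm → ‖qq S F F‖ ≤ w * nn F)
    {p : TT → ℝ} (hp0 : ∀ᵐ x ∂mm, 0 < p x) (hp : InN S 1 w fun x => (p x : ℂ))
    {F : TT → ℂ} (hF : InN S 1 w F) : ∀ᵐ x ∂mm, F (S x) / p (S x) = F x / p x := by
  obtain ⟨D, hDc, hD⟩ := TopologicalSpace.exists_countable_dense ℂ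
  have h1 : ∀ t ∈ D, ∀ᵐ x ∂mm, 0 ≤ (conj (F x - t * p x) * (F (S x) - t * p (S x))).re := by
    intro t _
    have := (((isLin_N h).sub' hF ((isLin_N h).smul t hp)).pointwise h hw (by simp)).1
    filter_upwards [this] with x hx
    rw [map_one, one_mul] at hx
    rw [hx]; positivity
  filter_upwards [(ae_ball_iff hDc).2 h1, hp0, h.ae hp0] with x hx h2 h3
  refine (eq_of_dense hD fun t ht => ?_).symm
  have h4 := hx t ht
  have c2 : (p x : ℂ) ≠ 0 := by exact_mod_cast h2.ne'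
  have c3 : (p (S x) : ℂ) ≠ 0 := by exact_mod_cast h3.ne'
  have e : conj (F x - t * p x) * (F (S x) - t * p (S x)) =
      (p x * p (S x) : ℝ) * (conj (F x / p x - t) * (F (S x) / p (S x) - t)) := by
    simp only [map_sub, map_mul, map_div₀, conj_ofReal]
    push_cast
    field_simp
  rw [e, re_ofReal_mul] at h4
  exact (mul_nonneg_iff_of_pos_left (mul_pos h2 h3)).1 h4

end Pool.Agent.Work.MP_f96e05_an
end

-- merged part: Pool.Agent.Work.MP_f96e05_an.Ground2
section
set_option autoImplicit false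
set_option maxHeartbeats 400000

open MeasureTheory Filter Topology Complex Metric
open scoped ComplexConjugate InnerProductSpace NNReal ENNReal

namespace Pool.Agent.Work.MP_f96e05_an

variable {S : TT → TT} {w : ℝ} {n : TT → ℝ}

/-- invariant functions -/
def Inv (S : TT → TT) (ψ : TT → ℂ) : Prop :=
  AEStronglyMeasurable ψ mm ∧ ∀ᵐ x ∂mm, ψ (S x) = ψ x

lemma Inv.comp {ψ : TT → ℂ} (h : Inv S ψ) {χ : ℂ → ℂ} (hχ : Measurable χ) :
    Inv S fun x => χ (ψ x) :=
  ⟨(hχ.comp_aemeasurable h.1.aemeasurable).aestronglyMeasurable, by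
    filter_upwards [h.2] with x hx
    rw [hx]⟩

lemma Inv.mul {ψ χ : TT → ℂ} (h : Inv S ψ) (h' : Inv S χ) : Inv S fun x => ψ x * χ x :=
  ⟨h.1.mul h'.1, by
    filter_upwards [h.2, h'.2] with x h1 h2
    rw [h1, h2]⟩

lemma Inv.add {ψ χ : TT → ℂ} (h : Inv S ψ) (h' : Inv S χ) : Inv S fun x => ψ x + χ x :=
  ⟨h.1.add h'.1, by
    filter_upwards [h.2, h'.2] with x h1 h2
    rw [h1, h2]⟩

lemma Inv.sub {ψ χ : TT → ℂ} (h : Inv S ψ) (h' : Inv S χ) : Inv S fun x => ψ x - χ x :=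
  ⟨h.1.sub h'.1, by
    filter_upwards [h.2, h'.2] with x h1 h2
    rw [h1, h2]⟩

lemma inv_const (c : ℂ) : Inv S fun _ => c :=
  ⟨aestronglyMeasurable_const, Eventually.of_forall fun _ => rfl⟩

/-- the ground state -/
structure IsGround (S : TT → TT) (w : ℝ) (n : TT → ℝ) : Prop where
  sys : IsSys S
  hw : ∀ F, MemLp F 2 mm → ‖qq S F F‖ ≤ w * nn F
  pos : ∀ᵐ x ∂mm, 0 < n x
  mem : InN S 1 w fun x => (n x : ℂ)
  proj : ∀ G, InN S 1 w G → ∫ x, G x ∂mm = ∫ x, n x * G x ∂mm

lemma exists_ground (h : IsSys S) (hw : ∀ F, MemLp F 2 mm → ‖qq S F F‖ ≤ w * nn F)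
    {p : TT → ℝ} (hp0 : ∀ᵐ x ∂mm, 0 < p x) (hp : InN S 1 w fun x => (p x : ℂ)) :
    ∃ n, IsGround S w n := by
  obtain ⟨N, hN, hproj⟩ := (isLin_N (μ := 1) (w := w) h.toIsPre).proj (isClosed_N h.toIsPre)
    memLp_one
  have hψ : Inv S fun x => N x / p x :=
    ⟨(hN.1.1.aemeasurable.div hp.1.1.aemeasurable).aestronglyMeasurable,
      InN.ratio h.toIsPre hw hp0 hp hN⟩
  have key : ∀ χ : ℂ → ℝ, Measurable χ → (∀ z, |χ z| ≤ 1) →
      Integrable (fun x => χ (N x / p x) * p x) mm ∧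
      Integrable (fun x => ((χ (N x / p x) * p x : ℝ) : ℂ) * N x) mm ∧
      ((∫ x, χ (N x / p x) * p x ∂mm : ℝ) : ℂ) =
        ∫ x, ((χ (N x / p x) * p x : ℝ) : ℂ) * N x ∂mm := by
    intro χ hχ hb
    have hi := hψ.comp (χ := fun z => (χ z : ℂ)) (measurable_ofReal.comp hχ)
    have hG := hp.mul_inv hi.1 (K := 1) (Eventually.of_forall fun x => by simpa using hb _) hi.2
    have h1 := hproj _ hG
    refine ⟨?_, ?_, ?_⟩
    · simpa using (integrable_of_memLp hG.1).re
    · simpa using integrable_mul2 hG.1 hN.1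
    · rw [← integral_complex_ofReal]
      simpa using h1
  have him : ∀ᵐ x ∂mm, (N x).im = 0 := by
    let χ : ℂ → ℝ := fun z => if 0 < z.im then 1 else -1
    obtain ⟨-, i2, e⟩ := key χ
      (Measurable.ite (measurableSet_lt measurable_const measurable_im) measurable_const
        measurable_const) (fun z => by simp only [χ]; split_ifs <;> simp)
    have e1 := integral_im i2
    rw [← e] at e1
    simp only [RCLike.im_to_complex, ofReal_im] at e1
    have hpt : ∀ᵐ x ∂mm, (((χ (N x / p x) * p x : ℝ) : ℂ) * N x).im = p x * |(N x).im| := by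
      filter_upwards [hp0] with x hx
      rw [im_ofReal_mul]
      simp only [χ, div_ofReal_im]
      split_ifs with h1
      · rw [abs_of_pos ((div_pos_iff_of_pos_right hx).1 h1)]; ring
      · have : (N x).im ≤ 0 := by
          by_contra h2
          exact h1 (div_pos (not_le.1 h2) hx)
        rw [abs_of_nonpos this]; ring
    have h3 := (integral_eq_zero_iff_of_nonneg_ae (by
      filter_upwards [hpt, hp0] with x h1 h2
      simp only [RCLike.im_to_complex, Pi.zero_apply]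
      rw [h1]; positivity) i2.im).1 e1
    filter_upwards [h3, hpt, hp0] with x h1 h2 h3
    simp only [RCLike.im_to_complex, Pi.zero_apply] at h1
    rw [h2] at h1
    simpa [h3.ne'] using h1
  have hre : ∀ᵐ x ∂mm, 0 < (N x).re := by
    let χ : ℂ → ℝ := fun z => if 0 < z.re then 0 else 1
    obtain ⟨i1, i2, e⟩ := key χ
      (Measurable.ite (measurableSet_lt measurable_const measurable_re) measurable_const
        measurable_const) (fun z => by simp only [χ]; split_ifs <;> simp)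
    have e1 := integral_re i2
    rw [← e] at e1
    simp only [RCLike.re_to_complex, ofReal_re] at e1
    have h1 : ∫ x, (((χ (N x / p x) * p x : ℝ) : ℂ) * N x).re ∂mm ≤ 0 := by
      refine integral_nonpos_of_ae ?_
      filter_upwards [hp0] with x hx
      rw [re_ofReal_mul]
      simp only [χ, div_ofReal_re]
      split_ifs with h1
      · simp
      · have : (N x).re ≤ 0 := by
          by_contra h2
          exact h1 (div_pos (not_le.1 h2) hx)
        simpa using mul_nonpos_of_nonneg_of_nonpos hx.le this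
    have h2 : 0 ≤ᵐ[mm] fun x => χ (N x / p x) * p x := by
      filter_upwards [hp0] with x hx
      simp only [χ, Pi.zero_apply]
      split_ifs <;> simp [hx.le]
    have h3 := (integral_eq_zero_iff_of_nonneg_ae h2 i1).1
      (le_antisymm (e1 ▸ h1) (integral_nonneg_of_ae h2))
    filter_upwards [h3, hp0] with x h4 h5
    simp only [χ, Pi.zero_apply, div_ofReal_re] at h4
    split_ifs at h4 with h6
    · exact (div_pos_iff_of_pos_right h5).1 h6
    · exact absurd (by simpa using h4) h5.ne'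
  have hNe : N =ᵐ[mm] fun x => ((N x).re : ℂ) := by
    filter_upwards [him] with x hx
    exact Complex.ext (by simp) (by simp [hx])
  refine ⟨fun x => (N x).re, h, hw, hre, (isLin_N h.toIsPre).congr hN hNe, fun G hG => ?_⟩
  have h1 := hproj _ hG.conj
  simp only [conj_conj, mul_one] at h1
  rw [h1]
  refine integral_congr_ae ?_
  filter_upwards [hNe] with x hx
  rw [← hx, mul_comm]

lemma IsGround.pre (hg : IsGround S w n) : IsPre S := hg.sys.toIsPre

lemma IsGround.ratio (hg : IsGround S w n) {F : TT → ℂ} (hF : InN S 1 w F) :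
    ∃ ψ, Inv S ψ ∧ ∀ᵐ x ∂mm, F x = n x * ψ x := by
  refine ⟨fun x => F x / n x,
    ⟨(hF.1.1.aemeasurable.div hg.mem.1.1.aemeasurable).aestronglyMeasurable,
      InN.ratio hg.pre hg.hw hg.pos hg.mem hF⟩, ?_⟩
  filter_upwards [hg.pos] with x hx
  have : (n x : ℂ) ≠ 0 := by exact_mod_cast hx.ne'
  field_simp

/-- truncation -/
noncomputable def tr (j : ℕ) (z : ℂ) : ℂ := if ‖z‖ ≤ j then z else 0

lemma tr_meas (j : ℕ) : Measurable (tr j) :=
  Measurable.ite (measurableSet_le measurable_norm measurable_const) measurable_id measurable_const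

lemma tr_le (j : ℕ) (z : ℂ) : ‖tr j z‖ ≤ j := by
  unfold tr; split_ifs with h
  · exact h
  · simp

lemma tr_le' (j : ℕ) (z : ℂ) : ‖tr j z‖ ≤ ‖z‖ := by
  unfold tr; split_ifs <;> simp

lemma tr_tendsto (z : ℂ) : Tendsto (fun j => tr j z) atTop (𝓝 z) := by
  refine tendsto_const_nhds.congr' ?_
  filter_upwards [tendsto_natCast_atTop_atTop.eventually_ge_atTop ‖z‖] with j hj
  simp [tr, hj]

lemma tendsto_tr_integral {u ψ : TT → ℂ} (hu : AEStronglyMeasurable u mm)
    (hψ : AEStronglyMeasurable ψ mm) (hi : Integrable (fun x => u x * ψ x) mm) :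
    Tendsto (fun j => ∫ x, u x * tr j (ψ x) ∂mm) atTop (𝓝 (∫ x, u x * ψ x ∂mm)) :=
  tendsto_integral_of_dominated_convergence _
    (fun j => hu.mul ((tr_meas j).comp_aemeasurable hψ.aemeasurable).aestronglyMeasurable) hi.norm
    (fun j => Eventually.of_forall fun x => by
      rw [norm_mul, norm_mul]
      exact mul_le_mul_of_nonneg_left (tr_le' _ _) (norm_nonneg _))
    (Eventually.of_forall fun x => (tr_tendsto _).const_mul _)

lemma IsGround.mem_bdd (hg : IsGround S w n) {ψ : TT → ℂ} (hψ : Inv S ψ) {K : ℝ}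
    (hK : ∀ᵐ x ∂mm, ‖ψ x‖ ≤ K) : InN S 1 w fun x => n x * ψ x := by
  simpa [mul_comm] using hg.mem.mul_inv hψ.1 hK hψ.2

lemma IsGround.mem_inv (hg : IsGround S w n) {ψ : TT → ℂ} (hψ : Inv S ψ)
    (hm : MemLp (fun x => n x * ψ x) 2 mm) : InN S 1 w fun x => n x * ψ x := by
  refine ⟨hm, fun G hG => ?_⟩
  have hn := hg.mem.1
  have hj : ∀ j : ℕ, InN S 1 w fun x => n x * tr j (ψ x) := fun j =>
    hg.mem_bdd (hψ.comp (tr_meas j)) (K := j) (Eventually.of_forall fun x => tr_le _ _)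
  have l1 := tendsto_tr_integral ((memLp_conj hG).1.mul hn.1) hψ.1
    (by simpa [mul_assoc] using integrable_mul2 (memLp_conj hG) hm)
  have l3 := tendsto_tr_integral ((memLp_conj (hg.pre.memLp hG)).1.mul hn.1) hψ.1
    (by simpa [mul_assoc] using integrable_mul2 (memLp_conj (hg.pre.memLp hG)) hm)
  have e2 : ∀ χ : ℂ → ℂ, (fun x => conj (G x) * (n (S x) * χ (ψ (S x)))) =ᵐ[mm]
      fun x => conj (G x) * n (S x) * χ (ψ x) := fun χ => by
    filter_upwards [hψ.2] with x hx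
    rw [hx, mul_assoc]
  have l2 := tendsto_tr_integral ((memLp_conj hG).1.mul (hg.pre.memLp hn).1) hψ.1
    ((integrable_mul2 (memLp_conj hG) (hg.pre.memLp hm)).congr (e2 id))
  simp only [Pi.mul_apply] at l1 l2 l3
  have e2' := integral_congr_ae (e2 id)
  simp only [id] at e2'
  rw [e2']
  simp only [← mul_assoc]
  refine tendsto_nhds_unique (l1.const_mul (2 * (w : ℂ))) (((l2.const_mul (conj 1)).add
    (l3.const_mul 1)).congr fun j => ?_)
  have := (hj j).2 G hG
  rw [integral_congr_ae (e2 (tr j))] at this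
  simp only [← mul_assoc] at this
  exact this.symm

lemma IsGround.proj_real (hg : IsGround S w n) {Ψ : TT → ℝ} (hΨ : Inv S fun x => (Ψ x : ℂ))
    {K : ℝ} (hK : ∀ x, |Ψ x| ≤ K) :
    Integrable (fun x => n x * Ψ x) mm ∧ Integrable (fun x => n x ^ 2 * Ψ x) mm ∧
      ∫ x, n x * Ψ x ∂mm = ∫ x, n x ^ 2 * Ψ x ∂mm := by
  have h1 := hg.mem_bdd hΨ (K := K) (Eventually.of_forall fun x => by simpa using hK x)
  refine ⟨?_, ?_, ?_⟩
  · simpa using (integrable_of_memLp h1.1).re
  · simpa [pow_two, mul_assoc] using (integrable_mul2 hg.mem.1 h1.1).re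
  · have h2 := hg.proj _ h1
    have : ((∫ x, n x * Ψ x ∂mm : ℝ) : ℂ) = ((∫ x, n x ^ 2 * Ψ x ∂mm : ℝ) : ℂ) := by
      rw [← integral_complex_ofReal, ← integral_complex_ofReal]
      simpa [pow_two, mul_assoc] using h2
    exact_mod_cast this

lemma IsGround.prod (hg : IsGround S w n) {ψ χ : TT → ℂ} (hψ : Inv S ψ) (hχ : Inv S χ)
    (h1 : MemLp (fun x => n x * ψ x) 2 mm) (h2 : MemLp (fun x => n x * χ x) 2 mm) :
    Integrable (fun x => n x * (ψ x * χ x)) mm ∧
      ∫ x, ‖n x * (ψ x * χ x)‖ ∂mm = ∫ x, ‖n x * ψ x‖ * ‖n x * χ x‖ ∂mm := by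
  have hi := hψ.mul hχ
  have i0 : Integrable (fun x => n x ^ 2 * ‖ψ x * χ x‖) mm := by
    refine (integrable_mul2 h1 h2).norm.congr (Eventually.of_forall fun x => ?_)
    simp only [norm_mul, norm_real, Real.norm_eq_abs]
    rw [← sq_abs]; ring
  have hj := fun j : ℕ => hg.proj_real (Ψ := fun x => ‖tr j (ψ x * χ x)‖)
    (hi.comp (χ := fun z => ((‖tr j z‖ : ℝ) : ℂ)) (measurable_ofReal.comp (tr_meas j).norm))
    (K := j) (fun x => by simpa using tr_le j _)
  have lim : ∀ (c : ℝ) (z : ℂ), Tendsto (fun j => c * ‖tr j z‖) atTop (𝓝 (c * ‖z‖)) :=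
    fun c z => (tr_tendsto z).norm.const_mul c
  have i1 : Integrable (fun x => n x * ‖ψ x * χ x‖) mm := by
    refine fatou_real (fun j => (hj j).1) (fun j => ?_)
      (Eventually.of_forall fun x => lim _ _) (C := ∫ x, n x ^ 2 * ‖ψ x * χ x‖ ∂mm) fun j => ?_
    · filter_upwards [hg.pos] with x hx
      positivity
    · rw [(hj j).2.2]
      exact integral_mono (hj j).2.1 i0 fun x =>
        mul_le_mul_of_nonneg_left (tr_le' _ _) (sq_nonneg _)
  have e1 : (fun x => ‖(n x : ℂ) * (ψ x * χ x)‖) =ᵐ[mm] fun x => n x * ‖ψ x * χ x‖ := by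
    filter_upwards [hg.pos] with x hx
    rw [norm_mul, norm_real, Real.norm_eq_abs, abs_of_pos hx]
  refine ⟨(integrable_norm_iff (hg.mem.1.1.mul hi.1)).1 (i1.congr e1.symm), ?_⟩
  have l1 := tendsto_integral_of_dominated_convergence _ (fun j => (hj j).1.1) i1
    (fun j => by
      filter_upwards [hg.pos] with x hx
      rw [Real.norm_eq_abs, abs_of_nonneg (by positivity)]
      exact mul_le_mul_of_nonneg_left (tr_le' _ _) hx.le) (Eventually.of_forall fun x => lim _ _)
  have l2 := tendsto_integral_of_dominated_convergence _ (fun j => (hj j).2.1.1) i0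
    (fun j => Eventually.of_forall fun x => by
      rw [Real.norm_eq_abs, abs_of_nonneg (by positivity)]
      exact mul_le_mul_of_nonneg_left (tr_le' _ _) (sq_nonneg _))
    (Eventually.of_forall fun x => lim _ _)
  rw [integral_congr_ae e1, tendsto_nhds_unique l1 (l2.congr fun j => (hj j).2.2.symm)]
  refine integral_congr_ae (Eventually.of_forall fun x => ?_)
  simp only [norm_mul, norm_real, Real.norm_eq_abs]
  rw [← sq_abs]; ring

lemma IsGround.mem_L2 (hg : IsGround S w n) {ψ : TT → ℂ} (hψ : Inv S ψ) (h1 : MemLp ψ 2 mm) :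
    MemLp (fun x => n x * ψ x) 2 mm := by
  have hj := fun j : ℕ => hg.proj_real (Ψ := fun x => ‖tr j (ψ x)‖ ^ 2)
    (hψ.comp (χ := fun z => ((‖tr j z‖ ^ 2 : ℝ) : ℂ))
      (measurable_ofReal.comp ((tr_meas j).norm.pow_const 2)))
    (K := j ^ 2) (fun x => by
      rw [abs_of_nonneg (by positivity)]
      exact pow_le_pow_left₀ (norm_nonneg _) (tr_le j _) 2)
  have i0 := integrable_normsq h1
  have i1 : Integrable (fun x => n x ^ 2 * ‖ψ x‖ ^ 2) mm := by
    refine fatou_real (fun j => (hj j).2.1) (fun j => Eventually.of_forall fun x => by positivity)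
      (Eventually.of_forall fun x => ((tr_tendsto _).norm.pow 2).const_mul _)
      (C := ∫ x, ‖ψ x‖ ^ 2 ∂mm) fun j => ?_
    have h2 : ∫ x, n x * ‖tr j (ψ x)‖ ^ 2 ∂mm ≤
        ∫ x, (1 / 2 * (n x ^ 2 * ‖tr j (ψ x)‖ ^ 2) + 1 / 2 * ‖ψ x‖ ^ 2) ∂mm := by
      refine integral_mono (hj j).1 (((hj j).2.1.const_mul _).add (i0.const_mul _)) fun x => ?_
      have h3 : ‖tr j (ψ x)‖ ^ 2 ≤ ‖ψ x‖ ^ 2 := pow_le_pow_left₀ (norm_nonneg _) (tr_le' j _) 2
      have h4 := mul_nonneg (sq_nonneg (n x - 1)) (sq_nonneg ‖tr j (ψ x)‖)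
      simp only
      linarith
    rw [integral_add ((hj j).2.1.const_mul _) (i0.const_mul _), integral_const_mul,
      integral_const_mul, (hj j).2.2] at h2
    linarith
  refine (memLp_two_iff_integrable_sq_norm (hg.mem.1.1.mul hψ.1)).2 (i1.congr ?_)
  refine Eventually.of_forall fun x => ?_
  simp [mul_pow]

/-- extremal functions in `H²₀` -/
def InM (S : TT → TT) (w : ℝ) (F : TT → ℂ) : Prop := InN S 1 w F ∧ IsH0 F

lemma isLin_M (h : IsPre S) : IsLin (InM S w) :=
  ⟨fun hF e => ⟨(isLin_N h).congr hF.1 e, hF.2.congr e⟩, ⟨(isLin_N h).zero, isLin_H0.zero⟩,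
    fun h1 h2 => ⟨(isLin_N h).add h1.1 h2.1, h1.2.add h2.2⟩,
    fun c _ h1 => ⟨(isLin_N h).smul c h1.1, h1.2.const_mul c⟩, fun h1 => h1.1.1⟩

lemma isClosed_M (h : IsPre S) : IsClosed {G : LL | InM S w G} :=
  (isClosed_N h).inter isClosed_H0

lemma IsGround.decomp (hg : IsGround S w n) {F : TT → ℂ} (hF : InN S 1 w F)
    (h0 : ∫ x, F x ∂mm = 0) :
    ∃ f g, InM S w f ∧ InM S w g ∧ ∀ᵐ x ∂mm, F x = f x + conj (g x) := by
  obtain ⟨f, g, hf, hg', e⟩ := exists_decomp0 hF.1 h0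
  have hfN : InN S 1 w f := by
    refine inN_of_extremal hg.pre (fun G hG => ?_) hf.1 ?_
    · unfold Bnd
      rw [map_one, one_mul]
      exact (re_le_norm _).trans (hg.hw G hG)
    · have h1 := hF.2 f hf.1
      have z : ∀ {a b : TT → ℂ}, IsH0 a → IsH b → ∫ x, conj (a x) * conj (b x) ∂mm = 0 := by
        intro a b ha hb
        have := congrArg conj (integral_mul_eq_zero ha hb)
        rw [← integral_conj, map_zero] at this
        simpa using this
      have e1 : ∫ x, conj (f x) * F x ∂mm = ∫ x, conj (f x) * f x ∂mm := by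
        rw [← add_zero (∫ x, conj (f x) * f x ∂mm), ← z hf hg'.isH,
          ← integral_add (integrable_mul2 (memLp_conj hf.1) hf.1)
            (integrable_mul2 (memLp_conj hf.1) (memLp_conj hg'.1))]
        refine integral_congr_ae ?_
        filter_upwards [e] with x hx
        rw [hx, mul_add]
      have e2 : ∫ x, conj (f x) * F (S x) ∂mm = ∫ x, conj (f x) * f (S x) ∂mm := by
        rw [← add_zero (∫ x, conj (f x) * f (S x) ∂mm), ← z hf (hg.sys.presH _ hg'.isH),
          ← integral_add (integrable_mul2 (memLp_conj hf.1) (hg.pre.memLp hf.1))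
            (integrable_mul2 (memLp_conj hf.1) (memLp_conj (hg.pre.memLp hg'.1)))]
        refine integral_congr_ae ?_
        filter_upwards [hg.pre.ae e] with x hx
        rw [hx, mul_add]
      have e3 : ∫ x, conj (f (S x)) * F x ∂mm = conj (qq S f f) := by
        have z1 := z hg' (hg.sys.presH _ hf.isH)
        have z2 : ∫ x, conj (f (S x)) * f x ∂mm = conj (qq S f f) := by
          rw [qq, ← integral_conj]
          refine integral_congr_ae (Eventually.of_forall fun x => ?_)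
          simp [mul_comm]
        rw [← z2, ← add_zero (∫ x, conj (f (S x)) * f x ∂mm), ← z1,
          ← integral_add (integrable_mul2 (memLp_conj (hg.pre.memLp hf.1)) hf.1)
            (integrable_mul2 (memLp_conj hg'.1) (memLp_conj (hg.pre.memLp hf.1)))]
        refine integral_congr_ae ?_
        filter_upwards [e] with x hx
        rw [hx]; ring
      rw [e1, e2, e3, integral_conj_mul_self] at h1
      have h3 := congrArg Complex.re h1
      change _ = (conj 1 * qq S f f + _).re at h3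
      simp only [mul_re, mul_im, add_re, conj_re, conj_im, ofReal_re, ofReal_im, re_ofNat,
        im_ofNat, one_re, one_im] at h3 ⊢
      unfold nn
      linear_combination (-1 / 2) * h3
  refine ⟨f, g, ⟨hfN, hf⟩, ⟨?_, hg'⟩, e⟩
  refine (isLin_N hg.pre).congr ((isLin_N hg.pre).sub' hF hfN).conj ?_
  filter_upwards [e] with x hx
  rw [hx]; simp

lemma IsGround.orth (hg : IsGround S w n) {f : TT → ℂ} (hf : InM S w f) :
    ∫ x, n x * f x ∂mm = 0 := by rw [← hg.proj f hf.1, hf.2.mean]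

lemma IsGround.mean_pos (hg : IsGround S w n) : (∫ x, (n x : ℂ) ∂mm) ≠ 0 := by
  rw [integral_complex_ofReal]
  have hi : Integrable n mm := by simpa using (integrable_of_memLp hg.mem.1).re
  intro h
  have h1 := (integral_eq_zero_iff_of_nonneg_ae (hg.pos.mono fun x hx => hx.le) hi).1
    (by exact_mod_cast h)
  obtain ⟨x, h2, h3⟩ := (h1.and hg.pos).exists
  exact h3.ne' h2

/-- bounded analytic invariant functions, suitably normalised, give elements of `M` -/
lemma IsGround.alg (hg : IsGround S w n) {a : TT → ℂ} (ha : IsH a) (hi : Inv S a) {K : ℝ}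
    (hK : ∀ᵐ x ∂mm, ‖a x‖ ≤ K) : ∃ c : ℂ, InM S w fun x => n x * (a x - c) := by
  set c := (∫ x, n x * a x ∂mm) / ∫ x, (n x : ℂ) ∂mm with hc
  have hN : InN S 1 w fun x => n x * (a x - c) :=
    hg.mem_bdd (hi.sub (inv_const c)) (K := K + ‖c‖) (by
      filter_upwards [hK] with x hx
      exact (norm_sub_le _ _).trans (by linarith))
  have i1 := integrable_of_memLp (hg.mem_bdd hi hK).1
  have h0 : ∫ x, n x * (a x - c) ∂mm = 0 := by
    simp_rw [mul_sub]
    rw [integral_sub i1 ((integrable_of_memLp hg.mem.1).mul_const c), integral_mul_const, hc]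
    field_simp [hg.mean_pos]
    ring
  obtain ⟨f, g, hf, hg', e⟩ := hg.decomp hN h0
  have hag : InM S w fun x => (a x - c) * g x :=
    ⟨hg'.1.mul_inv (hi.sub (inv_const c)).1 (K := K + ‖c‖) (by
      filter_upwards [hK] with x hx
      exact (norm_sub_le _ _).trans (by linarith)) (hi.sub (inv_const c)).2,
      (ha.sub (isH_const c)).mul0 (K := K + ‖c‖) (by
      filter_upwards [hK] with x hx
      exact (norm_sub_le _ _).trans (by linarith)) hg'.2⟩
  have h1 := hg.orth hag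
  have h2 : ∫ x, n x * ((a x - c) * g x) ∂mm = ∫ x, (g x * f x + conj (g x) * g x) ∂mm := by
    refine integral_congr_ae ?_
    filter_upwards [e] with x hx
    rw [← mul_assoc, hx]; ring
  rw [h2, integral_add (integrable_mul2 hg'.1.1 hf.1.1)
    (integrable_mul2 (memLp_conj hg'.1.1) hg'.1.1), integral_mul_eq_zero hg'.2 hf.2.isH, zero_add,
    integral_conj_mul_self] at h1
  have h3 := ae_zero_of_normsq hg'.1.1 (by exact_mod_cast h1)
  refine ⟨c, (isLin_M hg.pre).congr hf ?_⟩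
  filter_upwards [e, h3] with x h4 h5
  rw [h4, h5]; simp

end Pool.Agent.Work.MP_f96e05_an
end

-- merged part: Pool.Agent.Work.MP_f96e05_an.Agmon
section
set_option autoImplicit false

open MeasureTheory Filter Topology Complex Metric
open scoped ComplexConjugate InnerProductSpace NNReal ENNReal

namespace Pool.Agent.Work.MP_f96e05_an

variable {S : TT → TT} {φ : ℂ → ℂ}

lemma IsSys.norm_le_of_level (h : IsSys S) {B : Set TT} (hB : MeasurableSet B) (h0 : mm B ≠ 0)
    (h1 : mm Bᶜ ≠ 0) (hi : ∀ᵐ x ∂mm, S x ∈ B ↔ x ∈ B) {X : TT → ℝ} (hX : Measurable X) {b : ℝ}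
    (hb0 : b ≠ 0) (hXS : ∀ᵐ x ∂mm, X (S x) = X x + b) {μ : ℂ} (hμ : ‖μ‖ = 1) {w : ℝ}
    (hb : ∀ F, IsH F → Bnd S μ w F) {F : TT → ℂ} (hF : MemLp F 2 mm) :
    ‖qq S F F‖ ≤ w * nn F := by
  set a := conj μ * qq S F F with ha
  let t : ℝ := -arg a / b
  let s : TT → ℂ := fun x => exp (I * (t * X x : ℝ))
  have hs1 : ∀ x, ‖s x‖ = 1 := fun x => by simp only [s]; rw [mul_comm, norm_exp_ofReal_mul_I]
  have hsm : AEStronglyMeasurable s mm :=
    (by fun_prop : Continuous fun z : ℝ => exp (I * (t * z : ℝ))).comp_aestronglyMeasurable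
      hX.aestronglyMeasurable
  have hG : MemLp (fun x => s x * F x) 2 mm :=
    memLp_bdd_mul hsm (K := 1) (Eventually.of_forall fun x => (hs1 x).le) hF
  have hb' := h.bnd_L2 hB h0 h1 hi hb hG
  have e1 : qq S (fun x => s x * F x) (fun x => s x * F x) = exp (-(arg a * I)) * qq S F F := by
    unfold qq
    rw [← integral_const_mul]
    refine integral_congr_ae ?_
    filter_upwards [hXS] with x hx
    have e : s (S x) = exp (-(arg a * I)) * s x := by
      simp only [s]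
      rw [← exp_add, hx]
      congr 1
      have : (b : ℂ) ≠ 0 := by exact_mod_cast hb0
      simp only [t]
      push_cast
      field_simp
      ring
    have e' : s x * conj (s x) = 1 := by rw [mul_conj, normSq_eq_norm_sq, hs1]; simp
    rw [e, map_mul]
    linear_combination (exp (-(arg a * I)) * conj (F x) * F (S x)) * e'
  have e2 : nn (fun x => s x * F x) = nn F := by
    refine integral_congr_ae (Eventually.of_forall fun x => ?_)
    simp only [norm_mul, hs1, one_mul]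
  unfold Bnd at hb'
  rw [e1, e2, mul_left_comm, ← ha] at hb'
  have e3 : exp (-(arg a * I)) * a = ‖a‖ := by
    have e4 := norm_mul_exp_arg_mul_I a
    have e5 : exp (-(arg a * I)) * exp (arg a * I) = 1 := by rw [← exp_add]; simp
    linear_combination (-exp (-(arg a * I))) * e4 + (‖a‖ : ℂ) * e5
  rw [e3, ofReal_re, ha, norm_mul, norm_conj, hμ, one_mul] at hb'
  exact hb'

lemma IsH.exists_mean_ne {F : TT → ℂ} (hF : IsH F) (h : ¬ ∀ᵐ x ∂mm, F x = 0) :
    ∃ G, IsH G ∧ (∀ x, ‖G x‖ = ‖F x‖) ∧ ∫ x, G x ∂mm ≠ 0 := by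
  by_contra hne
  push Not at hne
  apply h
  have ind : ∀ k : ℕ, IsH0 fun x => conj (ee x) ^ k * F x := by
    intro k
    induction k with
    | zero => simpa using hF.isH0 (hne F hF fun _ => rfl)
    | succ k ih =>
      have h1 : IsH fun x => conj (ee x) ^ (k + 1) * F x :=
        (isH_shift ih).congr (Eventually.of_forall fun x => by simp only; ring)
      exact h1.isH0 (hne _ h1 fun x => by simp [ee_norm])
  refine ae_zero_of_coeff hF.1 fun j => ?_
  rcases lt_or_ge j 0 with hj | hj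
  · exact hF.coeff hj
  · obtain ⟨k, rfl⟩ := Int.eq_ofNat_of_zero_le hj
    rw [coeff_nat, (ind k).mean]

lemma IsBdry.one_lt (h : IsBdry φ S) (ha : φ 0 ≠ 0) : 1 < sSup (norm '' WW S) := by
  set a := φ 0 with ha'
  have hF : IsH fun x => 1 + (1 / 4 : ℂ) * conj a * ee x := by
    simpa using (isH_const 1).add ((isH_ee_pow 1).const_mul ((1 / 4 : ℂ) * conj a))
  have h1 := norm_qq_le h.isPre hF
  have m0 : ∫ x, ee x ∂mm = 0 := by simpa using integral_ee_pow 0
  have m0' : ∫ x, conj (ee x) ∂mm = 0 := by rw [integral_conj, m0, map_zero]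
  have m1 : ∫ x, ee (S x) ∂mm = a := by
    have := (h.pow 1).2 0 (by simp)
    rw [ev_zero] at this
    simpa using this
  have i0 : Integrable (fun x => ee x) mm := by simpa using integrable_of_memLp (memLp_ee_pow 1)
  have i0' : Integrable (fun x => conj (ee x)) mm := by
    simpa using integrable_of_memLp (memLp_conj (memLp_ee_pow 1))
  have i1 : Integrable (fun x => ee (S x)) mm := by simpa using integrable_of_memLp (h.pow 1).1.1
  have i2 : Integrable (fun x => conj (ee x) * ee (S x)) mm := by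
    simpa using integrable_mul2 (memLp_conj (memLp_ee_pow 1)) (h.pow 1).1.1
  have ea : a * conj a = ((‖a‖ ^ 2 : ℝ) : ℂ) := by rw [mul_conj, normSq_eq_norm_sq]
  have e1 : nn (fun x => 1 + (1 / 4 : ℂ) * conj a * ee x) = 1 + ‖a‖ ^ 2 / 16 := by
    have := integral_conj_mul_self fun x => 1 + (1 / 4 : ℂ) * conj a * ee x
    have e : ∀ x, conj (1 + (1 / 4 : ℂ) * conj a * ee x) * (1 + (1 / 4 : ℂ) * conj a * ee x) =
        ((1 + ‖a‖ ^ 2 / 16 : ℝ) : ℂ) + (1 / 4 * conj a * ee x + 1 / 4 * a * conj (ee x)) := by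
      intro x
      simp only [map_add, map_mul, map_one, conj_conj, map_div₀, map_ofNat]
      rw [ofReal_add, ofReal_div, ← ea]
      push_cast
      linear_combination (a * conj a / 16) * ee_mul_conj x
    simp_rw [e] at this
    have i3 : Integrable (fun x => 1 / 4 * conj a * ee x + 1 / 4 * a * conj (ee x)) mm :=
      (i0.const_mul _).add (i0'.const_mul _)
    rw [integral_add (integrable_const _) i3, integral_add (i0.const_mul _) (i0'.const_mul _),
      integral_const_mul, integral_const_mul, m0, m0'] at this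
    simp only [integral_const, probReal_univ, one_smul, mul_zero, add_zero] at this
    exact (ofReal_inj.1 this).symm
  have e2 : qq S (fun x => 1 + (1 / 4 : ℂ) * conj a * ee x)
      (fun x => 1 + (1 / 4 : ℂ) * conj a * ee x) = ((1 + ‖a‖ ^ 2 / 4 : ℝ) : ℂ) +
        ((‖a‖ ^ 2 / 16 : ℝ) : ℂ) * ∫ x, conj (ee x) * ee (S x) ∂mm := by
    have e : ∀ x, conj (1 + (1 / 4 : ℂ) * conj a * ee x) * (1 + (1 / 4 : ℂ) * conj a * ee (S x)) =
        (1 + 1 / 4 * conj a * ee (S x)) + (1 / 4 * a * conj (ee x) +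
          ((‖a‖ ^ 2 / 16 : ℝ) : ℂ) * (conj (ee x) * ee (S x))) := by
      intro x
      simp only [map_add, map_mul, map_one, conj_conj, map_div₀, map_ofNat]
      rw [ofReal_div, ← ea]
      push_cast
      ring
    unfold qq
    simp_rw [e]
    have i3 : Integrable (fun x => 1 + 1 / 4 * conj a * ee (S x)) mm :=
      (integrable_const _).add (i1.const_mul _)
    have i4 : Integrable (fun x => 1 / 4 * a * conj (ee x) +
        ((‖a‖ ^ 2 / 16 : ℝ) : ℂ) * (conj (ee x) * ee (S x))) mm :=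
      (i0'.const_mul _).add (i2.const_mul _)
    rw [integral_add i3 i4, integral_add (integrable_const _) (i1.const_mul _),
      integral_add (i0'.const_mul _) (i2.const_mul _), integral_const_mul, integral_const_mul,
      integral_const_mul, m0', m1, ofReal_add, ofReal_div (‖a‖ ^ 2) 4, ← ea]
    simp; ring
  have h2 : ‖∫ x, conj (ee x) * ee (S x) ∂mm‖ ≤ 1 := by
    simpa using norm_integral_le_of_norm_le_const (μ := mm) (C := 1)
      (f := fun x => conj (ee x) * ee (S x)) (Eventually.of_forall fun x => by simp [ee_norm])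
  have h3 := (re_le_norm _).trans h1
  rw [e1, e2, add_re, ofReal_re, re_ofReal_mul] at h3
  have h4 := (abs_le.1 ((abs_re_le_norm _).trans h2)).1
  have h5 : 0 < ‖a‖ ^ 2 := by positivity
  by_contra h6
  have h7 := mul_le_mul_of_nonneg_right (not_lt.1 h6) (by positivity : 0 ≤ 1 + ‖a‖ ^ 2 / 16)
  nlinarith

lemma IsBdry.integral_comp_real (h : IsBdry φ S) {g : TT → ℝ} (hg : AEStronglyMeasurable g mm) :
    ∫ x, g (S x) ∂mm = ∫ x, pk (φ 0) x * g x ∂mm := by
  have ha := h.norm_lt (z := 0) (by simp)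
  rw [← integral_map h.meas.aemeasurable (hg.mono_ac h.isPre.qmp.absolutelyContinuous), h.map_eq,
    integral_withDensity_eq_integral_toReal_smul₀
      (pk_cont ha).measurable.aemeasurable.ennreal_ofReal (by simp)]
  refine integral_congr_ae (Eventually.of_forall fun x => ?_)
  simp only [ENNReal.toReal_ofReal (pk_nonneg ha x), smul_eq_mul]

lemma exp_sub_sq {s t d : ℝ} (h : |s - t| ≤ d) :
    Real.exp s ^ 2 + Real.exp t ^ 2 ≤ 2 * Real.exp d * (Real.exp s * Real.exp t) := by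
  obtain ⟨h1, h2⟩ := abs_le.1 h
  have e1 : Real.exp s ≤ Real.exp d * Real.exp t := by
    rw [← Real.exp_add]; exact Real.exp_le_exp.2 (by linarith)
  have e2 : Real.exp t ≤ Real.exp d * Real.exp s := by
    rw [← Real.exp_add]; exact Real.exp_le_exp.2 (by linarith)
  have := mul_le_mul_of_nonneg_left e1 (Real.exp_pos s).le
  have := mul_le_mul_of_nonneg_left e2 (Real.exp_pos t).le
  nlinarith

/-- Agmon type estimate: exponential decay of an extremal function, against the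
integrability of its logarithm -/
lemma IsBdry.agmon (h : IsBdry φ S) {w : ℝ} (hw1 : 1 < w) {X : TT → ℝ} (hX : Measurable X)
    {b : ℝ} (hXS : ∀ᵐ x ∂mm, X (S x) = X x + b)
    (hP : ∀ ε > 0, ∃ R : ℝ, ∀ᵐ x ∂mm, R ≤ |X x| → pk (φ 0) x ≤ 1 + ε)
    {F : TT → ℂ} (hF : IsH F) (h0 : ¬ ∀ᵐ x ∂mm, F x = 0)
    (hN : InN S 1 w fun x => (‖F x‖ : ℂ)) : Integrable X mm := by
  have ha := h.norm_lt (z := 0) (by simp)
  obtain ⟨d, hd0, hd⟩ : ∃ d : ℝ, 0 < d ∧ Real.exp d * (2 + d) < 2 * w := by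
    have hc : ContinuousAt (fun d : ℝ => Real.exp d * (2 + d)) 0 := by fun_prop
    have := hc.eventually (gt_mem_nhds (show Real.exp 0 * (2 + 0) < 2 * w by simp; linarith))
    obtain ⟨d, hd⟩ := ((this.filter_mono nhdsWithin_le_nhds).and
      (self_mem_nhdsWithin (s := Set.Ioi (0 : ℝ)))).exists
    exact ⟨d, hd.2, hd.1⟩
  obtain ⟨R, hR⟩ := hP d hd0
  set κ : ℝ := d / (|b| + 1) with hκ
  have hκ0 : 0 < κ := by positivity
  set c : ℝ := 2 * w - Real.exp d * (2 + d) with hc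
  have hc0 : 0 < c := by linarith
  set Kp : ℝ := 1 / (1 - ‖φ 0‖) ^ 2 with hKp
  have hKp0 : 0 ≤ Kp := by positivity
  let g : ℕ → TT → ℝ := fun j x => min (κ * |X x|) j
  have gm : ∀ j, Measurable (g j) := fun j => by fun_prop
  have g0 : ∀ j x, 0 ≤ g j x := fun j x => le_min (by positivity) (by positivity)
  have gj : ∀ j x, g j x ≤ j := fun j x => min_le_right _ _
  set C : ℝ := (c + Real.exp d * (1 + Kp)) * Real.exp (κ * R) ^ 2 * nn F with hC
  have key : ∀ j, c * ∫ x, (Real.exp (g j x) * ‖F x‖) ^ 2 ∂mm ≤ C := by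
    intro j
    have hu : AEStronglyMeasurable (fun x => (Real.exp (g j x) : ℂ)) mm :=
      (measurable_ofReal.comp (gm j).exp).aestronglyMeasurable
    have hub : ∀ᵐ x ∂mm, ‖(Real.exp (g j x) : ℂ)‖ ≤ Real.exp j := Eventually.of_forall fun x => by
      rw [norm_real, Real.norm_eq_abs, abs_of_pos (Real.exp_pos _)]
      exact Real.exp_le_exp.2 (gj j x)
    have m1 := memLp_bdd_mul hu hub hN.1
    have m2 := memLp_bdd_mul hu hub m1
    have i1 : Integrable (fun x => (Real.exp (g j x) * ‖F x‖) ^ 2) mm := by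
      simpa only [← ofReal_mul, norm_real, Real.norm_eq_abs, sq_abs] using integrable_normsq m1
    have i2 : Integrable (fun x => (Real.exp (g j (S x)) * ‖F (S x)‖) ^ 2) mm := by
      simpa only [← ofReal_mul, norm_real, Real.norm_eq_abs, sq_abs] using
        integrable_normsq (h.isPre.memLp m1)
    have i3 : Integrable (fun x => Real.exp (g j x) * (Real.exp (g j x) * ‖F x‖) * ‖F (S x)‖) mm := by
      simpa only [← ofReal_mul, RCLike.re_to_complex, ofReal_re] using
        (integrable_mul2 m2 (h.isPre.memLp hN.1)).re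
    have i4 : Integrable
        (fun x => Real.exp (g j (S x)) * (Real.exp (g j (S x)) * ‖F (S x)‖) * ‖F x‖) mm := by
      simpa only [← ofReal_mul, RCLike.re_to_complex, ofReal_re] using
        (integrable_mul2 (h.isPre.memLp m2) hN.1).re
    have h1 := hN.2 _ m2
    simp only [← ofReal_mul, conj_ofReal, map_one, one_mul, integral_complex_ofReal] at h1
    have h2 : 2 * w * ∫ x, Real.exp (g j x) * (Real.exp (g j x) * ‖F x‖) * ‖F x‖ ∂mm =
        ∫ x, Real.exp (g j x) * (Real.exp (g j x) * ‖F x‖) * ‖F (S x)‖ ∂mm +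
        ∫ x, Real.exp (g j (S x)) * (Real.exp (g j (S x)) * ‖F (S x)‖) * ‖F x‖ ∂mm := by
      exact_mod_cast h1
    have h3 : ∫ x, Real.exp (g j x) * (Real.exp (g j x) * ‖F x‖) * ‖F x‖ ∂mm =
        ∫ x, (Real.exp (g j x) * ‖F x‖) ^ 2 ∂mm :=
      integral_congr_ae (Eventually.of_forall fun x => by simp only; ring)
    have h4 := h.integral_comp_real i1.1
    have i5 : Integrable (fun x => pk (φ 0) x * (Real.exp (g j x) * ‖F x‖) ^ 2) mm :=
      i1.bdd_mul (c := Kp) (pk_cont ha).aestronglyMeasurable (Eventually.of_forall fun x => by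
        rw [Real.norm_eq_abs, abs_of_nonneg (pk_nonneg ha x)]; exact pk_le ha x)
    rw [h3, ← integral_add i3 i4] at h2
    have h5 : ∫ x, (Real.exp (g j x) * (Real.exp (g j x) * ‖F x‖) * ‖F (S x)‖ +
        Real.exp (g j (S x)) * (Real.exp (g j (S x)) * ‖F (S x)‖) * ‖F x‖) ∂mm ≤
        ∫ x, Real.exp d * ((Real.exp (g j x) * ‖F x‖) ^ 2 +
          (Real.exp (g j (S x)) * ‖F (S x)‖) ^ 2) ∂mm := by
      refine integral_mono_ae (i3.add i4) ((i1.add i2).const_mul _) ?_
      filter_upwards [hXS] with x hx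
      have h6 : |g j x - g j (S x)| ≤ d := by
        refine (abs_min_sub_min_le_max _ _ _ _).trans (max_le ?_ (by simp [hd0.le]))
        rw [← mul_sub, abs_mul, abs_of_pos hκ0, hx]
        have h7 : abs (|X x| - |X x + b|) ≤ |b| + 1 := by
          refine (abs_abs_sub_abs_le_abs_sub _ _).trans ?_
          simp
        calc κ * abs (|X x| - |X x + b|) ≤ κ * (|b| + 1) := by gcongr
          _ = d := by rw [hκ]; field_simp
      have h7 := mul_le_mul_of_nonneg_right (exp_sub_sq h6)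
        (mul_nonneg (norm_nonneg (F x)) (norm_nonneg (F (S x))))
      have h8 := mul_nonneg (Real.exp_pos d).le
        (sq_nonneg (Real.exp (g j x) * ‖F x‖ - Real.exp (g j (S x)) * ‖F (S x)‖))
      linarith
    rw [integral_const_mul, integral_add i1 i2, h4, ← integral_add i1 i5, ← h2,
      ← integral_const_mul, ← integral_const_mul] at h5
    have h9 : ∫ x, (c * (Real.exp (g j x) * ‖F x‖) ^ 2 - 2 * w * (Real.exp (g j x) * ‖F x‖) ^ 2 +
        Real.exp d * ((Real.exp (g j x) * ‖F x‖) ^ 2 +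
          pk (φ 0) x * (Real.exp (g j x) * ‖F x‖) ^ 2)) ∂mm ≤
        ∫ x, (c + Real.exp d * (1 + Kp)) * Real.exp (κ * R) ^ 2 * ‖F x‖ ^ 2 ∂mm := by
      refine integral_mono_ae (((i1.const_mul _).sub (i1.const_mul _)).add
        ((i1.add i5).const_mul _)) ((integrable_normsq hF.1).const_mul _) ?_
      filter_upwards [hR] with x hx
      have p0 : 0 ≤ (Real.exp (g j x) * ‖F x‖) ^ 2 := sq_nonneg _
      have p1 : 0 ≤ (c + Real.exp d * (1 + Kp)) * Real.exp (κ * R) ^ 2 * ‖F x‖ ^ 2 := by positivity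
      rcases le_or_gt R |X x| with h10 | h10
      · have := mul_le_mul_of_nonneg_left (mul_le_mul_of_nonneg_right (hx h10) p0)
          (Real.exp_pos d).le
        rw [hc]; linarith
      · have h11 : (Real.exp (g j x) * ‖F x‖) ^ 2 ≤ Real.exp (κ * R) ^ 2 * ‖F x‖ ^ 2 := by
          rw [mul_pow]
          have : g j x ≤ κ * R := (min_le_left _ _).trans (by gcongr)
          gcongr
        have h12 := mul_le_mul_of_nonneg_left (mul_le_mul_of_nonneg_right (pk_le ha x) p0)
          (Real.exp_pos d).le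
        have h13 := mul_le_mul_of_nonneg_left h11
          (by positivity : 0 ≤ c + Real.exp d * (1 + Kp))
        have h14 := mul_nonneg (by linarith : 0 ≤ 2 * w) p0
        rw [← hKp] at h12
        linarith
    have i6 : Integrable (fun x => c * (Real.exp (g j x) * ‖F x‖) ^ 2 -
        2 * w * (Real.exp (g j x) * ‖F x‖) ^ 2) mm := (i1.const_mul _).sub (i1.const_mul _)
    have i7 : Integrable (fun x => Real.exp d * ((Real.exp (g j x) * ‖F x‖) ^ 2 +
        pk (φ 0) x * (Real.exp (g j x) * ‖F x‖) ^ 2)) mm := (i1.add i5).const_mul _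
    rw [integral_add i6 i7, integral_sub (i1.const_mul _) (i1.const_mul _),
      integral_const_mul c, integral_const_mul (_ * _ ^ 2)] at h9
    rw [hC, nn]
    linarith
  obtain ⟨G, hG, hGF, hG0⟩ := hF.exists_mean_ne h0
  have hG1 : 0 < ‖∫ x, G x ∂mm‖ := norm_pos_iff.2 hG0
  have bound : ∀ j, ∫ x, g j x ∂mm ≤ Real.sqrt (C / c) / ‖∫ x, G x ∂mm‖ := by
    intro j
    have h1 := mean_exp_le hG (gm j).aestronglyMeasurable (K := j)
      (Eventually.of_forall fun x => by rw [abs_of_nonneg (g0 j x)]; exact gj j x)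
    have hu : AEStronglyMeasurable (fun x => (Real.exp (g j x) : ℂ)) mm :=
      (measurable_ofReal.comp (gm j).exp).aestronglyMeasurable
    have m1 := memLp_bdd_mul hu (K := Real.exp j) (Eventually.of_forall fun x => by
      rw [norm_real, Real.norm_eq_abs, abs_of_pos (Real.exp_pos _)]
      exact Real.exp_le_exp.2 (gj j x)) hF.1
    have h2 := integral_norm_le_sqrt m1
    simp only [norm_mul, norm_real, Real.norm_eq_abs, Real.abs_exp] at h2
    simp only [hGF] at h1
    have h3 : ∫ x, Real.exp (g j x) * ‖F x‖ ∂mm ≤ Real.sqrt (C / c) :=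
      Real.le_sqrt_of_sq_le (h2.trans ((le_div_iff₀' hc0).2 (key j)))
    rw [le_div_iff₀' hG1]
    refine le_trans (mul_le_mul_of_nonneg_left ?_ hG1.le) (h1.trans h3)
    linarith [Real.add_one_le_exp (∫ x, g j x ∂mm)]
  have h1 : Integrable (fun x => κ * |X x|) mm := by
    refine fatou_real (F := g) (fun j => Integrable.of_bound (gm j).aestronglyMeasurable j
      (Eventually.of_forall fun x => by
        rw [Real.norm_eq_abs, abs_of_nonneg (g0 j x)]; exact gj j x))
      (fun j => Eventually.of_forall (g0 j)) (Eventually.of_forall fun x => ?_) bound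
    refine tendsto_const_nhds.congr' ?_
    filter_upwards [tendsto_natCast_atTop_atTop.eventually_ge_atTop (κ * |X x|)] with j hj
    exact (min_eq_left hj).symm
  exact (integrable_norm_iff hX.aestronglyMeasurable).1
    ((integrable_const_mul_iff (isUnit_iff_ne_zero.2 hκ0.ne') _).1 h1)

end Pool.Agent.Work.MP_f96e05_an
end

-- merged part: Pool.Agent.Work.MP_f96e05_an.Parab
section
set_option autoImplicit false

open MeasureTheory Filter Topology Complex Metric
open scoped ComplexConjugate InnerProductSpace NNReal ENNReal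

namespace Pool.Agent.Work.MP_f96e05_an

variable {S : TT → TT} {φ : ℂ → ℂ} {ω : ℂ} {b : ℝ}

/-- boundary values of the Cayley transform -/
noncomputable def XX (ω : ℂ) (x : TT) : ℝ := (I * (ω + ee x) / (ω - ee x)).re

lemma XX_meas (ω : ℂ) : Measurable (XX ω) := by
  have := ee_cont.measurable
  unfold XX
  fun_prop

lemma ae_ne (ω : ℂ) : ∀ᵐ x ∂mm, ee x ≠ ω := by
  refine ae_of_real (p := fun ζ => ζ ≠ ω) ?_
  have hc : {t : ℝ | exp (t * I) = ω}.Countable := by
    refine (Set.countable_range fun n : ℤ => (log ω).im + n * (2 * Real.pi)).mono fun t ht => ?_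
    have h0 : ω ≠ 0 := by rw [← show exp (t * I) = ω from ht]; exact exp_ne_zero _
    obtain ⟨n, hn⟩ := exp_eq_exp_iff_exists_int.1 (ht.trans (exp_log h0).symm)
    refine ⟨n, ?_⟩
    have := congrArg im hn
    simpa using this.symm
  filter_upwards [hc.ae_notMem volume] with t ht using ht

lemma cay_im (hω : ‖ω‖ = 1) (z : ℂ) :
    (I * (ω + z) / (ω - z)).im = (1 - ‖z‖ ^ 2) / ‖ω - z‖ ^ 2 := by
  have h1 : ω.re * ω.re + ω.im * ω.im = 1 := by rw [← normSq_apply, normSq_eq_norm_sq, hω]; simp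
  rw [div_im, ← normSq_eq_norm_sq, ← normSq_eq_norm_sq, ← sub_div]
  congr 1
  simp [normSq_apply]
  linear_combination h1

lemma XX_eq (hω : ‖ω‖ = 1) (x : TT) : (XX ω x : ℂ) = I * (ω + ee x) / (ω - ee x) := by
  refine Complex.ext (by simp [XX]) ?_
  rw [cay_im hω, ee_norm]; simp

lemma char_XX (hω : ‖ω‖ = 1) {t : ℝ} (ht : 0 ≤ t) :
    ∫ x, Real.cos (t * XX ω x) ∂mm = Real.exp (-t) := by
  have hne : ∀ z ∈ ball (0 : ℂ) 1, ω - z ≠ 0 := fun z hz h => by
    rw [← sub_eq_zero.1 h] at hz; simp [hω] at hz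
  have h0 : ω ≠ 0 := by simpa using hne 0 (by simp)
  obtain ⟨hH, hev⟩ := bdd_boundary (g := fun z => exp (I * (t * (I * (ω + z) / (ω - z)))))
    (K := 1) (G := fun x => exp (I * (t * XX ω x)))
    (DifferentiableOn.cexp (((DifferentiableOn.div (by fun_prop) (by fun_prop) hne).const_mul
      _).const_mul _))
    (fun z hz => by
      rw [norm_exp, ← Real.exp_zero]
      refine Real.exp_le_exp.2 ?_
      rw [I_mul_re, im_ofReal_mul, cay_im hω]
      have : ‖z‖ ^ 2 ≤ 1 := by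
        have : ‖z‖ < 1 := by simpa using hz
        nlinarith [norm_nonneg z]
      have : 0 ≤ (1 - ‖z‖ ^ 2) / ‖ω - z‖ ^ 2 := div_nonneg (by linarith) (by positivity)
      nlinarith)
    (by
      filter_upwards [ae_ne ω] with x hx
      rw [XX_eq hω]
      have h1 : Tendsto (fun n => (rr n : ℂ) * ee x) atTop (𝓝 (ee x)) := by
        simpa using ((continuous_ofReal.tendsto 1).comp rr_tendsto).mul_const (ee x)
      have h2 : ContinuousAt (fun z => exp (I * (t * (I * (ω + z) / (ω - z))))) (ee x) := by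
        have : ω - ee x ≠ 0 := sub_ne_zero.2 hx.symm
        fun_prop (disch := assumption)
      exact h2.tendsto.comp h1)
  have h1 := hev 0 (by simp)
  rw [ev_zero] at h1
  have h2 := integral_re (integrable_of_memLp hH.1)
  simp only [RCLike.re_to_complex] at h2
  rw [h1] at h2
  have e1 : I * (t * (I * (ω + 0) / (ω - 0))) = ((-t : ℝ) : ℂ) := by
    field_simp; simp [mul_comm]
  rw [e1, exp_ofReal_re] at h2
  rw [← h2]
  refine integral_congr_ae (Eventually.of_forall fun x => ?_)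
  simp only
  rw [mul_comm I, ← ofReal_mul, exp_ofReal_mul_I_re]

lemma integrable_cos (ω : ℂ) (t : ℝ) : Integrable (fun x => Real.cos (t * XX ω x)) mm :=
  Integrable.of_bound ((XX_meas ω).const_mul t).cos.aestronglyMeasurable 1
    (Eventually.of_forall fun _ => Real.abs_cos_le_one _)

lemma XX_not_integrable (hω : ‖ω‖ = 1) : ¬ Integrable (XX ω) mm := by
  intro hi
  have ht : Tendsto (fun n : ℕ => 1 / ((n : ℝ) + 1)) atTop (𝓝 0) :=
    tendsto_one_div_add_atTop_nhds_zero_nat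
  have h1 : Tendsto (fun n : ℕ => ∫ x, ((n : ℝ) + 1) * (1 - Real.cos (1 / ((n : ℝ) + 1) * XX ω x)) ∂mm)
      atTop (𝓝 (∫ _x : TT, (0 : ℝ) ∂mm)) := by
    refine tendsto_integral_of_dominated_convergence _
      (fun n => (((integrable_const _).sub (integrable_cos ω _)).const_mul _).1) hi.norm
      (fun n => Eventually.of_forall fun x => ?_) (Eventually.of_forall fun x => ?_)
    · have h2 := Real.abs_cos_sub_cos_le 0 (1 / ((n : ℝ) + 1) * XX ω x)
      rw [Real.cos_zero, zero_sub, abs_neg, abs_mul, abs_of_pos (a := 1 / ((n : ℝ) + 1)) (by positivity)] at h2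
      rw [norm_mul, Real.norm_eq_abs, Real.norm_eq_abs, Real.norm_eq_abs, abs_of_pos (by positivity)]
      calc ((n : ℝ) + 1) * |1 - Real.cos (1 / ((n : ℝ) + 1) * XX ω x)|
          ≤ ((n : ℝ) + 1) * (1 / ((n : ℝ) + 1) * |XX ω x|) := by gcongr
        _ = |XX ω x| := by field_simp
    · refine squeeze_zero (fun n => ?_) (fun n => ?_)
        (by simpa using ht.mul_const (XX ω x ^ 2 / 2))
      · have := Real.cos_le_one (1 / ((n : ℝ) + 1) * XX ω x)
        exact mul_nonneg (by positivity) (by linarith)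
      · have := Real.one_sub_sq_div_two_le_cos (x := 1 / ((n : ℝ) + 1) * XX ω x)
        calc ((n : ℝ) + 1) * (1 - Real.cos (1 / ((n : ℝ) + 1) * XX ω x))
            ≤ ((n : ℝ) + 1) * ((1 / ((n : ℝ) + 1) * XX ω x) ^ 2 / 2) := by gcongr; linarith
          _ = _ := by field_simp
  rw [integral_zero] at h1
  have h2 : ∀ n : ℕ, (1 / 2 : ℝ) ≤
      ∫ x, ((n : ℝ) + 1) * (1 - Real.cos (1 / ((n : ℝ) + 1) * XX ω x)) ∂mm := fun n => by
    rw [integral_const_mul, integral_sub (integrable_const _) (integrable_cos ω _),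
      char_XX hω (by positivity)]
    simp only [integral_const, probReal_univ, smul_eq_mul, mul_one]
    have h3 := Real.add_one_le_exp (1 / ((n : ℝ) + 1))
    have h4 : Real.exp (-(1 / ((n : ℝ) + 1))) ≤ 1 / (1 / ((n : ℝ) + 1) + 1) := by
      rw [Real.exp_neg, ← one_div]; gcongr
    have h5 : (1 / 2 : ℝ) ≤ ((n : ℝ) + 1) * (1 - 1 / (1 / ((n : ℝ) + 1) + 1)) := by
      have : ((n : ℝ) + 1) * (1 - 1 / (1 / ((n : ℝ) + 1) + 1)) = (n + 1) / (n + 2) := by
        field_simp; ring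
      rw [this, div_le_div_iff₀ (by positivity) (by positivity)]
      nlinarith [Nat.cast_nonneg (α := ℝ) n]
    refine h5.trans ?_
    gcongr
  have := ge_of_tendsto' h1 h2
  linarith

lemma exists_set_XX (hω : ‖ω‖ = 1) (hb : b ≠ 0) (hXS : ∀ᵐ x ∂mm, XX ω (S x) = XX ω x + b) :
    ∃ B : Set TT, MeasurableSet B ∧ mm B ≠ 0 ∧ mm Bᶜ ≠ 0 ∧ ∀ᵐ x ∂mm, S x ∈ B ↔ x ∈ B := by
  set t : ℝ := 2 * Real.pi / |b| with ht
  have ht0 : 0 < t := div_pos Real.two_pi_pos (abs_pos.2 hb)
  set c : ℝ := Real.exp (-t) with hc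
  have hm := char_XX hω ht0.le
  have notc : ¬ ∀ᵐ x ∂mm, Real.cos (t * XX ω x) = c := fun h => by
    have h1 := char_XX hω (t := 2 * t) (by positivity)
    have h2 : ∫ x, Real.cos (2 * t * XX ω x) ∂mm = ∫ _x : TT, (2 * c ^ 2 - 1) ∂mm := by
      refine integral_congr_ae ?_
      filter_upwards [h] with x hx
      rw [mul_assoc, Real.cos_two_mul, hx]
    have h3 : Real.exp (-(2 * t)) = c ^ 2 := by rw [hc, ← Real.exp_nat_mul]; congr 1; push_cast; ring
    have h4 : c < 1 := by rw [hc, ← Real.exp_zero]; exact Real.exp_lt_exp.2 (by linarith)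
    have h5 : 0 < c := Real.exp_pos _
    rw [h1, h3] at h2
    simp at h2
    nlinarith
  refine ⟨{x | Real.cos (t * XX ω x) ≤ c},
    measurableSet_le ((XX_meas ω).const_mul t).cos measurable_const, fun h => notc ?_,
    fun h => notc ?_, ?_⟩
  · have h1 : ∀ᵐ x ∂mm, 0 ≤ Real.cos (t * XX ω x) - c := by
      filter_upwards [measure_eq_zero_iff_ae_notMem.1 h] with x hx
      simp only [not_le] at hx
      linarith
    have h2 := (integral_eq_zero_iff_of_nonneg_ae h1
      ((integrable_cos ω t).sub (integrable_const c))).1 (by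
        rw [integral_sub (integrable_cos ω t) (integrable_const c), hm]; simp [hc])
    filter_upwards [h2] with x hx
    exact sub_eq_zero.1 hx
  · have h1 : ∀ᵐ x ∂mm, 0 ≤ c - Real.cos (t * XX ω x) := by
      filter_upwards [measure_eq_zero_iff_ae_notMem.1 h] with x hx
      simp only [Set.mem_compl_iff, Set.mem_ofPred_eq, not_not] at hx
      linarith
    have h2 := (integral_eq_zero_iff_of_nonneg_ae h1
      ((integrable_const c).sub (integrable_cos ω t))).1 (by
        rw [integral_sub (integrable_const c) (integrable_cos ω t), hm]; simp [hc])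
    filter_upwards [h2] with x hx
    exact (sub_eq_zero.1 hx).symm
  · filter_upwards [hXS] with x hx
    have e : Real.cos (t * XX ω (S x)) = Real.cos (t * XX ω x) := by
      rw [hx, mul_add]
      rcases lt_or_gt_of_ne hb with h | h
      · have : t * b = -(2 * Real.pi) := by rw [ht, abs_of_neg h]; field_simp
        rw [this, ← sub_eq_add_neg, Real.cos_sub_two_pi]
      · have : t * b = 2 * Real.pi := by rw [ht, abs_of_pos h]; field_simp
        rw [this, Real.cos_add_two_pi]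
    rw [e]

lemma pk_near (hω : ‖ω‖ = 1) {a : ℂ} (ha : ‖a‖ < 1) (h1 : 1 - ‖a‖ ^ 2 = ‖ω - a‖ ^ 2) {ε : ℝ}
    (hε : 0 < ε) : ∃ R : ℝ, ∀ᵐ x ∂mm, R ≤ |XX ω x| → pk a x ≤ 1 + ε := by
  have h0 : ‖ω - a‖ ^ 2 ≠ 0 := by rw [← h1]; nlinarith [norm_nonneg a]
  have hc : ContinuousAt (fun ζ : ℂ => (1 - ‖a‖ ^ 2) / ‖ζ - a‖ ^ 2) ω := by
    fun_prop (disch := assumption)
  have h2 := hc.eventually (gt_mem_nhds (show (1 - ‖a‖ ^ 2) / ‖ω - a‖ ^ 2 < 1 + ε by
    rw [h1, div_self h0]; linarith))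
  obtain ⟨δ, hδ, h3⟩ := Metric.eventually_nhds_iff.1 h2
  refine ⟨3 / δ, Eventually.of_forall fun x hx => (h3 ?_).le⟩
  by_contra h4
  rw [not_lt, dist_comm, dist_eq_norm] at h4
  have h5 : |XX ω x| ≤ 2 / δ := by
    refine (abs_re_le_norm _).trans ?_
    rw [norm_div, norm_mul, norm_I, one_mul]
    have := norm_add_le ω (ee x)
    rw [hω, ee_norm] at this
    gcongr
    linarith
  have h6 := hx.trans h5
  rw [div_le_div_iff_of_pos_right hδ] at h6
  linarith

theorem parabolic_core (h : IsBdry φ S) (hω : ‖ω‖ = 1) (hb : b ≠ 0)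
    (hXS : ∀ᵐ x ∂mm, XX ω (S x) = XX ω x + b) (h0 : φ 0 ≠ 0)
    (h1 : 1 - ‖φ 0‖ ^ 2 = ‖ω - φ 0‖ ^ 2) :
    numRange φ = ball 0 (sSup (norm '' numRange φ)) ∧ ¬ IsClosed (numRange φ) := by
  obtain ⟨B, hB, b0, b1, hi⟩ := exists_set_XX hω hb hXS
  have e : numRange φ = WW S := Set.ext h.mem_numRange
  have hw1 := h.one_lt h0
  have h2 : WW S = ball 0 (sSup (norm '' WW S)) := by
    refine Set.Subset.antisymm ?_ (ball_subset_WW h.isPre fun μ w hμ hb' F hF =>
      h.isSys.norm_le_of_level hB b0 b1 hi (XX_meas ω) hb hXS hμ hb' hF.1)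
    rintro _ ⟨F, hF, hn, rfl⟩
    set w := sSup (norm '' WW S) with hw'
    have hw : ∀ G, MemLp G 2 mm → ‖qq S G G‖ ≤ w * nn G := fun G hG =>
      h.isSys.norm_le_of_level hB b0 b1 hi (XX_meas ω) hb hXS (μ := 1) (by simp) (fun G hG => by
        unfold Bnd
        rw [map_one, one_mul]
        exact (re_le_norm _).trans (norm_qq_le h.isPre hG)) hG
    refine mem_ball_zero_iff.2 (lt_of_le_of_ne (by simpa [hn] using hw F hF.1) fun he => ?_)
    let μ : ℂ := exp (arg (qq S F F) * I)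
    have hμ : ‖μ‖ = 1 := norm_exp_ofReal_mul_I _
    have hN : InN S μ w F := by
      refine inN_of_extremal h.isPre (fun G hG => ?_) hF.1 ?_
      · exact (re_le_norm _).trans (by rw [norm_mul, norm_conj, hμ, one_mul]; exact hw G hG)
      · have e4 := norm_mul_exp_arg_mul_I (qq S F F)
        have e5 : μ * conj μ = 1 := by rw [mul_conj, normSq_eq_norm_sq, hμ]; simp
        have : conj μ * qq S F F = (‖qq S F F‖ : ℝ) := by
          linear_combination (-conj μ) * e4 + (‖qq S F F‖ : ℂ) * e5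
        rw [this, ofReal_re, he, hn, mul_one]
    refine XX_not_integrable hω (h.agmon hw1 (XX_meas ω) hXS
      (fun ε hε => pk_near hω (h.norm_lt (by simp)) h1 hε) hF (fun h3 => ?_)
      (hN.pointwise h.isPre hw hμ).2)
    have : nn F = nn fun _ => 0 := nn_congr h3
    rw [hn] at this
    simp [nn] at this
  rw [e]
  refine ⟨h2, ?_⟩
  rw [h2]
  exact not_isClosed_ball (by linarith)

lemma den_ne' {a z : ℂ} (ha : ‖a‖ < 1) (hz : ‖z‖ ≤ 1) : 1 - conj a * z ≠ 0 := by
  intro h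
  have h1 : ‖conj a * z‖ = 1 := by rw [← sub_eq_zero.1 h, norm_one]
  rw [norm_mul, norm_conj] at h1
  nlinarith [norm_nonneg z, norm_nonneg a]

lemma mob_id' (a z : ℂ) :
    ‖1 - conj a * z‖ ^ 2 - ‖z - a‖ ^ 2 = (1 - ‖a‖ ^ 2) * (1 - ‖z‖ ^ 2) := by
  simp only [← normSq_eq_norm_sq, normSq_apply, sub_re, sub_im, mul_re, mul_im, conj_re, conj_im,
    one_re, one_im]
  ring

theorem parabolic_aut_open {l a : ℂ} (hl : ‖l‖ = 1) (ha : ‖a‖ < 1) (ha0 : a ≠ 0)
    (hφ : ∀ z : ℂ, ‖z‖ < 1 → φ z = l * (z - a) / (1 - conj a * z)) (hω : ‖ω‖ = 1)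
    (hder : Tendsto (fun r : ℝ => (φ (r * ω) - ω) / (r * ω - ω)) (𝓝[<] 1) (𝓝 1)) :
    numRange φ = ball 0 (sSup (norm '' numRange φ)) ∧ ¬ IsClosed (numRange φ) := by
  set ψ : ℂ → ℂ := fun z => l * (z - a) / (1 - conj a * z) with hψ
  have hc : ∀ ζ : ℂ, ‖ζ‖ = 1 → Tendsto (fun r : ℝ => φ (r * ζ)) (𝓝[<] 1) (𝓝 (ψ ζ)) := by
    intro ζ hζ
    have h1 : ContinuousAt (fun r : ℝ => ψ (r * ζ)) 1 := by
      have : 1 - conj a * (((1 : ℝ) : ℂ) * ζ) ≠ 0 := den_ne' ha (by simp [hζ])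
      simp only [hψ]
      fun_prop (disch := assumption)
    have h2 := h1.tendsto.mono_left (nhdsWithin_le_nhds (s := Set.Iio 1))
    rw [ofReal_one, one_mul] at h2
    refine h2.congr' ?_
    filter_upwards [Ioo_mem_nhdsLT (show (0 : ℝ) < 1 by norm_num)] with r hr
    exact (hφ _ (by simp [hζ, abs_of_pos hr.1, hr.2])).symm
  have hn : ∀ z : ℂ, ‖z‖ ≤ 1 → (1 - ‖ψ z‖ ^ 2) * ‖1 - conj a * z‖ ^ 2 =
      (1 - ‖a‖ ^ 2) * (1 - ‖z‖ ^ 2) := fun z hz => by
    have := norm_ne_zero_iff.2 (den_ne' ha hz)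
    rw [← mob_id', hψ]
    simp only [norm_div, norm_mul, hl, one_mul]
    rw [sub_mul, one_mul, div_pow, div_mul_cancel₀ _ (pow_ne_zero 2 this)]
  have ha2 : 0 < 1 - ‖a‖ ^ 2 := by nlinarith [norm_nonneg a]
  have hinner : IsInnerFn φ := by
    refine ⟨DifferentiableOn.congr (f := ψ) (DifferentiableOn.div (by fun_prop) (by fun_prop)
      fun z hz => den_ne' ha (mem_ball_zero_iff.1 hz).le) fun z hz => hφ z (mem_ball_zero_iff.1 hz),
      fun z hz => ?_, Eventually.of_forall fun t => ⟨ψ (exp (t * I)), ?_,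
        hc _ (norm_exp_ofReal_mul_I t)⟩⟩
    · have hz' := mem_ball_zero_iff.1 hz
      rw [mem_ball_zero_iff, hφ z hz']
      have h1 := hn z hz'.le
      have h2 : 0 < (1 - ‖a‖ ^ 2) * (1 - ‖z‖ ^ 2) := mul_pos ha2 (by nlinarith [norm_nonneg z])
      rw [← h1] at h2
      have h3 := (pos_iff_pos_of_mul_pos h2).2 (pow_pos (norm_pos_iff.2 (den_ne' ha hz'.le)) 2)
      change ‖ψ z‖ < 1
      nlinarith [norm_nonneg (ψ z)]
    · have h1 := hn _ (norm_exp_ofReal_mul_I t).le
      have h2 := norm_ne_zero_iff.2 (den_ne' ha (norm_exp_ofReal_mul_I t).le)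
      rw [norm_exp_ofReal_mul_I] at h1
      simp only [one_pow, sub_self, mul_zero, mul_eq_zero, pow_eq_zero_iff, ne_eq,
        OfNat.ofNat_ne_zero, not_false_eq_true, h2, or_false] at h1
      nlinarith [norm_nonneg (ψ (exp (t * I)))]
  have dω := den_ne' ha hω.le
  have hr : Tendsto (fun r : ℝ => (r : ℂ)) (𝓝[<] 1) (𝓝 1) :=
    (continuous_ofReal.tendsto 1).mono_left nhdsWithin_le_nhds
  have ω0 : ω ≠ 0 := by rintro rfl; simp at hω
  have hne : ∀ r ∈ Set.Ioo (0 : ℝ) 1, (r : ℂ) * ω - ω ≠ 0 := fun r hr h => by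
    have : ((r - 1 : ℝ) : ℂ) * ω = 0 := by push_cast; linear_combination h
    rcases mul_eq_zero.1 this with h1 | h1
    · have := ofReal_eq_zero.1 h1
      linarith [hr.2]
    · exact ω0 h1
  have fix : ψ ω = ω := by
    refine tendsto_nhds_unique (hc ω hω) ?_
    have h1 := (hder.mul ((hr.mul_const ω).sub_const ω)).add_const ω
    simp only [one_mul, sub_self, zero_add] at h1
    refine h1.congr' ?_
    filter_upwards [Ioo_mem_nhdsLT (show (0 : ℝ) < 1 by norm_num)] with r hr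
    rw [div_mul_cancel₀ _ (hne r hr), sub_add_cancel]
  have ea : a * conj a = ((‖a‖ ^ 2 : ℝ) : ℂ) := by rw [mul_conj, normSq_eq_norm_sq]
  have diff : ∀ z : ℂ, ‖z‖ ≤ 1 → ω - ψ z =
      l * (1 - a * conj a) * (ω - z) / ((1 - conj a * ω) * (1 - conj a * z)) := fun z hz => by
    have := den_ne' ha hz
    nth_rewrite 1 [← fix]
    simp only [hψ]
    rw [div_sub_div _ _ dω this]
    congr 1
    ring
  have der : l * (1 - a * conj a) / ((1 - conj a * ω) * (1 - conj a * ω)) = 1 := by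
    refine tendsto_nhds_unique ?_ hder
    have h1 : Tendsto (fun r : ℝ => l * (1 - a * conj a) / ((1 - conj a * ω) *
        (1 - conj a * (r * ω)))) (𝓝[<] 1)
        (𝓝 (l * (1 - a * conj a) / ((1 - conj a * ω) * (1 - conj a * (1 * ω))))) :=
      tendsto_const_nhds.div ((((hr.mul_const ω).const_mul _).const_sub _).const_mul _)
        (by rw [one_mul]; exact mul_ne_zero dω dω)
    rw [one_mul] at h1
    refine h1.congr' ?_
    filter_upwards [Ioo_mem_nhdsLT (show (0 : ℝ) < 1 by norm_num)] with r hr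
    have h2 : ‖(r : ℂ) * ω‖ < 1 := by simp [hω, abs_of_pos hr.1, hr.2]
    have h3 := den_ne' ha h2.le
    have h4 := hne r hr
    rw [hφ _ h2, ← neg_sub ω, diff _ h2.le, eq_div_iff h4]
    ring
  rw [div_eq_one_iff_eq (mul_ne_zero dω dω)] at der
  have diff' : ∀ z : ℂ, ‖z‖ ≤ 1 → ω - ψ z = (1 - conj a * ω) * (ω - z) / (1 - conj a * z) :=
    fun z hz => by
      have := den_ne' ha hz
      rw [diff z hz, der]
      field_simp
  have hor : 1 - ‖a‖ ^ 2 = ‖1 - conj a * ω‖ ^ 2 := by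
    have := congrArg norm der
    rw [ea, norm_mul, norm_mul, hl, one_mul, ← ofReal_one, ← ofReal_sub, norm_real,
      Real.norm_eq_abs, abs_of_pos ha2] at this
    rw [this, sq, ofReal_one]
  obtain ⟨S, hS⟩ := exists_bdry hinner
  have p0 : φ 0 = ψ 0 := hφ 0 (by simp)
  refine parabolic_core hS hω (b := (2 * I * (conj a * ω) / (1 - conj a * ω)).re) ?_ ?_ ?_ ?_
  · intro h
    set u := conj a * ω with hu
    have h1 : ‖a‖ = ‖u‖ := by rw [hu, norm_mul, norm_conj, hω, mul_one]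
    have h2 : normSq (1 - u) ≠ 0 := by simpa using dω
    rw [div_re, ← add_div, div_eq_zero_iff, or_iff_left h2] at h
    simp at h
    have h3 : u.im = 0 := by linarith
    rw [h1, ← normSq_eq_norm_sq, ← normSq_eq_norm_sq, normSq_apply, normSq_apply] at hor
    simp [h3] at hor
    have h4 : u.re * (1 - u.re) = 0 := by linarith
    rcases mul_eq_zero.1 h4 with h5 | h5
    · have : u = 0 := Complex.ext h5 h3
      rw [this, norm_zero] at h1
      exact ha0 (norm_eq_zero.1 h1)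
    · exact dω (Complex.ext (by simpa using h5) (by simpa using h3))
  · filter_upwards [hS.lim, ae_ne ω] with x h1 h2
    have h3 : ee (S x) = ψ (ee x) :=
      tendsto_nhds_unique h1 ((hc _ (ee_norm x)).comp rr_tendsto')
    have h4 := diff' _ (ee_norm x).le
    have h5 := den_ne' ha (ee_norm x).le
    have h6 : ω - ee x ≠ 0 := sub_ne_zero.2 h2.symm
    unfold XX
    rw [← add_re, h3, show ω + ψ (ee x) = 2 * ω - (ω - ψ (ee x)) by ring, h4]
    congr 1
    have h7 : 1 - conj a * ee x = (1 - conj a * ω) + conj a * (ω - ee x) := by ring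
    have h8 : ω + ee x = 2 * ω - (ω - ee x) := by ring
    rw [h7] at h5
    rw [h7, h8]
    generalize 1 - conj a * ω = D at *
    generalize ω - ee x = E at *
    generalize conj a = A at *
    have h9 : D + E * A ≠ 0 := by rwa [mul_comm]
    field_simp
    ring
  · rw [p0]
    simp only [hψ, zero_sub, mul_zero, sub_zero, div_one]
    exact mul_ne_zero (by rintro rfl; simp at hl) (neg_ne_zero.2 ha0)
  · rw [p0, diff' 0 (by simp)]
    simp [hψ, hl, hω, hor]

end Pool.Agent.Work.MP_f96e05_an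
end

-- merged part: Pool.Agent.Work.MP_f96e05_an.FS.D
section
/-!
Finite shift case: definitions.
-/

set_option autoImplicit false

open MeasureTheory Filter Topology Complex Metric
open scoped ComplexConjugate InnerProductSpace

namespace Pool.Agent.Work.MP_f96e05_an

/-- Cayley transform onto the upper half-plane -/
noncomputable def cay (ω z : ℂ) : ℂ := I * (ω + z) / (ω - z)

/-- inverse Cayley transform -/
noncomputable def icay (ω u : ℂ) : ℂ := ω * (u - I) / (u + I)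

/-- Blaschke factor -/
noncomputable def bl (p z : ℂ) : ℂ := (z - p) / (1 - conj p * z)

/-- bounded measurable functions -/
def Bd (u : TT → ℂ) : Prop := AEStronglyMeasurable u mm ∧ ∃ K : ℝ, ∀ᵐ x ∂mm, ‖u x‖ ≤ K

/-- `F'` is the image of `F` under the transfer operator -/
def IsL (S : TT → TT) (F F' : TT → ℂ) : Prop :=
  MemLp F 2 mm ∧ MemLp F' 2 mm ∧
    ∀ T : TT → ℂ, MemLp T 2 mm → ∫ x, T x * F' x ∂mm = ∫ x, T (S x) * F x ∂mm

/-- an extremal function with its ratio function `r` -/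
structure Ext (φ : ℂ → ℂ) (S : TT → TT) (w : ℝ) (μ : ℂ) (G : TT → ℂ) (r : TT → ℝ) : Prop where
  bd : IsBdry φ S
  mu : ‖μ‖ = 1
  isH : IsH0 G
  ne : ∀ᵐ x ∂mm, G x ≠ 0
  meas : AEStronglyMeasurable r mm
  pos : ∀ᵐ x ∂mm, 0 < r x ∧ r x ≤ 2 * w
  comp : ∀ᵐ x ∂mm, G (S x) = μ * r x * G x
  lop : IsL S G fun x => conj μ * (2 * w - r x) * G x

/-- `l = L (|G| χ) / |G|` -/
def Ell (S : TT → TT) (G χ l : TT → ℂ) : Prop :=
  AEStronglyMeasurable l mm ∧ IsL S (fun x => ‖G x‖ * χ x) fun x => ‖G x‖ * l x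

/-- the class of multipliers of the one-pole theorem -/
def Pc (S : TT → TT) (G π : TT → ℂ) : Prop :=
  Bd π ∧ IsH (fun x => G (S x) * π x) ∧ ∃ F', IsL S (fun x => G x * π x) F' ∧ IsH F'

/-- multipliers with decay along the dynamics -/
def Pd (S : TT → TT) (G π : TT → ℂ) : Prop :=
  Pc S G π ∧ Tendsto (fun k => nn fun x => G x * π (S^[k] x)) atTop (𝓝 0) ∧
    Summable fun k => ∫ x, ‖G x * π (S^[k] x)‖ ∂mm

/-- the conclusion of the one-pole theorem -/
def PP (S : TT → TT) (G : TT → ℂ) (p : ℂ) : Prop :=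
  ‖p‖ < 1 ∧ ∀ π, Pc S G π → IsH fun x => G x * π x * bl p (ee (S x))

/-- multipliers of both `G` and `G ∘ S` -/
def Rc (S : TT → TT) (G π : TT → ℂ) : Prop :=
  Bd π ∧ IsH (fun x => G x * π x) ∧ IsH fun x => G (S x) * π x

/-- `γ = log |π|` is bounded -/
def Lg (π : TT → ℂ) (γ : TT → ℝ) : Prop :=
  AEStronglyMeasurable γ mm ∧ (∃ K : ℝ, ∀ᵐ x ∂mm, |γ x| ≤ K) ∧ ∀ᵐ x ∂mm, ‖π x‖ = Real.exp (γ x)

/-- one step with gain `α` at the point `z` -/
def Stp (φ : ℂ → ℂ) (S : TT → TT) (G : TT → ℂ) (z : ℂ) (α : ℝ) : Prop :=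
  ∀ π γ, Rc S G π → Lg π γ → ∃ π' γ', Rc S G π' ∧ Lg π' γ' ∧
    Real.exp α * ‖ev G z‖ *
        (‖ev (fun x => G x * π x) (φ z)‖ * Real.exp (-∫ x, pk (φ z) x * γ x ∂mm)) ≤
      ‖ev G (φ z)‖ * (‖ev (fun x => G x * π' x) z‖ * Real.exp (-∫ x, pk z x * γ' x ∂mm))

/-- bounded analytic functions on the closed upper half-plane -/
def HB (Φ : ℂ → ℂ) : Prop :=
  (∀ u : ℂ, 0 ≤ u.im → DifferentiableAt ℂ Φ u) ∧ ∃ K : ℝ, ∀ u : ℂ, 0 ≤ u.im → ‖Φ u‖ ≤ K

/-- Julia's inequality at `ω` -/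
def Jul (φ : ℂ → ℂ) (ω : ℂ) : Prop := ∀ z : ℂ, ‖z‖ < 1 → (cay ω z).im ≤ (cay ω (φ z)).im

/-- the displacement minus `b` -/
noncomputable def psi (φ : ℂ → ℂ) (ω : ℂ) (b : ℝ) (z : ℂ) : ℂ := cay ω (φ z) - cay ω z - b

/-- boundary values of the displacement minus `b` -/
noncomputable def psiB (S : TT → TT) (ω : ℂ) (b : ℝ) (x : TT) : ℝ := XX ω (S x) - XX ω x - b

/-- the boundary level function -/
structure Lev0 (S : TT → TT) (ω : ℂ) (X : TT → ℝ) (b : ℝ) : Prop where
  meas : Measurable X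
  shift : ∀ᵐ x ∂mm, X (S x) = X x + b
  approx : ∃ (n : ℕ → ℕ) (t : ℕ → ℝ),
    ∀ᵐ x ∂mm, Tendsto (fun j => XX ω (S^[n j] x) - t j) atTop (𝓝 (X x))

/-- the level function with its analytic extension -/
structure Lev (φ : ℂ → ℂ) (S : TT → TT) (ω : ℂ) (X : TT → ℝ) (b : ℝ) (σ : ℂ → ℂ) : Prop
    extends Lev0 S ω X b where
  hol : ∀ Φ, HB Φ → IsH (fun x => Φ (X x)) ∧ ∀ z : ℂ, ‖z‖ < 1 → ev (fun x => Φ (X x)) z = Φ (σ z)
  diff : DifferentiableOn ℂ σ (ball 0 1)
  im : ∀ z : ℂ, ‖z‖ < 1 → (cay ω z).im ≤ (σ z).im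
  abel : ∀ z : ℂ, ‖z‖ < 1 → σ (φ z) = σ z + b

/-- the eigenfunctions `exp (i t X)` -/
noncomputable def uu (X : TT → ℝ) (t : ℝ) (x : TT) : ℂ := exp (I * (t * X x))

/-- the sibling function -/
noncomputable def sfn (S : TT → TT) (w : ℝ) (r : TT → ℝ) (χ l : TT → ℂ) (x : TT) : ℂ :=
  χ x * (2 * w - r (S x)) - l (S x)

/-- anti-analytic solutions of the three-term recurrence with rank one right hand side -/
def Sq (S : TT → TT) (w : ℝ) (μ a : ℂ) (V : ℕ → TT → ℂ) (β : ℕ → ℂ) : Prop :=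
  (∀ k, IsH0 fun x => conj (V k x)) ∧ (∀ x, V 0 x = 0) ∧ (∀ x, V 1 x = 0) ∧
    Tendsto (fun k => nn (V k)) atTop (𝓝 0) ∧ (Summable fun k => ‖β k‖) ∧
    ∀ (j : ℕ) (Y : TT → ℂ), IsH0 Y →
      2 * w * ∫ x, Y x * V (j + 1) x ∂mm - conj μ * ∫ x, Y x * V j (S x) ∂mm -
        μ * ∫ x, Y (S x) * V (j + 2) x ∂mm = μ * β j * ev Y a

end Pool.Agent.Work.MP_f96e05_an
end

-- merged part: Pool.Agent.Work.MP_f96e05_an.FS.T1
section
/-!
Tools on `H²`.

PLAN. `of_tendsto`: dominated convergence (`MemLp` of the limit by `MemLp.of_le`). `integral_pk_mul2`: `pk_eq`, or: `F - ev F z` is divisible by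
`ee - z` (`div_sub`); write `pk z = (1 - ‖z‖ ^ 2) * ee / ((ee - z) * (1 - conj z * ee))`, so `pk z * (F - ev F z)` is in `IsH0`, then `integral_mul_eq_zero`, `integral_pk_mul`.
`div_sub`: `ee ^ (j + 1) / (ee - z) = ee ^ j * cau z`; induction on `j` with `ee ^ (j+1) * cau z = ee ^ (j+1) + z * (ee ^ j * cau z)`.
`zero_of_ev`: `ev_taylor`, `ae_zero_of_coeff`, `IsH.coeff`. `integral_pk_norm_sq_le`: Cauchy-Schwarz with weight (`integral_norm_le_sqrt` is the model), `integral_pk`,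
`pk z x ≤ 4 / (1 - ‖z‖ ^ 2)`. `bl_isH`: `dc_isH`, `dc_ev`, `den_ne'`, `mob_id'`. `bl_lower`: `mob_normsq`, `C = (1 + ‖p‖) / (1 - ‖p‖)`, `exp (-2 t) ≤ 1 - t` for `0 ≤ t ≤ 1 / 2`.
-/

set_option autoImplicit false

open MeasureTheory Filter Topology Complex Metric
open scoped ComplexConjugate InnerProductSpace

namespace Pool.Agent.Work.MP_f96e05_an

variable {φ : ℂ → ℂ} {S : TT → TT} {ω μ p z : ℂ} {w b : ℝ} {F G F' G' u v χ l π : TT → ℂ}
  {r X : TT → ℝ} {σ : ℂ → ℂ}

lemma Bd.memLp (h : Bd u) : MemLp u 2 mm := by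
  obtain ⟨h1, K, hK⟩ := h
  exact memLp_bdd h1 hK

lemma bd_const (c : ℂ) : Bd fun _ => c :=
  ⟨aestronglyMeasurable_const, ‖c‖, ae_of_all _ fun _ => le_rfl⟩

lemma Bd.mul (hu : Bd u) (hv : Bd v) : Bd fun x => u x * v x := by
  obtain ⟨h1, K, hK⟩ := hu
  obtain ⟨h2, L, hL⟩ := hv
  refine ⟨h1.mul h2, K * L, ?_⟩
  filter_upwards [hK, hL] with x a b
  rw [norm_mul]
  exact mul_le_mul a b (norm_nonneg _) ((norm_nonneg _).trans a)

lemma Bd.add (hu : Bd u) (hv : Bd v) : Bd fun x => u x + v x := by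
  obtain ⟨h1, K, hK⟩ := hu
  obtain ⟨h2, L, hL⟩ := hv
  refine ⟨h1.add h2, K + L, ?_⟩
  filter_upwards [hK, hL] with x a b
  exact (norm_add_le _ _).trans (add_le_add a b)

lemma Bd.sub (hu : Bd u) (hv : Bd v) : Bd fun x => u x - v x := by
  obtain ⟨h1, K, hK⟩ := hu
  obtain ⟨h2, L, hL⟩ := hv
  refine ⟨h1.sub h2, K + L, ?_⟩
  filter_upwards [hK, hL] with x a b
  exact (norm_sub_le _ _).trans (add_le_add a b)

lemma Bd.conj (hu : Bd u) : Bd fun x => conj (u x) := by
  obtain ⟨h1, K, hK⟩ := hu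
  refine ⟨continuous_conj.comp_aestronglyMeasurable h1, K, ?_⟩
  filter_upwards [hK] with x a
  rwa [norm_conj]

lemma Bd.comp (hu : Bd u) (h : IsPre S) : Bd fun x => u (S x) := by
  obtain ⟨h1, K, hK⟩ := hu
  exact ⟨h1.comp_quasiMeasurePreserving h.qmp, K, h.ae hK⟩

lemma Bd.mul_memLp (hu : Bd u) (hF : MemLp F 2 mm) : MemLp (fun x => u x * F x) 2 mm := by
  obtain ⟨h1, K, hK⟩ := hu
  exact memLp_bdd_mul h1 hK hF

lemma IsH.mul_bd (hu : IsH u) (hb : Bd u) (hF : IsH F) : IsH fun x => u x * F x := by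
  obtain ⟨-, K, hK⟩ := hb
  exact hu.mul hK hF

lemma IsH.of_tendsto {f : ℕ → TT → ℂ} {B : TT → ℂ} (hf : ∀ j, IsH (f j)) (hB : MemLp B 2 mm)
    (hb : ∀ j, ∀ᵐ x ∂mm, ‖f j x‖ ≤ ‖B x‖)
    (hl : ∀ᵐ x ∂mm, Tendsto (fun j => f j x) atTop (𝓝 (G x))) :
    IsH G ∧ ∀ z : ℂ, ‖z‖ < 1 → Tendsto (fun j => ev (f j) z) atTop (𝓝 (ev G z)) := by
  have key : ∀ c : TT → ℂ, MemLp c 2 mm →
      Tendsto (fun j => ∫ x, c x * f j x ∂mm) atTop (𝓝 (∫ x, c x * G x ∂mm)) := by
    intro c hc
    refine tendsto_integral_of_dominated_convergence (fun x => ‖c x * B x‖)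
      (fun j => hc.1.mul (hf j).1.1) (integrable_mul2 hc hB).norm (fun j => ?_) ?_
    · filter_upwards [hb j] with x hx
      rw [norm_mul, norm_mul]
      exact mul_le_mul_of_nonneg_left hx (norm_nonneg _)
    · filter_upwards [hl] with x hx
      exact hx.const_mul _
  have hm : AEStronglyMeasurable G mm :=
    aestronglyMeasurable_of_tendsto_ae atTop (fun j => (hf j).1.1) hl
  have hG : MemLp G 2 mm := by
    refine hB.of_le hm ?_
    filter_upwards [ae_all_iff.2 hb, hl] with x hx hy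
    exact le_of_tendsto' hy.norm hx
  refine ⟨⟨hG, fun j => ?_⟩, fun z hz => key _ (memLp_cont (cau_cont hz))⟩
  have h1 := key _ (memLp_ee_pow (j + 1))
  have h2 : (fun i => ∫ x, ee x ^ (j + 1) * f i x ∂mm) = fun _ => 0 := funext fun i => (hf i).2 j
  rw [h2] at h1
  exact (tendsto_nhds_unique tendsto_const_nhds h1).symm

lemma ev_add (hF : MemLp F 2 mm) (hG : MemLp G 2 mm) (hz : ‖z‖ < 1) :
    ev (fun x => F x + G x) z = ev F z + ev G z := by
  have hc := memLp_cont (cau_cont hz)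
  unfold ev
  simp_rw [mul_add]
  exact integral_add (integrable_mul2 hc hF) (integrable_mul2 hc hG)

lemma ev_sub (hF : MemLp F 2 mm) (hG : MemLp G 2 mm) (hz : ‖z‖ < 1) :
    ev (fun x => F x - G x) z = ev F z - ev G z := by
  have hc := memLp_cont (cau_cont hz)
  unfold ev
  simp_rw [mul_sub]
  exact integral_sub (integrable_mul2 hc hF) (integrable_mul2 hc hG)

lemma T1_bd_cont (hu : Continuous u) : Bd u := by
  obtain ⟨K, hK⟩ := isCompact_univ.exists_bound_of_continuousOn hu.continuousOn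
  exact ⟨hu.aestronglyMeasurable, K, ae_of_all _ fun x => hK x (Set.mem_univ _)⟩



lemma IsH.div_sub (hF : IsH F) (hz : ‖z‖ < 1) (h0 : ev F z = 0) : IsH fun x => F x / (ee x - z) :=
  by
  have hi : Continuous fun x => (ee x - z)⁻¹ :=
    (ee_cont.sub continuous_const).inv₀ (ee_sub_ne hz)
  have hm : MemLp (fun x => F x / (ee x - z)) 2 mm := by
    have := (T1_bd_cont hi).mul_memLp hF.1
    simpa only [div_eq_inv_mul] using this
  refine ⟨hm, fun j => ?_⟩
  induction j with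
  | zero =>
    rw [← h0, ev]
    refine integral_congr_ae (ae_of_all _ fun x => ?_)
    simp only [cau]
    ring
  | succ j ih =>
    have e : ∀ x, ee x ^ (j + 1 + 1) * (F x / (ee x - z)) =
        ee x ^ (j + 1) * F x + z * (ee x ^ (j + 1) * (F x / (ee x - z))) := by
      intro x
      have := ee_sub_ne hz x
      field_simp
      ring
    simp_rw [e]
    rw [integral_add (integrable_mul2 (memLp_ee_pow _) hF.1)
      ((integrable_mul2 (memLp_ee_pow _) hm).const_mul z), integral_const_mul, ih, hF.2 j]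
    simp

lemma T1_pk (hz : ‖z‖ < 1) (x : TT) :
    (pk z x : ℂ) = ee x * ((1 - z * conj z) / (1 - conj z * ee x)) / (ee x - z) := by
  have h2 := ee_sub_ne hz x
  have h3 := den_ne' hz (ee_norm x).le
  rw [pk_eq hz, cau, div_add_div _ _ h2 h3, ← mul_div_assoc, div_div, mul_comm (1 - conj z * ee x)]
  congr 1
  ring



lemma IsH.integral_pk_mul2 (hF : IsH F) (hG : IsH G) (hz : ‖z‖ < 1) :
    ∫ x, (pk z x : ℂ) * (F x * G x) ∂mm = ev F z * ev G z := by
  have hd : DiffContOnCl ℂ (fun w => (1 - z * conj z) / (1 - conj z * w)) (ball 0 1) := by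
    apply DifferentiableOn.diffContOnCl
    rw [closure_ball _ one_ne_zero]
    refine DifferentiableOn.div (by fun_prop) (by fun_prop) fun w hw => den_ne' hz ?_
    simpa using hw
  have h1 : IsH fun x => F x - ev F z := hF.sub (isH_const _)
  have h2 : IsH fun x => (F x - ev F z) / (ee x - z) := by
    refine h1.div_sub hz ?_
    rw [ev_sub hF.1 (memLp_const _) hz, ev_const _ hz, sub_self]
  have h3 := (((dc_isH hd).mul_bd (T1_bd_cont (dc_cont hd)) h2).ee_mul 0)
  have h4 := integral_mul_eq_zero h3 hG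
  have hp : MemLp (fun x => (pk z x : ℂ)) 2 mm := memLp_cont (continuous_ofReal.comp (pk_cont hz))
  have e : ∀ x, (pk z x : ℂ) * (F x * G x) =
      ee x ^ (0 + 1) * ((1 - z * conj z) / (1 - conj z * ee x) * ((F x - ev F z) / (ee x - z))) *
        G x + ev F z * ((pk z x : ℂ) * G x) := by
    intro x
    rw [T1_pk hz]
    ring
  simp_rw [e]
  rw [integral_add (integrable_mul2 h3.1 hG.1) ((integrable_mul2 hp hG.1).const_mul _), h4,
    integral_const_mul, integral_pk_mul hG hz, zero_add]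

lemma ev_mul (hu : IsH u) (hb : Bd u) (hF : IsH F) (hz : ‖z‖ < 1) :
    ev (fun x => u x * F x) z = ev u z * ev F z := by
  rw [← integral_pk_mul (hu.mul_bd hb hF) hz, hu.integral_pk_mul2 hF hz]

lemma ev_mul_eq (hF : IsH F) (hG : IsH G) (hF' : IsH F') (hG' : IsH G')
    (e : ∀ᵐ x ∂mm, F x * G x = F' x * G' x) (hz : ‖z‖ < 1) : ev F z * ev G z = ev F' z * ev G' z :=
  by
  rw [← hF.integral_pk_mul2 hG hz, ← hF'.integral_pk_mul2 hG' hz]
  refine integral_congr_ae ?_
  filter_upwards [e] with x hx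
  rw [hx]

lemma IsH.zero_of_ev (hF : IsH F) (h : ∀ z : ℂ, ‖z‖ < 1 → ev F z = 0) : ∀ᵐ x ∂mm, F x = 0 := by
  have h1 := (ev_taylor (f := fun _ => 0) (integrable_of_memLp hF.1) fun z hz => (h z hz).symm).2
  have h2 := (taylor_of_hasSum (a := fun _ => 0) (K := 0) (f := fun _ => 0) (fun _ => by simp)
    fun z _ => by simpa using hasSum_zero).2
  refine ae_zero_of_coeff hF.1 fun j => ?_
  rcases lt_or_ge j 0 with hj | hj
  · exact hF.coeff hj
  · obtain ⟨n, rfl⟩ := Int.eq_ofNat_of_zero_le hj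
    rw [← h1 n, h2 n]

lemma T1_pk_le (hz : ‖z‖ < 1) (x : TT) : pk z x ≤ 4 / (1 - ‖z‖ ^ 2) := by
  have h1 : 1 - ‖z‖ ≤ ‖ee x - z‖ := by
    have := norm_sub_norm_le (ee x) z
    rwa [ee_norm] at this
  have h0 := norm_nonneg z
  have h2 : 0 < 1 - ‖z‖ ^ 2 := by nlinarith
  have h3 : 0 < ‖ee x - z‖ := by linarith
  have h4 : 1 - ‖z‖ ^ 2 ≤ 2 * ‖ee x - z‖ := by nlinarith
  unfold pk
  rw [div_le_div_iff₀ (by positivity) h2]
  nlinarith



lemma integral_pk_norm_sq_le (hF : MemLp F 2 mm) (hz : ‖z‖ < 1) :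
    (∫ x, pk z x * ‖F x‖ ∂mm) ^ 2 ≤ 4 / (1 - ‖z‖ ^ 2) * nn F := by
  have hp : MemLp (fun x => (pk z x : ℂ)) 2 mm := memLp_cont (continuous_ofReal.comp (pk_cont hz))
  have hi : Integrable (fun x => pk z x * ‖F x‖) mm := by
    refine (integrable_mul2 hp hF).norm.congr (ae_of_all _ fun x => ?_)
    simp only [norm_mul, norm_real, Real.norm_eq_abs, abs_of_nonneg (pk_nonneg hz x)]
  have hj : Integrable (pk z) mm := by
    refine (integrable_of_memLp hp).norm.congr (ae_of_all _ fun x => ?_)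
    simp only [norm_real, Real.norm_eq_abs, abs_of_nonneg (pk_nonneg hz x)]
  have hk := integrable_normsq hF
  set A := ∫ x, pk z x * ‖F x‖ ∂mm with hA
  have h1 : ∫ x, 2 * A * (pk z x * ‖F x‖) ∂mm ≤
      ∫ x, (4 / (1 - ‖z‖ ^ 2) * ‖F x‖ ^ 2 + A ^ 2 * pk z x) ∂mm := by
    refine integral_mono (hi.const_mul _) ((hk.const_mul _).add (hj.const_mul _)) fun x => ?_
    have a1 := mul_le_mul_of_nonneg_right (T1_pk_le hz x) (sq_nonneg ‖F x‖)
    have a2 := mul_nonneg (pk_nonneg hz x) (sq_nonneg (‖F x‖ - A))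
    show 2 * A * (pk z x * ‖F x‖) ≤ 4 / (1 - ‖z‖ ^ 2) * ‖F x‖ ^ 2 + A ^ 2 * pk z x
    nlinarith
  rw [integral_add (hk.const_mul _) (hj.const_mul _), integral_const_mul, integral_const_mul,
    integral_const_mul, integral_pk hz, ← hA] at h1
  unfold nn
  nlinarith

lemma norm_ev_le (hF : IsH F) (hz : ‖z‖ < 1) : ‖ev F z‖ ≤ ∫ x, pk z x * ‖F x‖ ∂mm := by
  rw [← integral_pk_mul hF hz]
  refine (norm_integral_le_integral_norm _).trans (le_of_eq ?_)
  refine integral_congr_ae (ae_of_all _ fun x => ?_)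
  simp only [norm_mul, norm_real, Real.norm_eq_abs, abs_of_nonneg (pk_nonneg hz x)]

lemma bl_isH (hp : ‖p‖ < 1) : IsH (fun x => bl p (ee x)) ∧ (∀ x, ‖bl p (ee x)‖ = 1) ∧
    Bd (fun x => bl p (ee x)) ∧ ∀ z : ℂ, ‖z‖ < 1 → ev (fun x => bl p (ee x)) z = bl p z := by
  have hd : DiffContOnCl ℂ (bl p) (ball 0 1) := by
    apply DifferentiableOn.diffContOnCl
    rw [closure_ball _ one_ne_zero]
    unfold bl
    refine DifferentiableOn.div (by fun_prop) (by fun_prop) fun w hw => den_ne' hp ?_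
    simpa using hw
  refine ⟨dc_isH hd, fun x => ?_, T1_bd_cont (dc_cont hd), fun z hz => dc_ev hd hz⟩
  have h1 := mob_id' p (ee x)
  have h2 := norm_pos_iff.2 (den_ne' hp (ee_norm x).le)
  rw [ee_norm, one_pow, sub_self, mul_zero, sub_eq_zero] at h1
  rw [bl, norm_div, div_eq_one_iff_eq h2.ne']
  exact ((pow_left_inj₀ (norm_nonneg _) (norm_nonneg _) two_ne_zero).1 h1).symm

lemma bl_lower (hp : ‖p‖ < 1) : ∃ C : ℝ, 0 ≤ C ∧ ∀ z : ℂ, ‖z‖ < 1 → C * (1 - ‖z‖ ^ 2) ≤ 1 / 2 →
    Real.exp (-(C * (1 - ‖z‖ ^ 2))) ≤ ‖bl p z‖ := by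
  have p0 := norm_nonneg p
  have p1 : 0 < 1 - ‖p‖ := by linarith
  refine ⟨(1 + ‖p‖) / (1 - ‖p‖), by positivity, fun z hz ht => ?_⟩
  have z0 := norm_nonneg z
  have z1 : 0 ≤ 1 - ‖z‖ ^ 2 := by nlinarith
  have h1 : 1 - ‖p‖ ≤ ‖1 - conj p * z‖ := by
    have a := norm_sub_norm_le (1 : ℂ) (conj p * z)
    rw [norm_one, norm_mul, norm_conj] at a
    nlinarith
  have h2 : 1 - ‖bl p z‖ ^ 2 ≤ (1 + ‖p‖) / (1 - ‖p‖) * (1 - ‖z‖ ^ 2) := by
    rw [bl, mob_normsq hp hz]
    have e : (1 + ‖p‖) / (1 - ‖p‖) * (1 - ‖z‖ ^ 2) =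
        (1 - ‖p‖ ^ 2) * (1 - ‖z‖ ^ 2) / (1 - ‖p‖) ^ 2 := by
      field_simp
      ring
    rw [e]
    refine div_le_div_of_nonneg_left (mul_nonneg (by nlinarith) z1) (by positivity) ?_
    exact pow_le_pow_left₀ p1.le h1 2
  have t0 : 0 ≤ (1 + ‖p‖) / (1 - ‖p‖) * (1 - ‖z‖ ^ 2) := by positivity
  generalize (1 + ‖p‖) / (1 - ‖p‖) * (1 - ‖z‖ ^ 2) = t at ht h2 t0 ⊢
  refine (pow_le_pow_iff_left₀ (Real.exp_pos _).le (norm_nonneg _) two_ne_zero).1 ?_
  have h3 : Real.exp (-t) ^ 2 * Real.exp (2 * t) = 1 := by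
    rw [← Real.exp_nat_mul, ← Real.exp_add]
    simp
  have h4 := Real.add_one_le_exp (2 * t)
  have h5 : 0 ≤ Real.exp (-t) ^ 2 := by positivity
  have h6 : Real.exp (-t) ^ 2 * (2 * t + 1) ≤ 1 := by
    calc _ ≤ Real.exp (-t) ^ 2 * Real.exp (2 * t) := mul_le_mul_of_nonneg_left h4 h5
      _ = 1 := h3
  have h7 : Real.exp (-t) ^ 2 ≤ 1 - t := by
    by_contra hc
    have a1 := mul_lt_mul_of_pos_right (not_le.1 hc) (show 0 < 2 * t + 1 by linarith)
    nlinarith [mul_nonneg t0 (show 0 ≤ 1 - 2 * t by linarith)]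
  linarith

end Pool.Agent.Work.MP_f96e05_an
end

-- merged part: Pool.Agent.Work.MP_f96e05_an.FS.T2
section
/-!
Push-forward of harmonic measure, disc automorphisms, Jensen's inequality at a point, iterates.

PLAN. `push`: copy `IsBdry.integral_comp`, `IsBdry.map_eq`, `IsBdry.integral_comp_real` (file Comp, Agmon) with the weight `pk z`:
`∫ pk z * ee (S x) ^ j = φ z ^ j` by `integral_pk_mul`, `IsBdry.pow`; so `map S (mm.withDensity (pk z)) = mm.withDensity (pk (φ z))`.
`exists_aut`: the automorphism is an `IsInnerFn` (`exists_bdry`; continuity up to the boundary, `den_ne'`), uniqueness of limits. `jensen`: apply `mean_exp_le` to `F ∘ S`, `g ∘ S` for the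
automorphism (`IsSys.presH`, `IsBdry.ev_comp`, `ev_zero`, `IsBdry.integral_comp_real`).
-/

set_option autoImplicit false

open MeasureTheory Filter Topology Complex Metric
open scoped ComplexConjugate InnerProductSpace

namespace Pool.Agent.Work.MP_f96e05_an

variable {φ : ℂ → ℂ} {S : TT → TT} {ω μ p z : ℂ} {w b : ℝ} {F G F' G' u v χ l π : TT → ℂ}
  {r X : TT → ℝ} {σ : ℂ → ℂ}

lemma T2_cont (h : IsBdry φ S) (hz : ‖z‖ < 1) (c : C(TT, ℂ)) :
    ∫ x, c (S x) * pk z x ∂mm = ∫ x, c x * pk (φ z) x ∂mm := by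
  have ha := h.norm_lt hz
  obtain ⟨l1, h1⟩ := exists_clm_pair (integrable_of_memLp
    (memLp_cont (continuous_ofReal.comp (pk_cont hz)))) h.meas.aemeasurable
  obtain ⟨l2, h2⟩ := exists_clm_pair (integrable_of_memLp
    (memLp_cont (continuous_ofReal.comp (pk_cont ha)))) aemeasurable_id
  have nat : ∀ j : ℕ, ∫ x, ee (S x) ^ j * pk z x ∂mm = ∫ x, ee x ^ j * pk (φ z) x ∂mm :=
    fun j => by
      simp_rw [mul_comm (ee _ ^ j)]
      rw [integral_pk_mul (isH_ee_pow j) ha, integral_pk_mul (h.pow j).1 hz, (h.pow j).2 z hz]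
      exact (dc_ev (g := fun z => z ^ j) (Differentiable.diffContOnCl (by fun_prop)) ha).symm
  have := clm_eq_zero (l1 - l2) (fun j => by
    rw [sub_apply, h1, h2, sub_eq_zero]
    simp only [id, Function.comp_apply]
    rcases le_or_gt 0 j with hj | hj
    · obtain ⟨m, rfl⟩ := Int.eq_ofNat_of_zero_le hj
      simpa only [fourier_nat] using nat m
    · obtain ⟨m, rfl⟩ : ∃ m : ℕ, j = -(m : ℤ) := ⟨(-j).toNat, by omega⟩
      have := congrArg conj (nat m)
      rw [← integral_conj, ← integral_conj] at this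
      simpa only [fourier_neg, fourier_nat, map_mul, conj_ofReal] using this) c
  rw [sub_apply, h1, h2, sub_eq_zero] at this
  simpa using this

lemma T2_wd {E : Type} [NormedAddCommGroup E] [NormedSpace ℝ E] (hz : ‖z‖ < 1) (g : TT → E) :
    ∫ x, g x ∂(mm.withDensity fun x => ENNReal.ofReal (pk z x)) = ∫ x, pk z x • g x ∂mm := by
  rw [integral_withDensity_eq_integral_toReal_smul₀
    (pk_cont hz).measurable.aemeasurable.ennreal_ofReal (by simp)]
  simp only [ENNReal.toReal_ofReal (pk_nonneg hz _)]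

lemma T2_fin (hz : ‖z‖ < 1) : IsFiniteMeasure (mm.withDensity fun x => ENNReal.ofReal (pk z x)) :=
  isFiniteMeasure_withDensity_ofReal
    ((pk_cont hz).integrable_of_hasCompactSupport (HasCompactSupport.of_compactSpace _)).2

lemma T2_map (h : IsBdry φ S) (hz : ‖z‖ < 1) :
    Measure.map S (mm.withDensity fun x => ENNReal.ofReal (pk z x)) =
      mm.withDensity fun x => ENNReal.ofReal (pk (φ z) x) := by
  have := T2_fin hz
  have := T2_fin (h.norm_lt hz)
  refine ext_of_forall_integral_eq_of_IsFiniteMeasure fun c => ?_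
  rw [integral_map h.meas.aemeasurable c.continuous.aestronglyMeasurable, T2_wd hz,
    T2_wd (h.norm_lt hz)]
  have h1 := T2_cont h hz ⟨fun x => (c x : ℂ), continuous_ofReal.comp c.continuous⟩
  simp only [ContinuousMap.coe_mk, ← ofReal_mul] at h1
  rw [integral_complex_ofReal, integral_complex_ofReal] at h1
  simpa only [smul_eq_mul, mul_comm] using ofReal_inj.1 h1

lemma T2_push {E : Type} [NormedAddCommGroup E] [NormedSpace ℝ E] (h : IsBdry φ S) (hz : ‖z‖ < 1)
    {g : TT → E} (hg : AEStronglyMeasurable g mm) :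
    ∫ x, pk z x • g (S x) ∂mm = ∫ x, pk (φ z) x • g x ∂mm := by
  rw [← T2_wd hz, ← T2_wd (h.norm_lt hz), ← T2_map h hz, integral_map h.meas.aemeasurable]
  rw [T2_map h hz]
  exact hg.mono_ac (withDensity_absolutelyContinuous _ _)

lemma IsBdry.push (h : IsBdry φ S) (hz : ‖z‖ < 1) {g : TT → ℝ} (hg : AEStronglyMeasurable g mm) :
    ∫ x, pk z x * g (S x) ∂mm = ∫ x, pk (φ z) x * g x ∂mm := by
  simpa only [smul_eq_mul] using T2_push h hz hg

lemma IsBdry.pushC (h : IsBdry φ S) (hz : ‖z‖ < 1) (hg : AEStronglyMeasurable F mm) :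
    ∫ x, (pk z x : ℂ) * F (S x) ∂mm = ∫ x, (pk (φ z) x : ℂ) * F x ∂mm := by
  simpa only [real_smul] using T2_push h hz hg

lemma exists_aut (hz : ‖z‖ < 1) : ∃ S, IsBdry (fun η => (η + z) / (1 + conj z * η)) S ∧
    ∀ᵐ x ∂mm, ee (S x) = (ee x + z) / (1 + conj z * ee x) := by
  have hz' : ‖-z‖ < 1 := by rwa [norm_neg]
  have hd : ∀ η : ℂ, ‖η‖ ≤ 1 → 1 + conj z * η ≠ 0 := fun η hη => by
    simpa using den_ne' hz' hη
  have hc : ∀ ζ : ℂ, ‖ζ‖ = 1 → Tendsto (fun r : ℝ => (r * ζ + z) / (1 + conj z * (r * ζ)))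
      (𝓝[<] 1) (𝓝 ((ζ + z) / (1 + conj z * ζ))) := fun ζ hζ => by
    have h1 : ContinuousAt (fun r : ℝ => (r * ζ + z) / (1 + conj z * (r * ζ))) 1 := by
      have : 1 + conj z * (((1 : ℝ) : ℂ) * ζ) ≠ 0 := hd _ (by simp [hζ])
      fun_prop (disch := assumption)
    have h2 := h1.tendsto.mono_left (nhdsWithin_le_nhds (s := Set.Iio 1))
    rwa [ofReal_one, one_mul] at h2
  obtain ⟨S, hS⟩ := exists_bdry (φ := fun η => (η + z) / (1 + conj z * η))
    ⟨DifferentiableOn.div (by fun_prop) (by fun_prop) fun η hη => hd η (mem_ball_zero_iff.1 hη).le,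
      fun η hη => mem_ball_zero_iff.2 (by simpa using mob_lt hz' (mem_ball_zero_iff.1 hη)),
      Eventually.of_forall fun t => ⟨_, by
        have h1 := norm_exp_ofReal_mul_I t
        have h2 := mob_id (-z) (exp (t * I))
        rw [h1, one_pow, sub_self, mul_zero, sub_eq_zero, map_neg, neg_mul, sub_neg_eq_add,
          sub_neg_eq_add, sq_eq_sq₀ (norm_nonneg _) (norm_nonneg _)] at h2
        rw [norm_div, ← h2, div_self (norm_ne_zero_iff.2 (hd _ h1.le))],
        hc _ (norm_exp_ofReal_mul_I t)⟩⟩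
  exact ⟨S, hS, hS.lim.mono fun x hx =>
    tendsto_nhds_unique hx ((hc _ (ee_norm x)).comp rr_tendsto')⟩

lemma IsH.jensen (hF : IsH F) (hz : ‖z‖ < 1) {g : TT → ℝ} (hg : AEStronglyMeasurable g mm) {K : ℝ}
    (hK : ∀ᵐ x ∂mm, |g x| ≤ K) :
    ‖ev F z‖ * Real.exp (∫ x, pk z x * g x ∂mm) ≤ ∫ x, pk z x * (Real.exp (g x) * ‖F x‖) ∂mm := by
  obtain ⟨S, hS, -⟩ := exists_aut hz
  have h1 := mean_exp_le (hS.isSys.presH F hF) (g := fun x => g (S x))
    (hg.comp_quasiMeasurePreserving hS.isPre.qmp) (hS.isPre.ae (p := fun x => |g x| ≤ K) hK)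
  rw [← ev_zero, hS.ev_comp hF (by simp), hS.integral_comp_real hg,
    hS.integral_comp_real (g := fun x => Real.exp (g x) * ‖F x‖)
      ((Real.continuous_exp.comp_aestronglyMeasurable hg).mul hF.1.1.norm)] at h1
  simpa only [zero_add, mul_zero, add_zero, div_one] using h1

lemma IsPre.iter (h : IsPre S) (k : ℕ) : IsPre S^[k] := by
  refine ⟨h.meas.iterate k, ?_⟩
  obtain ⟨K, hK⟩ := h.bound
  induction k with
  | zero => exact ⟨1, by simp⟩
  | succ k ih =>
    obtain ⟨L, hL⟩ := ih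
    refine ⟨K * L, ?_⟩
    rw [Function.iterate_succ, ← Measure.map_map (h.meas.iterate k) h.meas, ENNReal.coe_mul,
      mul_smul]
    refine (Measure.map_mono hK (h.meas.iterate k)).trans ?_
    rw [Measure.map_smul]
    exact fun s => mul_le_mul_right (hL s) _

lemma IsBdry.iter_lt (h : IsBdry φ S) (hz : ‖z‖ < 1) (k : ℕ) : ‖φ^[k] z‖ < 1 := by
  induction k with
  | zero => exact hz
  | succ k ih =>
    rw [Function.iterate_succ_apply']
    exact h.norm_lt ih

lemma IsBdry.iter (h : IsBdry φ S) (hF : IsH F) (k : ℕ) : IsH (fun x => F (S^[k] x)) ∧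
    ∀ z : ℂ, ‖z‖ < 1 → ev (fun x => F (S^[k] x)) z = ev F (φ^[k] z) := by
  induction k with
  | zero => exact ⟨hF, fun _ _ => rfl⟩
  | succ k ih =>
    simp only [Function.iterate_succ_apply]
    exact ⟨h.isSys.presH (fun x => F (S^[k] x)) ih.1, fun z hz =>
      (h.ev_comp (F := fun x => F (S^[k] x)) ih.1 hz).trans (ih.2 _ (h.norm_lt hz))⟩

lemma Lev0.iter (hL : Lev0 S ω X b) (h : IsPre S) (k : ℕ) :
    ∀ᵐ x ∂mm, X (S^[k] x) = X x + k * b := by
  induction k with
  | zero => simp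
  | succ k ih =>
    filter_upwards [h.ae (p := fun x => X (S^[k] x) = X x + k * b) ih, hL.shift] with x h1 h2
    rw [Function.iterate_succ_apply, h1, h2]
    push_cast
    ring

end Pool.Agent.Work.MP_f96e05_an
end
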