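import Pool.Agent.Work.MP_f96e05_an.FS.A2
import Pool.Agent.Work.MP_f96e05_an.FS.T2
import Pool.Agent.Work.MP_f96e05_an.Julia

-- merged part: Pool.Agent.Work.MP_f96e05_an.FS.C2
section
/-!
Chains of steps.

PLAN. `stp_skip`: `π' = (bl p * π) ∘ S`, `γ' = γ ∘ S`; `(G π') * G ∘ S = G * (bl p * (G π)) ∘ S`, `ev_mul_eq`, `ev_comp`, `ev_mul`, `IsBdry.push`.
`stp_good`: `e = bl p ^ 2 * bl (φ 0)`, `π' = (M + sfn) * (e π) ∘ S` (`step1`, `step2`), `γ' = log ‖M + sfn‖ + γ ∘ S`; `A = G * (e π) ∘ S`; `ev A z * ev G (φ z) = ev G z * e (φ z) * ev (G π) (φ z)` and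
`(G π') * G ∘ S = A * (G ∘ S * (M + sfn))`. `chain`: induction on `K` generalizing `z`, `α`, for: there are `π`, `γ` with `exp (∑ α) ‖ev G z‖ ≤ ‖ev (G π) z‖ exp (-∫ pk z γ)`; then `IsH.jensen` with `-γ`.
`gain`: `log ‖M + s‖ ≤ log M + re s / M + B ^ 2 / (2 M ^ 2)`, `‖M + c‖ ≥ M + re c`, `t - t ^ 2 ≤ log (1 + t)` for `|t| ≤ 1 / 2` (or `exp (t - t ^ 2) ≤ 1 + t`), `integral_pk`.
-/

set_option autoImplicit false

open MeasureTheory Filter Topology Complex Metric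
open scoped ComplexConjugate InnerProductSpace

namespace Pool.Agent.Work.MP_f96e05_an

variable {φ : ℂ → ℂ} {S : TT → TT} {ω μ p z : ℂ} {w b : ℝ} {F G F' G' u v χ l π : TT → ℂ}
  {r X : TT → ℝ} {σ : ℂ → ℂ}

lemma C2_key {e : TT → ℂ} (h : Ext φ S w μ G r) (hz : ‖z‖ < 1) (he : IsH e) (hb : Bd e)
    (hπ : IsH fun x => G x * π x) (hA : IsH fun x => G x * (e (S x) * π (S x))) :
    ev (fun x => G x * (e (S x) * π (S x))) z * ev G (φ z) =
      ev G z * (ev e (φ z) * ev (fun x => G x * π x) (φ z)) := by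
  have h1 := he.mul_bd hb hπ
  have h2 := ev_mul_eq hA (h.bd.isSys.presH _ h.isH.isH) h.isH.isH (h.bd.isSys.presH _ h1)
    (.of_forall fun x => by ring) hz
  rwa [h.bd.ev_comp h1 hz, h.bd.ev_comp h.isH.isH hz, ev_mul he hb hπ (h.bd.norm_lt hz)] at h2

lemma C2_mul (hu : IsH u) (hb : Bd u) (hπ : Rc S G π) : Rc S G fun x => u x * π x :=
  ⟨hb.mul hπ.1, (hu.mul_bd hb hπ.2.1).congr (.of_forall fun x => mul_left_comm _ _ _),
    (hu.mul_bd hb hπ.2.2).congr (.of_forall fun x => mul_left_comm _ _ _)⟩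

lemma C2_add (hu : Rc S G u) (hv : Rc S G v) : Rc S G fun x => u x + v x :=
  ⟨hu.1.add hv.1, (hu.2.1.add hv.2.1).congr (.of_forall fun x => (mul_add _ _ _).symm),
    (hu.2.2.add hv.2.2).congr (.of_forall fun x => (mul_add _ _ _).symm)⟩

lemma C2_lg {γ : TT → ℝ} (hS : IsPre S) (h1 : ∀ x, ‖u x‖ = 1) (h : Lg π γ) :
    Lg (fun x => u x * π (S x)) fun x => γ (S x) := by
  obtain ⟨h2, ⟨K, h3⟩, h4⟩ := h
  refine ⟨h2.comp_quasiMeasurePreserving hS.qmp, ⟨K, hS.ae (p := fun x => |γ x| ≤ K) h3⟩, ?_⟩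
  filter_upwards [hS.ae h4] with x hx
  rw [norm_mul, h1, one_mul, hx]

lemma C2_int (hz : ‖z‖ < 1) {g : TT → ℝ} (hg : AEStronglyMeasurable g mm) {K : ℝ}
    (hK : ∀ᵐ x ∂mm, |g x| ≤ K) : Integrable (fun x => pk z x * g x) mm :=
  ((pk_cont hz).integrable_of_hasCompactSupport (HasCompactSupport.of_compactSpace _)).mul_bdd hg hK

lemma C2_log (hu : AEStronglyMeasurable u mm) {B M : ℝ} (hB : ∀ᵐ x ∂mm, ‖u x‖ ≤ B) (hM : B < M) :
    Lg (fun x => M + u x) fun x => Real.log ‖M + u x‖ := by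
  have h1 : ∀ᵐ x ∂mm, M - B ≤ ‖M + u x‖ ∧ ‖M + u x‖ ≤ M + B := hB.mono fun x hx => by
    have h2 : ‖(M : ℂ)‖ = M := by
      rw [norm_real, Real.norm_eq_abs, abs_of_nonneg (by linarith only [hM, hx, norm_nonneg (u x)])]
    have h3 := norm_sub_le (M + u x) (u x)
    have h4 := norm_add_le (M : ℂ) (u x)
    rw [add_sub_cancel_right] at h3
    constructor <;> linarith only [hx, h2, h3, h4]
  refine ⟨(Real.measurable_log.comp_aemeasurable
    (aestronglyMeasurable_const.add hu).norm.aemeasurable).aestronglyMeasurable,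
    ⟨|Real.log (M - B)| + |Real.log (M + B)|, h1.mono fun x hx => ?_⟩,
    h1.mono fun x hx => (Real.exp_log (by linarith [hx.1])).symm⟩
  have h2 := Real.log_le_log (by linarith) hx.1
  have h3 := Real.log_le_log (by linarith [hx.1]) hx.2
  rw [abs_le]
  constructor <;> linarith only [h2, h3, neg_abs_le (Real.log (M - B)), le_abs_self (Real.log (M + B)),
    abs_nonneg (Real.log (M - B)), abs_nonneg (Real.log (M + B))]

lemma C2_exp {t : ℝ} (h : |t| ≤ 1 / 2) : Real.exp (t - t ^ 2) ≤ 1 + t := by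
  obtain ⟨h1, h2⟩ := abs_le.1 h
  rw [show t - t ^ 2 = -(t ^ 2 - t) by ring, Real.exp_neg, inv_le_iff_one_le_mul₀ (Real.exp_pos _)]
  rcases le_total 0 t with k | k
  · have := mul_le_mul_of_nonneg_left (Real.add_one_le_exp (t ^ 2 - t)) (show 0 ≤ 1 + t by linarith only [k])
    linarith only [this, k, pow_nonneg k 3]
  · have := mul_le_mul_of_nonneg_left (Real.quadratic_le_exp_of_nonneg
      (show 0 ≤ t ^ 2 - t by linarith only [k, sq_nonneg t])) (show 0 ≤ 1 + t by linarith only [h1])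
    have h3 : 0 ≤ (1 + t) * (1 - t) ^ 2 / 2 + t := by linarith only [h1, mul_nonneg (sq_nonneg t) (show 0 ≤ 1 + t by linarith), mul_nonneg_of_nonpos_of_nonpos (Mathlib.Tactic.Linarith.sub_nonpos_of_le (sq_nonneg t)) (Mathlib.Tactic.Linarith.sub_nonpos_of_le h1), mul_nonneg_of_nonpos_of_nonpos (Mathlib.Tactic.Linarith.sub_nonpos_of_le (sq_nonneg ((1 : ℝ) * (1 : ℝ) - (1 : ℝ) * t))) (Mathlib.Tactic.Linarith.sub_nonpos_of_le h1)]
    linarith only [this, h3, mul_nonneg (sq_nonneg t) h3, sq_nonneg t]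

lemma PP.stp_skip (hP : PP S G p) (h : Ext φ S w μ G r) (hz : ‖z‖ < 1) {α : ℝ}
    (hα : Real.exp α ≤ ‖bl p (φ z)‖) : Stp φ S G z α := by
  intro π γ hπ hγ
  obtain ⟨b1, b2, b3, b4⟩ := bl_isH hP.1
  have h1 := hP.step1 h hπ
  refine ⟨_, _, h1, C2_lg h.bd.isPre (fun x => b2 _) hγ, ?_⟩
  have h2 := congrArg norm (C2_key h hz b1 b3 hπ.2.1 h1.2.1)
  rw [b4 _ (h.bd.norm_lt hz), norm_mul, norm_mul, norm_mul] at h2
  rw [h.bd.push hz hγ.1, ← mul_assoc ‖ev G (φ z)‖, mul_comm ‖ev G (φ z)‖, h2]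
  refine le_trans (mul_le_mul_of_nonneg_right (mul_le_mul_of_nonneg_right hα (norm_nonneg _))
    (by positivity)) (le_of_eq (by ring))

lemma PP.stp_good (hP : PP S G p) (h : Ext φ S w μ G r) (hz : ‖z‖ < 1) (hχ : IsH χ) (hb : Bd χ)
    (hl : Ell S G χ l) {B M α : ℝ} {c : ℂ} (hB : ∀ᵐ x ∂mm, ‖sfn S w r χ l x‖ ≤ B) (hM : B < M)
    (h0 : ev G (φ z) ≠ 0) (hc : ev G (φ z) * c = ev (fun x => G (S x) * sfn S w r χ l x) z)
    (hα : Real.exp α * Real.exp (∫ x, pk z x * Real.log ‖M + sfn S w r χ l x‖ ∂mm) ≤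
      ‖M + c‖ * (‖bl p (φ z)‖ ^ 2 * ‖bl (φ 0) (φ z)‖)) : Stp φ S G z α := by
  intro π γ hπ hγ
  have hS := h.bd.isSys
  have hz' := h.bd.norm_lt hz
  obtain ⟨b1, b2, b3, b4⟩ := bl_isH hP.1
  obtain ⟨a1, a2, a3, a4⟩ := bl_isH (h.bd.norm_lt (z := 0) (by simp))
  have e0 := b1.mul_bd b3 a1
  have e1 : IsH fun x => bl p (ee x) ^ 2 * bl (φ 0) (ee x) :=
    (b1.mul_bd b3 e0).congr (.of_forall fun x => by ring)
  have e2 : Bd fun x => bl p (ee x) ^ 2 * bl (φ 0) (ee x) := by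
    simpa only [sq] using (b3.mul b3).mul a3
  have e3 : ev (fun x => bl p (ee x) ^ 2 * bl (φ 0) (ee x)) (φ z) =
      bl p (φ z) ^ 2 * bl (φ 0) (φ z) := by
    simp only [sq, mul_assoc]
    rw [ev_mul b1 b3 e0 hz', ev_mul b1 b3 a1 hz', b4 _ hz', a4 _ hz']
  have h1 : Rc S G fun x => bl p (ee (S x)) ^ 2 * bl (φ 0) (ee (S x)) * π (S x) := by
    convert C2_mul (hS.presH _ e0) ((b3.mul a3).comp hS.toIsPre) (hP.step1 h hπ) using 2
    ring
  have h2 : Rc S G fun x => (M + sfn S w r χ l x) *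
      (bl p (ee (S x)) ^ 2 * bl (φ 0) (ee (S x)) * π (S x)) := by
    simpa only [add_mul] using
      C2_add (C2_mul (isH_const M) (bd_const M) h1) (hP.step2 h hχ hb hl hπ)
  obtain ⟨l1, ⟨K, l2⟩, l3⟩ := C2_log (sfn_bd h hb hl).1 hB hM
  obtain ⟨m1, ⟨K', m2⟩, m3⟩ := C2_lg (u := fun x => bl p (ee (S x)) ^ 2 * bl (φ 0) (ee (S x)))
    hS.toIsPre (fun x => by rw [norm_mul, norm_pow, b2, a2, one_pow, one_mul]) hγ
  refine ⟨_, fun x => Real.log ‖M + sfn S w r χ l x‖ + γ (S x), h2, ⟨l1.add m1, ⟨K + K', ?_⟩, ?_⟩, ?_⟩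
  · filter_upwards [l2, m2] with x k1 k2 using (abs_add_le _ _).trans (add_le_add k1 k2)
  · filter_upwards [l3, m3] with x k1 k2
    rw [norm_mul, Real.exp_add, ← k1, ← k2]
  have g1 := hS.presH _ h.isH.isH
  have g2 := (h.hs hχ hb hl).1
  have h3 := ev_mul_eq h2.2.1 g1 h1.2.1 ((g1.const_mul M).add g2) (.of_forall fun x => by ring) hz
  rw [ev_add (g1.const_mul M).1 g2.1 hz, ev_const_mul, ← hc, h.bd.ev_comp h.isH.isH hz,
    mul_comm (M : ℂ), ← mul_add, ← mul_assoc, C2_key h hz e1 e2 hπ.2.1 h1.2.1, e3] at h3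
  have h4 := congrArg norm h3
  simp only [norm_mul, norm_pow] at h4
  simp only [mul_add (pk z _)]
  rw [integral_add (C2_int hz l1 l2) (C2_int hz m1 m2), h.bd.push hz hγ.1,
    ← mul_assoc ‖ev G (φ z)‖, mul_comm ‖ev G (φ z)‖, h4, neg_add, Real.exp_add,
    Real.exp_neg (∫ x, pk z x * Real.log ‖M + sfn S w r χ l x‖ ∂mm)]
  rw [← le_mul_inv_iff₀ (Real.exp_pos _)] at hα
  refine le_trans (mul_le_mul_of_nonneg_right (mul_le_mul_of_nonneg_right hα (norm_nonneg _))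
    (by positivity)) (le_of_eq (by ring))

lemma Ext.chain (h : Ext φ S w μ G r) (hz : ‖z‖ < 1) (K : ℕ) (α : ℕ → ℝ)
    (hs : ∀ k < K, Stp φ S G (φ^[k] z) (α k)) (h0 : ∀ k ≤ K, ev G (φ^[k] z) ≠ 0) :
    Real.exp (∑ k ∈ Finset.range K, α k) * ‖ev G z‖ ≤ ∫ x, pk z x * ‖G x‖ ∂mm := by
  suffices H : ∃ π γ, Rc S G π ∧ Lg π γ ∧ Real.exp (∑ k ∈ Finset.range K, α k) * ‖ev G z‖ ≤
      ‖ev (fun x => G x * π x) z‖ * Real.exp (-∫ x, pk z x * γ x ∂mm) by
    obtain ⟨π, γ, h1, ⟨h2, ⟨C, h3⟩, h4⟩, h5⟩ := H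
    have h6 := h1.2.1.jensen hz (g := fun x => -γ x) h2.neg (K := C)
      (h3.mono fun x hx => by rwa [abs_neg])
    simp only [mul_neg, integral_neg] at h6
    refine (h5.trans h6).trans_eq (integral_congr_ae (h4.mono fun x hx => ?_))
    beta_reduce
    rw [norm_mul, hx, mul_left_comm (Real.exp _), ← Real.exp_add, neg_add_cancel, Real.exp_zero,
      mul_one]
  induction K generalizing z α with
  | zero =>
    refine ⟨fun _ => 1, fun _ => 0, ⟨bd_const 1, by simpa using h.isH.isH,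
      by simpa using h.bd.isSys.presH _ h.isH.isH⟩,
      ⟨aestronglyMeasurable_const, ⟨0, by simp⟩, by simp⟩, by simp⟩
  | succ K ih =>
    obtain ⟨π, γ, h1, h2, h3⟩ := ih (h.bd.norm_lt hz) (fun k => α (k + 1))
      (fun k hk => hs (k + 1) (by omega)) fun k hk => h0 (k + 1) (by omega)
    obtain ⟨π', γ', k1, k2, k3⟩ := hs 0 (by omega) π γ h1 h2
    have k4 : ev G (φ z) ≠ 0 := h0 1 (by omega)
    rw [Function.iterate_zero, id_eq] at k3
    refine ⟨π', γ', k1, k2, le_of_mul_le_mul_left (le_trans ?_ k3) (norm_pos_iff.2 k4)⟩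
    rw [Finset.sum_range_succ', Real.exp_add]
    exact le_trans (le_of_eq (by ring)) (mul_le_mul_of_nonneg_left h3 (by positivity))

lemma gain (hz : ‖z‖ < 1) (hu : AEStronglyMeasurable u mm) {B M : ℝ} {c : ℂ} (hB0 : 0 < B)
    (hB : ∀ᵐ x ∂mm, ‖u x‖ ≤ B) (hM : 2 * B ≤ M) (hc : |c.re| ≤ B) :
    Real.exp ((c.re - ∫ x, pk z x * (u x).re ∂mm) / M - 2 * B ^ 2 / M ^ 2) *
      Real.exp (∫ x, pk z x * Real.log ‖M + u x‖ ∂mm) ≤ ‖M + c‖ := by
  have M0 : 0 < M := by linarith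
  obtain ⟨l1, ⟨K, l2⟩, l3⟩ := C2_log hu hB (show B < M by linarith)
  have i1 := C2_int hz (Complex.continuous_re.comp_aestronglyMeasurable hu)
    (hB.mono fun x hx => (abs_re_le_norm _).trans hx)
  have i2 := (pk_cont hz).integrable_of_hasCompactSupport (μ := mm)
    (HasCompactSupport.of_compactSpace _)
  have h1 : ∫ x, pk z x * Real.log ‖M + u x‖ ∂mm ≤
      ∫ x, (pk z x * (u x).re / M + pk z x * (Real.log M + B ^ 2 / M ^ 2)) ∂mm := by
    refine integral_mono_ae (C2_int hz l1 l2) ((i1.div_const M).add (i2.mul_const _)) ?_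
    filter_upwards [hB, l3] with x k1 k2
    have k3 : 0 < ‖M + u x‖ := k2 ▸ Real.exp_pos _
    have k4 := Real.log_le_sub_one_of_pos (show 0 < (‖M + u x‖ / M) ^ 2 by positivity)
    have k5 : (‖M + u x‖ / M) ^ 2 = 1 + 2 * ((u x).re / M) + ‖u x‖ ^ 2 / M ^ 2 := by
      rw [div_pow, Complex.sq_norm, Complex.sq_norm, normSq_apply, normSq_apply]
      simp only [add_re, add_im, ofReal_re, ofReal_im]
      field_simp
      ring
    have k6 : ‖u x‖ ^ 2 / M ^ 2 ≤ B ^ 2 / M ^ 2 := by gcongr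
    have k7 : 0 ≤ B ^ 2 / M ^ 2 := by positivity
    rw [Real.log_pow, Real.log_div k3.ne' M0.ne', k5, Nat.cast_ofNat] at k4
    rw [mul_div_assoc, ← mul_add]
    exact mul_le_mul_of_nonneg_left (by linarith only [k4, k6, k7]) (pk_nonneg hz x)
  rw [integral_add (i1.div_const M) (i2.mul_const _), integral_div, integral_mul_const,
    integral_pk hz, one_mul] at h1
  have h2 : |c.re / M| ≤ B / M := by
    rw [abs_div, abs_of_pos M0]
    gcongr
  have h3 : (c.re / M) ^ 2 ≤ B ^ 2 / M ^ 2 := by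
    rw [← div_pow, ← sq_abs]
    gcongr
  have h4 := C2_exp (h2.trans (by rw [div_le_iff₀ M0]; linarith only [hM]))
  have h5 : M + c.re ≤ ‖M + c‖ := by simpa using re_le_norm (M + c)
  rw [← Real.exp_add]
  refine le_trans (Real.exp_le_exp.2
    (show _ ≤ Real.log M + (c.re / M - (c.re / M) ^ 2) from ?_)) ?_
  · rw [sub_div, mul_div_assoc]
    linarith only [h1, h3]
  · rw [Real.exp_add, Real.exp_log M0]
    refine (mul_le_mul_of_nonneg_left h4 M0.le).trans (le_trans (le_of_eq ?_) h5)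
    field_simp

end Pool.Agent.Work.MP_f96e05_an
end

-- merged part: Pool.Agent.Work.MP_f96e05_an.FS.M1
section
/-!
The gain at a good point.

PLAN. `skip_step`: `bl_lower`, `one_sub_normsq_le`, `Jul`. `good_step`: `g = 2 - 2 re μ > 0`, `B = 8 w + 8` (bound for `sfn` when `δ ≤ 1`, and for `|re c|`), `M = max (2 B) (8 B ^ 2 / g)`, `γ = g / (8 M)`.
`χ` from `exists_chi` (`δ = 2 / Y₀`), `l` from `exists_ell`; `c = ev χ z * (2 w - conj μ G₂ / G₁) - μ Γ G₀ / G₁` (`Ext.hs`), `‖ev χ z - ν z‖ ≤ δ` (`integral_pk_mul`, `isH_psi`), `‖ν z - 1‖ ≤ ‖psi z‖` as `im psi ≥ 0`;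
so `re c ≥ 2 w - 2 re μ - small` (`geom`); `mean_sfn`, `ker_eq`, `geom` give mean `≤ 2 w - 2 + small`; `gain`, `bl_lower`, `stp_good`. Prove separately the elementary estimate for `c` as a lemma on complex numbers.
-/

set_option autoImplicit false

open MeasureTheory Filter Topology Complex Metric
open scoped ComplexConjugate InnerProductSpace

namespace Pool.Agent.Work.MP_f96e05_an

variable {φ : ℂ → ℂ} {S : TT → TT} {ω μ p z : ℂ} {w b : ℝ} {F G F' G' u v χ l π : TT → ℂ}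
  {r X : TT → ℝ} {σ : ℂ → ℂ}

lemma M1_bl (hp : ‖p‖ < 1) (hω : ‖ω‖ = 1) : ∃ C : ℝ, 0 ≤ C ∧ ∀ z : ℂ, ‖z‖ < 1 → ∀ y : ℝ, 0 < y →
    2 * C ≤ y → y ≤ (cay ω z).im → Real.exp (-(C / y)) ≤ ‖bl p z‖ := by
  obtain ⟨C, hC, hb⟩ := bl_lower hp
  refine ⟨4 * C, by positivity, fun z hz y h0 h1 h2 => ?_⟩
  have h3 : C * (1 - ‖z‖ ^ 2) ≤ 4 * C / y := by
    have := (one_sub_normsq_le hω hz).trans (div_le_div_of_nonneg_left (by norm_num) h0 h2)
    calc _ ≤ C * (4 / y) := by gcongr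
      _ = _ := by ring
  refine le_trans (Real.exp_le_exp.2 (by linarith only [h3])) (hb z hz (h3.trans ?_))
  rw [div_le_iff₀ h0]
  linarith only [h1]

lemma M1_nu {t : ℂ} (ht : 0 ≤ t.im) : ‖1 / (1 - I * t) - 1‖ ≤ ‖t‖ := by
  have h1 : 1 ≤ ‖1 - I * t‖ := le_trans (by simpa using ht) (re_le_norm _)
  have h2 : 1 - I * t ≠ 0 := norm_pos_iff.1 (by linarith)
  rw [show 1 / (1 - I * t) - 1 = I * t / (1 - I * t) by field_simp; ring, norm_div, norm_mul, norm_I,
    one_mul]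
  exact div_le_self (norm_nonneg _) h1

lemma M1_c {e ν Γ q₁ q₂ : ℂ} {s : ℝ} (hμ : ‖μ‖ = 1) (hw : 0 < w) (hs : s ≤ 1 / 2)
    (he : ‖e - 1‖ ≤ 2 * s) (hν : ‖ν - 1‖ ≤ s) (hΓ : ‖Γ - 1‖ ≤ s) (h1 : ‖q₁ - 1‖ ≤ s)
    (h2 : ‖q₂ - 1‖ ≤ s) :
    |(e * (2 * w - conj μ * q₂) - μ * (ν * Γ / q₁)).re - (2 * w - 2 * μ.re)| ≤ (4 * w + 11) * s := by
  have s0 : 0 ≤ s := (norm_nonneg _).trans h1
  have a1 : 1 / 2 ≤ ‖q₁‖ := by
    have := norm_sub_norm_le (1 : ℂ) q₁
    rw [norm_sub_rev, norm_one] at this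
    linarith only [hs, h1, this]
  have a0 : q₁ ≠ 0 := norm_pos_iff.1 (by linarith only [a1])
  have a2 : ‖q₂‖ ≤ 3 / 2 := by
    have := norm_sub_norm_le q₂ 1
    rw [norm_one] at this
    linarith only [hs, h2, this]
  have a3 : ‖2 * w - conj μ * q₂‖ ≤ 2 * w + 3 / 2 := by
    refine (norm_sub_le _ _).trans ?_
    rw [norm_mul, norm_mul, norm_conj, hμ, norm_real, Real.norm_eq_abs, abs_of_pos hw]
    simp only [Complex.norm_ofNat]
    linarith only [a2]
  have a4 : ‖ν * Γ / q₁ - 1‖ ≤ 7 * s := by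
    rw [show ν * Γ / q₁ - 1 = ((ν - 1) * (Γ - 1) + (ν - 1) + (Γ - 1) - (q₁ - 1)) / q₁ by
      field_simp; ring, norm_div, div_le_iff₀ (by linarith only [a1])]
    have b1 := norm_sub_le ((ν - 1) * (Γ - 1) + (ν - 1) + (Γ - 1)) (q₁ - 1)
    have b2 := norm_add₃_le (a := (ν - 1) * (Γ - 1)) (b := ν - 1) (c := Γ - 1)
    have b3 : ‖(ν - 1) * (Γ - 1)‖ ≤ s * (1 / 2) := by
      rw [norm_mul]; exact mul_le_mul hν (hΓ.trans hs) (norm_nonneg _) s0
    linarith only [hν, hΓ, h1, b1, b2, b3, s0, a1, mul_nonneg_of_nonpos_of_nonpos (Mathlib.Tactic.Linarith.sub_nonpos_of_le s0) (Mathlib.Tactic.Linarith.sub_nonpos_of_le a1)]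
  have a5 : (e * (2 * w - conj μ * q₂) - μ * (ν * Γ / q₁)).re - (2 * w - 2 * μ.re) =
      ((e - 1) * (2 * w - conj μ * q₂) - conj μ * (q₂ - 1) - μ * (ν * Γ / q₁ - 1)).re := by
    generalize ν * Γ / q₁ = t
    simp
    ring
  rw [a5]
  refine (abs_re_le_norm _).trans ((norm_sub_le _ _).trans ?_)
  have b1 := norm_sub_le ((e - 1) * (2 * w - conj μ * q₂)) (conj μ * (q₂ - 1))
  have b2 := mul_le_mul he a3 (norm_nonneg _) (by positivity)
  rw [norm_mul, norm_mul, norm_conj, hμ] at b1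
  rw [norm_mul, hμ]
  linarith only [h2, a4, b1, b2]

lemma PP.skip_step (hP : PP S G p) (h : Ext φ S w μ G r) (hω : ‖ω‖ = 1) (hJ : Jul φ ω) :
    ∃ C Y₀ : ℝ, 0 ≤ C ∧ ∀ z : ℂ, ‖z‖ < 1 → Y₀ ≤ (cay ω z).im →
      Stp φ S G z (-(C / (cay ω z).im)) := by
  obtain ⟨C, hC, hb⟩ := M1_bl hP.1 hω
  exact ⟨C, 2 * C, hC, fun z hz hy => hP.stp_skip h hz
    (hb _ (h.bd.norm_lt hz) _ (cay_pos hω hz) hy (hJ z hz))⟩

lemma PP.good_step (hP : PP S G p) (h : Ext φ S w μ G r) (hω : ‖ω‖ = 1) (hJ : Jul φ ω)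
    (hμ : μ ≠ 1) (b : ℝ) : ∃ γ > 0, ∃ η > 0, ∃ Y₀ : ℝ, ∀ z : ℂ, ‖z‖ < 1 → Y₀ ≤ (cay ω z).im →
      ‖psi φ ω b z‖ ≤ η → ‖psi φ ω b (φ z)‖ ≤ η → ev G z ≠ 0 → ev G (φ z) ≠ 0 →
      ‖ev G (φ z) / ev G z - 1‖ ≤ η → ‖ev G (φ (φ z)) / ev G (φ z) - 1‖ ≤ η → Stp φ S G z γ := by
  have hw := h.w_pos
  have hre : |μ.re| ≤ 1 := h.mu ▸ abs_re_le_norm μ
  obtain ⟨g, hg, hg'⟩ : ∃ g : ℝ, 0 < g ∧ g = 2 - 2 * μ.re := by
    refine ⟨_, ?_, rfl⟩
    by_contra h1
    have h2 : μ.re = 1 := by linarith only [h1, hre, (abs_le.1 hre).2]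
    have h3 := normSq_eq_norm_sq μ
    rw [h.mu, normSq_apply, h2] at h3
    exact hμ (Complex.ext h2 (by simpa using h3))
  obtain ⟨s, hs, hs'⟩ : ∃ s : ℝ, 0 < s ∧ (16 * w + 30) * s = g :=
    ⟨g / (16 * w + 30), by positivity, by field_simp⟩
  have hs2 : s ≤ 1 / 2 := by linarith only [hg', hs, hs', hre, hw, (abs_le.1 hre).1, mul_pos_of_neg_of_neg (Mathlib.Tactic.Linarith.sub_neg_of_lt hw) (Mathlib.Tactic.Linarith.sub_neg_of_lt hs)]
  obtain ⟨B, hB⟩ : ∃ B : ℝ, B = 8 * w + 8 := ⟨_, rfl⟩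
  have hB0 : 0 < B := by linarith only [hw, hs, hs2, hB]
  obtain ⟨M, hM1, hM2⟩ : ∃ M : ℝ, 2 * B ≤ M ∧ 8 * B ^ 2 ≤ g * M :=
    ⟨2 * B + 8 * B ^ 2 / g, le_add_of_nonneg_right (by positivity), by
      rw [mul_add, mul_div_cancel₀ _ hg.ne']; linarith only [hg, hw, hB, mul_pos_of_neg_of_neg (Mathlib.Tactic.Linarith.sub_neg_of_lt hw) (Mathlib.Tactic.Linarith.sub_neg_of_lt hg), Mathlib.Tactic.Linarith.mul_zero_eq (Mathlib.Tactic.Linarith.sub_neg_of_lt hg) (sub_eq_zero_of_eq hB)]⟩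
  have hM0 : 0 < M := by linarith only [hw, hs, hs2, hB, hM1]
  obtain ⟨C₁, hC₁, hb₁⟩ := M1_bl hP.1 hω
  obtain ⟨C₂, hC₂, hb₂⟩ := M1_bl (h.bd.norm_lt (z := 0) (by simp)) hω
  obtain ⟨Y₀, hY₀, hgeo⟩ := geom (B := |b| + 1) hs
  refine ⟨g / (8 * M), by positivity, s, hs,
    Y₀ + 2 / s + 2 * C₁ + 2 * C₂ + (2 * C₁ + C₂) / (g / (8 * M)),
    fun z hz hy p1 p2 g0 g1 q1 q2 => ?_⟩
  have hz1 := h.bd.norm_lt hz
  have y0 := cay_pos hω hz
  have t1 : 0 ≤ 2 / s := by positivity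
  have t2 : 0 ≤ (2 * C₁ + C₂) / (g / (8 * M)) := by positivity
  have hz0 : z ≠ 0 := by
    rintro rfl
    have h0 : ω ≠ 0 := by rintro rfl; simp at hω
    have : cay ω 0 = I := by simp [cay, h0]
    rw [this, I_im] at hy
    linarith only [hC₁, hC₂, hY₀, t1, t2, hy]
  have im0 : ∀ z : ℂ, ‖z‖ < 1 → 0 ≤ (psi φ ω b z).im := fun z hz => by
    simpa [psi] using hJ z hz
  have dist : ∀ z : ℂ, ‖psi φ ω b z‖ ≤ s → ‖cay ω (φ z) - cay ω z‖ ≤ |b| + 1 := fun z hz => by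
    rw [show cay ω (φ z) - cay ω z = psi φ ω b z + b by simp [psi]]
    refine (norm_add_le _ _).trans ?_
    rw [norm_real, Real.norm_eq_abs]
    linarith only [hs, hs2, hz]
  obtain ⟨χ, hχ, hb, hδ, hint⟩ := exists_chi h.bd hω hJ b hz hz0
  replace hδ : ∀ᵐ x ∂mm, ‖χ x - 1 / (1 - I * psiB S ω b x)‖ ≤ s := by
    filter_upwards [hδ] with x hx
    refine hx.trans ?_
    rw [div_le_iff₀ y0]
    have : 2 / s ≤ (cay ω z).im := by linarith only [hs, hs2, hC₁, hC₂, hY₀, hy, t2]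
    rw [div_le_iff₀ hs] at this
    linarith only [hs, hs2, p1, this]
  obtain ⟨l, hl⟩ := h.exists_ell hb
  have hν := isH_psi h.bd hω hJ b (hb_inv zero_le_one 1)
  simp only [ofReal_one, one_mul, pow_one] at hν
  have n1 := (M1_nu (im0 z hz)).trans p1
  have n2 := (M1_nu (im0 _ hz1)).trans p2
  have he : ‖ev χ z - 1 / (1 - I * psi φ ω b z)‖ ≤ s := by
    rw [← hν.2 z hz, ← ev_sub hχ.1 hν.1.1 hz]
    refine (norm_ev_le (hχ.sub hν.1) hz).trans ?_
    calc _ ≤ ∫ x, pk z x * s ∂mm := by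
          refine integral_mono_of_nonneg (Eventually.of_forall fun x => mul_nonneg (pk_nonneg hz x)
            (norm_nonneg _)) ?_ ?_
          · exact (((pk_cont hz).integrable_of_hasCompactSupport
              (HasCompactSupport.of_compactSpace _))).mul_const _
          · filter_upwards [hδ] with x hx using mul_le_mul_of_nonneg_left hx (pk_nonneg hz x)
      _ = s := by rw [integral_mul_const, integral_pk hz, one_mul]
  have hc := M1_c (e := ev χ z) h.mu hw hs2 (by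
    have := norm_add_le (ev χ z - 1 / (1 - I * psi φ ω b z)) (1 / (1 - I * psi φ ω b z) - 1)
    rw [sub_add_sub_cancel] at this
    linarith only [n1, he, this]) n1 (hgeo _ _ (by linarith only [hC₁, hC₂, hy, t1, t2]) (dist z p1)).1 q1 q2
  have hm := h.mean_sfn hω hJ hz hb hl hδ
  have k1 := (hgeo _ _ (by linarith only [hC₁, hC₂, hy, t1, t2, hJ, hz, hJ z hz]) (dist _ p2)).2
  rw [← ker_eq hω hz1 (h.bd.norm_lt hz1)] at k1
  have k2 : 1 - s ≤ ‖1 / (1 - I * psi φ ω b (φ z))‖ := by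
    have := norm_sub_norm_le (1 : ℂ) (1 / (1 - I * psi φ ω b (φ z)))
    rw [norm_sub_rev, norm_one] at this
    linarith only [n2, this]
  have k3 := mul_le_mul k2 k1 (by linarith only [hs, hs2]) (norm_nonneg _)
  have hsf : ∀ᵐ x ∂mm, ‖sfn S w r χ l x‖ ≤ B := by
    filter_upwards [h.sfn_le hl hδ] with x hx using hx.trans (by linarith only [hw, hs, hs2, hB, mul_nonneg_of_nonpos_of_nonpos (le_of_lt (Mathlib.Tactic.Linarith.sub_neg_of_lt hw)) (Mathlib.Tactic.Linarith.sub_nonpos_of_le hs2)])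
  set c := ev χ z * (2 * w - conj μ * (ev G (φ (φ z)) / ev G (φ z))) - μ * (1 / (1 - I * psi φ ω b z) *
    ((cay ω (φ z) ^ 2 + 1) / (cay ω z ^ 2 + 1)) / (ev G (φ z) / ev G z)) with hcdef
  obtain ⟨c1, c2⟩ := abs_le.1 hc
  have hgain := gain (c := c) hz (sfn_bd h hb hl).1 hB0 hsf hM1
    (abs_le.2 ⟨by linarith only [hw, hg, hg', hs, hs', hs2, hB, c1, (abs_le.1 hre).2], by linarith only [hw, hg', hs, hs', hs2, hB, c2, hre, (abs_le.1 hre).1]⟩)
  refine hP.stp_good (c := c) h hz hχ hb hl hsf (show B < M by linarith only [hw, hs, hs2, hB, hM1]) g1 ?_ ?_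
  · rw [(h.hs hχ hb hl).2 z hz, hint G h.isH, hcdef]
    generalize 1 / (1 - I * psi φ ω b z) * ((cay ω (φ z) ^ 2 + 1) / (cay ω z ^ 2 + 1)) = t
    field_simp
  · have b1 := hb₁ _ hz1 _ y0 (by linarith only [hs, hs2, hC₂, hY₀, hy, t1, t2]) (hJ z hz)
    have b2 := hb₂ _ hz1 _ y0 (by linarith only [hs, hs2, hC₁, hY₀, hy, t1, t2]) (hJ z hz)
    have b3 : (2 * C₁ + C₂) / (cay ω z).im ≤ g / (8 * M) := by
      have : (2 * C₁ + C₂) / (g / (8 * M)) ≤ (cay ω z).im := by linarith only [hs, hs2, hC₁, hC₂, hY₀, hy, t1]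
      rwa [div_le_comm₀ y0 (by positivity)]
    have b4 : g / (4 * M) ≤
        (c.re - ∫ x, pk z x * (sfn S w r χ l x).re ∂mm) / M - 2 * B ^ 2 / M ^ 2 := by
      have d1 : g / 2 ≤ c.re - ∫ x, pk z x * (sfn S w r χ l x).re ∂mm := by linarith only [hg', hs', hm, k3, c1, hs, mul_pos_of_neg_of_neg (Mathlib.Tactic.Linarith.sub_neg_of_lt hs) (Mathlib.Tactic.Linarith.sub_neg_of_lt hs)]
      have d2 : 2 * B ^ 2 / M ^ 2 ≤ g / (4 * M) := by
        rw [div_le_div_iff₀ (by positivity) (by positivity)]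
        (refine le_of_not_gt fun h_nl => ?_; linarith only [h_nl, hM2, hw, hs, hs2, hB, hM1, mul_nonneg_of_nonpos_of_nonpos (le_of_lt (Mathlib.Tactic.Linarith.sub_neg_of_lt hw)) (Mathlib.Tactic.Linarith.sub_nonpos_of_le hM2), mul_pos_of_neg_of_neg (Mathlib.Tactic.Linarith.sub_neg_of_lt hs) (Mathlib.Tactic.Linarith.sub_neg_of_lt h_nl), mul_nonneg_of_nonpos_of_nonpos (Mathlib.Tactic.Linarith.sub_nonpos_of_le hs2) (le_of_lt (Mathlib.Tactic.Linarith.sub_neg_of_lt h_nl)), Mathlib.Tactic.Linarith.zero_mul_eq (sub_eq_zero_of_eq hB) (Mathlib.Tactic.Linarith.sub_nonpos_of_le hM2), mul_nonneg_of_nonpos_of_nonpos (Mathlib.Tactic.Linarith.sub_nonpos_of_le hM1) (Mathlib.Tactic.Linarith.sub_nonpos_of_le hM2)])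
      have d3 := div_le_div_of_nonneg_right d1 hM0.le
      have d4 : g / 2 / M = g / (4 * M) + g / (4 * M) := by field_simp; ring
      linarith only [d2, d3, d4]
    refine le_trans ?_ (mul_le_mul hgain (mul_le_mul (pow_le_pow_left₀ (Real.exp_pos _).le b1 2) b2
      (Real.exp_pos _).le (by positivity)) (by positivity) (norm_nonneg _))
    rw [mul_right_comm, ← Real.exp_nat_mul, ← Real.exp_add, ← Real.exp_add, ← Real.exp_add,
      ← Real.exp_add]
    refine Real.exp_le_exp.2 ?_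
    have d4 : g / (4 * M) = g / (8 * M) + g / (8 * M) := by field_simp; ring
    have d5 : (2 * C₁ + C₂) / (cay ω z).im = 2 * (C₁ / (cay ω z).im) + C₂ / (cay ω z).im := by ring
    push_cast
    linarith only [b3, b4, d4, d5]

end Pool.Agent.Work.MP_f96e05_an
end

-- merged part: Pool.Agent.Work.MP_f96e05_an.FS.Z1
section
/-!
Factoring out zeros.

PLAN. `exists_factor`: call `N` admissible if `f = g * ∏ (z - a j) / (c - a j)` on `ball c (5 R)` with `g` analytic there and `a j ∈ ball c R \ {c}`. On the circle of radius `4 R` each factor has norm `≥ 3`, so by the maximum principle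
(`Complex.norm_le_of_forall_mem_frontier_norm_le`) `‖g‖ ≤ exp A ‖f c‖ / 3 ^ N` on `ball c (4 R)`; at `c` this gives `3 ^ N ≤ exp A`. Take the largest admissible `N` (`Nat.findGreatest`); a zero `a` of `g` is removed with `dslope g a`
(`Complex.differentiableOn_dslope`, `Fin.cons`). `log_lip`: primitive `Λ` of `g' / g` with `Λ c = 0` (`DifferentiableOn.isExactOn_ball`), `g = g c * exp Λ`, `Complex.borelCaratheodory_zero` gives `‖Λ‖ ≤ 2 A` on the closed ball of radius `R / 2`; Cauchy estimate.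
-/

set_option autoImplicit false

open MeasureTheory Filter Topology Complex Metric
open scoped ComplexConjugate InnerProductSpace

namespace Pool.Agent.Work.MP_f96e05_an

variable {f g : ℂ → ℂ} {c : ℂ} {R A : ℝ}

lemma Z1_bound (hR : 0 < R) (hA : ∀ z ∈ ball c (5 * R), ‖f z‖ ≤ Real.exp A * ‖f c‖) {N : ℕ}
    {a : Fin N → ℂ} (ha : ∀ j, a j ∈ ball c R ∧ a j ≠ c)
    (hg : DifferentiableOn ℂ g (ball c (5 * R)))
    (he : ∀ z ∈ ball c (5 * R), f z = g z * ∏ j, (z - a j) / (c - a j)) :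
    g c = f c ∧ ∀ z ∈ ball c (4 * R), ‖g z‖ ≤ Real.exp A * ‖f c‖ / 3 ^ N := by
  constructor
  · rw [he c (mem_ball_self (by linarith)), Finset.prod_eq_one, mul_one]
    intro j _
    exact div_self (sub_ne_zero.2 (ha j).2.symm)
  · intro z hz
    have h4 : (4 * R) ≠ 0 := by positivity
    have hsub : closedBall c (4 * R) ⊆ ball c (5 * R) := closedBall_subset_ball (by linarith)
    refine Complex.norm_le_of_forall_mem_frontier_norm_le isBounded_ball
      (hg.diffContOnCl_ball hsub) (fun y hy => ?_) (subset_closure hz)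
    rw [frontier_ball c h4] at hy
    have hy5 : y ∈ ball c (5 * R) := hsub (sphere_subset_closedBall hy)
    have h1 : (3 : ℝ) ^ N ≤ ‖∏ j, (y - a j) / (c - a j)‖ := by
      rw [norm_prod]
      have h2 : (3 : ℝ) ^ N = ∏ _j : Fin N, (3 : ℝ) := by simp
      rw [h2]
      refine Finset.prod_le_prod (fun _ _ => by norm_num) fun j _ => ?_
      have h3 : 0 < ‖c - a j‖ := norm_pos_iff.2 (sub_ne_zero.2 (ha j).2.symm)
      have h5 : ‖c - a j‖ < R := by
        have := (ha j).1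
        rwa [mem_ball, dist_comm, dist_eq_norm] at this
      have h6 : ‖y - c‖ = 4 * R := by rwa [mem_sphere, dist_eq_norm] at hy
      have h7 : ‖y - c‖ ≤ ‖y - a j‖ + ‖c - a j‖ := by
        have := norm_sub_le (y - a j) (c - a j)
        rwa [sub_sub_sub_cancel_right] at this
      rw [norm_div, le_div_iff₀ h3]
      linarith
    have h8 := hA y hy5
    rw [he y hy5, norm_mul] at h8
    rw [le_div_iff₀ (by positivity)]
    exact (mul_le_mul_of_nonneg_left h1 (norm_nonneg _)).trans h8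

lemma exists_factor (hR : 0 < R) (hf : DifferentiableOn ℂ f (ball c (5 * R))) (hc : f c ≠ 0)
    (hA : ∀ z ∈ ball c (5 * R), ‖f z‖ ≤ Real.exp A * ‖f c‖) :
    ∃ (N : ℕ) (a : Fin N → ℂ) (g : ℂ → ℂ), (N : ℝ) ≤ A ∧ (∀ j, a j ∈ ball c R ∧ a j ≠ c) ∧
      DifferentiableOn ℂ g (ball c R) ∧ g c = f c ∧ ∀ z ∈ ball c R, g z ≠ 0 ∧
        ‖g z‖ ≤ Real.exp A * ‖f c‖ ∧ f z = g z * ∏ j, (z - a j) / (c - a j) := by
  classical
  let Adm : ℕ → Prop := fun N => ∃ (a : Fin N → ℂ) (g : ℂ → ℂ), (∀ j, a j ∈ ball c R ∧ a j ≠ c) ∧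
    DifferentiableOn ℂ g (ball c (5 * R)) ∧
      ∀ z ∈ ball c (5 * R), f z = g z * ∏ j, (z - a j) / (c - a j)
  have hfc : 0 < ‖f c‖ := norm_pos_iff.2 hc
  have h0 : Adm 0 := ⟨Fin.elim0, f, fun j => j.elim0, hf, fun z _ => by simp⟩
  have hle : ∀ N, Adm N → (N : ℝ) ≤ A := by
    rintro N ⟨a, g, ha, hg, he⟩
    obtain ⟨h1, h2⟩ := Z1_bound hR hA ha hg he
    have h3 := h2 c (mem_ball_self (by linarith))
    rw [h1, le_div_iff₀ (by positivity), mul_comm] at h3
    have h4 : (3 : ℝ) ^ N ≤ Real.exp A := le_of_mul_le_mul_right h3 hfc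
    have h5 : Real.exp N ≤ 3 ^ N := by
      rw [← Real.exp_one_pow]
      exact pow_le_pow_left₀ (Real.exp_pos 1).le
        (Real.exp_one_lt_d9.le.trans (by norm_num)) N
    exact Real.exp_le_exp.1 (h5.trans h4)
  have hN : Adm (Nat.findGreatest Adm ⌊A⌋₊) := Nat.findGreatest_spec (Nat.zero_le _) h0
  have hmax : ¬ Adm (Nat.findGreatest Adm ⌊A⌋₊ + 1) := fun h => by
    have := Nat.le_findGreatest (Nat.le_floor (hle _ h)) h
    omega
  generalize Nat.findGreatest Adm ⌊A⌋₊ = N at hN hmax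
  have hNA := hle N hN
  obtain ⟨a, g, ha, hg, he⟩ := hN
  obtain ⟨h1, h2⟩ := Z1_bound hR hA ha hg he
  have s5 : ball c R ⊆ ball c (5 * R) := ball_subset_ball (by linarith)
  have s4 : ball c R ⊆ ball c (4 * R) := ball_subset_ball (by linarith)
  refine ⟨N, a, g, hNA, ha, hg.mono s5, h1, fun z hz => ⟨fun hz0 => hmax ?_, ?_, he z (s5 hz)⟩⟩
  · have hzc : z ≠ c := by
      rintro rfl
      exact hc (h1 ▸ hz0)
    refine ⟨Fin.cons z a, fun y => (c - z) * dslope g z y, fun j => ?_, ?_, fun y hy => ?_⟩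
    · refine Fin.cases ?_ (fun j => ?_) j
      · exact ⟨hz, hzc⟩
      · exact ha j
    · exact ((Complex.differentiableOn_dslope (isOpen_ball.mem_nhds (s5 hz))).2 hg).const_mul _
    · have h3 := sub_smul_dslope g z y
      rw [hz0, sub_zero, smul_eq_mul] at h3
      have h4 : c - z ≠ 0 := sub_ne_zero.2 hzc.symm
      rw [he y hy, Fin.prod_univ_succ]
      simp only [Fin.cons_zero, Fin.cons_succ]
      rw [← h3]
      field_simp
  · refine (h2 z (s4 hz)).trans (div_le_self (by positivity) (one_le_pow₀ (by norm_num)))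

lemma log_lip (hR : 0 < R) (hA : 0 < A) (hg : DifferentiableOn ℂ g (ball c R))
    (h0 : ∀ z ∈ ball c R, g z ≠ 0 ∧ ‖g z‖ ≤ Real.exp A * ‖g c‖) {z z' : ℂ}
    (hz : z ∈ ball c (R / 4)) (hz' : z' ∈ ball c (R / 4)) :
    ∃ t : ℂ, g z' = g z * exp t ∧ ‖t‖ ≤ 8 * A / R * ‖z' - z‖ := by
  have hc := mem_ball_self (x := c) hR
  have hd : DifferentiableOn ℂ (fun y => deriv g y / g y) (ball c R) :=
    (hg.deriv isOpen_ball).div hg fun y hy => (h0 y hy).1
  obtain ⟨L, hL0, hL⟩ := hd.isExactOn_ball.with_val_at c 0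
  have hLd : DifferentiableOn ℂ L (ball c R) := fun y hy =>
    (hL y hy).differentiableAt.differentiableWithinAt
  have hder : ∀ y ∈ ball c R, HasDerivAt (fun y => g y * exp (-L y)) 0 y := by
    intro y hy
    have h1 := (hg.differentiableAt (isOpen_ball.mem_nhds hy)).hasDerivAt
    have h2 := h1.mul (hL y hy).neg.cexp
    have h3 := (h0 y hy).1
    have h4 : deriv g y * exp (-L y) + g y * (exp (-L y) * -(deriv g y / g y)) = 0 := by
      field_simp
      ring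
    exact h2.congr_deriv h4
  have hrep : ∀ y ∈ ball c R, g y = g c * exp (L y) := by
    intro y hy
    have h1 : g y * exp (-L y) = g c * exp (-L c) :=
      isOpen_ball.is_const_of_deriv_eq_zero (f := fun y => g y * exp (-L y))
        (convex_ball c R).isPreconnected
        (fun x hx => (hder x hx).differentiableAt.differentiableWithinAt)
        (fun x hx => (hder x hx).deriv) hy hc
    rw [hL0, neg_zero, exp_zero, mul_one] at h1
    rw [← h1, mul_assoc, ← exp_add, neg_add_cancel, exp_zero, mul_one]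
  have hre : ∀ y ∈ ball c R, (L y).re ≤ A := by
    intro y hy
    have h1 := (h0 y hy).2
    rw [hrep y hy, norm_mul, norm_exp, mul_comm] at h1
    exact Real.exp_le_exp.1 (le_of_mul_le_mul_right h1 (norm_pos_iff.2 (h0 c hc).1))
  have hsh : ∀ y ∈ ball (0 : ℂ) R, c + y ∈ ball c R := fun y hy => by
    simpa [mem_ball, dist_eq_norm] using hy
  have hbd : ∀ y ∈ closedBall c (R / 2), ‖L y‖ ≤ 2 * A := by
    intro y hy
    have h1 : ‖y - c‖ ≤ R / 2 := by rwa [mem_closedBall, dist_eq_norm] at hy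
    have h2 := Complex.borelCaratheodory_zero (f := fun y => L (c + y)) (z := y - c) hA
      (hLd.comp (by fun_prop) hsh) (fun x hx => hre _ (hsh x hx)) hR
      (mem_ball_zero_iff.2 (by linarith only [hR, h1])) (by simpa using hL0)
    simp only [add_sub_cancel] at h2
    refine h2.trans ?_
    rw [div_le_iff₀ (by linarith)]
    exact mul_le_mul_of_nonneg_left (by linarith) (by positivity)
  have hdb : ∀ y ∈ ball c (R / 4), ‖deriv g y / g y‖ ≤ 8 * A / R := by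
    intro y hy
    have s1 : closedBall y (R / 4) ⊆ closedBall c (R / 2) :=
      closedBall_subset_closedBall' (by have := mem_ball.1 hy; linarith)
    have s2 : closedBall c (R / 2) ⊆ ball c R := closedBall_subset_ball (by linarith)
    have h1 := Complex.norm_deriv_le_of_forall_mem_sphere_norm_le (c := y) (R := R / 4)
      (C := 2 * A) (by positivity) (hLd.diffContOnCl_ball (s1.trans s2))
      fun x hx => hbd x (s1 (sphere_subset_closedBall hx))
    rw [(hL y (ball_subset_ball (by linarith) hy)).deriv] at h1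
    refine h1.trans (le_of_eq ?_)
    field_simp
    ring
  have s3 : ball c (R / 4) ⊆ ball c R := ball_subset_ball (by linarith)
  refine ⟨L z' - L z, ?_, ?_⟩
  · rw [hrep z' (s3 hz'), hrep z (s3 hz), mul_assoc, ← exp_add, add_sub_cancel]
  · exact (convex_ball c (R / 4)).norm_image_sub_le_of_norm_hasDerivWithin_le
      (fun x hx => (hL x (s3 hx)).hasDerivWithinAt) hdb hz hz'

end Pool.Agent.Work.MP_f96e05_an
end

-- merged part: Pool.Agent.Work.MP_f96e05_an.FS.Z2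
section
/-!
Counting on a separated array; local estimates at a point far from the zeros.

PLAN. `count_le`: let `(k₀, m₀)` be nearest to `a`; then `‖W k m - a‖ ≥ ‖W k m - W k₀ m₀‖ / 2`, so each term is at most `(2 / κ) ρ (k - k₀) ρ (m - m₀)`, `ρ j = 1 / sqrt (max 1 |j|)`, and
`∑ k ≤ K, ρ (k - k₀) ≤ 1 + 4 sqrt K ≤ 5 sqrt (K + 1)` (`1 / sqrt j ≤ 2 (sqrt j - sqrt (j - 1))`). `far_ratio`: all `‖z - a j‖ > 1`; `(z' - a j) / (z - a j) = 1 + (z' - z) / (z - a j)`, `Finset.norm_prod_one_add_sub_one_le`.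
`far_lower`: `log (R / ‖z - a j‖) ≤ log T + R / (T ‖z - a j‖)`.
-/

set_option autoImplicit false

open MeasureTheory Filter Topology Complex Metric
open scoped ComplexConjugate InnerProductSpace

namespace Pool.Agent.Work.MP_f96e05_an

lemma Z2_a (n : ℕ) : ∑ j ∈ Finset.range n, 1 / √((j : ℝ) + 1) ≤ 2 * √(n : ℝ) := by
  induction n with
  | zero => simp
  | succ n ih =>
    rw [Finset.sum_range_succ]
    push_cast
    have h0 : (0 : ℝ) ≤ n := Nat.cast_nonneg n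
    have hb : 0 < √((n : ℝ) + 1) := Real.sqrt_pos.2 (by linarith)
    have h1 := Real.sq_sqrt h0
    have h2 := Real.sq_sqrt (show (0 : ℝ) ≤ n + 1 by linarith)
    have h3 : 1 / √((n : ℝ) + 1) ≤ 2 * √((n : ℝ) + 1) - 2 * √(n : ℝ) := by
      rw [div_le_iff₀ hb]
      linarith only [h1, h2, sq_nonneg (√((n : ℝ) + 1) - √(n : ℝ)), sq_nonneg (√(↑n + (1 : ℝ)) - √↑n)]
    linarith only [ih, h3]

lemma Z2_b {K k₀ : ℕ} (h : k₀ ≤ K) :
    ∑ k ∈ Finset.range (K + 1), 1 / √(max 1 |(k : ℝ) - k₀|) ≤ 5 * √((K : ℝ) + 1) := by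
  obtain ⟨n, rfl⟩ := Nat.exists_eq_add_of_le h
  have e : ∀ j : ℕ, max 1 ((j : ℝ) + 1) = j + 1 := fun j =>
    max_eq_right (by linarith only [Nat.cast_nonneg (α := ℝ) j])
  have p : ∀ j : ℕ, (0 : ℝ) ≤ j + 1 := fun j => by positivity
  have e1 : ∑ k ∈ Finset.range k₀, 1 / √(max 1 |(k : ℝ) - k₀|) =
      ∑ j ∈ Finset.range k₀, 1 / √((j : ℝ) + 1) := by
    rw [← Finset.sum_range_reflect]
    refine Finset.sum_congr rfl fun j hj => ?_
    obtain ⟨i, rfl⟩ := Nat.exists_eq_add_of_lt (Finset.mem_range.1 hj)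
    rw [show j + i + 1 - 1 - j = i by omega, abs_sub_comm,
      show ((j + i + 1 : ℕ) : ℝ) - i = j + 1 by push_cast; ring, abs_of_nonneg (p j), e]
  have e2 : ∑ j ∈ Finset.range n, 1 / √(max 1 |((k₀ + (j + 1) : ℕ) : ℝ) - k₀|) =
      ∑ j ∈ Finset.range n, 1 / √((j : ℝ) + 1) := by
    refine Finset.sum_congr rfl fun j _ => ?_
    rw [show ((k₀ + (j + 1) : ℕ) : ℝ) - k₀ = j + 1 by push_cast; ring, abs_of_nonneg (p j), e]
  rw [add_assoc, Finset.sum_range_add, Finset.sum_range_succ', e1, e2, add_zero, sub_self,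
    abs_zero, max_eq_left zero_le_one, Real.sqrt_one, div_one]
  have h0 : (0 : ℝ) ≤ k₀ := Nat.cast_nonneg _
  have h0' : (0 : ℝ) ≤ n := Nat.cast_nonneg _
  have h1 : √(k₀ : ℝ) ≤ √(((k₀ + n : ℕ) : ℝ) + 1) := Real.sqrt_le_sqrt (by push_cast; linarith only [])
  have h2 : √(n : ℝ) ≤ √(((k₀ + n : ℕ) : ℝ) + 1) := Real.sqrt_le_sqrt (by push_cast; linarith only [])
  have h3 : 1 ≤ √(((k₀ + n : ℕ) : ℝ) + 1) := Real.one_le_sqrt.2 (by push_cast; linarith only [])
  linarith only [h1, h2, h3, Z2_a k₀, Z2_a n]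

lemma Z2_c {κ u v d : ℝ} (hκ : 0 < κ) (hκ1 : κ ≤ 1) (hu : 0 ≤ u) (hv : 0 ≤ v)
    (h : κ * (u + v) ≤ 2 * d) :
    1 / max 1 d ≤ 2 / κ * (1 / √(max 1 v) * (1 / √(max 1 u))) := by
  have p : ∀ t : ℝ, 0 < max 1 t := fun t => lt_max_of_lt_left one_pos
  have h1 : √(max 1 v) * √(max 1 u) ≤ max 1 (u + v) := by
    rw [← Real.mul_self_sqrt (p (u + v)).le]
    exact mul_le_mul (Real.sqrt_le_sqrt (max_le_max le_rfl (by linarith)))
      (Real.sqrt_le_sqrt (max_le_max le_rfl (by linarith))) (Real.sqrt_nonneg _)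
      (Real.sqrt_nonneg _)
  have h2 : κ * max 1 (u + v) ≤ 2 * max 1 d := by
    rw [mul_max_of_nonneg _ _ hκ.le]
    exact max_le (by linarith [le_max_left 1 d]) (by linarith [le_max_right 1 d])
  have p1 := Real.sqrt_pos.2 (p u)
  have p2 := Real.sqrt_pos.2 (p v)
  rw [div_mul_div_comm, div_mul_div_comm, div_le_div_iff₀ (p d) (by positivity)]
  linarith only [h2, h1, hκ, mul_le_mul_of_nonneg_left h1 hκ.le]

lemma count_le {W : ℕ → ℕ → ℂ} {K : ℕ} {κ : ℝ} (hκ : 0 < κ) (hκ1 : κ ≤ 1)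
    (hs : ∀ k ≤ K, ∀ m ≤ K, ∀ k' ≤ K, ∀ m' ≤ K,
      κ * (|(k : ℝ) - k'| + |(m : ℝ) - m'|) ≤ ‖W k m - W k' m'‖) (a : ℂ) :
    ∑ m ∈ Finset.range (K + 1), ∑ k ∈ Finset.range (K + 1), 1 / max 1 ‖W k m - a‖ ≤
      50 * (K + 1) / κ := by
  obtain ⟨⟨k₀, m₀⟩, h0, hm⟩ := Finset.exists_min_image
    (Finset.range (K + 1) ×ˢ Finset.range (K + 1)) (fun q => ‖W q.1 q.2 - a‖)
    ⟨(0, 0), by simp⟩
  simp only [Finset.mem_product, Finset.mem_range, Nat.lt_succ_iff] at h0 hm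
  have h1 : ∀ m ∈ Finset.range (K + 1), ∀ k ∈ Finset.range (K + 1), 1 / max 1 ‖W k m - a‖ ≤
      2 / κ * (1 / √(max 1 |(m : ℝ) - m₀|) * (1 / √(max 1 |(k : ℝ) - k₀|))) := by
    intro m hm' k hk'
    rw [Finset.mem_range, Nat.lt_succ_iff] at hm' hk'
    refine Z2_c hκ hκ1 (abs_nonneg _) (abs_nonneg _) ((hs k hk' m hm' k₀ h0.1 m₀ h0.2).trans ?_)
    have h2 := hm (k, m) ⟨hk', hm'⟩
    have h3 := norm_sub_le (W k m - a) (W k₀ m₀ - a)
    rw [sub_sub_sub_cancel_right] at h3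
    linarith only [h2, h3]
  refine (Finset.sum_le_sum fun m hm' => Finset.sum_le_sum (h1 m hm')).trans ?_
  simp only [← Finset.mul_sum]
  rw [← Finset.sum_mul]
  have h4 := mul_le_mul (Z2_b h0.2) (Z2_b h0.1) (Finset.sum_nonneg fun _ _ => by positivity)
    (by positivity)
  refine (mul_le_mul_of_nonneg_left h4 (by positivity)).trans (le_of_eq ?_)
  rw [mul_mul_mul_comm, Real.mul_self_sqrt (by positivity)]
  ring

lemma Z2_far {N : ℕ} {a : Fin N → ℂ} {z : ℂ} {θ : ℝ} (hθ : θ < 1)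
    (h : ∑ j, 1 / max 1 ‖z - a j‖ ≤ θ) :
    (∀ j, 1 < ‖z - a j‖) ∧ ∑ j, 1 / ‖z - a j‖ ≤ θ := by
  have h1 : ∀ j, 1 < ‖z - a j‖ := fun j => by
    by_contra hc
    have h2 := Finset.single_le_sum (f := fun j => 1 / max 1 ‖z - a j‖)
      (fun i _ => by positivity) (Finset.mem_univ j)
    rw [max_eq_left (not_lt.1 hc), div_one] at h2
    linarith
  refine ⟨h1, le_trans (le_of_eq (Finset.sum_congr rfl fun j _ => ?_)) h⟩
  rw [max_eq_right (h1 j).le]

lemma far_ratio {N : ℕ} {a : Fin N → ℂ} {c z z' : ℂ} {θ B : ℝ} (hθ : θ < 1) (hc : ∀ j, a j ≠ c)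
    (h : ∑ j, 1 / max 1 ‖z - a j‖ ≤ θ) (hB : ‖z' - z‖ ≤ B) :
    ‖(∏ j, (z' - a j) / (c - a j)) / (∏ j, (z - a j) / (c - a j)) - 1‖ ≤ Real.exp (B * θ) - 1 := by
  obtain ⟨h1, h2⟩ := Z2_far hθ h
  have e : (∏ j, (z' - a j) / (c - a j)) / (∏ j, (z - a j) / (c - a j)) =
      ∏ j, (1 + (z' - z) / (z - a j)) := by
    rw [← Finset.prod_div_distrib]
    refine Finset.prod_congr rfl fun j _ => ?_
    have d1 : c - a j ≠ 0 := sub_ne_zero.2 (hc j).symm
    have d2 : z - a j ≠ 0 := norm_pos_iff.1 (one_pos.trans (h1 j))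
    field_simp
    ring
  rw [e]
  refine (Finset.norm_prod_one_add_sub_one_le _ _).trans
    (sub_le_sub_right (Real.exp_le_exp.2 ?_) 1)
  refine le_trans ?_ (mul_le_mul_of_nonneg_left h2 ((norm_nonneg _).trans hB))
  rw [Finset.mul_sum]
  refine Finset.sum_le_sum fun j _ => ?_
  rw [norm_div, mul_one_div]
  exact div_le_div_of_nonneg_right hB (norm_nonneg _)

lemma far_lower {N : ℕ} {a : Fin N → ℂ} {c z : ℂ} {θ R T : ℝ} (hθ : θ < 1) (hT : 0 < T)
    (hc : ∀ j, a j ∈ ball c R ∧ a j ≠ c) (hR : 0 < R) (h : ∑ j, 1 / max 1 ‖z - a j‖ ≤ θ) :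
    Real.exp (-(N * Real.log T + R / T)) ≤ ‖∏ j, (z - a j) / (c - a j)‖ := by
  obtain ⟨h1, h2⟩ := Z2_far hθ h
  have h3 : ∑ j, (Real.log T + R / T * (1 / ‖z - a j‖)) ≤ N * Real.log T + R / T := by
    rw [Finset.sum_add_distrib, ← Finset.mul_sum, Finset.sum_const, Finset.card_univ,
      Fintype.card_fin, nsmul_eq_mul]
    exact add_le_add le_rfl (mul_le_of_le_one_right (by positivity) (h2.trans hθ.le))
  refine (Real.exp_le_exp.2 (neg_le_neg h3)).trans ?_
  rw [← Finset.sum_neg_distrib, Real.exp_sum, norm_prod]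
  refine Finset.prod_le_prod (fun j _ => (Real.exp_pos _).le) fun j _ => ?_
  have d0 : 0 < ‖z - a j‖ := one_pos.trans (h1 j)
  have d1 : 0 < ‖c - a j‖ := norm_pos_iff.2 (sub_ne_zero.2 (hc j).2.symm)
  have d2 : ‖c - a j‖ ≤ R := by
    rw [norm_sub_rev]
    exact (mem_ball_iff_norm.1 (hc j).1).le
  have d3 : R / T * (1 / ‖z - a j‖) ≤ Real.exp (R / T * (1 / ‖z - a j‖)) := by
    linarith only [Real.add_one_le_exp (R / T * (1 / ‖z - a j‖))]
  rw [Real.exp_neg, Real.exp_add, Real.exp_log hT, norm_div]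
  refine le_trans (inv_anti₀ (by positivity) (mul_le_mul_of_nonneg_left d3 hT.le)) ?_
  rw [show (T * (R / T * (1 / ‖z - a j‖)))⁻¹ = ‖z - a j‖ / R by field_simp]
  exact div_le_div_of_nonneg_left d0.le d1 d2

end Pool.Agent.Work.MP_f96e05_an
end

-- merged part: Pool.Agent.Work.MP_f96e05_an.FS.Z3
section
/-!
Many good indices on one line of the array.

PLAN. `exists_factor` with `A = ε R`, `N ≤ ε R`. `cost k m = ∑ j, 1 / max 1 ‖W k m - a j‖`; total `≤ 50 N (K + 1) / κ` (`count_le`). At most `(K + 1) / 4` lines `m` have `∑ k, cost k m > 200 N / κ`, at most `N ≤ (K + 1) / 4` lines contain some `a j`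
(by separation each `a j` lies on at most one line). On a remaining line at most `200 N / (κ θ) ≤ K / 8` indices have `cost > θ`; `k₀` is the first index with `cost ≤ θ`, `T` the set of `k ≥ k₀`, `k + 2 ≤ K` with `cost ≤ θ` at `k` and `k + 1`
(`K ≥ 8`). Ratios: `far_ratio`, `log_lip` (`‖t‖ ≤ 8 ε B`, `Complex.norm_exp_sub_one_le`); choose `θ < 1` with `exp (B θ) - 1 ≤ min η 1 / 4`. Lower bound: `log_lip` from `c` (`‖t‖ ≤ 2 ε R`), `far_lower` with `T = 2 / ε'`, `ε (|log T| + 2) ≤ ε' / 2`.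
-/

set_option autoImplicit false

open MeasureTheory Filter Topology Complex Metric
open scoped ComplexConjugate InnerProductSpace

namespace Pool.Agent.Work.MP_f96e05_an

lemma Z3_line {W : ℕ → ℕ → ℂ} {K N : ℕ} {κ A : ℝ} (hκ : 0 < κ) (hκ1 : κ ≤ 1) (hA : 0 < A)
    (hs : ∀ k ≤ K, ∀ m ≤ K, ∀ k' ≤ K, ∀ m' ≤ K,
      κ * (|(k : ℝ) - k'| + |(m : ℝ) - m'|) ≤ ‖W k m - W k' m'‖) (a : Fin N → ℂ) (hN : N ≤ A)
    (hK : A ≤ K / 4) : ∃ m ≤ K, (∀ k ≤ K, ∀ j, W k m ≠ a j) ∧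
      ∑ k ∈ Finset.range (K + 1), ∑ j, 1 / max 1 ‖W k m - a j‖ ≤ 200 * A / κ := by
  classical
  have h1 : ∑ m ∈ Finset.range (K + 1), ∑ k ∈ Finset.range (K + 1), ∑ j, 1 / max 1 ‖W k m - a j‖ ≤
      A * (50 * (K + 1) / κ) := by
    simp_rw [Finset.sum_comm (t := Finset.univ)]
    refine (Finset.sum_le_sum fun j _ => count_le hκ hκ1 hs (a j)).trans ?_
    rw [Finset.sum_const, Finset.card_univ, Fintype.card_fin, nsmul_eq_mul]
    gcongr
  have h2 : ∑ m ∈ Finset.range (K + 1), ∑ j, (if ∃ k ≤ K, W k m = a j then (1 : ℝ) else 0) ≤ N := by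
    rw [Finset.sum_comm]
    refine (Finset.sum_le_sum (g := fun _ => (1 : ℝ)) fun j _ => ?_).trans (by simp)
    rw [Finset.sum_boole, Nat.cast_le_one, Finset.card_le_one]
    intro m hm m' hm'
    simp only [Finset.mem_filter, Finset.mem_range] at hm hm'
    obtain ⟨u1, k, u2, u3⟩ := hm
    obtain ⟨v1, k', v2, v3⟩ := hm'
    have h3 := hs k u2 m (by omega) k' v2 m' (by omega)
    rw [u3, v3, sub_self, norm_zero] at h3
    have h4 := abs_nonneg ((k : ℝ) - k')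
    have h5 : |(m : ℝ) - m'| ≤ 0 := by
      by_contra h6
      linarith only [h3, hκ, h6, h4, mul_pos hκ (not_le.1 h6), mul_nonneg hκ.le h4]
    exact_mod_cast sub_eq_zero.1 (abs_nonpos_iff.1 h5)
  obtain ⟨m, hm, h3⟩ := Finset.exists_lt_of_sum_lt (s := Finset.range (K + 1))
    (f := fun m => (∑ k ∈ Finset.range (K + 1), ∑ j, 1 / max 1 ‖W k m - a j‖) / (200 * A / κ) +
      ∑ j, (if ∃ k ≤ K, W k m = a j then (1 : ℝ) else 0)) (g := fun _ => 1) (by
        rw [Finset.sum_add_distrib, ← Finset.sum_div]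
        have h4 := div_le_div_of_nonneg_right h1 (show 0 ≤ 200 * A / κ by positivity)
        rw [show A * (50 * (K + 1) / κ) / (200 * A / κ) = (K + 1) / 4 by field_simp; norm_num] at h4
        have : (0 : ℝ) ≤ K := by positivity
        simp only [Finset.sum_const, Finset.card_range, nsmul_eq_mul]
        push_cast
        linarith only [hA, hN, hK, h2, h4])
  have h4 : 0 ≤ (∑ k ∈ Finset.range (K + 1), ∑ j, 1 / max 1 ‖W k m - a j‖) / (200 * A / κ) := by
    positivity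
  have h5 : ∀ j, (0 : ℝ) ≤ if ∃ k ≤ K, W k m = a j then 1 else 0 := fun j => by positivity
  refine ⟨m, by simpa [Nat.lt_succ_iff] using hm, fun k hk j e => ?_, ?_⟩
  · have := Finset.single_le_sum (fun j _ => h5 j) (Finset.mem_univ j)
    rw [if_pos ⟨k, hk, e⟩] at this
    linarith only [h3, h4, this]
  · have := Finset.sum_nonneg fun j (_ : j ∈ Finset.univ) => h5 j
    rw [← div_le_one (by positivity)]
    linarith only [h3, this]

lemma Z3_set {q : ℕ → ℝ} {K : ℕ} {θ : ℝ} (hθ : 0 < θ) (hq : ∀ k, 0 ≤ q k) (hK : (4 : ℝ) ≤ K)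
    (h : ∑ k ∈ Finset.range (K + 1), q k ≤ θ * (K / 8)) :
    ∃ T : Finset ℕ, (K : ℝ) / 2 ≤ T.card ∧ ∀ k ∈ T, k + 2 ≤ K ∧ q k ≤ θ ∧ q (k + 1) ≤ θ := by
  set D := (Finset.range (K + 1)).filter fun k => θ < q k with hD
  have h1 : (D.card : ℝ) ≤ K / 8 := by
    have h2 := Finset.card_nsmul_le_sum D q θ fun k hk => (Finset.mem_filter.1 hk).2.le
    have h3 := Finset.sum_le_sum_of_subset_of_nonneg (f := q) (Finset.filter_subset (fun k => θ < q k)
      (Finset.range (K + 1))) fun k _ _ => hq k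
    rw [nsmul_eq_mul, mul_comm] at h2
    exact le_of_mul_le_mul_left (h2.trans (h3.trans h)) hθ
  set T := (Finset.range (K - 1)).filter fun k => q k ≤ θ ∧ q (k + 1) ≤ θ with hT
  have h2 : Finset.range (K - 1) ⊆ T ∪ (D ∪ D.image (· - 1)) := fun k hk => by
    have hk' := Finset.mem_range.1 hk
    simp only [hT, hD, Finset.mem_union, Finset.mem_filter, Finset.mem_image, Finset.mem_range]
    by_cases u1 : q k ≤ θ
    · by_cases u2 : q (k + 1) ≤ θ
      · exact Or.inl ⟨hk', u1, u2⟩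
      · exact Or.inr (Or.inr ⟨k + 1, ⟨by omega, not_le.1 u2⟩, rfl⟩)
    · exact Or.inr (Or.inl ⟨by omega, not_le.1 u1⟩)
  have h3 := (Finset.card_le_card h2).trans ((Finset.card_union_le _ _).trans (Nat.add_le_add_left
    ((Finset.card_union_le _ _).trans (Nat.add_le_add_left Finset.card_image_le _)) _))
  rw [Finset.card_range] at h3
  have h4 : (K : ℝ) ≤ T.card + (D.card + D.card) + 1 := by exact_mod_cast (by omega)
  refine ⟨T, by linarith only [hK, h1, h4], fun k hk => ?_⟩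
  have h5 := Finset.mem_filter.1 hk
  exact ⟨by have := Finset.mem_range.1 h5.1; omega, h5.2⟩

lemma exists_good {η ε' B κ c₁ : ℝ} (hη : 0 < η) (hε' : 0 < ε') (hB : 0 < B) (hκ : 0 < κ)
    (hκ1 : κ ≤ 1) (hc₁ : 0 < c₁) : ∃ ε > 0, ∃ R₀ : ℝ, ∀ R ≥ R₀, ∀ (f : ℂ → ℂ) (c : ℂ) (K : ℕ)
      (W : ℕ → ℕ → ℂ), DifferentiableOn ℂ f (ball c (5 * R)) → f c ≠ 0 →
      (∀ z ∈ ball c (5 * R), ‖f z‖ ≤ Real.exp (ε * R) * ‖f c‖) → c₁ * R ≤ K →
      (∀ k ≤ K, ∀ m ≤ K, W k m ∈ ball c (R / 4)) →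
      (∀ k ≤ K, ∀ m ≤ K, ∀ k' ≤ K, ∀ m' ≤ K,
        κ * (|(k : ℝ) - k'| + |(m : ℝ) - m'|) ≤ ‖W k m - W k' m'‖) →
      (∀ k < K, ∀ m ≤ K, ‖W (k + 1) m - W k m‖ ≤ B) →
      ∃ m ≤ K, ∃ k₀ ≤ K, ∃ T : Finset ℕ, (∀ k ≤ K, f (W k m) ≠ 0) ∧
        Real.exp (-(ε' * R)) * ‖f c‖ ≤ ‖f (W k₀ m)‖ ∧ (K : ℝ) / 2 ≤ T.card ∧
        ∀ k ∈ T, k₀ ≤ k ∧ k + 2 ≤ K ∧ ‖f (W (k + 1) m) / f (W k m) - 1‖ ≤ η ∧
          ‖f (W (k + 2) m) / f (W (k + 1) m) - 1‖ ≤ η := by
  obtain ⟨η₁, e0, e1, e2⟩ : ∃ η₁ : ℝ, 0 < η₁ ∧ η₁ ≤ η ∧ η₁ ≤ 1 :=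
    ⟨min η 1, by positivity, min_le_left _ _, min_le_right _ _⟩
  obtain ⟨θ, hθ, hθ1, hθ2⟩ : ∃ θ : ℝ, 0 < θ ∧ θ < 1 ∧ B * θ ≤ η₁ / 4 :=
    ⟨min (1 / 2) (η₁ / 4 / B), by positivity, (min_le_left _ _).trans_lt (by norm_num), by
      rw [mul_comm, ← le_div_iff₀ hB]; exact min_le_right _ _⟩
  obtain ⟨ε, hε, a1, a2, a3, a4⟩ : ∃ ε : ℝ, 0 < ε ∧ ε ≤ c₁ / 4 ∧ ε ≤ c₁ * κ * θ / 1600 ∧
      ε ≤ η₁ / 48 / B ∧ ε ≤ ε' / 2 / (2 + |Real.log (2 / ε')|) :=
    ⟨min (min (c₁ / 4) (c₁ * κ * θ / 1600)) (min (η₁ / 48 / B) (ε' / 2 / (2 + |Real.log (2 / ε')|))),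
      by positivity, (min_le_left _ _).trans (min_le_left _ _),
      (min_le_left _ _).trans (min_le_right _ _), (min_le_right _ _).trans (min_le_left _ _),
      (min_le_right _ _).trans (min_le_right _ _)⟩
  rw [le_div_iff₀ (by positivity)] at a3 a4
  refine ⟨ε, hε, 4 / c₁, fun R hR f c K W hf hc hA hK hW hs hB' => ?_⟩
  have hR0 : 0 < R := lt_of_lt_of_le (by positivity) hR
  rw [ge_iff_le, div_le_iff₀ hc₁] at hR
  obtain ⟨N, a, g, hN, ha, hg, hgc, hfg⟩ := exists_factor hR0 hf hc hA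
  have hεR : 0 < ε * R := by positivity
  obtain ⟨m, hm, z1, z2⟩ := Z3_line hκ hκ1 hεR hs a hN (by (refine le_of_not_gt fun h_nl => ?_; linarith only [h_nl, a1, hc₁, hε, hK, mul_nonneg_of_nonpos_of_nonpos (Mathlib.Tactic.Linarith.sub_nonpos_of_le (Mathlib.Tactic.Linarith.natCast_nonneg ℝ K)) (Mathlib.Tactic.Linarith.sub_nonpos_of_le a1), mul_pos_of_neg_of_neg (Mathlib.Tactic.Linarith.sub_neg_of_lt hc₁) (Mathlib.Tactic.Linarith.sub_neg_of_lt h_nl), mul_nonneg_of_nonpos_of_nonpos (le_of_lt (Mathlib.Tactic.Linarith.sub_neg_of_lt hε)) (Mathlib.Tactic.Linarith.sub_nonpos_of_le hK)]))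
  obtain ⟨T, t1, t2⟩ := Z3_set (q := fun k => ∑ j, 1 / max 1 ‖W k m - a j‖) (K := K) hθ
    (fun k => by positivity) (by linarith only [hR, hK]) (z2.trans (by
      rw [div_le_iff₀ hκ]
      linarith only [a2, hR0, hK, hκ, hθ, mul_le_mul_of_nonneg_right a2 hR0.le,
        mul_le_mul_of_nonneg_left hK (show 0 ≤ κ * θ by positivity)]))
  have inb : ∀ k ≤ K, W k m ∈ ball c R := fun k hk => ball_subset_ball (by linarith only [hR0]) (hW k hk m hm)
  have pne : ∀ k ≤ K, ∏ j, (W k m - a j) / (c - a j) ≠ 0 := fun k hk =>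
    Finset.prod_ne_zero_iff.2 fun j _ =>
      div_ne_zero (sub_ne_zero.2 (z1 k hk j)) (sub_ne_zero.2 (ha j).2.symm)
  have lip := fun z z' => log_lip (z := z) (z' := z') hR0 hεR hg fun z hz =>
    ⟨(hfg z hz).1, by rw [hgc]; exact (hfg z hz).2.1⟩
  rw [show 8 * (ε * R) / R = 8 * ε by field_simp] at lip
  have rat : ∀ k < K, ∑ j, 1 / max 1 ‖W k m - a j‖ ≤ θ → ‖f (W (k + 1) m) / f (W k m) - 1‖ ≤ η :=
    fun k hk hq => by
      obtain ⟨t, u1, u2⟩ := lip _ _ (hW k hk.le m hm) (hW (k + 1) hk m hm)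
      have u3 : ‖t‖ ≤ 8 * ε * B := u2.trans (by gcongr; exact hB' k hk m hm)
      have u4 := norm_exp_sub_one_le (x := t) (by linarith only [e2, hθ, hθ1, a3, u3])
      have u5 := far_ratio hθ1 (fun j => (ha j).2) hq (hB' k hk m hm)
      have u6 := Real.abs_exp_sub_one_le (x := B * θ) (by rw [abs_of_pos (by positivity)]; linarith only [e2, hθ, hθ1, hθ2])
      rw [abs_of_pos (a := B * θ) (by positivity)] at u6
      have u7 := (hfg _ (inb k hk.le)).1
      have u8 := pne k hk.le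
      rw [(hfg _ (inb k hk.le)).2.2, (hfg _ (inb (k + 1) hk)).2.2, u1]
      generalize ∏ j, (W k m - a j) / (c - a j) = P at *
      generalize ∏ j, (W (k + 1) m - a j) / (c - a j) = P' at *
      rw [show g (W k m) * exp t * P' / (g (W k m) * P) - 1 =
        (exp t - 1) * (P' / P - 1) + (exp t - 1) + (P' / P - 1) by field_simp; ring]
      have u9 := (abs_le.1 u6).2
      have v1 : ‖(exp t - 1) * (P' / P - 1)‖ ≤ 16 * ε * B * (1 / 2) := by
        rw [norm_mul]; exact mul_le_mul (by linarith only [u3, u4]) (by linarith only [e2, hθ2, u5, u9]) (norm_nonneg _) (by positivity)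
      exact norm_add₃_le.trans (by linarith only [e1, hθ2, a3, u3, u4, u5, u9, v1])
  have hne : T.Nonempty := Finset.card_pos.1 (by
    have : (0 : ℝ) < T.card := by linarith only [hθ, hθ1, hR, hK, t1]
    exact_mod_cast this)
  obtain ⟨s1, s2, -⟩ := t2 _ (T.min'_mem hne)
  refine ⟨m, hm, T.min' hne, by omega, T, fun k hk => ?_, ?_, t1, fun k hk => ?_⟩
  · rw [(hfg _ (inb k hk)).2.2]
    exact mul_ne_zero (hfg _ (inb k hk)).1 (pne k hk)
  · have u0 := hW (T.min' hne) (by omega) m hm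
    obtain ⟨t, u1, u2⟩ := lip _ _ (mem_ball_self (by positivity)) u0
    have u3 := far_lower (T := 2 / ε') hθ1 (by positivity) ha hR0 s2
    rw [mem_ball, dist_eq_norm] at u0
    have u4 : ‖t‖ ≤ 8 * ε * (R / 4) := u2.trans (by gcongr)
    rw [(hfg _ (inb _ (by omega))).2.2, u1, hgc, norm_mul, norm_mul, mul_assoc, mul_comm, norm_exp]
    refine mul_le_mul_of_nonneg_left (le_trans ?_ (mul_le_mul_of_nonneg_left u3 (Real.exp_pos _).le))
      (norm_nonneg _)
    rw [← Real.exp_add]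
    refine Real.exp_le_exp.2 ?_
    have u5 := (abs_le.1 ((abs_re_le_norm t).trans u4)).1
    have u6 : N * Real.log (2 / ε') ≤ ε * R * |Real.log (2 / ε')| :=
      (mul_le_mul_of_nonneg_left (le_abs_self _) (by positivity)).trans (by gcongr)
    rw [show R / (2 / ε') = ε' * R / 2 by field_simp]
    linarith only [u5, u6, a4, hR0, mul_le_mul_of_nonneg_right a4 hR0.le]
  · obtain ⟨u1, u2, u3⟩ := t2 k hk
    exact ⟨T.min'_le k hk, u1, rat k (by omega) u2, rat (k + 1) (by omega) u3⟩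

end Pool.Agent.Work.MP_f96e05_an
end

-- merged part: Pool.Agent.Work.MP_f96e05_an.FS.A1
section
/-!
Exponential decay in a sector forces a point mass of the singular factor.

PLAN. `coeff_le`: `hasSum_ev` or `dc_mean` applied to the dilated function: `fourierCoeff F N * ρ ^ N = ∫ conj (ee x) ^ N * ev F (ρ ee x)`. `pair_bl`: `A η = (η + a) / (1 + conj a η)` with boundary map `S` (`exists_aut`), `bl a (A η) = η`;
`F = pk a * H` with `H = conj ee * F * (ee - a) (1 - conj a ee) / (1 - ‖a‖ ^ 2) ∈ IsH` (`isH_shift`); `IsBdry.pushC` at `0`; the integral is `fourierCoeff (H ∘ S) N`; `ζ * ev (conj ee * F) ζ = ev F ζ`.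
`atom`: WLOG `ρ ≤ 1 / 4`; `s = ρ / 4`; for `N → ∞` put `Y = 2 N / δ`, `a = icay ω (Y I)`; `((Y I - ξ) / (Y I + ξ)) ^ N → exp (I δ ξ)` (`Complex.tendsto_one_add_div_pow_exp` or `tendsto_one_plus_div_pow_exp`), and `(Y I - cay ζ) / (Y I + cay ζ) = - conj ω * bl a ζ` (`a = ω (Y - 1) / (Y + 1)`);
`‖bl a ζ‖ = s` implies `‖cay ζ - Y I‖ ≤ 2 s Y / (1 - s) ≤ ρ Y` and `‖ζ‖ ≥ 1 / 2` for large `Y`; `1 - ‖a‖ ^ 2 = 4 Y / (Y + 1) ^ 2`; choose `δ` with `δ * log (1 / s) ≤ ε`; apply to `F = ee ^ (j + 1) * G`; dominated convergence.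
-/

set_option autoImplicit false

open MeasureTheory Filter Topology Complex Metric
open scoped ComplexConjugate InnerProductSpace

namespace Pool.Agent.Work.MP_f96e05_an

variable {φ : ℂ → ℂ} {S : TT → TT} {ω μ p z : ℂ} {w b : ℝ} {F G F' G' u v χ l π : TT → ℂ}
  {r X : TT → ℝ} {σ : ℂ → ℂ}

lemma coeff_le (hF : IsH F) {ρ K : ℝ} (h0 : 0 < ρ) (h1 : ρ < 1)
    (hK : ∀ η : ℂ, ‖η‖ = ρ → ‖ev F η‖ ≤ K) (N : ℕ) :
    ‖∫ x, conj (ee x) ^ N * F x ∂mm‖ ≤ K / ρ ^ N := by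
  have hI := integrable_of_memLp hF.1
  have hρ : |ρ| < 1 := by rw [abs_of_pos h0]; exact h1
  have hd := dilate_dc (ev_diff hI) hρ
  have hGI : Integrable (fun x => ev F (ρ * ee x)) mm := integrable_of_memLp (dc_isH hd).1
  have t1 := (ev_taylor hGI (f := fun z => ev F (ρ * z)) fun z hz => (dc_ev hd hz).symm).2 N
  have t2 := (taylor_of_hasSum (a := fun n : ℕ => fourierCoeff F n * (ρ : ℂ) ^ n)
    (K := ∫ x, ‖F x‖ ∂mm) (f := fun z => ev F (ρ * z)) (fun n => by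
      rw [norm_mul, norm_pow, norm_real, Real.norm_eq_abs]
      exact (mul_le_of_le_one_right (norm_nonneg _)
        (pow_le_one₀ (abs_nonneg _) hρ.le)).trans (coeff_norm_le F n))
    (fun z hz => by
      have hz' : ‖(ρ : ℂ) * z‖ < 1 := by
        rw [norm_mul, norm_real, Real.norm_eq_abs]
        linarith only [h0, hz, h1, hρ, abs_nonneg ρ, norm_nonneg z, mul_pos_of_neg_of_neg (Mathlib.Tactic.Linarith.sub_neg_of_lt h0) (Mathlib.Tactic.Linarith.sub_neg_of_lt hz), mul_pos_of_neg_of_neg (Mathlib.Tactic.Linarith.sub_neg_of_lt h1) (Mathlib.Tactic.Linarith.sub_neg_of_lt hz), mul_nonneg_of_nonpos_of_nonpos (le_of_lt (Mathlib.Tactic.Linarith.sub_neg_of_lt hρ)) (Mathlib.Tactic.Linarith.sub_nonpos_of_le (norm_nonneg z))]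
      simpa only [mul_pow, mul_assoc] using hasSum_ev hI hz')).2 N
  have t3 : ‖fourierCoeff (fun x => ev F (ρ * ee x)) (N : ℤ)‖ ≤ K := by
    refine (coeff_norm_le _ _).trans ?_
    have : ∫ x, ‖ev F (ρ * ee x)‖ ∂mm ≤ ∫ _x, K ∂mm :=
      integral_mono hGI.norm (integrable_const K) fun x => hK _ (by
        rw [norm_mul, norm_real, Real.norm_eq_abs, ee_norm, mul_one, abs_of_pos h0])
    simpa using this
  rw [← t1, t2, norm_mul, norm_pow, norm_real, Real.norm_eq_abs, abs_of_pos h0] at t3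
  rw [← coeff_nat, le_div_iff₀ (pow_pos h0 N)]
  exact t3

lemma A1_bd {u : TT → ℂ} (hu : Continuous u) : Bd u := by
  obtain ⟨K, hK⟩ := (isCompact_univ.image hu.norm).bddAbove
  exact ⟨hu.aestronglyMeasurable, K, Eventually.of_forall fun x => hK ⟨x, trivial, rfl⟩⟩

lemma A1_den {a η : ℂ} (ha : ‖a‖ < 1) (hη : ‖η‖ ≤ 1) : 1 + conj a * η ≠ 0 := by
  have := den_ne' (a := -a) (z := η) (by simpa using ha) hη
  simpa using this

lemma A1_normsq (a : ℂ) : ((‖a‖ ^ 2 : ℝ) : ℂ) = a * conj a := by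
  rw [mul_conj, normSq_eq_norm_sq]

lemma A1_inv {a η : ℂ} (ha : ‖a‖ < 1) (hη : ‖η‖ ≤ 1) :
    bl a ((η + a) / (1 + conj a * η)) = η := by
  have h1 := A1_den ha hη
  have h2 : (1 : ℂ) - conj a * a ≠ 0 := den_ne ha ha
  have h3 : 1 - conj a * ((η + a) / (1 + conj a * η)) = (1 - conj a * a) / (1 + conj a * η) := by
    field_simp; ring
  have h4 : (η + a) / (1 + conj a * η) - a = η * ((1 - conj a * a) / (1 + conj a * η)) := by
    rw [← mul_div_assoc, div_sub' h1]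
    congr 1; ring
  rw [bl, h3, h4, mul_div_cancel_right₀ _ (div_ne_zero h2 h1)]

lemma pair_bl (hF : IsH0 F) {a : ℂ} (ha : ‖a‖ < 1) {ρ K : ℝ} (h0 : 0 < ρ) (h1 : ρ < 1)
    (hK : ∀ ζ : ℂ, ‖ζ‖ < 1 → ‖bl a ζ‖ = ρ → 1 / 2 ≤ ‖ζ‖ ∧ ‖ev F ζ‖ ≤ K) (N : ℕ) :
    ‖∫ x, conj (bl a (ee x)) ^ N * F x ∂mm‖ ≤ 8 * K / (1 - ‖a‖ ^ 2) / ρ ^ N := by
  obtain ⟨S, hS, hSe⟩ := exists_aut ha
  have hpos : 0 < 1 - ‖a‖ ^ 2 := by linarith only [ha, h0, h1, norm_nonneg a, mul_pos_of_neg_of_neg (Mathlib.Tactic.Linarith.sub_neg_of_lt ha) (Mathlib.Tactic.Linarith.sub_neg_of_lt h0), mul_pos_of_neg_of_neg (Mathlib.Tactic.Linarith.sub_neg_of_lt ha) (Mathlib.Tactic.Linarith.sub_neg_of_lt h1), mul_nonneg_of_nonpos_of_nonpos (le_of_lt (Mathlib.Tactic.Linarith.sub_neg_of_lt ha)) (Mathlib.Tactic.Linarith.sub_nonpos_of_le (norm_nonneg a))]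
  have hposC : ((1 - ‖a‖ ^ 2 : ℝ) : ℂ) ≠ 0 := by exact_mod_cast hpos.ne'
  have hF1 := isH_shift hF
  set g : ℂ → ℂ := fun ζ => (ζ - a) * (1 - conj a * ζ) / ((1 - ‖a‖ ^ 2 : ℝ) : ℂ) with hg
  have hgd : DiffContOnCl ℂ g (ball 0 1) := Differentiable.diffContOnCl (by rw [hg]; fun_prop)
  have hH : IsH fun x => g (ee x) * (conj (ee x) * F x) :=
    (dc_isH hgd).mul_bd (A1_bd (dc_cont hgd)) hF1
  have hid : DiffContOnCl ℂ (fun ζ : ℂ => ζ) (ball 0 1) := Differentiable.diffContOnCl (by fun_prop)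
  have hpk : ∀ x, (pk a x : ℂ) * g (ee x) = ee x := by
    intro x
    have h1 := ee_mul_conj x
    have h2 := ee_sub_ne ha x
    have h5 : (1 - conj a * ee x) = ee x * conj (ee x - a) := by
      rw [map_sub, mul_sub, h1]; ring
    have h6 : conj (ee x - a) ≠ 0 := by rwa [map_ne_zero]
    rw [pk, ofReal_div, A1_normsq (ee x - a), hg]
    simp only
    rw [h5]
    field_simp
  have hm : AEStronglyMeasurable
      (fun x => conj (bl a (ee x)) ^ N * (g (ee x) * (conj (ee x) * F x))) mm :=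
    ((bl_isH ha).1.1.1.star.pow N).mul hH.1.1
  have hp := hS.pushC (z := 0) (by simp) hm
  have e1 : ∫ x, conj (bl a (ee x)) ^ N * F x ∂mm =
      ∫ x, conj (ee x) ^ N * (g (ee (S x)) * (conj (ee (S x)) * F (S x))) ∂mm := by
    have e2 : ∀ x, (pk 0 x : ℂ) = 1 := fun x => by simp [pk, ee_norm]
    simp only [e2, one_mul, zero_add, mul_zero, add_zero, div_one] at hp
    refine Eq.trans ?_ (hp.symm.trans ?_)
    · refine integral_congr_ae (Eventually.of_forall fun x => ?_)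
      simp only
      linear_combination (-(conj (bl a (ee x)) ^ N * (conj (ee x) * F x))) * hpk x -
        conj (bl a (ee x)) ^ N * F x * ee_mul_conj x
    · refine integral_congr_ae ?_
      filter_upwards [hSe] with x hx
      rw [show bl a (ee (S x)) = ee x by rw [hx]; exact A1_inv ha (ee_norm x).le]
  rw [e1]
  refine coeff_le (hS.isSys.presH _ hH) h0 h1 (fun η hη => ?_) N
  have hη1 : ‖η‖ < 1 := hη ▸ h1
  have hζ := hS.norm_lt hη1
  rw [hS.ev_comp hH hη1]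
  set ζ := (η + a) / (1 + conj a * η) with hζd
  obtain ⟨k1, k2⟩ := hK ζ hζ (by rw [hζd, A1_inv ha hη1.le, hη])
  have e3 : ev F ζ = ζ * ev (fun x => conj (ee x) * F x) ζ := by
    have := ev_mul (dc_isH hid) (A1_bd ee_cont) hF1 hζ
    rw [dc_ev hid hζ] at this
    rw [← this]
    refine ev_congr (Eventually.of_forall fun x => ?_) ζ
    show F x = ee x * (conj (ee x) * F x)
    rw [← mul_assoc, ee_mul_conj, one_mul]
  rw [ev_mul (dc_isH hgd) (A1_bd (dc_cont hgd)) hF1 hζ, dc_ev hgd hζ, norm_mul]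
  rw [e3, norm_mul] at k2
  have k3 : ‖ev (fun x => conj (ee x) * F x) ζ‖ ≤ 2 * K := by
    (refine le_of_not_gt fun h_nl => ?_; linarith only [h_nl, k2, h0, h1, k1, norm_nonneg (ev (fun x => conj (ee x) * F x) ζ), mul_pos_of_neg_of_neg (Mathlib.Tactic.Linarith.sub_neg_of_lt h0) (Mathlib.Tactic.Linarith.sub_neg_of_lt h_nl), mul_pos_of_neg_of_neg (Mathlib.Tactic.Linarith.sub_neg_of_lt h1) (Mathlib.Tactic.Linarith.sub_neg_of_lt h_nl), mul_nonneg_of_nonpos_of_nonpos (Mathlib.Tactic.Linarith.sub_nonpos_of_le k1) (Mathlib.Tactic.Linarith.sub_nonpos_of_le (norm_nonneg (ev (fun x => (starRingEnd ℂ) (ee x) * F x) ζ)))])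
  have k4 : ‖g ζ‖ ≤ 4 / (1 - ‖a‖ ^ 2) := by
    show ‖(ζ - a) * (1 - conj a * ζ) / ((1 - ‖a‖ ^ 2 : ℝ) : ℂ)‖ ≤ _
    rw [norm_div, norm_real, Real.norm_eq_abs, abs_of_pos hpos, norm_mul]
    refine div_le_div_of_nonneg_right ?_ hpos.le
    have a1 : ‖ζ - a‖ ≤ 2 := (norm_sub_le _ _).trans (by linarith only [ha, hζ])
    have a2 : ‖1 - conj a * ζ‖ ≤ 2 := by
      refine (norm_sub_le _ _).trans ?_
      rw [norm_mul, norm_conj, norm_one]
      linarith only [hζ, ha, h0, h1, k1, norm_nonneg a, norm_nonneg ζ, mul_pos_of_neg_of_neg (Mathlib.Tactic.Linarith.sub_neg_of_lt ha) (Mathlib.Tactic.Linarith.sub_neg_of_lt h0), mul_pos_of_neg_of_neg (Mathlib.Tactic.Linarith.sub_neg_of_lt ha) (Mathlib.Tactic.Linarith.sub_neg_of_lt h1), mul_nonneg_of_nonpos_of_nonpos (le_of_lt (Mathlib.Tactic.Linarith.sub_neg_of_lt ha)) (Mathlib.Tactic.Linarith.sub_nonpos_of_le k1)]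
    (refine le_of_not_gt fun h_nl => ?_; linarith only [h_nl, a2, h0, h1, a1, norm_nonneg (ζ - a), norm_nonneg (1 - conj a * ζ), mul_pos_of_neg_of_neg (Mathlib.Tactic.Linarith.sub_neg_of_lt h0) (Mathlib.Tactic.Linarith.sub_neg_of_lt h_nl), mul_pos_of_neg_of_neg (Mathlib.Tactic.Linarith.sub_neg_of_lt h1) (Mathlib.Tactic.Linarith.sub_neg_of_lt h_nl), mul_nonneg_of_nonpos_of_nonpos (Mathlib.Tactic.Linarith.sub_nonpos_of_le a1) (Mathlib.Tactic.Linarith.sub_nonpos_of_le (norm_nonneg ((1 : ℂ) - (starRingEnd ℂ) a * ζ)))])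
  calc ‖g ζ‖ * ‖ev (fun x => conj (ee x) * F x) ζ‖ ≤ 4 / (1 - ‖a‖ ^ 2) * (2 * K) :=
        mul_le_mul k4 k3 (norm_nonneg _) (by positivity)
    _ = 8 * K / (1 - ‖a‖ ^ 2) := by ring

lemma A1_norm (hω : ‖ω‖ = 1) {Y : ℝ} (hY : 0 < Y) :
    1 - ‖ω * (((Y - 1) / (Y + 1) : ℝ) : ℂ)‖ ^ 2 = 4 * Y / (Y + 1) ^ 2 := by
  rw [norm_mul, hω, one_mul, norm_real, Real.norm_eq_abs, sq_abs]
  field_simp
  ring

lemma A1_lt (hω : ‖ω‖ = 1) {Y : ℝ} (hY : 0 < Y) : ‖ω * (((Y - 1) / (Y + 1) : ℝ) : ℂ)‖ < 1 := by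
  have h := A1_norm hω hY
  have h2 : 0 < 4 * Y / (Y + 1) ^ 2 := by positivity
  (refine lt_of_not_ge fun h_nl => ?_; linarith only [h_nl, h, h2, norm_nonneg (ω * (((Y - 1) / (Y + 1) : ℝ) : ℂ)), mul_nonneg_of_nonpos_of_nonpos (Mathlib.Tactic.Linarith.sub_nonpos_of_le h_nl) (Mathlib.Tactic.Linarith.sub_nonpos_of_le h_nl)])

lemma A1_id (hω : ‖ω‖ = 1) {Y : ℝ} (hY : 0 < Y) {ζ : ℂ} (hζ : ‖ζ‖ ≤ 1) (hne : ζ ≠ ω) :
    Y * I - cay ω ζ = -conj ω * bl (ω * (((Y - 1) / (Y + 1) : ℝ) : ℂ)) ζ * (Y * I + cay ω ζ) := by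
  have h1 := den_ne' (A1_lt hω hY) hζ
  have h2 : ω - ζ ≠ 0 := sub_ne_zero.2 hne.symm
  have h3 : ω * conj ω = 1 := by rw [← A1_normsq, hω]; simp
  have h4 : (Y : ℂ) + 1 ≠ 0 := by exact_mod_cast (by linarith : Y + 1 ≠ 0)
  set t : ℂ := (((Y - 1) / (Y + 1) : ℝ) : ℂ) with ht
  have h5 : t * (Y + 1) = Y - 1 := by rw [ht]; push_cast; field_simp
  have h6 : conj (ω * t) = conj ω * t := by rw [map_mul, ht, conj_ofReal]
  rw [h6] at h1
  have e1 : Y * I - cay ω ζ = I * (Y + 1) * (ω * t - ζ) / (ω - ζ) := by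
    rw [cay]; field_simp; linear_combination (-ω) * h5
  have e2 : Y * I + cay ω ζ = I * (Y + 1) * (ω * (1 - conj ω * t * ζ)) / (ω - ζ) := by
    rw [cay]; field_simp; linear_combination ζ * h5 + (Y + 1) * t * ζ * h3
  rw [e1, e2, bl, h6]
  generalize 1 - conj ω * t * ζ = D at h1 ⊢
  field_simp
  linear_combination (ζ - ω * t) * h3

lemma A1_lim {c : ℝ} (hc : 0 < c) (ξ : ℝ) :
    Tendsto (fun N : ℕ => ((((c * N : ℝ) : ℂ) * I - ξ) / (((c * N : ℝ) : ℂ) * I + ξ)) ^ N) atTop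
      (𝓝 (exp (I * ((2 / c : ℝ) * ξ)))) := by
  have hcC : (c : ℂ) ≠ 0 := by exact_mod_cast hc.ne'
  have h := (Complex.tendsto_one_add_div_pow_exp (I * ξ / c)).div
    (Complex.tendsto_one_add_div_pow_exp (-(I * ξ / c))) (exp_ne_zero _)
  rw [← exp_sub, show I * ξ / c - -(I * ξ / c) = I * ((2 / c : ℝ) * ξ) by push_cast; ring] at h
  refine h.congr' ?_
  filter_upwards [eventually_gt_atTop 0] with N hN
  have hNC : (N : ℂ) ≠ 0 := by exact_mod_cast hN.ne'
  have e1 : ((c * N : ℝ) : ℂ) * I - ξ = (c * N * I) * (1 + I * ξ / c / N) := by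
    push_cast; field_simp; linear_combination (-(ξ : ℂ)) * I_mul_I
  have e2 : ((c * N : ℝ) : ℂ) * I + ξ = (c * N * I) * (1 + -(I * ξ / c) / N) := by
    push_cast; field_simp; linear_combination (ξ : ℂ) * I_mul_I
  simp only [Pi.div_apply]
  rw [e1, e2, mul_div_mul_left _ _ (mul_ne_zero (mul_ne_zero hcC hNC) I_ne_zero), div_pow]

lemma A1_geo (hω : ‖ω‖ = 1) {Y s : ℝ} (hY : 16 ≤ Y) (hs : s ≤ 1 / 4) {ζ : ℂ} (hζ : ‖ζ‖ < 1)
    (h : ‖bl (ω * (((Y - 1) / (Y + 1) : ℝ) : ℂ)) ζ‖ = s) :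
    1 / 2 ≤ ‖ζ‖ ∧ ‖cay ω ζ - Y * I‖ ≤ 4 * s * Y := by
  have hs0 : 0 ≤ s := h ▸ norm_nonneg _
  have hne : ζ ≠ ω := fun e => by rw [e, hω] at hζ; exact lt_irrefl _ hζ
  have h1 := congrArg norm (A1_id hω (by linarith only [hY] : 0 < Y) hζ.le hne)
  rw [norm_mul, norm_mul, norm_neg, norm_conj, hω, one_mul, h, norm_sub_rev] at h1
  have h2 : ‖Y * I + cay ω ζ‖ ≤ ‖cay ω ζ - Y * I‖ + 2 * Y := by
    have : (Y : ℂ) * I + cay ω ζ = (cay ω ζ - Y * I) + ((2 * Y : ℝ) : ℂ) * I := by push_cast; ring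
    rw [this]
    refine (norm_add_le _ _).trans (le_of_eq ?_)
    rw [norm_mul, norm_I, mul_one, norm_real, Real.norm_eq_abs, abs_of_nonneg (by linarith only [hY])]
  set d := ‖cay ω ζ - Y * I‖ with hd
  have hd0 : 0 ≤ d := norm_nonneg _
  have h3 : d ≤ s * (d + 2 * Y) := h1.le.trans (mul_le_mul_of_nonneg_left h2 hs0)
  have h4 : 3 * d ≤ 8 * s * Y := by linarith only [h3, hs, hd0, mul_nonneg_of_nonpos_of_nonpos (Mathlib.Tactic.Linarith.sub_nonpos_of_le hs) (Mathlib.Tactic.Linarith.sub_nonpos_of_le hd0)]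
  have h5 : Y - d ≤ (cay ω ζ).im := by
    have := (abs_le.1 (abs_im_le_norm (cay ω ζ - Y * I))).1
    simp only [sub_im, mul_im, ofReal_re, I_im, mul_one, ofReal_im, I_re, mul_zero,
      add_zero] at this
    linarith only [this]
  have h6 : 16 / 3 ≤ (cay ω ζ).im := by linarith only [hY, hs, h4, h5, mul_nonneg_of_nonpos_of_nonpos (Mathlib.Tactic.Linarith.sub_nonpos_of_le hY) (Mathlib.Tactic.Linarith.sub_nonpos_of_le hs)]
  have h7 : 4 / (cay ω ζ).im ≤ 3 / 4 := by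
    rw [div_le_iff₀ (by linarith only [h6])]; linarith only [h6]
  have h8 := one_sub_normsq_le hω hζ
  refine ⟨?_, by linarith only [hd0, h4]⟩
  by_contra hc
  rw [not_le] at hc
  linarith only [h7, h8, hc, norm_nonneg ζ, mul_nonneg_of_nonpos_of_nonpos (le_of_lt (Mathlib.Tactic.Linarith.sub_neg_of_lt hc)) (Mathlib.Tactic.Linarith.sub_nonpos_of_le (norm_nonneg ζ))]

lemma atom (hω : ‖ω‖ = 1) (hG : IsH G) {ε ρ : ℝ} (hε : 0 < ε) (hρ : 0 < ρ)
    (h : ∀ᶠ Y : ℝ in atTop, ∀ u ∈ closedBall (Y * I) (ρ * Y), 0 < u.im →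
      ‖ev G (icay ω u)‖ ≤ Real.exp (-(ε * Y))) :
    ∃ δ > 0, IsH fun x => G x * uu (XX ω) (-δ) x := by
  obtain ⟨s, hs0, hs1, hs2⟩ : ∃ s : ℝ, 0 < s ∧ s ≤ 1 / 4 ∧ 4 * s ≤ ρ :=
    ⟨min ρ 1 / 4, by positivity, by linarith only [min_le_right ρ 1], by linarith [min_le_left ρ 1]⟩
  set c : ℝ := 1 / s / ε with hcd
  have hc : 0 < c := by positivity
  set q : ℝ := Real.exp (-(ε * c)) / s with hq
  have hq0 : 0 ≤ q := by positivity
  have hq1 : q < 1 := by
    have e : ε * c = 1 / s := by rw [hcd]; field_simp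
    rw [hq, div_lt_one hs0, e, Real.exp_neg, inv_lt_comm₀ (Real.exp_pos _) hs0, ← one_div]
    linarith only [hs0, hs1, Real.add_one_le_exp (1 / s)]
  have hYt : Tendsto (fun N : ℕ => c * (N : ℝ)) atTop atTop :=
    tendsto_natCast_atTop_atTop.const_mul_atTop hc
  refine ⟨2 / c, by positivity, ?_, fun j => ?_⟩
  · simpa only [mul_comm] using (uu_bd (XX_meas ω) (-(2 / c))).mul_memLp hG.1
  have hF := hG.ee_mul j
  have hFI := integrable_of_memLp hF.1
  have hpd : DiffContOnCl ℂ (fun ζ : ℂ => ζ ^ (j + 1)) (ball 0 1) :=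
    Differentiable.diffContOnCl (by fun_prop)
  have t1 : Tendsto (fun N : ℕ => ∫ x,
      conj (-conj ω * bl (ω * (((c * N - 1) / (c * N + 1) : ℝ) : ℂ)) (ee x)) ^ N *
        (ee x ^ (j + 1) * G x) ∂mm) atTop
      (𝓝 (∫ x, ee x ^ (j + 1) * (G x * uu (XX ω) (-(2 / c)) x) ∂mm)) := by
    refine tendsto_integral_filter_of_dominated_convergence (fun x => ‖ee x ^ (j + 1) * G x‖)
      ?_ ?_ hFI.norm ?_
    · filter_upwards [hYt.eventually_gt_atTop 0] with N hN
      exact (((bl_isH (A1_lt hω hN)).1.1.1.const_mul (-conj ω)).star.pow N).mul hF.1.1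
    · filter_upwards [hYt.eventually_gt_atTop 0] with N hN
      refine Eventually.of_forall fun x => le_of_eq ?_
      rw [norm_mul, norm_pow, norm_conj, norm_mul, norm_neg, norm_conj, hω,
        (bl_isH (A1_lt hω hN)).2.1, one_mul, one_pow, one_mul]
    · filter_upwards [ae_ne ω] with x hx
      have l1 := (continuous_conj.tendsto _).comp (A1_lim hc (XX ω x))
      have l2 : conj (exp (I * ((2 / c : ℝ) * (XX ω x : ℂ)))) = uu (XX ω) (-(2 / c)) x :=
        uu_conj (XX ω) (2 / c) x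
      rw [l2] at l1
      have l3 := l1.mul_const (ee x ^ (j + 1) * G x)
      rw [show uu (XX ω) (-(2 / c)) x * (ee x ^ (j + 1) * G x) =
        ee x ^ (j + 1) * (G x * uu (XX ω) (-(2 / c)) x) by ring] at l3
      refine l3.congr' ?_
      filter_upwards [hYt.eventually_gt_atTop 0] with N hN
      have e1 := A1_id hω hN (ee_norm x).le hx
      have e2 : cay ω (ee x) = XX ω x := (XX_eq hω x).symm
      rw [e2] at e1
      have e3 : ((c * N : ℝ) : ℂ) * I + (XX ω x : ℂ) ≠ 0 := fun e => by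
        have := congrArg im e
        simp only [add_im, mul_im, ofReal_re, I_im, mul_one, ofReal_im, I_re, mul_zero,
          add_zero, zero_im] at this
        exact hN.ne' this
      simp only [Function.comp_apply]
      rw [e1, mul_div_cancel_right₀ _ e3, map_pow]
  refine tendsto_nhds_unique t1 (squeeze_zero_norm' (a := fun N : ℕ => 8 * c * (N * q ^ N)) ?_ ?_)
  · filter_upwards [hYt.eventually_ge_atTop 16, hYt.eventually h] with N hN hh
    have hN0 : 0 < c * N := by linarith only [hs0, hs1, hN]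
    have b1 := pair_bl hF (A1_lt hω hN0) hs0 (by linarith only [hs0, hs1]) (K := Real.exp (-(ε * (c * N))))
      (fun ζ hζ hb => by
        obtain ⟨g1, g2⟩ := A1_geo hω hN hs1 hζ hb
        refine ⟨g1, ?_⟩
        have g3 := hh (cay ω ζ) (by
          rw [mem_closedBall, dist_eq_norm]
          exact g2.trans (mul_le_mul_of_nonneg_right hs2 hN0.le)) (cay_pos hω hζ)
        rw [icay_cay hω hζ] at g3
        rw [ev_mul (dc_isH hpd) (A1_bd (dc_cont hpd)) hG hζ, dc_ev hpd hζ, norm_mul, norm_pow]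
        exact (mul_le_of_le_one_left (norm_nonneg _)
          (pow_le_one₀ (norm_nonneg _) hζ.le)).trans g3) N
    simp_rw [map_mul, mul_pow, mul_assoc]
    rw [integral_const_mul, norm_mul, norm_pow, norm_conj, norm_neg, norm_conj, hω, one_pow,
      one_mul]
    refine b1.trans ?_
    have e1 : Real.exp (-(ε * (c * N))) = q ^ N * s ^ N := by
      rw [← mul_pow, hq, div_mul_cancel₀ _ hs0.ne', ← Real.exp_nat_mul]
      congr 1; ring
    rw [A1_norm hω hN0, e1]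
    have e2 : 8 * (q ^ N * s ^ N) / (4 * (c * N) / (c * N + 1) ^ 2) / s ^ N =
        2 * ((c * N + 1) ^ 2 / (c * N)) * q ^ N := by
      field_simp; ring
    have e3 : (c * N + 1) ^ 2 / (c * N) ≤ 4 * (c * N) := by
      rw [div_le_iff₀ hN0]; linarith only [hs1, hN, hs0, mul_pos_of_neg_of_neg (Mathlib.Tactic.Linarith.sub_neg_of_lt hs0) (Mathlib.Tactic.Linarith.sub_neg_of_lt hs0), mul_nonneg_of_nonpos_of_nonpos (le_of_lt (Mathlib.Tactic.Linarith.sub_neg_of_lt hs0)) (Mathlib.Tactic.Linarith.sub_nonpos_of_le hs1), mul_nonneg_of_nonpos_of_nonpos (Mathlib.Tactic.Linarith.sub_nonpos_of_le hN) (Mathlib.Tactic.Linarith.sub_nonpos_of_le hN)]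
    rw [e2]
    have := mul_le_mul_of_nonneg_right e3 (pow_nonneg hq0 N)
    linarith only [this]
  · simpa using (tendsto_self_mul_const_pow_of_lt_one hq0 hq1).const_mul (8 * c)

end Pool.Agent.Work.MP_f96e05_an
end

-- merged part: Pool.Agent.Work.MP_f96e05_an.FS.M2
section
/-!
A normalised extremal function has trivial phase.

PLAN. `ev_growth`: `norm_ev_le`, `integral_pk_norm_sq_le`, `one_sub_normsq`: `4 / (1 - ‖z‖ ^ 2) = ‖u + I‖ ^ 2 / u.im ≤ C Y`.
`mu_eq`: suppose `μ ≠ 1`. `sector`, `exists_pp`, `good_step` (with `b / τ`), `skip_step`. `c₂ = 1 / (200 (|b / τ| + 2))`, `K = ⌊c₂ Y⌋₊`, `R = Y / 40`, `c₁ = 20 c₂`, `ε' = γ c₂`; `exists_good` gives `ε`; WLOG `ε ≤ ε'`.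
By `atom`, `Ext.atom` and `hn`, frequently in `Y` there is `c ∈ closedBall (Y I) (Y / 20)` with `‖f c‖ > exp (-(ε / 80) Y)`, `f = ev G ∘ icay ω`; `ev_growth` gives the bound on `ball c (5 R)`. `Lev.array`, `exists_good`, then `Ext.chain` from
`z = φ^[k₀] (icay ω (c + m I))` with `K - k₀` steps, `α k = γ` on `T` and `-(C / im)` elsewhere (`im ≥ Y / 2`, `K ≤ Y`): `exp (γ K / 2 - 2 C - ε' R - ε' Y / 80) ≤ exp (ε' Y / 80)`, false for large `Y`.
-/

set_option autoImplicit false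

open MeasureTheory Filter Topology Complex Metric
open scoped ComplexConjugate InnerProductSpace

namespace Pool.Agent.Work.MP_f96e05_an

variable {φ : ℂ → ℂ} {S : TT → TT} {ω μ p z : ℂ} {w b : ℝ} {F G F' G' u v χ l π : TT → ℂ}
  {r X : TT → ℝ} {σ : ℂ → ℂ}

lemma ev_growth (hω : ‖ω‖ = 1) (hG : MemLp G 2 mm) {ε : ℝ} (hε : 0 < ε) :
    ∀ᶠ Y : ℝ in atTop, ∀ u ∈ closedBall (Y * I) (Y / 2),
      ∫ x, pk (icay ω u) x * ‖G x‖ ∂mm ≤ Real.exp (ε * Y) := by
  filter_upwards [eventually_ge_atTop 1, eventually_ge_atTop (13 * nn G / (2 * ε ^ 2))] with Y h1 h2 u hu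
  rw [mem_closedBall, dist_eq_norm] at hu
  have h3 : Y / 2 ≤ u.im := by
    have := (abs_le.1 ((abs_im_le_norm _).trans hu)).1
    simp at this
    linarith only [this]
  have h4 : 0 < u.im := by linarith only [h1, h3]
  have hz := icay_lt hω h4
  have h5 := integral_pk_norm_sq_le hG hz
  rw [one_sub_normsq hω hz, cay_icay hω h4] at h5
  have h6 : ‖u + I‖ ≤ 5 * Y / 2 := by
    have e : u + I = (u - Y * I) + ((Y + 1 : ℝ) : ℂ) * I := by push_cast; ring
    rw [e]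
    refine (norm_add_le _ _).trans ?_
    rw [norm_mul, norm_I, norm_real, Real.norm_eq_abs, abs_of_pos (by linarith only [h1])]
    linarith only [h1, hu]
  have h7 : 4 / (4 * u.im / ‖u + I‖ ^ 2) ≤ 13 * Y := by
    rw [div_div_eq_mul_div, div_le_iff₀ (by positivity)]
    have := pow_le_pow_left₀ (norm_nonneg _) h6 2
    linarith only [h1, h3, h4, this, mul_nonneg_of_nonpos_of_nonpos (Mathlib.Tactic.Linarith.sub_nonpos_of_le h1) (Mathlib.Tactic.Linarith.sub_nonpos_of_le h1), mul_nonneg_of_nonpos_of_nonpos (Mathlib.Tactic.Linarith.sub_nonpos_of_le h1) (Mathlib.Tactic.Linarith.sub_nonpos_of_le h3)]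
  have h8 := nn_nonneg G
  refine abs_le_of_sq_le_sq' (h5.trans ?_) (Real.exp_pos _).le |>.2
  rw [← Real.exp_nat_mul]
  refine le_trans ?_ (Real.quadratic_le_exp_of_nonneg (by positivity))
  rw [div_le_iff₀ (by positivity)] at h2
  have h9 := mul_le_mul_of_nonneg_right h7 h8
  have h10 := mul_le_mul_of_nonneg_left h2 (show 0 ≤ Y by linarith only [h1])
  have h11 : 0 ≤ ε * Y := by positivity
  push_cast
  linarith only [h9, h10, h11]

lemma M2_mono {α α' : ℝ} (h : Stp φ S G z α) (hle : α' ≤ α) : Stp φ S G z α' := fun π γ h1 h2 => by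
  obtain ⟨π', γ', h3, h4, h5⟩ := h π γ h1 h2
  refine ⟨π', γ', h3, h4, le_trans ?_ h5⟩
  gcongr

lemma M2_sum {K k₀ : ℕ} {T : Finset ℕ} (hT : ∀ k ∈ T, k₀ ≤ k ∧ k + 2 ≤ K) {γ D : ℝ}
    (hD : 0 ≤ D) :
    γ * T.card - K * D ≤ ∑ j ∈ Finset.range (K - k₀), if k₀ + j ∈ T then γ else -D := by
  have h1 : ∑ j ∈ Finset.range (K - k₀), (if k₀ + j ∈ T then γ else 0) = γ * T.card := by
    rw [← Finset.sum_Ico_eq_sum_range (f := fun k => if k ∈ T then γ else 0), Finset.sum_ite_mem,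
      Finset.inter_eq_right.2 fun k hk => Finset.mem_Ico.2 ⟨(hT k hk).1, by have := (hT k hk).2; omega⟩]
    simp [mul_comm]
  have h2 : ∑ _j ∈ Finset.range (K - k₀), D ≤ K * D := by
    rw [Finset.sum_const, Finset.card_range, nsmul_eq_mul]
    gcongr
    omega
  refine le_trans ?_ (Finset.sum_le_sum (f := fun j => (if k₀ + j ∈ T then γ else 0) - D)
    fun j _ => by split_ifs <;> linarith only [hD])
  rw [Finset.sum_sub_distrib, h1]
  linarith

lemma Ext.mu_eq (h : Ext φ S w μ G r) (hL : Lev φ S ω X b σ) (hω : ‖ω‖ = 1) (hJ : Jul φ ω)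
    (h0 : φ 0 ≠ 0) (hn : ∀ δ > 0, ¬ IsH fun x => G x * uu X (-δ) x) : μ = 1 := by
  by_contra hμ
  obtain ⟨hb, τ, hτ, hsec⟩ := hL.sector h.bd hω hJ h0
  obtain ⟨p, hP⟩ := h.exists_pp hL hb
  obtain ⟨γ, hγ, η, hη, Y₁, hgood⟩ := hP.good_step h hω hJ hμ (b / τ)
  obtain ⟨C, Y₂, hC, hskip⟩ := hP.skip_step h hω hJ
  have hβ : 0 < |b / τ| := abs_pos.2 (div_ne_zero hb (by linarith))
  obtain ⟨c₂, hc₂, hc₂'⟩ : ∃ c₂ : ℝ, 0 < c₂ ∧ c₂ * (|b / τ| + 2) = 1 / 200 :=
    ⟨1 / (200 * (|b / τ| + 2)), by positivity, by field_simp⟩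
  have hc1 : c₂ ≤ 1 := by linarith only [hc₂', hβ, hc₂, mul_pos_of_neg_of_neg (Mathlib.Tactic.Linarith.sub_neg_of_lt hβ) (Mathlib.Tactic.Linarith.sub_neg_of_lt hc₂)]
  obtain ⟨ε₀, hε₀, R₀, hex⟩ := exists_good (η := η) (ε' := γ * c₂) (B := |b / τ| + 1)
    (κ := min 1 |b / τ| / 3) (c₁ := 20 * c₂) hη (by positivity) (by positivity) (by positivity)
    (by have := min_le_left 1 |b / τ|; linarith only [this]) (by positivity)
  obtain ⟨ε, hε, he1, he2⟩ : ∃ ε : ℝ, 0 < ε ∧ ε ≤ ε₀ ∧ ε ≤ γ * c₂ :=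
    ⟨min ε₀ (γ * c₂), by positivity, min_le_left _ _, min_le_right _ _⟩
  have hG : IsH G := h.isH.isH
  suffices hh : ∀ᶠ Y : ℝ in atTop, ∀ u ∈ closedBall (Y * I) (1 / 20 * Y), 0 < u.im →
      ‖ev G (icay ω u)‖ ≤ Real.exp (-(ε / 80 * Y)) by
    obtain ⟨δ, hδ, h1⟩ := MP_f96e05_an.atom hω hG (by positivity) (by norm_num) hh
    exact hn δ hδ (h.atom hP hL.toLev0 hω hJ hδ.le h1)
  filter_upwards [hsec (1 / 8) (by norm_num), hsec (min η 1) (by positivity),
    ev_growth hω hG.1 (ε := ε / 80) (by positivity), eventually_gt_atTop 0,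
    eventually_ge_atTop (2 * Y₁), eventually_ge_atTop (2 * Y₂), eventually_ge_atTop (40 * R₀),
    eventually_ge_atTop (2 / c₂), eventually_ge_atTop (10 * C / (γ * c₂))]
    with Y h1 h2 h3 hY hY1 hY2 hY3 hY4 hY5 c hc _
  by_contra hlt
  rw [not_le] at hlt
  rw [div_le_iff₀ (by positivity)] at hY4 hY5
  have hc' : c ∈ closedBall (Y * I) (Y / 20) := by rwa [one_div, inv_mul_eq_div] at hc
  have near : ∀ u ∈ ball c (5 * (Y / 40)), u ∈ closedBall (Y * I) (Y / 4) ∧ Y / 2 ≤ u.im :=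
    fun u hu => by
      have h4 : dist u (Y * I) ≤ Y / 4 := by
        have := dist_triangle u c (Y * I)
        rw [mem_ball] at hu
        rw [mem_closedBall] at hc'
        linarith only [hY, hc', hu, this]
      refine ⟨h4, ?_⟩
      rw [dist_eq_norm] at h4
      have := (abs_le.1 ((abs_im_le_norm _).trans h4)).1
      simp at this
      linarith only [hY, this]
  have big : ∀ u ∈ closedBall (Y * I) (Y / 4), u ∈ closedBall (Y * I) (Y / 2) :=
    closedBall_subset_closedBall (by linarith only [hY])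
  obtain ⟨K, hK1, hK2⟩ : ∃ K : ℕ, (K : ℝ) ≤ c₂ * Y ∧ c₂ * Y / 2 ≤ K :=
    ⟨⌊c₂ * Y⌋₊, Nat.floor_le (by positivity), by have := Nat.lt_floor_add_one (c₂ * Y); linarith only [hY4, this]⟩
  obtain ⟨a1, a2, a3⟩ := hL.array h.bd hω hτ hY h1.1 (fun u hu => (h2.2 u hu).trans (min_le_right _ _))
    hc' (K := K) (by (refine lt_of_not_ge fun h_nl => ?_; linarith only [h_nl, hc₂, hc₂', hY4, hK1, hβ, Mathlib.Tactic.Linarith.mul_zero_eq (Mathlib.Tactic.Linarith.sub_nonpos_of_le (Mathlib.Tactic.Linarith.natCast_nonneg ℝ K)) (sub_eq_zero_of_eq hc₂'), mul_pos_of_neg_of_neg (Mathlib.Tactic.Linarith.sub_neg_of_lt hβ) (Mathlib.Tactic.Linarith.sub_neg_of_lt hc₂), mul_nonneg_of_nonpos_of_nonpos (le_of_lt (Mathlib.Tactic.Linarith.sub_neg_of_lt hc₂)) (Mathlib.Tactic.Linarith.sub_nonpos_of_le h_nl)])) _ fun _ _ => rfl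
  obtain ⟨m, hm, k₀, hk₀, T, t1, t2, t3, t4⟩ := hex (Y / 40) (by linarith only [hY3])
    (fun u => ev G (icay ω u)) c K _
    ((ev_diff (integrable_of_memLp hG.1)).comp ((icay_diff ω).mono fun u hu => by
      have := (near u hu).2; simp only [Set.mem_ofPred_eq]; linarith only [hY, this]) fun u hu => by
        simpa using icay_lt hω (by have := (near u hu).2; linarith only [hY, this]))
    (norm_pos_iff.1 ((Real.exp_pos _).trans hlt)) (fun u hu => by
      have h4 := (norm_ev_le hG (icay_lt hω (by have := (near u hu).2; linarith only [hY, this]))).trans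
        (h3 u (big u (near u hu).1))
      refine h4.trans (le_trans ?_ (mul_le_mul_of_nonneg_left hlt.le (Real.exp_pos _).le))
      rw [← Real.exp_add]
      exact Real.exp_le_exp.2 (by linarith only [he1, hY, mul_nonneg_of_nonpos_of_nonpos (Mathlib.Tactic.Linarith.sub_nonpos_of_le he1) (le_of_lt (Mathlib.Tactic.Linarith.sub_neg_of_lt hY))])) (by linarith only [hK2]) a1 a2 a3
  have hcm : 0 < (c + m * I).im := by
    have := (near c (mem_ball_self (by positivity))).2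
    have h5 : (0 : ℝ) ≤ m := by positivity
    simp
    linarith
  set z₀ := icay ω (c + m * I) with hz₀
  have hz : ∀ k, ‖φ^[k] z₀‖ < 1 := h.bd.iter_lt (icay_lt hω hcm)
  have inv : ∀ k, icay ω (cay ω (φ^[k] z₀)) = φ^[k] z₀ := fun k => icay_cay hω (hz k)
  simp only [inv] at t1 t2 t4
  have nr : ∀ k ≤ K, cay ω (φ^[k] z₀) ∈ closedBall (Y * I) (Y / 4) ∧ Y / 2 ≤ (cay ω (φ^[k] z₀)).im :=
    fun k hk => near _ (ball_subset_ball (by linarith only [hY]) (a1 k hk m hm))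
  have it : ∀ j, φ^[j] (φ^[k₀] z₀) = φ^[k₀ + j] z₀ := fun j => by
    rw [add_comm, Function.iterate_add_apply]
  have hch := h.chain (hz k₀) (K - k₀) (fun j => if k₀ + j ∈ T then γ else -(2 * C / Y))
    (fun j hj => by
      rw [it]
      have h4 := nr (k₀ + j) (by omega)
      split_ifs with hT
      · obtain ⟨-, u1, u2, u3⟩ := t4 _ hT
        have h5 := t1 (k₀ + j + 1) (by omega)
        have h6 := (h2.2 _ (nr (k₀ + j + 1) (by omega)).1).trans (min_le_left _ _)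
        have h7 := (h2.2 _ h4.1).trans (min_le_left _ _)
        rw [inv] at h6 h7
        simp only [Function.iterate_succ_apply'] at u2 u3 h5 h6
        exact hgood _ (hz _) (by linarith only [hY1, h4, h4.2]) h7 h6 (t1 _ (by omega)) h5 u2 u3
      · refine M2_mono (hskip _ (hz _) (by linarith only [hY2, h4, h4.2])) (neg_le_neg ?_)
        rw [show 2 * C / Y = C / (Y / 2) by field_simp]
        exact div_le_div_of_nonneg_left hC (by positivity) h4.2)
    (fun j hj => by rw [it]; exact t1 _ (by omega))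
  have h4 := h3 _ (big _ (nr k₀ hk₀).1)
  rw [inv] at h4
  have h5 := M2_sum (fun k hk => ⟨(t4 k hk).1, (t4 k hk).2.1⟩) (γ := γ)
    (show 0 ≤ 2 * C / Y by positivity)
  have h6 : K * (2 * C / Y) ≤ 2 * C := by
    rw [← mul_div_assoc, div_le_iff₀ hY]
    linarith only [hC, hK1, hc1, hY, mul_le_mul_of_nonneg_right hc1 hY.le, mul_nonneg_of_nonpos_of_nonpos (Mathlib.Tactic.Linarith.sub_nonpos_of_le hC) (Mathlib.Tactic.Linarith.sub_nonpos_of_le hK1), mul_nonneg_of_nonpos_of_nonpos (Mathlib.Tactic.Linarith.sub_nonpos_of_le hC) (Mathlib.Tactic.Linarith.sub_nonpos_of_le (mul_le_mul_of_nonneg_right hc1 (LT.lt.le hY)))]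
  have h7 : Real.exp (γ * T.card - 2 * C) * (Real.exp (-(γ * c₂ * (Y / 40))) *
      Real.exp (-(ε / 80 * Y))) < Real.exp (ε / 80 * Y) := by
    refine lt_of_lt_of_le ?_ ((mul_le_mul (Real.exp_le_exp.2 (show γ * T.card - 2 * C ≤ _ by
      linarith only [h5, h6])) t2 (by positivity) (Real.exp_pos _).le).trans (hch.trans h4))
    gcongr
  rw [← Real.exp_add, ← Real.exp_add, Real.exp_lt_exp] at h7
  have h8 := mul_le_mul_of_nonneg_left (show c₂ * Y / 4 ≤ T.card by linarith only [hK2, t3]) hγ.le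
  have h9 := mul_le_mul_of_nonneg_right he2 hY.le
  linarith only [hY5, h7, h8, h9]

end Pool.Agent.Work.MP_f96e05_an
end

-- merged part: Pool.Agent.Work.MP_f96e05_an.FS.A3
section
/-!
The phase of a normalised extremal function cannot always be trivial.

PLAN. `t₀ = π / |b|`, `v = uu X t₀`, `v ∘ S = -v`. Step 1: if `IsH f`, `InN S (-1) w f`, then `f * uu X (-t₀)` is `IsH0` (zero case; otherwise `normalize` gives `s` with `exp (-I s b) * (-1) = 1` by `InN.mul_eigen` and `hm`, so `s ≥ t₀`; `InN.isH0`).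
Step 2: normalise `F` to `G` with `InN S 1 w G`, `IsH0 G`; `n = ‖G‖` (`InN.pointwise`), `∫ n ≠ 0`; choose `(α, γ) ≠ 0` with `∫ v * (α n + γ conj G) = 0`; `InN.split` for `μ = -1`:
`α n + γ conj G = f₁ + conj (v * v * f₂)` with `IsH0 f₁`, `IsH0 f₂`; integrate: `α = 0`; then `conj γ * G - v * v * f₂ = conj f₁` vanishes (`integral_mul_eq_zero`, `ae_zero_of_normsq`), so `G * uu X (-(2 t₀))` is `IsH`.
-/

set_option autoImplicit false

open MeasureTheory Filter Topology Complex Metric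
open scoped ComplexConjugate InnerProductSpace

namespace Pool.Agent.Work.MP_f96e05_an

variable {φ : ℂ → ℂ} {S : TT → TT} {ω μ p z : ℂ} {w b : ℝ} {F G F' G' u v χ l π : TT → ℂ}
  {r X : TT → ℝ} {σ : ℂ → ℂ}

lemma A3_norm (hL : Lev φ S ω X b σ) (hω : ‖ω‖ = 1)
    (hm : ∀ (μ : ℂ) (G : TT → ℂ), ‖μ‖ = 1 → IsH G → (¬ ∀ᵐ x ∂mm, G x = 0) → InN S μ w G →
      (∀ δ > 0, ¬ IsH fun x => G x * uu X (-δ) x) → μ = 1)
    (hμ : ‖μ‖ = 1) (hF : IsH F) (hN : InN S μ w F) (h0 : ¬ ∀ᵐ x ∂mm, F x = 0) :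
    ∃ t : ℝ, 0 ≤ t ∧ IsH (fun x => F x * uu X (-t) x) ∧ exp (I * ((-t : ℝ) * b)) * μ = 1 ∧
      InN S 1 w (fun x => F x * uu X (-t) x) ∧ (¬ ∀ᵐ x ∂mm, F x * uu X (-t) x = 0) ∧
      ∀ δ > 0, ¬ IsH fun x => F x * uu X (-t) x * uu X (-δ) x := by
  obtain ⟨t, t0, h1, h2⟩ := hL.normalize hω hF h0
  have hl : ‖exp (I * ((-t : ℝ) * b))‖ = 1 := by simp [Complex.norm_exp]
  have h3 := hN.mul_eigen (uu_bd hL.meas (-t)).1 (K := 1)
    (Eventually.of_forall fun x => (uu_norm X (-t) x).le) hl (hL.toLev0.uu_comp (-t))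
  simp only [mul_comm (uu X (-t) _)] at h3
  have h4 : ¬ ∀ᵐ x ∂mm, F x * uu X (-t) x = 0 := fun h => h0 (by
    filter_upwards [h] with x hx
    refine (mul_eq_zero.1 hx).resolve_right fun h5 => ?_
    have := uu_norm X (-t) x
    rw [h5] at this
    simp at this)
  have h5 := hm _ _ (by rw [norm_mul, hl, hμ, one_mul]) h1 h4 h3 h2
  rw [h5] at h3
  exact ⟨t, t0, h1, h5, h3, h4, h2⟩

lemma A3_ge {t : ℝ} (hb : b ≠ 0) (t0 : 0 ≤ t) (h : exp (I * ((-t : ℝ) * b)) * (-1) = 1) :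
    Real.pi / |b| ≤ t := by
  have h1 := congrArg Complex.re h
  rw [mul_comm I, ← ofReal_mul, mul_neg_one, neg_re, exp_ofReal_mul_I_re, one_re] at h1
  rw [div_le_iff₀ (abs_pos.2 hb)]
  by_contra h2
  have h3 : Real.cos (-t * b) = Real.cos (t * |b|) := by
    rw [neg_mul, Real.cos_neg, ← Real.cos_abs, abs_mul, abs_of_nonneg t0]
  have h4 := Real.cos_lt_cos_of_nonneg_of_le_pi (by positivity) le_rfl (not_le.1 h2)
  rw [Real.cos_pi] at h4
  linarith

lemma A3_step (h : IsBdry φ S) (h0 : φ 0 ≠ 0) (hL : Lev φ S ω X b σ) (hω : ‖ω‖ = 1) (hb : b ≠ 0)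
    (hm : ∀ (μ : ℂ) (G : TT → ℂ), ‖μ‖ = 1 → IsH G → (¬ ∀ᵐ x ∂mm, G x = 0) → InN S μ w G →
      (∀ δ > 0, ¬ IsH fun x => G x * uu X (-δ) x) → μ = 1)
    (hF : IsH F) (hN : InN S (-1) w F) : IsH0 fun x => F x * uu X (-(Real.pi / |b|)) x := by
  by_cases hz : ∀ᵐ x ∂mm, F x = 0
  · have : IsH0 fun _ : TT => (0 : ℂ) := ⟨memLp_const 0, fun j => by simp⟩
    refine this.congr ?_
    filter_upwards [hz] with x hx
    rw [hx, zero_mul]
  obtain ⟨t, t0, h1, h2, h3, -, -⟩ := A3_norm hL hω hm (by simp) hF hN hz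
  have h4 := sub_nonneg.2 (A3_ge hb t0 h2)
  refine ((hL.uu_isH h4).1.mul0 (K := 1) (Eventually.of_forall fun x => (uu_norm X _ x).le)
    (h3.isH0 h h0 (by simp) h1)).congr (Eventually.of_forall fun x => ?_)
  simp only
  rw [mul_left_comm, ← uu_add]
  congr 2
  ring

lemma A3_anti (hL : Lev φ S ω X b σ) (hb : b ≠ 0) :
    ∀ᵐ x ∂mm, uu X (Real.pi / |b|) (S x) = -1 * uu X (Real.pi / |b|) x := by
  filter_upwards [hL.toLev0.uu_comp (Real.pi / |b|)] with x hx
  rw [hx]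
  congr 1
  have hc : (b : ℂ) ≠ 0 := by exact_mod_cast hb
  rcases lt_or_gt_of_ne hb with h1 | h1
  · rw [abs_of_neg h1, ← exp_neg_pi_mul_I]
    congr 1
    push_cast
    field_simp
  · rw [abs_of_pos h1, ← exp_pi_mul_I]
    congr 1
    push_cast
    field_simp

lemma A3_pair (a c : ℂ) : ∃ α γ : ℂ, (α = 0 → γ ≠ 0) ∧ α * a + γ * c = 0 := by
  by_cases hc : c = 0
  · exact ⟨0, 1, fun _ => one_ne_zero, by simp [hc]⟩
  · exact ⟨c, -a, fun h => absurd h hc, by ring⟩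

lemma no_extremal (h : IsBdry φ S) (h0 : φ 0 ≠ 0) (hL : Lev φ S ω X b σ) (hω : ‖ω‖ = 1)
    (hb : b ≠ 0) (hw : ∀ F, MemLp F 2 mm → ‖qq S F F‖ ≤ w * nn F)
    (hm : ∀ (μ : ℂ) (G : TT → ℂ), ‖μ‖ = 1 → IsH G → (¬ ∀ᵐ x ∂mm, G x = 0) → InN S μ w G →
      (∀ δ > 0, ¬ IsH fun x => G x * uu X (-δ) x) → μ = 1)
    (hμ : ‖μ‖ = 1) (hF : IsH F) (hN : InN S μ w F) : ∀ᵐ x ∂mm, F x = 0 := by
  by_contra hz
  obtain ⟨t, -, h1, -, h3, h4, h5⟩ := A3_norm hL hω hm hμ hF hN hz
  set G : TT → ℂ := fun x => F x * uu X (-t) x with hG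
  have hG0 : IsH0 G := h3.isH0 h h0 (by simp) h1
  have hS := h.isPre
  have hn := (h3.pointwise hS hw (by simp)).2
  have hc := h3.conj
  set s : ℝ := Real.pi / |b| with hs
  have s0 : 0 < s := div_pos Real.pi_pos (abs_pos.2 hb)
  have hv1 : ∀ᵐ x ∂mm, ‖uu X s x‖ ≤ 1 := Eventually.of_forall fun x => (uu_norm X s x).le
  have hvm := (uu_bd hL.meas s).1
  obtain ⟨α, γ, hαγ, e0⟩ := A3_pair (∫ x, uu X s x * (‖G x‖ : ℂ) ∂mm)
    (∫ x, uu X s x * conj (G x) ∂mm)
  have hN1 := (isLin_N hS).add ((isLin_N hS).smul α hn) ((isLin_N hS).smul γ hc)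
  have hN2 := hN1.mul_eigen hvm hv1 (l := -1) (by simp) (A3_anti hL hb)
  rw [mul_one] at hN2
  obtain ⟨f, g, hf, hg, nf, ng, e⟩ := hN2.split h.isSys hw (by simp) (by
    rw [← e0, ← integral_const_mul, ← integral_const_mul, ← integral_add
      ((integrable_of_memLp (memLp_bdd_mul hvm hv1 hn.1)).const_mul _)
      ((integrable_of_memLp (memLp_bdd_mul hvm hv1 hc.1)).const_mul _)]
    exact integral_congr_ae (Eventually.of_forall fun x => by simp only; ring))
  rw [map_neg, map_one] at ng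
  have f1 := A3_step h h0 hL hω hb hm hf.isH nf
  have f2 := A3_step h h0 hL hω hb hm hg.isH ng
  rw [← hs] at f1 f2
  have hv := (hL.uu_isH s0.le).1
  have g1 := hv.mul0 hv1 hg
  have hvv : ∀ x, uu X s x * uu X (-s) x = 1 := fun x => by
    rw [← uu_add]
    simp [uu]
  have e1 : ∀ᵐ x ∂mm, α * (‖G x‖ : ℂ) + γ * conj (G x) =
      f x * uu X (-s) x + conj (uu X s x * g x) := by
    filter_upwards [e] with x hx
    rw [map_mul conj (uu X s x), uu_conj]
    linear_combination uu X (-s) x * hx - (α * (‖G x‖ : ℂ) + γ * conj (G x)) * hvv x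
  have e2 := integral_congr_ae e1
  rw [integral_add ((integrable_of_memLp hn.1).const_mul _)
    ((integrable_of_memLp hc.1).const_mul _), integral_add (integrable_of_memLp f1.1)
    (integrable_of_memLp (memLp_conj g1.1)), integral_const_mul, integral_const_mul,
    integral_conj, integral_conj, hG0.mean, f1.mean, g1.mean, integral_complex_ofReal] at e2
  have hα : α = 0 := by
    by_contra hα
    simp only [map_zero, mul_zero, add_zero, mul_eq_zero, hα, false_or, ofReal_eq_zero] at e2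
    have := (integral_eq_zero_iff_of_nonneg (fun x => norm_nonneg (G x))
      (integrable_of_memLp h1.1).norm).1 e2
    refine h4 ?_
    filter_upwards [this] with x hx
    exact norm_eq_zero.1 hx
  have hγ : conj γ ≠ 0 := by simpa using hαγ hα
  have k1 := (hG0.const_mul (conj γ)).sub g1
  have e3 : ∀ᵐ x ∂mm, conj γ * G x - uu X s x * g x = conj (f x * uu X (-s) x) := by
    filter_upwards [e1] with x hx
    have := congrArg conj hx
    simp only [hα, zero_mul, zero_add, map_add, conj_conj, map_mul conj γ] at this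
    linear_combination this
  have e4 : ∫ x, ‖f x * uu X (-s) x‖ ^ 2 ∂mm = 0 := by
    have h6 := integral_mul_eq_zero k1 f1.isH
    have h7 := integral_conj_mul_self fun x => f x * uu X (-s) x
    rw [← ofReal_eq_zero, ← h7, ← h6]
    refine integral_congr_ae ?_
    filter_upwards [e3] with x hx
    rw [hx]
  refine h5 (s + s) (by linarith only [s0]) ((f2.isH.const_mul (conj γ)⁻¹).congr ?_)
  filter_upwards [e3, ae_zero_of_normsq f1.1 e4] with x h6 h7
  rw [h7, map_zero] at h6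
  rw [neg_add, uu_add, inv_mul_eq_iff_eq_mul₀ hγ]
  change _ = conj γ * (G x * _)
  linear_combination -(uu X (-s) x * uu X (-s) x) * h6 - g x * uu X (-s) x * hvv x

end Pool.Agent.Work.MP_f96e05_an
end

-- merged part: Pool.Agent.Work.MP_f96e05_an.FS.V1
section
/-!
The boundary level function.

PLAN. `char_diff`: induction on `m`; the factor `exp (I t psiB S ω 0) ∘ S^[n+m]` is `IsH`, bounded (`isH_psi`, `hb_exp`, `IsBdry.iter`); `IsH.mul_bd`, `IsH.mean_mul`, `ev_zero`.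
`meas_diff`: `measureReal_abs_gt_le_integral_charFun` for the image measure, or directly: the mean of `1 - cos (t Δ)` over `t ∈ [0, 2 / s]` is at least `1 / 2` if `|Δ| > s`; `1 - exp (-t d) ≤ t d`.
`exists_lev0`: `y n = im (cay (φ^[n] 0))` is monotone and bounded; choose `n j` strictly increasing with `y∞ - y (n j) ≤ 8 ^ (-j)`; Borel-Cantelli (`ae_eventually_notMem`, `measure_limsup_cofinite_eq_zero`) for the pairs
`(n j, n (j+1))` and `(n j, n j + 1)` with `s = 2 ^ (-j)`; `X = limUnder` (`Measurable.limUnder` or `measurable_of_tendsto_metrizable_ae`); `t (n j + 1) - t (n j)` tends a.e. to `X ∘ S - X`, hence converges to some `b`.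
-/

set_option autoImplicit false

open MeasureTheory Filter Topology Complex Metric
open scoped ComplexConjugate InnerProductSpace

namespace Pool.Agent.Work.MP_f96e05_an

variable {φ : ℂ → ℂ} {S : TT → TT} {ω μ p z : ℂ} {w b : ℝ} {F G F' G' u v χ l π : TT → ℂ}
  {r X : TT → ℝ} {σ : ℂ → ℂ}

lemma char_diff (h : IsBdry φ S) (hω : ‖ω‖ = 1) (hJ : Jul φ ω) {t : ℝ} (ht : 0 ≤ t) (n m : ℕ) :
    IsH (fun x => exp (I * (t * (XX ω (S^[n + m] x) - XX ω (S^[n] x))))) ∧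
      ∫ x, exp (I * (t * (XX ω (S^[n + m] x) - XX ω (S^[n] x)))) ∂mm =
        exp (I * (t * (cay ω (φ^[n + m] 0) - cay ω (φ^[n] 0)))) := by
  induction m with
  | zero => simpa using isH_const 1
  | succ m ih =>
    obtain ⟨h1, h2⟩ := isH_psi h hω hJ 0 (hb_exp ht)
    obtain ⟨h3, h4⟩ := h.iter h1 (n + m)
    have h0 : ‖(0 : ℂ)‖ < 1 := by simp
    have h5 := h4 0 h0
    rw [h2 _ (h.iter_lt h0 _), ev_zero] at h5
    have e : (fun x => exp (I * (t * (XX ω (S^[n + (m + 1)] x) - XX ω (S^[n] x))))) = fun x =>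
        exp (I * (t * psiB S ω 0 (S^[n + m] x))) *
          exp (I * (t * (XX ω (S^[n + m] x) - XX ω (S^[n] x)))) := by
      funext x
      rw [← Complex.exp_add, ← add_assoc, Function.iterate_succ_apply', psiB]
      congr 1
      push_cast
      ring
    rw [e]
    refine ⟨h3.mul (K := 1) (Eventually.of_forall fun x => by simp [Complex.norm_exp]) ih.1, ?_⟩
    rw [h3.mean_mul ih.1, h5, ih.2, ← Complex.exp_add, ← add_assoc, Function.iterate_succ_apply',
      psi]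
    congr 1
    push_cast
    ring

lemma meas_diff {Δ : TT → ℝ} (hΔ : Measurable Δ) {d s : ℝ} (hs : 0 < s)
    (h : ∀ t : ℝ, 0 ≤ t → ∫ x, exp (I * (t * Δ x)) ∂mm = (Real.exp (-(t * d)) : ℂ)) :
    mm.real {x | s < |Δ x|} ≤ 4 * d / s := by
  have : IsProbabilityMeasure (mm.map Δ) := Measure.isProbabilityMeasure_map hΔ.aemeasurable
  have h1 : ∀ t : ℝ, 0 ≤ t → charFun (mm.map Δ) t = (Real.exp (-(t * d)) : ℂ) := by
    intro t ht
    rw [charFun_apply_real, integral_map hΔ.aemeasurable (by fun_prop), ← h t ht]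
    simp only [mul_comm I]
  have h2 : ∀ t : ℝ, charFun (mm.map Δ) t = (Real.exp (-(|t| * d)) : ℂ) := by
    intro t
    rcases le_total 0 t with ht | ht
    · rw [abs_of_nonneg ht, h1 t ht]
    · rw [abs_of_nonpos ht, ← neg_neg t, charFun_neg, h1 _ (neg_nonneg.2 ht), conj_ofReal, neg_neg]
  have hd : 0 ≤ d := by
    have := norm_charFun_le_one (μ := mm.map Δ) 1
    rw [h1 1 zero_le_one, norm_real, Real.norm_eq_abs, abs_of_pos (Real.exp_pos _),
      Real.exp_le_one_iff] at this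
    linarith
  have h3 := measureReal_abs_gt_le_integral_charFun (μ := mm.map Δ) hs
  rw [map_measureReal_apply hΔ (measurableSet_lt measurable_const measurable_abs)] at h3
  have hs' : 0 < s⁻¹ := inv_pos.2 hs
  have h4 : ‖∫ t in (-2 * s⁻¹)..(2 * s⁻¹), 1 - charFun (mm.map Δ) t‖ ≤
      2 * s⁻¹ * d * |2 * s⁻¹ - -2 * s⁻¹| := by
    refine intervalIntegral.norm_integral_le_of_norm_le_const fun t ht => ?_
    rw [Set.uIoc_of_le (by linarith only [hs'])] at ht
    have h5 : |t| ≤ 2 * s⁻¹ := abs_le.2 ⟨by linarith only [ht, ht.1], ht.2⟩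
    have h6 : 0 ≤ |t| * d := by positivity
    have h7 := Real.add_one_le_exp (-(|t| * d))
    have h8 : Real.exp (-(|t| * d)) ≤ 1 := Real.exp_le_one_iff.2 (by linarith only [h6])
    rw [h2, ← ofReal_one, ← ofReal_sub, norm_real, Real.norm_eq_abs, abs_of_nonneg (by linarith only [h8])]
    linarith only [h7, hd, h5, mul_nonneg_of_nonpos_of_nonpos (Mathlib.Tactic.Linarith.sub_nonpos_of_le hd) (Mathlib.Tactic.Linarith.sub_nonpos_of_le h5)]
  refine h3.trans ((mul_le_mul_of_nonneg_left h4 (by positivity)).trans (le_of_eq ?_))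
  rw [abs_of_pos (by linarith only [hs'])]
  field_simp
  ring

/-- the centred iterates -/
noncomputable def V1_Y (φ : ℂ → ℂ) (S : TT → TT) (ω : ℂ) (n : ℕ) (x : TT) : ℝ :=
  XX ω (S^[n] x) - (cay ω (φ^[n] 0)).re

lemma V1_meas (h : IsBdry φ S) (n : ℕ) : Measurable (V1_Y φ S ω n) :=
  ((XX_meas ω).comp (h.meas.iterate n)).sub measurable_const

lemma V1_tail (h : IsBdry φ S) (hω : ‖ω‖ = 1) (hJ : Jul φ ω) {n k : ℕ} (hk : n ≤ k) {s : ℝ}
    (hs : 0 < s) : mm.real {x | s < |V1_Y φ S ω k x - V1_Y φ S ω n x|} ≤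
      4 * ((cay ω (φ^[k] 0)).im - (cay ω (φ^[n] 0)).im) / s := by
  obtain ⟨m, rfl⟩ := Nat.exists_eq_add_of_le hk
  refine meas_diff (Δ := fun x => V1_Y φ S ω (n + m) x - V1_Y φ S ω n x)
    ((V1_meas h _).sub (V1_meas h _)) hs fun t ht => ?_
  have e : (fun x => exp (I * (t * ((V1_Y φ S ω (n + m) x - V1_Y φ S ω n x : ℝ) : ℂ)))) = fun x =>
      exp (-(I * (t * ((cay ω (φ^[n + m] 0)).re - (cay ω (φ^[n] 0)).re)))) *
        exp (I * (t * (XX ω (S^[n + m] x) - XX ω (S^[n] x)))) := by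
    funext x
    rw [← Complex.exp_add, V1_Y, V1_Y]
    congr 1
    push_cast
    ring
  rw [e, integral_const_mul, (char_diff h hω hJ ht n m).2, ← Complex.exp_add, ofReal_exp]
  congr 1
  generalize cay ω (φ^[n + m] 0) = A
  generalize cay ω (φ^[n] 0) = B
  apply Complex.ext <;> simp <;> ring

lemma V1_bc (h : IsBdry φ S) (hω : ‖ω‖ = 1) (hJ : Jul φ ω) {n k : ℕ → ℕ} (hk : ∀ j, n j ≤ k j)
    (hy : ∀ j, (cay ω (φ^[k j] 0)).im - (cay ω (φ^[n j] 0)).im ≤ (1 / 2) ^ j * (1 / 2) ^ j) :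
    ∀ᵐ x ∂mm, ∀ᶠ j in atTop, |V1_Y φ S ω (k j) x - V1_Y φ S ω (n j) x| ≤ (1 / 2) ^ j := by
  have h1 : ∀ j, mm {x | (1 / 2 : ℝ) ^ j < |V1_Y φ S ω (k j) x - V1_Y φ S ω (n j) x|} ≤
      ENNReal.ofReal (4 * (1 / 2) ^ j) := by
    intro j
    have hs : (0 : ℝ) < (1 / 2) ^ j := by positivity
    rw [← ofReal_measureReal]
    refine ENNReal.ofReal_le_ofReal ((V1_tail h hω hJ (hk j) hs).trans ?_)
    rw [div_le_iff₀ hs]
    linarith only [hy, hy j]
  have h2 : Summable fun j : ℕ => (4 : ℝ) * (1 / 2) ^ j := summable_geometric_two.mul_left 4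
  have h3 := ae_eventually_notMem (ne_top_of_le_ne_top h2.tsum_ofReal_ne_top
    (ENNReal.tsum_le_tsum h1))
  filter_upwards [h3] with x hx
  exact hx.mono fun j hj => not_lt.1 hj

lemma exists_lev0 (h : IsBdry φ S) (hω : ‖ω‖ = 1) (hJ : Jul φ ω)
    (hC : ∃ C : ℝ, ∀ n, (cay ω (φ^[n] 0)).im ≤ C) : ∃ X b, Lev0 S ω X b := by
  obtain ⟨C, hC⟩ := hC
  have h0 : ‖(0 : ℂ)‖ < 1 := by simp
  have hm : Monotone fun n => (cay ω (φ^[n] 0)).im := monotone_nat_of_le_succ fun n => by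
    simp only [Function.iterate_succ_apply']
    exact hJ _ (h.iter_lt h0 n)
  have hb : BddAbove (Set.range fun n => (cay ω (φ^[n] 0)).im) :=
    ⟨C, by rintro _ ⟨n, rfl⟩; exact hC n⟩
  have hl := tendsto_atTop_ciSup hm hb
  have hu := le_ciSup hb
  generalize ⨆ n, (cay ω (φ^[n] 0)).im = L at hl hu
  obtain ⟨n, hn, hy⟩ := extraction_forall_of_eventually
    (P := fun j k => L - (1 / 2) ^ j * (1 / 2) ^ j ≤ (cay ω (φ^[k] 0)).im) fun j =>
      hl.eventually (eventually_ge_nhds (sub_lt_self L (by positivity)))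
  have b1 := V1_bc h hω hJ (n := n) (k := fun j => n (j + 1)) (fun j => hn.monotone j.le_succ)
    fun j => by linarith only [hy, hu, hy j, hu (n (j + 1))]
  have b2 := V1_bc h hω hJ (n := n) (k := fun j => n j + 1) (fun j => (n j).le_succ)
    fun j => by linarith only [hy, hu, hy j, hu (n j + 1)]
  obtain ⟨X, hX, hlim⟩ := measurable_limit_of_tendsto_metrizable_ae (μ := mm) (L := atTop)
    (f := fun j => V1_Y φ S ω (n j)) (fun j => (V1_meas h _).aemeasurable) (by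
      filter_upwards [b1] with x hx
      refine cauchySeq_tendsto_of_complete (cauchySeq_of_summable_dist
        (summable_geometric_two.of_norm_bounded_eventually_nat (hx.mono fun j hj => ?_)))
      rwa [Real.norm_eq_abs, abs_of_nonneg dist_nonneg, dist_comm, Real.dist_eq])
  have key : ∀ᵐ x ∂mm, Tendsto (fun j => (cay ω (φ^[n j + 1] 0)).re - (cay ω (φ^[n j] 0)).re) atTop
      (𝓝 (X (S x) - X x)) := by
    filter_upwards [hlim, h.isPre.qmp.ae hlim, b2] with x h1 h2 h3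
    have h4 : Tendsto (fun j => V1_Y φ S ω (n j + 1) x - V1_Y φ S ω (n j) x) atTop (𝓝 0) :=
      squeeze_zero_norm' h3 (tendsto_pow_atTop_nhds_zero_of_lt_one (by norm_num) (by norm_num))
    have h5 := (h2.sub h1).sub h4
    rw [sub_zero] at h5
    refine h5.congr fun j => ?_
    simp only [V1_Y, Function.iterate_succ_apply S]
    ring
  obtain ⟨x₀, hx₀⟩ := key.exists
  refine ⟨X, X (S x₀) - X x₀, hX, ?_, n, fun j => (cay ω (φ^[n j] 0)).re, hlim⟩
  filter_upwards [key] with x hx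
  linarith only [hx, hx₀, tendsto_nhds_unique hx hx₀]

end Pool.Agent.Work.MP_f96e05_an
end

-- merged part: Pool.Agent.Work.MP_f96e05_an.FS.V2
section
/-!
The Abel function.

PLAN. For `HB Φ` the functions `Φ (XX ω (S^[n j] x) - t j)` are `IsH` with `ev = Φ (cay ω (φ^[n j] z) - t j)` (`isH_XX` for `Φ (· - t j)`, `IsBdry.iter`); `IsH.of_tendsto`.
`D = 1 / (1 - I X)`, `re (ev D z) = ∫ pk z / (1 + X ^ 2) > 0` (`integral_pk_mul`), `σ z = I * (1 / ev D z - 1)` is the limit of `cay ω (φ^[n j] z) - t j`; `ev_diff`; `abel`: `ev (D ∘ S) z = ev D (φ z)` and `hol` for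
`u ↦ 1 / (1 - I * (u + b))`.
-/

set_option autoImplicit false

open MeasureTheory Filter Topology Complex Metric
open scoped ComplexConjugate InnerProductSpace

namespace Pool.Agent.Work.MP_f96e05_an

variable {φ : ℂ → ℂ} {S : TT → TT} {ω μ p z : ℂ} {w b : ℝ} {F G F' G' u v χ l π : TT → ℂ}
  {r X : TT → ℝ} {σ : ℂ → ℂ}

lemma V2_shift {Φ : ℂ → ℂ} (hΦ : HB Φ) (c : ℝ) : HB fun u => Φ (u + c) := by
  obtain ⟨h1, K, h2⟩ := hΦ
  refine ⟨fun u hu => ?_, K, fun u hu => h2 _ (by simpa using hu)⟩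
  exact (h1 (u + c) (by simpa using hu)).comp u (differentiableAt_id.add_const _)

lemma V2_key (h : IsBdry φ S) (hω : ‖ω‖ = 1) {n : ℕ → ℕ} {t : ℕ → ℝ}
    (hl : ∀ᵐ x ∂mm, Tendsto (fun j => XX ω (S^[n j] x) - t j) atTop (𝓝 (X x)))
    {Φ : ℂ → ℂ} (hΦ : HB Φ) : IsH (fun x => Φ (X x)) ∧ ∀ z : ℂ, ‖z‖ < 1 →
      Tendsto (fun j => Φ (cay ω (φ^[n j] z) + ((-t j : ℝ) : ℂ))) atTop
        (𝓝 (ev (fun x => Φ (X x)) z)) := by
  have h1 := fun j => isH_XX hω (V2_shift hΦ (-t j))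
  have h2 := fun j => h.iter (h1 j).1 (n j)
  obtain ⟨hd, K, hK⟩ := hΦ
  have h3 := IsH.of_tendsto (G := fun x => Φ (X x)) (B := fun _ => (K : ℂ)) (fun j => (h2 j).1)
    (memLp_const _) (fun j => Eventually.of_forall fun x => by
      refine (hK _ (by simp)).trans ?_
      rw [Complex.norm_real]
      exact le_abs_self K) (by
      filter_upwards [hl] with x hx
      have h4 : Tendsto (fun j => ((XX ω (S^[n j] x) - t j : ℝ) : ℂ)) atTop (𝓝 (X x : ℂ)) :=
        (Complex.continuous_ofReal.tendsto _).comp hx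
      have h5 := ((hd (X x) (by simp)).continuousAt.tendsto).comp h4
      refine h5.congr fun j => ?_
      simp only [Function.comp]
      congr 1
      push_cast
      ring)
  refine ⟨h3.1, fun z hz => (h3.2 z hz).congr fun j => ?_⟩
  rw [(h2 j).2 z hz, (h1 j).2 _ (h.iter_lt hz _)]

lemma V2_hb : HB fun u => 1 / (1 - I * u) := by
  simpa using hb_inv (ε := 1) zero_le_one 1

lemma V2_inv (u : ℂ) : I * (1 / (1 / (1 - I * u)) - 1) = u := by
  rw [one_div_one_div]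
  linear_combination (-u) * I_mul_I

lemma V2_re (y : ℝ) : (1 / (1 - I * (y : ℂ))).re = 1 / (1 + y ^ 2) := by
  rw [one_div, inv_re, normSq_apply]
  simp
  ring

lemma V2_ne (hD : IsH fun x => 1 / (1 - I * (X x : ℂ))) (hz : ‖z‖ < 1) :
    ev (fun x => 1 / (1 - I * (X x : ℂ))) z ≠ 0 := by
  intro h0
  have hi : Integrable (fun x => (pk z x : ℂ) * (1 / (1 - I * (X x : ℂ)))) mm :=
    integrable_mul2 (memLp_cont (Complex.continuous_ofReal.comp (pk_cont hz))) hD.1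
  have h1 := integral_pk_mul hD hz
  rw [h0] at h1
  have h2 := integral_re hi
  rw [h1] at h2
  have hp : ∀ x, 0 < RCLike.re ((pk z x : ℂ) * (1 / (1 - I * (X x : ℂ)))) := by
    intro x
    rw [RCLike.re_to_complex, re_ofReal_mul, V2_re]
    refine mul_pos (div_pos (by linarith only [hz, norm_nonneg z, mul_nonneg_of_nonpos_of_nonpos (le_of_lt (Mathlib.Tactic.Linarith.sub_neg_of_lt hz)) (Mathlib.Tactic.Linarith.sub_nonpos_of_le (norm_nonneg z))]) ?_) (by positivity)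
    exact pow_pos (norm_pos_iff.2 (ee_sub_ne hz x)) 2
  have h3 := (integral_pos_iff_support_of_nonneg (fun x => (hp x).le) hi.re).2 (by
    have : Function.support (fun x => RCLike.re ((pk z x : ℂ) * (1 / (1 - I * (X x : ℂ))))) =
        Set.univ := Set.eq_univ_of_forall fun x => (hp x).ne'
    rw [this]
    simp)
  rw [h2] at h3
  simp at h3

lemma V2_jul (h : IsBdry φ S) (hJ : Jul φ ω) (hz : ‖z‖ < 1) (k : ℕ) :
    (cay ω z).im ≤ (cay ω (φ^[k] z)).im := by
  induction k with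
  | zero => exact le_rfl
  | succ k ih =>
    rw [Function.iterate_succ_apply']
    exact ih.trans (hJ _ (h.iter_lt hz k))

lemma Lev0.exists_lev (hL : Lev0 S ω X b) (h : IsBdry φ S) (hω : ‖ω‖ = 1) (hJ : Jul φ ω) :
    ∃ σ, Lev φ S ω X b σ := by
  obtain ⟨n, t, hl⟩ := hL.approx
  obtain ⟨hD, hDl⟩ := V2_key h hω hl V2_hb
  obtain ⟨σ, hσ⟩ : ∃ σ : ℂ → ℂ,
      σ = fun z => I * (1 / ev (fun x => 1 / (1 - I * (X x : ℂ))) z - 1) := ⟨_, rfl⟩
  have hlim : ∀ z : ℂ, ‖z‖ < 1 →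
      Tendsto (fun j => cay ω (φ^[n j] z) + ((-t j : ℝ) : ℂ)) atTop (𝓝 (σ z)) := by
    intro z hz
    have h1 := (((tendsto_const_nhds (x := (1 : ℂ))).div (hDl z hz) (V2_ne hD hz)).sub_const
      1).const_mul I
    rw [hσ]
    exact h1.congr fun j => V2_inv _
  have him : ∀ z : ℂ, ‖z‖ < 1 → (cay ω z).im ≤ (σ z).im := by
    intro z hz
    refine ge_of_tendsto' ((Complex.continuous_im.tendsto _).comp (hlim z hz)) fun j => ?_
    simpa using V2_jul h hJ hz (n j)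
  have hhol : ∀ Φ, HB Φ → IsH (fun x => Φ (X x)) ∧
      ∀ z : ℂ, ‖z‖ < 1 → ev (fun x => Φ (X x)) z = Φ (σ z) := by
    intro Φ hΦ
    obtain ⟨h1, h2⟩ := V2_key h hω hl hΦ
    refine ⟨h1, fun z hz => tendsto_nhds_unique (h2 z hz) ?_⟩
    exact ((hΦ.1 _ ((cay_pos hω hz).le.trans (him z hz))).continuousAt.tendsto).comp (hlim z hz)
  refine ⟨σ, hL, hhol, ?_, him, fun z hz => ?_⟩
  · rw [hσ]
    refine (((differentiableOn_const _).div (ev_diff (integrable_of_memLp hD.1))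
      fun z hz => V2_ne hD (by simpa using hz)).sub_const 1).const_mul I
  · have h1 := h.ev_comp hD hz
    have h2 := (hhol _ (V2_shift V2_hb b)).2 z hz
    have h3 : ev (fun x => 1 / (1 - I * (X (S x) : ℂ))) z =
        ev (fun x => 1 / (1 - I * ((X x : ℂ) + b))) z := by
      refine ev_congr ?_ z
      filter_upwards [hL.shift] with x hx
      rw [hx]
      push_cast
      rfl
    have h4 : σ (φ z) = I * (1 / ev (fun x => 1 / (1 - I * (X x : ℂ))) (φ z) - 1) := by rw [hσ]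
    rw [h4, ← h1, h3, h2, V2_inv]

end Pool.Agent.Work.MP_f96e05_an
end

-- merged part: Pool.Agent.Work.MP_f96e05_an.Ground3
section
set_option autoImplicit false
set_option maxHeartbeats 400000

open MeasureTheory Filter Topology Complex Metric
open scoped ComplexConjugate InnerProductSpace NNReal ENNReal

namespace Pool.Agent.Work.MP_f96e05_an

variable {S : TT → TT} {w : ℝ} {n : TT → ℝ} {L : TT → ℂ} {k K : ℝ}

/-- bounded analytic invariant functions `a` with `n a ∈ M` -/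
def InA (S : TT → TT) (w : ℝ) (n : TT → ℝ) (a : TT → ℂ) : Prop :=
  IsH a ∧ Inv S a ∧ (∃ K : ℝ, ∀ᵐ x ∂mm, ‖a x‖ ≤ K) ∧ InM S w fun x => n x * a x

lemma IsGround.isLin_A (hg : IsGround S w n) :
    IsLin fun F => ∃ a, InA S w n a ∧ (fun x => n x * a x) =ᵐ[mm] F := by
  have hM := isLin_M (w := w) hg.pre
  refine ⟨?_, ⟨fun _ => 0, ⟨isH_const 0, inv_const 0, ⟨0, by simp⟩, by simpa using hM.zero⟩,
    by simp⟩, ?_, ?_, ?_⟩
  · rintro F G ⟨a, ha, e⟩ e'
    exact ⟨a, ha, e.trans e'⟩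
  · rintro F G ⟨a, ⟨a1, a2, ⟨Ka, a3⟩, a4⟩, e⟩ ⟨b, ⟨b1, b2, ⟨Kb, b3⟩, b4⟩, e'⟩
    refine ⟨fun x => a x + b x, ⟨a1.add b1, a2.add b2, ⟨Ka + Kb, ?_⟩, ?_⟩, ?_⟩
    · filter_upwards [a3, b3] with x h1 h2
      exact (norm_add_le _ _).trans (add_le_add h1 h2)
    · simpa [mul_add] using hM.add a4 b4
    · filter_upwards [e, e'] with x h1 h2
      rw [← h1, ← h2, mul_add]
  · rintro c F ⟨a, ⟨a1, a2, ⟨Ka, a3⟩, a4⟩, e⟩
    refine ⟨fun x => c * a x, ⟨a1.const_mul c, (inv_const c).mul a2, ⟨‖c‖ * Ka, ?_⟩, ?_⟩, ?_⟩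
    · filter_upwards [a3] with x h1
      rw [norm_mul]; exact mul_le_mul_of_nonneg_left h1 (norm_nonneg _)
    · simpa [mul_left_comm] using hM.smul c a4
    · filter_upwards [e] with x h1
      rw [← h1, mul_left_comm]
  · rintro F ⟨a, ha, e⟩
    exact (memLp_congr_ae e).1 ha.2.2.2.1.1

lemma tendsto_exp_quot (z : ℂ) :
    Tendsto (fun j : ℕ => ((j : ℂ) + 1) * (exp (((j : ℂ) + 1)⁻¹ * z) - 1)) atTop (𝓝 z) := by
  have hd : HasDerivAt (fun t : ℂ => exp (t * z)) z 0 := by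
    simpa using ((hasDerivAt_id (0 : ℂ)).mul_const z).cexp
  have h1 := hd.tendsto_slope_zero
  have h2 : Tendsto (fun j : ℕ => ((j : ℂ) + 1)⁻¹) atTop (𝓝[≠] 0) := by
    refine tendsto_nhdsWithin_iff.2 ⟨?_, Eventually.of_forall fun j => ?_⟩
    · simpa using tendsto_one_div_add_atTop_nhds_zero_nat (𝕜 := ℂ)
    · exact inv_ne_zero (by exact_mod_cast j.succ_ne_zero)
  simpa [Function.comp_def] using h1.comp h2

lemma norm_exp_quot {z : ℂ} {K : ℝ} (hz : |z.re| ≤ K) (j : ℕ) :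
    ‖((j : ℂ) + 1) * (exp (((j : ℂ) + 1)⁻¹ * z) - 1)‖ ≤ Real.exp K * ‖z‖ := by
  have hj : (0 : ℝ) < (j : ℝ) + 1 := by positivity
  have e : ((j : ℂ) + 1) = (((j : ℝ) + 1 : ℝ) : ℂ) := by push_cast; ring
  have h1 : (((j : ℂ) + 1)⁻¹ * z).re ≤ K := by
    rw [e, ← ofReal_inv, re_ofReal_mul]
    have h2 : ((j : ℝ) + 1)⁻¹ ≤ 1 := inv_le_one_of_one_le₀ (by linarith [Nat.cast_nonneg (α := ℝ) j])
    calc ((j : ℝ) + 1)⁻¹ * z.re ≤ ((j : ℝ) + 1)⁻¹ * |z.re| :=
          mul_le_mul_of_nonneg_left (le_abs_self _) (by positivity)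
      _ ≤ 1 * |z.re| := mul_le_mul_of_nonneg_right h2 (abs_nonneg _)
      _ ≤ K := by rw [one_mul]; exact hz
  have h2 := exp_lip h1 (b := 0) (by simpa using (abs_nonneg _).trans hz)
  rw [Complex.exp_zero, sub_zero, norm_mul, norm_inv] at h2
  rw [norm_mul]
  have h3 : ‖(j : ℂ) + 1‖ ≠ 0 := by rw [e, norm_real]; exact (norm_pos_iff.2 hj.ne').ne'
  calc ‖(j : ℂ) + 1‖ * ‖exp (((j : ℂ) + 1)⁻¹ * z) - 1‖
      ≤ ‖(j : ℂ) + 1‖ * (Real.exp K * (‖(j : ℂ) + 1‖⁻¹ * ‖z‖)) :=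
        mul_le_mul_of_nonneg_left h2 (norm_nonneg _)
    _ = Real.exp K * ‖z‖ := by field_simp

lemma IsGround.orth_re (hg : IsGround S w n) {r : TT → ℂ} (hr : InM S w r)
    (ho : ∀ a, InA S w n a → ∫ x, conj (n x * a x) * r x ∂mm = 0) {Λ : TT → ℂ} (hΛ : IsH Λ)
    (hi : Inv S Λ) {K : ℝ} (hK : ∀ᵐ x ∂mm, |(Λ x).re| ≤ K) :
    ∫ x, n x * r x * (Λ x).re ∂mm = 0 := by
  have inr := integrable_mul2 hg.mem.1 hr.1.1
  have h0 := hg.orth hr
  have step : ∀ a, IsH a → Inv S a → ∀ C : ℝ, (∀ᵐ x ∂mm, ‖a x‖ ≤ C) →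
      ∫ x, n x * r x * (a x - 1) ∂mm = 0 ∧ ∫ x, n x * r x * conj (a x - 1) ∂mm = 0 := by
    intro a ha hia C hC
    obtain ⟨c, hc⟩ := hg.alg ha hia hC
    have h1 := ho (fun x => a x - c) ⟨ha.sub (isH_const c), hia.sub (inv_const c), ⟨C + ‖c‖, by
      filter_upwards [hC] with x hx
      exact (norm_sub_le _ _).trans (by linarith)⟩, hc⟩
    have h2 := integral_mul_eq_zero hc.2 hr.2.isH
    constructor
    · rw [← add_zero (0 : ℂ)]
      nth_rewrite 1 [← h2]
      rw [← mul_zero (c - 1), ← h0, ← integral_const_mul,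
        ← integral_add (integrable_mul2 hc.1.1 hr.1.1) (inr.const_mul _)]
      exact integral_congr_ae (Eventually.of_forall fun x => by simp only; ring)
    · rw [← add_zero (0 : ℂ)]
      nth_rewrite 1 [← h1]
      rw [← mul_zero (conj (c - 1)), ← h0, ← integral_const_mul,
        ← integral_add (integrable_mul2 (memLp_conj hc.1.1) hr.1.1) (inr.const_mul _)]
      exact integral_congr_ae (Eventually.of_forall fun x => by
        simp only [map_mul, map_sub, conj_ofReal]; ring)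
  have hb : Integrable (fun x => ‖n x * r x‖ * (Real.exp K * ‖Λ x‖)) mm := by
    refine ((integrable_mul2 (hg.mem_L2 hi hΛ.1) hr.1.1).norm.const_mul (Real.exp K)).congr
      (Eventually.of_forall fun x => ?_)
    simp only [norm_mul]; ring
  have hj : ∀ j : ℕ, ∫ x, n x * r x * (exp (((j : ℂ) + 1)⁻¹ * Λ x) - 1) ∂mm = 0 ∧
      ∫ x, n x * r x * conj (exp (((j : ℂ) + 1)⁻¹ * Λ x) - 1) ∂mm = 0 := by
    intro j
    have e : ((j : ℂ) + 1)⁻¹ = ((((j : ℝ) + 1)⁻¹ : ℝ) : ℂ) := by push_cast; ring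
    have hb : ∀ᵐ x ∂mm, (((j : ℂ) + 1)⁻¹ * Λ x).re ≤ ((j : ℝ) + 1)⁻¹ * K := by
      filter_upwards [hK] with x hx
      rw [e, re_ofReal_mul]
      exact mul_le_mul_of_nonneg_left ((le_abs_self _).trans hx) (by positivity)
    refine step _ (exp_isH (hΛ.const_mul _) hb).1
      (hi.comp (χ := fun z => exp (((j : ℂ) + 1)⁻¹ * z)) (by fun_prop))
      (Real.exp (((j : ℝ) + 1)⁻¹ * K)) ?_
    filter_upwards [hb] with x hx
    rw [norm_exp]; exact Real.exp_le_exp.2 hx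
  have hm : ∀ j : ℕ, AEStronglyMeasurable
      (fun x => ((j : ℂ) + 1) * (exp (((j : ℂ) + 1)⁻¹ * Λ x) - 1)) mm := fun j =>
    (by fun_prop : Continuous fun z : ℂ =>
      ((j : ℂ) + 1) * (exp (((j : ℂ) + 1)⁻¹ * z) - 1)).comp_aestronglyMeasurable hΛ.1.1
  have l1 := tendsto_integral_of_dominated_convergence (f := fun x => n x * r x * Λ x) _
    (fun j => inr.1.mul (hm j)) hb (fun j => by
      filter_upwards [hK] with x hx
      rw [Pi.mul_apply, norm_mul]
      exact mul_le_mul_of_nonneg_left (norm_exp_quot hx j) (norm_nonneg _))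
    (Eventually.of_forall fun x => (tendsto_exp_quot _).const_mul _)
  have l2 := tendsto_integral_of_dominated_convergence (f := fun x => n x * r x * conj (Λ x)) _
    (fun j => inr.1.mul (continuous_conj.comp_aestronglyMeasurable (hm j))) hb (fun j => by
      filter_upwards [hK] with x hx
      rw [Pi.mul_apply, norm_mul, norm_conj]
      exact mul_le_mul_of_nonneg_left (norm_exp_quot hx j) (norm_nonneg _))
    (Eventually.of_forall fun x =>
      ((continuous_conj.tendsto _).comp (tendsto_exp_quot _)).const_mul _)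
  have z1 : ∫ x, n x * r x * Λ x ∂mm = 0 := by
    refine tendsto_nhds_unique l1 (tendsto_const_nhds.congr fun j => ?_)
    simp only [Pi.mul_apply]
    simp_rw [mul_left_comm _ ((j : ℂ) + 1)]
    rw [integral_const_mul, (hj j).1, mul_zero]
  have z2 : ∫ x, n x * r x * conj (Λ x) ∂mm = 0 := by
    refine tendsto_nhds_unique l2 (tendsto_const_nhds.congr fun j => ?_)
    simp only [Pi.mul_apply]
    simp_rw [map_mul (starRingEnd ℂ) ((j : ℂ) + 1), mul_left_comm _ (conj ((j : ℂ) + 1))]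
    rw [integral_const_mul, (hj j).2, mul_zero]
  have i1 : Integrable (fun x => n x * r x * Λ x) mm :=
    (integrable_mul2 (hg.mem_L2 hi hΛ.1) hr.1.1).congr
      (Eventually.of_forall fun x => by simp only; ring)
  have i2 : Integrable (fun x => n x * r x * conj (Λ x)) mm := by
    refine (integrable_norm_iff (inr.1.mul (memLp_conj hΛ.1).1)).1 (i1.norm.congr ?_)
    exact Eventually.of_forall fun x => by simp
  have : ∫ x, n x * r x * (Λ x).re ∂mm =
      (1 / 2) * ∫ x, (n x * r x * Λ x + n x * r x * conj (Λ x)) ∂mm := by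
    rw [← integral_const_mul]
    refine integral_congr_ae (Eventually.of_forall fun x => ?_)
    simp only
    rw [← mul_add, add_conj]; push_cast; ring
  rw [this, integral_add i1 i2, z1, z2]; simp

lemma IsHyp.inv_re (hL : IsHyp S L k K) : Inv S fun x => ((L x).re : ℂ) :=
  ⟨(continuous_ofReal.comp continuous_re).comp_aestronglyMeasurable hL.isH.1.1, by
    filter_upwards [hL.re_inv] with x hx
    rw [hx]⟩

lemma IsGround.zero_of_orth (hg : IsGround S w n) (hL : IsHyp S L k K) {r : TT → ℂ}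
    (hr : InM S w r) (ho : ∀ a, InA S w n a → ∫ x, conj (n x * a x) * r x ∂mm = 0) :
    ∀ᵐ x ∂mm, r x = 0 := by
  have inr := integrable_mul2 hg.mem.1 hr.1.1
  obtain ⟨ψ, hψ, hrψ⟩ := hg.ratio hr.1
  set β : ℂ := (∫ x, n x * r x * (L x).re ∂mm) / k with hβ
  set α : ℂ := exp (-(arg β * I)) with hα
  have hαβ : α * β = ‖β‖ := by
    have e4 := norm_mul_exp_arg_mul_I β
    have e5 : α * exp (arg β * I) = 1 := by rw [hα, ← exp_add]; simp
    linear_combination (-α) * e4 + (‖β‖ : ℂ) * e5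
  let χ : ℂ → ℝ := fun z => if 0 < (α * z).im then 1 else -1
  have hχ : Measurable χ := Measurable.ite
    (measurableSet_lt measurable_const (by fun_prop)) measurable_const measurable_const
  have hχ1 : ∀ z, |χ z| ≤ 1 := fun z => by simp only [χ]; split_ifs <;> simp
  have hi := hψ.comp (χ := fun z => (χ z : ℂ)) (measurable_ofReal.comp hχ)
  obtain ⟨Λ, κ, hΛ, hre, hκ⟩ := hg.sys.herglotz (g := fun x => χ (ψ x))
    (memLp_bdd hi.1 (K := 1) (Eventually.of_forall fun x => by simpa using hχ1 _)) (by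
      filter_upwards [hψ.2] with x hx
      rw [hx])
  have hk : (k : ℂ) ≠ 0 := by exact_mod_cast hL.ne
  have h1 := hg.orth_re hr ho (hΛ.sub (hL.isH.const_mul ((κ / k : ℝ) : ℂ)))
    ⟨(hΛ.sub (hL.isH.const_mul _)).1.1, by
      filter_upwards [hκ, hL.per] with x h1 h2
      rw [h1, h2]; push_cast; field_simp; ring⟩ (K := 1 + |κ / k| * K) (by
      filter_upwards [hre, hL.bdd] with x h1 h2
      rw [sub_re, re_ofReal_mul, h1]
      refine (abs_sub _ _).trans (add_le_add (hχ1 _) ?_)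
      rw [abs_mul]; exact mul_le_mul_of_nonneg_left h2 (abs_nonneg _))
  have i1 : Integrable (fun x => n x * r x * (χ (ψ x) : ℂ)) mm :=
    inr.mul_bdd (c := 1) hi.1 (Eventually.of_forall fun x => by simpa using hχ1 _)
  have i2 : Integrable (fun x => n x * r x * ((L x).re : ℂ)) mm :=
    inr.mul_bdd (c := K) hL.inv_re.1 (by simpa using hL.bdd)
  have h2 : ∫ x, α * (n x * r x * (χ (ψ x) : ℂ)) ∂mm = ((κ * ‖β‖ : ℝ) : ℂ) := by
    have : ∫ x, (n x * r x * (χ (ψ x) : ℂ) - (κ / k : ℝ) * (n x * r x * ((L x).re : ℂ))) ∂mm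
        = 0 := by
      refine Eq.trans (integral_congr_ae ?_) h1
      filter_upwards [hre] with x hx
      rw [sub_re, re_ofReal_mul, hx]; push_cast; ring
    rw [integral_sub i1 (i2.const_mul _), integral_const_mul, sub_eq_zero] at this
    rw [integral_const_mul, this, ofReal_mul, ← hαβ, hβ]
    push_cast; field_simp
  have h3 := integral_im (i1.const_mul α)
  rw [h2] at h3
  simp only [RCLike.im_to_complex, ofReal_im] at h3
  have hpt : ∀ᵐ x ∂mm, (α * (n x * r x * (χ (ψ x) : ℂ))).im = n x * |(α * r x).im| := by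
    filter_upwards [hrψ, hg.pos] with x h4 h5
    have e1 : (α * r x).im = n x * (α * ψ x).im := by
      rw [h4, mul_left_comm, im_ofReal_mul]
    have e2 : α * (n x * r x * (χ (ψ x) : ℂ)) = ((n x * χ (ψ x) : ℝ) : ℂ) * (α * r x) := by
      push_cast; ring
    rw [e2, im_ofReal_mul, e1, abs_mul, abs_of_pos h5]
    simp only [χ]
    split_ifs with h6
    · rw [abs_of_pos h6]; ring
    · rw [abs_of_nonpos (not_lt.1 h6)]; ring
  have h4 := (integral_eq_zero_iff_of_nonneg_ae (by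
    filter_upwards [hpt, hg.pos] with x h1 h2
    simp only [RCLike.im_to_complex, Pi.zero_apply]
    rw [h1]; positivity) (i1.const_mul α).im).1 h3
  have h5 := (hr.2.const_mul α).zero_of_im (by
    filter_upwards [h4, hpt, hg.pos] with x h1 h2 h3
    simp only [RCLike.im_to_complex, Pi.zero_apply] at h1
    rw [h2] at h1
    exact abs_eq_zero.1 ((mul_eq_zero.1 h1).resolve_left h3.ne'))
  filter_upwards [h5] with x hx
  exact (mul_eq_zero.1 hx).resolve_left (exp_ne_zero _)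

lemma IsGround.approxM (hg : IsGround S w n) (hL : IsHyp S L k K) {f : TT → ℂ}
    (hf : InM S w f) {ε : ℝ} (hε : 0 < ε) :
    ∃ a, InA S w n a ∧ ∫ x, ‖f x - n x * a x‖ ^ 2 ∂mm ≤ ε ^ 2 := by
  obtain ⟨F, ⟨a, ha, e⟩, hF⟩ := hg.isLin_A.approx' hf.1.1 (fun y hy ho => by
    obtain ⟨r, hr, hp⟩ := (isLin_M hg.pre).proj (isClosed_M (w := w) hg.pre) hy
    have h0 := hg.zero_of_orth hL hr fun a ha => by
      rw [← hp _ ha.2.2.2]; exact ho _ ⟨a, ha, EventuallyEq.rfl⟩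
    have h1 := hp f hf
    have h2 : ∫ x, conj (f x) * r x ∂mm = 0 := by
      rw [← integral_zero TT ℂ (μ := mm)]
      refine integral_congr_ae ?_
      filter_upwards [h0] with x hx
      simp [hx]
    have h3 := congrArg conj (h1.trans h2)
    rw [← integral_conj, map_zero] at h3
    refine Eq.trans (integral_congr_ae (Eventually.of_forall fun x => ?_)) h3
    simp [mul_comm]) hε
  refine ⟨a, ha, le_trans (le_of_eq (integral_congr_ae ?_)) hF⟩
  filter_upwards [e] with x hx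
  rw [← hx]

lemma IsGround.prod_coeff (hg : IsGround S w n) (hL : IsHyp S L k K) {ψ χ : TT → ℂ}
    (hψ : Inv S ψ) (hχ : Inv S χ) (h1 : IsH0 fun x => n x * ψ x)
    (h2 : InM S w fun x => n x * χ x) (j : ℕ) :
    ∫ x, ee x ^ j * (n x * (ψ x * χ x)) ∂mm = 0 := by
  have bd : ∀ {u : TT → ℂ}, Integrable u mm → Integrable (fun x => ee x ^ j * u x) mm :=
    fun hu => hu.bdd_mul (c := 1) (ee_cont.pow j).aestronglyMeasurable
      (Eventually.of_forall fun x => by simp [ee_norm])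
  have key : ∀ ε : ℝ, 0 < ε → ‖∫ x, ee x ^ j * (n x * (ψ x * χ x)) ∂mm‖ ≤
      ε * ((nn (fun x => n x * ψ x) + 1) / 2) := by
    intro ε hε
    obtain ⟨a, ⟨a1, a2, ⟨C, a3⟩, a4⟩, ha⟩ := hg.approxM hL h2 hε
    have m2 : MemLp (fun x => n x * (χ x - a x)) 2 mm := by
      simpa [mul_sub] using ((isLin_M hg.pre).sub' h2 a4).1.1
    obtain ⟨i1, e1⟩ := hg.prod hψ (hχ.sub a2) h1.1 m2
    have z := (a1.mul0 a3 h1).2 j
    have e2 : ∫ x, ee x ^ j * (n x * (ψ x * χ x)) ∂mm =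
        ∫ x, ee x ^ j * (n x * (ψ x * (χ x - a x))) ∂mm := by
      rw [← add_zero (∫ x, ee x ^ j * (n x * (ψ x * (χ x - a x))) ∂mm), ← z,
        ← integral_add (bd i1) (bd (integrable_of_memLp (a1.mul0 a3 h1).1))]
      exact integral_congr_ae (Eventually.of_forall fun x => by simp only; ring)
    rw [e2]
    refine (norm_integral_le_integral_norm _).trans ?_
    simp_rw [norm_mul (ee _ ^ j), norm_pow, ee_norm, one_pow, one_mul]
    rw [e1]
    have i3 := integrable_normsq h1.1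
    have i4 := integrable_normsq m2
    have h3 : ∫ x, ‖n x * ψ x‖ * ‖n x * (χ x - a x)‖ ∂mm ≤
        ∫ x, (ε / 2 * ‖n x * ψ x‖ ^ 2 + 1 / (2 * ε) * ‖n x * (χ x - a x)‖ ^ 2) ∂mm := by
      refine integral_mono (by simpa only [norm_mul] using (integrable_mul2 h1.1 m2).norm)
        ((i3.const_mul _).add (i4.const_mul _)) fun x => ?_
      simp only
      generalize ‖n x * ψ x‖ = u
      generalize ‖n x * (χ x - a x)‖ = v
      have : ε / 2 * u ^ 2 + 1 / (2 * ε) * v ^ 2 - u * v = (ε * u - v) ^ 2 / (2 * ε) := by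
        field_simp; ring
      have h4 : 0 ≤ (ε * u - v) ^ 2 / (2 * ε) := by positivity
      linarith only [this, h4]
    rw [integral_add (i3.const_mul _) (i4.const_mul _), integral_const_mul,
      integral_const_mul] at h3
    have h5 : ∫ x, ‖n x * (χ x - a x)‖ ^ 2 ∂mm ≤ ε ^ 2 := by simpa [mul_sub] using ha
    have h6 : 1 / (2 * ε) * ∫ x, ‖n x * (χ x - a x)‖ ^ 2 ∂mm ≤ ε / 2 := by
      calc _ ≤ 1 / (2 * ε) * ε ^ 2 := mul_le_mul_of_nonneg_left h5 (by positivity)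
        _ = ε / 2 := by field_simp
    unfold nn
    linarith only [h3, h6]
  have hp : 0 < (nn (fun x => n x * ψ x) + 1) / 2 := by linarith [nn_nonneg fun x => n x * ψ x]
  refine norm_eq_zero.1 (le_antisymm (le_of_forall_pos_le_add fun ε hε => ?_) (norm_nonneg _))
  have := key (ε / ((nn (fun x => n x * ψ x) + 1) / 2)) (div_pos hε hp)
  rwa [div_mul_cancel₀ _ hp.ne', ← zero_add ε] at this

end Pool.Agent.Work.MP_f96e05_an
end

-- merged part: Pool.Agent.Work.MP_f96e05_an.Ground4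
section
set_option autoImplicit false
set_option maxHeartbeats 400000

open MeasureTheory Filter Topology Complex Metric
open scoped ComplexConjugate InnerProductSpace NNReal ENNReal

namespace Pool.Agent.Work.MP_f96e05_an

variable {S : TT → TT} {w : ℝ} {n : TT → ℝ} {L : TT → ℂ} {k K : ℝ}

lemma isH0_of_im {G : TT → ℂ} (hG : Integrable G mm)
    (h0 : ∀ j : ℕ, ∫ x, ee x ^ j * G x ∂mm = 0) (him : MemLp (fun x => ((G x).im : ℂ)) 2 mm) :
    IsH0 G := by
  have bd : ∀ (j : ℕ) {u : TT → ℂ}, Integrable u mm → Integrable (fun x => ee x ^ j * u x) mm :=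
    fun j _ hu => hu.bdd_mul (c := 1) (ee_cont.pow j).aestronglyMeasurable
      (Eventually.of_forall fun x => by simp [ee_norm])
  obtain ⟨Y, hY, hre, hmean⟩ := exists_herglotz him
  have hm0 : ∫ x, (G x).im ∂mm = 0 := by
    have h1 := integral_im hG
    have h2 : ∫ x, G x ∂mm = 0 := by simpa using h0 0
    rw [h2] at h1
    simpa using h1
  have hY0 : IsH0 fun x => I * Y x := (hY.isH0 (by rw [hmean, hm0]; simp)).const_mul I
  have iY := integrable_of_memLp hY0.1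
  have hD : ∀ j : ℕ, ∫ x, ee x ^ j * (G x - I * Y x) ∂mm = 0 := fun j => by
    simp_rw [mul_sub]
    rw [integral_sub (bd j hG) (bd j iY), h0, hY0.2, sub_zero]
  have hz := ae_zero_of_fourier (hG.sub iY) fun j => by
    rcases le_or_gt 0 j with hj | hj
    · obtain ⟨m, rfl⟩ := Int.eq_ofNat_of_zero_le hj
      simpa only [fourier_nat, Pi.sub_apply] using hD m
    · obtain ⟨m, rfl⟩ : ∃ m : ℕ, j = -(m : ℤ) := ⟨(-j).toNat, by omega⟩
      have h1 := congrArg conj (hD m)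
      rw [← integral_conj, map_zero] at h1
      refine Eq.trans (integral_congr_ae ?_) h1
      filter_upwards [hre] with x hx
      have : conj (G x - I * Y x) = G x - I * Y x := conj_eq_iff_im.2 (by simp [hx])
      rw [fourier_neg, fourier_nat, map_mul, this]; rfl
  refine hY0.congr ?_
  filter_upwards [hz] with x hx
  exact (sub_eq_zero.1 hx).symm

lemma abs_im_pow (z : ℂ) (j : ℕ) : |(z ^ (j + 1)).im| ≤ (j + 1) * ‖z‖ ^ j * |z.im| := by
  induction j with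
  | zero => simp
  | succ j ih =>
    rw [pow_succ, mul_im]
    have h1 : |(z ^ (j + 1)).re| ≤ ‖z‖ ^ (j + 1) := by
      rw [← norm_pow]; exact abs_re_le_norm _
    have h2 := abs_re_le_norm z
    calc |(z ^ (j + 1)).re * z.im + (z ^ (j + 1)).im * z.re|
        ≤ |(z ^ (j + 1)).re| * |z.im| + |(z ^ (j + 1)).im| * |z.re| := by
          rw [← abs_mul, ← abs_mul]; exact abs_add_le _ _
      _ ≤ ‖z‖ ^ (j + 1) * |z.im| + (j + 1) * ‖z‖ ^ j * |z.im| * ‖z‖ := by gcongr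
      _ = _ := by push_cast; ring

lemma IsGround.powers (hg : IsGround S w n) (hL : IsHyp S L k K) {κ : TT → ℂ} (hκ : Inv S κ)
    (hM : InM S w fun x => n x * κ x) {B : ℝ} (hB0 : 0 ≤ B) (hB : ∀ᵐ x ∂mm, |(κ x).re| ≤ B)
    (j : ℕ) : IsH0 (fun x => n x * κ x ^ (j + 1)) ∧
      nn (fun x => n x * κ x ^ (j + 1)) ≤
        (((j + 1).factorial * (2 * B) ^ (j + 1)) ^ 2) * nn fun x => n x := by
  have hp : ∀ j : ℕ, Inv S fun x => κ x ^ j := fun j => hκ.comp (χ := fun z => z ^ j) (by fun_prop)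
  have step : ∀ j : ℕ, MemLp (fun x => n x * κ x ^ j) 2 mm →
      Integrable (fun x => n x * κ x ^ (j + 1)) mm →
      (∀ l : ℕ, ∫ x, ee x ^ l * (n x * κ x ^ (j + 1)) ∂mm = 0) →
      IsH0 (fun x => n x * κ x ^ (j + 1)) ∧ nn (fun x => n x * κ x ^ (j + 1)) ≤
        ((j + 1) * (2 * B)) ^ 2 * nn fun x => n x * κ x ^ j := by
    intro j h1 h2 h3
    have hb : ∀ᵐ x ∂mm, |((-I) ^ (j + 1) * (n x * κ x ^ (j + 1))).im| ≤
        (j + 1) * B * ‖n x * κ x ^ j‖ := by
      filter_upwards [hB] with x hx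
      rw [mul_left_comm, ← mul_pow, im_ofReal_mul, abs_mul, norm_mul, norm_real, Real.norm_eq_abs,
        norm_pow]
      have h4 := abs_im_pow (-I * κ x) j
      have h5 : |(-I * κ x).im| = |(κ x).re| := by simp
      have h6 : ‖-I * κ x‖ = ‖κ x‖ := by simp
      rw [h5, h6] at h4
      calc |n x| * |((-I * κ x) ^ (j + 1)).im| ≤ |n x| * ((j + 1) * ‖κ x‖ ^ j * B) := by
            refine mul_le_mul_of_nonneg_left (h4.trans ?_) (abs_nonneg _)
            gcongr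
        _ = _ := by ring
    have hm : MemLp (fun x => ((((-I) ^ (j + 1) * (n x * κ x ^ (j + 1))).im : ℝ) : ℂ)) 2 mm := by
      refine MemLp.of_le_mul (c := (j + 1) * B) h1
        ((continuous_ofReal.comp continuous_im).comp_aestronglyMeasurable (h2.const_mul _).1) ?_
      simpa only [norm_real, Real.norm_eq_abs] using hb
    have h4 := isH0_of_im (h2.const_mul ((-I) ^ (j + 1))) (fun l => by
      simp_rw [mul_left_comm _ ((-I) ^ (j + 1))]
      rw [integral_const_mul, h3, mul_zero]) hm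
    have e : ∀ x, I ^ (j + 1) * ((-I) ^ (j + 1) * (n x * κ x ^ (j + 1))) =
        n x * κ x ^ (j + 1) := fun x => by
      rw [← mul_assoc, ← mul_pow]; simp
    refine ⟨by simpa only [e] using h4.const_mul (I ^ (j + 1)), ?_⟩
    have h5 := h4.normsq_eq
    simp only [norm_mul ((-I) ^ (j + 1)), norm_pow, norm_neg, norm_I, one_pow, one_mul] at h5
    have h6 : ∫ x, ((-I) ^ (j + 1) * (n x * κ x ^ (j + 1))).im ^ 2 ∂mm ≤
        ∫ x, ((j + 1) * B) ^ 2 * ‖n x * κ x ^ j‖ ^ 2 ∂mm := by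
      refine integral_mono_ae (by simpa only [norm_real, Real.norm_eq_abs, sq_abs] using integrable_normsq hm)
        ((integrable_normsq h1).const_mul _) ?_
      filter_upwards [hb] with x hx
      rw [← mul_pow, ← sq_abs]
      exact pow_le_pow_left₀ (abs_nonneg _) hx 2
    rw [integral_const_mul] at h6
    have h7 := mul_nonneg (sq_nonneg ((j + 1) * B)) (nn_nonneg fun x => n x * κ x ^ j)
    unfold nn at h7 ⊢
    rw [h5]
    linarith only [h6, h7]
  induction j with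
  | zero =>
    have := step 0 (by simpa using hg.mem.1) (by simpa using integrable_of_memLp hM.1.1)
      (by simpa using hM.2.2)
    simpa using this
  | succ j ih =>
    have h1 := hg.prod (hp (j + 1)) hκ ih.1.1 hM.1.1
    have h2 := hg.prod_coeff hL (hp (j + 1)) hκ ih.1 hM
    simp only [← pow_succ] at h1 h2
    obtain ⟨h3, h4⟩ := step (j + 1) ih.1.1 h1.1 h2
    refine ⟨h3, h4.trans ((mul_le_mul_of_nonneg_left ih.2 (sq_nonneg _)).trans (le_of_eq ?_))⟩
    rw [Nat.factorial_succ (j + 1)]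
    push_cast; ring

lemma norm_exp_real_mul {t B : ℝ} {z : ℂ} (h : |z.re| ≤ B) : ‖exp (t * z)‖ ≤ Real.exp (|t| * B) := by
  rw [norm_exp, re_ofReal_mul]
  refine Real.exp_le_exp.2 ((le_abs_self _).trans ?_)
  rw [abs_mul]; exact mul_le_mul_of_nonneg_left h (abs_nonneg _)

lemma IsGround.exp_small (hg : IsGround S w n) (hL : IsHyp S L k K) {κ : TT → ℂ} (hκ : Inv S κ)
    (hM : InM S w fun x => n x * κ x) {B : ℝ} (hB0 : 0 ≤ B) (hB : ∀ᵐ x ∂mm, |(κ x).re| ≤ B)
    {t : ℝ} (ht : |t| * (2 * B) < 1) : InM S w fun x => n x * (exp (t * κ x) - 1) := by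
  have hi : Inv S fun x => exp (t * κ x) - 1 :=
    hκ.comp (χ := fun z => exp (t * z) - 1) (by fun_prop)
  have hN := hg.mem_bdd hi (K := Real.exp (|t| * B) + 1) (by
    filter_upwards [hB] with x hx
    exact (norm_sub_le _ _).trans (by simpa using norm_exp_real_mul hx))
  refine ⟨hN, hN.1, fun l => ?_⟩
  have hp := hg.powers hL hκ hM hB0 hB
  let c : ℕ → ℂ := fun j => (t : ℂ) ^ (j + 1) / ((j + 1).factorial : ℂ)
  have hint : ∀ j : ℕ, Integrable (fun x => c j * (ee x ^ l * (n x * κ x ^ (j + 1)))) mm :=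
    fun j => (integrable_mul2 (memLp_ee_pow l) (hp j).1.1).const_mul _
  have hs : Summable fun j : ℕ => ∫ x, ‖c j * (ee x ^ l * (n x * κ x ^ (j + 1)))‖ ∂mm := by
    refine Summable.of_nonneg_of_le (fun j => integral_nonneg fun x => norm_nonneg _) (fun j => ?_)
      ((summable_geometric_of_lt_one (by positivity) ht).mul_left
        (|t| * (2 * B) * Real.sqrt (nn fun x => n x)))
    simp_rw [norm_mul (c j), norm_mul (ee _ ^ l), norm_pow, ee_norm, one_pow, one_mul]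
    rw [integral_const_mul]
    have h1 : ∫ x, ‖n x * κ x ^ (j + 1)‖ ∂mm ≤
        (j + 1).factorial * (2 * B) ^ (j + 1) * Real.sqrt (nn fun x => n x) := by
      refine (pow_le_pow_iff_left₀ (integral_nonneg fun x => norm_nonneg _) (by positivity)
        two_ne_zero).1 ((integral_norm_le_sqrt (hp j).1.1).trans ((hp j).2.trans (le_of_eq ?_)))
      rw [mul_pow _ (Real.sqrt _), Real.sq_sqrt (nn_nonneg _)]
    have h2 : ‖c j‖ = |t| ^ (j + 1) / (j + 1).factorial := by simp [c]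
    have h3 : ((j + 1).factorial : ℝ) ≠ 0 := by exact_mod_cast (j + 1).factorial_ne_zero
    refine (mul_le_mul_of_nonneg_left h1 (norm_nonneg _)).trans (le_of_eq ?_)
    rw [h2, mul_pow]; field_simp; ring
  have h := hasSum_integral_of_summable_integral_norm hint hs
  have e1 : ∀ j, ∫ x, c j * (ee x ^ l * (n x * κ x ^ (j + 1))) ∂mm = 0 := fun j => by
    rw [integral_const_mul, (hp j).1.2, mul_zero]
  have e2 : ∀ x, ∑' j : ℕ, c j * (ee x ^ l * (n x * κ x ^ (j + 1))) =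
      ee x ^ l * (n x * (exp (t * κ x) - 1)) := by
    intro x
    have h1 := NormedSpace.expSeries_div_hasSum_exp (t * κ x)
    rw [← Complex.exp_eq_exp_ℂ] at h1
    have h2 := ((hasSum_nat_add_iff' 1).2 h1).mul_left (ee x ^ l * n x)
    simp only [Finset.range_one, Finset.sum_singleton, pow_zero, Nat.factorial_zero, Nat.cast_one,
      div_one] at h2
    rw [← mul_assoc, ← h2.tsum_eq]
    refine tsum_congr fun j => ?_
    simp only [c]; ring
  simp_rw [e1, e2] at h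
  exact h.unique hasSum_zero

lemma IsGround.exp_all (hg : IsGround S w n) (hL : IsHyp S L k K) {κ : TT → ℂ} (hκ : Inv S κ)
    (hM : InM S w fun x => n x * κ x) {B : ℝ} (hB0 : 0 ≤ B) (hB : ∀ᵐ x ∂mm, |(κ x).re| ≤ B)
    (t : ℝ) : IsH0 fun x => n x * κ x * exp (t * κ x) := by
  obtain ⟨N, hN⟩ := exists_nat_gt (|t| * (2 * B))
  have hN0 : (0 : ℝ) < N := lt_of_le_of_lt (by positivity) hN
  have hs : |t / N| * (2 * B) < 1 := by
    rw [abs_div, abs_of_pos hN0, div_mul_eq_mul_div, div_lt_one hN0]; exact hN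
  have hb := hg.exp_small hL hκ hM hB0 hB hs
  have hi : Inv S fun x => exp ((t / N : ℝ) * κ x) - 1 :=
    hκ.comp (χ := fun z => exp ((t / N : ℝ) * z) - 1) (by fun_prop)
  have ind : ∀ m : ℕ, IsH0 fun x => n x * (κ x * exp ((t / N : ℝ) * κ x) ^ m) := by
    intro m
    induction m with
    | zero => simpa using hM.2
    | succ m ih =>
      have hψ : Inv S fun x => κ x * exp ((t / N : ℝ) * κ x) ^ m :=
        hκ.comp (χ := fun z => z * exp ((t / N : ℝ) * z) ^ m) (by fun_prop)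
      have h1 : IsH0 fun x => n x * (κ x * exp ((t / N : ℝ) * κ x) ^ m *
          (exp ((t / N : ℝ) * κ x) - 1)) := by
        refine ⟨?_, hg.prod_coeff hL hψ hi ih hb⟩
        have := memLp_bdd_mul hi.1 (K := Real.exp (|t / N| * B) + 1) (by
          filter_upwards [hB] with x hx
          exact (norm_sub_le _ _).trans (by simpa using norm_exp_real_mul (t := t / N) hx)) ih.1
        refine (memLp_congr_ae (Eventually.of_forall fun x => ?_)).1 this
        ring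
      refine (ih.add h1).congr (Eventually.of_forall fun x => ?_)
      simp only; ring
  refine (ind N).congr (Eventually.of_forall fun x => ?_)
  simp only
  rw [← Complex.exp_nat_mul, mul_assoc]
  congr 3
  have : (N : ℂ) ≠ 0 := by exact_mod_cast hN0.ne'
  push_cast; field_simp

lemma fourier_coe (j : ℤ) (t : ℝ) : fourier j (t : TT) = exp ((j * t : ℝ) * I) := by
  rw [fourier_coe_apply]
  congr 1
  have : (Real.pi : ℂ) ≠ 0 := by exact_mod_cast Real.pi_ne_zero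
  unfold tau
  push_cast
  field_simp

/-- the ground state cannot exist in the hyperbolic case -/
theorem IsGround.false (hg : IsGround S w n) (hL : IsHyp S L k K) : False := by
  have hM := isLin_M (w := w) hg.pre
  have hN1 := hg.mem_bdd hL.inv_re (K := K) (by simpa using hL.bdd)
  set c : ℝ := (∫ x, n x * (L x).re ∂mm) / ∫ x, n x ∂mm with hc
  have hN2 : InN S 1 w fun x => n x * (((L x).re : ℂ) - c) := by
    simpa [mul_sub, mul_comm] using
      (isLin_N hg.pre).sub' hN1 ((isLin_N hg.pre).smul (c : ℂ) hg.mem)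
  have h0 : ∫ x, n x * (((L x).re : ℂ) - c) ∂mm = 0 := by
    simp_rw [mul_sub]
    rw [integral_sub (integrable_of_memLp hN1.1) ((integrable_of_memLp hg.mem.1).mul_const _),
      integral_mul_const, hc]
    have h1 := hg.mean_pos
    simp_rw [← ofReal_mul]
    rw [integral_complex_ofReal] at h1 ⊢
    rw [integral_complex_ofReal]
    push_cast; field_simp; ring
  obtain ⟨f, g, hf, hg', e⟩ := hg.decomp hN2 h0
  have hf' := hM.smul (1 / 2) (hM.add hf hg')
  obtain ⟨κ, hκ, hκe⟩ := hg.ratio hf'.1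
  have hκM : InM S w fun x => n x * κ x := hM.congr hf' hκe
  have hre : ∀ᵐ x ∂mm, (κ x).re = ((L x).re - c) / 2 := by
    filter_upwards [e, hκe, hg.pos] with x h1 h2 h3
    have h4 := congrArg Complex.re h1
    have h5 := congrArg Complex.re h2
    simp at h4 h5
    apply mul_left_cancel₀ h3.ne'
    linarith only [h4, h5]
  have hK0 : 0 ≤ K := by
    obtain ⟨x, hx⟩ := hL.bdd.exists
    exact (abs_nonneg _).trans hx
  have hB : ∀ᵐ x ∂mm, |(κ x).re| ≤ (K + |c|) / 2 := by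
    filter_upwards [hre, hL.bdd] with x h1 h2
    rw [h1, abs_div, abs_two]
    linarith only [h2, abs_sub (L x).re c]
  let ϑ : TT → ℝ := fun x => (κ x).im - (L x).im / 2
  have hϑ : ∀ t : ℝ, IsH0 fun x => exp ((t * ϑ x : ℝ) * I) * (n x * κ x) := by
    intro t
    have h1 := hg.exp_all hL hκ hκM (by positivity) hB t
    have hb : ∀ᵐ x ∂mm, ‖exp (((-t / 2 : ℝ) : ℂ) * L x)‖ ≤ Real.exp (|-t / 2| * K) := by
      filter_upwards [hL.bdd] with x hx
      exact norm_exp_real_mul hx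
    have h2 := (exp_isH (hL.isH.const_mul ((-t / 2 : ℝ) : ℂ)) (K := |-t / 2| * K) (by
      filter_upwards [hb] with x hx
      rw [norm_exp] at hx
      exact Real.exp_le_exp.1 hx)).1
    refine ((h2.mul0 hb h1).const_mul (exp ((t * c / 2 : ℝ) : ℂ))).congr ?_
    filter_upwards [hre] with x hx
    have : ((t * ϑ x : ℝ) : ℂ) * I =
        ((t * c / 2 : ℝ) : ℂ) + ((-t / 2 : ℝ) : ℂ) * L x + t * κ x := by
      apply Complex.ext
      · simp [hx]; ring
      · simp [ϑ]; ring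
    rw [this, exp_add, exp_add]; ring
  have hne : ∀ᵐ x ∂mm, n x * κ x ≠ 0 := by
    refine hκM.2.isH.ae_ne_zero fun h => hL.not_const hg.pre c ?_
    filter_upwards [h, hre, hg.pos] with x h1 h2 h3
    have : κ x = 0 := (mul_eq_zero.1 h1).resolve_left (by exact_mod_cast h3.ne')
    rw [this, zero_re] at h2
    linarith only [h2]
  let θ : TT → TT := fun x => ((2 * Real.pi / k * ϑ x : ℝ) : TT)
  have hϑm : AEMeasurable ϑ mm :=
    (measurable_im.comp_aemeasurable hκ.1.aemeasurable).sub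
      ((measurable_im.comp_aemeasurable hL.isH.1.1.aemeasurable).div_const 2)
  have hθ : AEMeasurable θ mm :=
    (AddCircle.measurable_mk').comp_aemeasurable (hϑm.const_mul _)
  have hθS : ∀ᵐ x ∂mm, ee (θ (S x)) = -ee (θ x) := by
    filter_upwards [hκ.2, hL.per] with x h1 h2
    simp only [θ, ϑ, ee_coe]
    rw [h1, h2, ← Complex.exp_sub_pi_mul_I]
    congr 1
    have : (k : ℂ) ≠ 0 := by exact_mod_cast hL.ne
    simp only [add_im, mul_im, I_re, I_im, ofReal_re, ofReal_im]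
    push_cast; field_simp; ring
  have hc : ∀ u : C(TT, ℂ), IsH0 fun x => u (θ x) * (n x * κ x) := by
    intro u
    refine ⟨memLp_bdd_mul (u.continuous.measurable.comp_aemeasurable hθ).aestronglyMeasurable
      (K := ‖u‖) (Eventually.of_forall fun x => u.norm_coe_le_norm _) hκM.1.1, fun l => ?_⟩
    have := integral_cont_comp_eq_zero (integrable_mul2 (memLp_ee_pow l) hκM.1.1) hθ (fun j => by
      refine Eq.trans (integral_congr_ae (Eventually.of_forall fun x => ?_))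
        ((hϑ (j * (2 * Real.pi / k))).2 l)
      simp only [θ, fourier_coe, mul_assoc]; ring) u
    refine Eq.trans (integral_congr_ae (Eventually.of_forall fun x => ?_)) this
    simp only; ring
  have fin : ∀ γ : ℂ, ∀ᵐ x ∂mm, (γ * ee (θ x)).re = 0 := by
    intro γ
    have h1 := hc ⟨fun y => ((max (γ * ee y).re 0 : ℝ) : ℂ), by
      have := ee_cont
      fun_prop⟩
    simp only [ContinuousMap.coe_mk] at h1
    by_cases h2 : ∀ᵐ x ∂mm, ((max (γ * ee (θ x)).re 0 : ℝ) : ℂ) * (n x * κ x) = 0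
    · have h3 : ∀ᵐ x ∂mm, (γ * ee (θ x)).re ≤ 0 := by
        filter_upwards [h2, hne] with x h3 h4
        have : max (γ * ee (θ x)).re 0 = 0 := by
          exact_mod_cast (mul_eq_zero.1 h3).resolve_right h4
        exact max_eq_right_iff.1 this
      filter_upwards [h3, hg.pre.ae h3, hθS] with x h4 h5 h6
      rw [h6, mul_neg, neg_re] at h5
      linarith only [h5, h4]
    · have h3 : ∀ᵐ x ∂mm, 0 < (γ * ee (θ x)).re := by
        filter_upwards [h1.isH.ae_ne_zero h2] with x h3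
        by_contra h4
        rw [max_eq_right (not_lt.1 h4)] at h3
        simp at h3
      filter_upwards [h3, hg.pre.ae h3, hθS] with x h4 h5 h6
      rw [h6, mul_neg, neg_re] at h5
      linarith only [h4, h5]
  obtain ⟨x, h1, h2⟩ := ((fin 1).and (fin I)).exists
  apply ee_ne (θ x)
  apply Complex.ext
  · simpa using h1
  · simpa using h2

/-- in the hyperbolic case the numerical radius is not attained on `H²` -/
theorem IsHyp.not_attained (h : IsSys S) (hL : IsHyp S L k K)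
    (hb : ∀ F, IsH F → ‖qq S F F‖ ≤ w * nn F) {F : TT → ℂ} (hF : IsH F) (h1 : nn F = 1) :
    ‖qq S F F‖ < w := by
  have hw : ∀ G, MemLp G 2 mm → ‖qq S G G‖ ≤ w * nn G := fun G hG =>
    hL.norm_le h (μ := 1) (by simp) (fun G hG => by
      unfold Bnd
      rw [map_one, one_mul]
      exact (re_le_norm _).trans (hb G hG)) hG
  refine lt_of_le_of_ne (by simpa [h1] using hb F hF) fun he => ?_
  let μ : ℂ := exp (arg (qq S F F) * I)
  have hμ : ‖μ‖ = 1 := norm_exp_ofReal_mul_I _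
  have hN : InN S μ w F := by
    refine inN_of_extremal h.toIsPre (fun G hG => ?_) hF.1 ?_
    · exact (re_le_norm _).trans (by rw [norm_mul, norm_conj, hμ, one_mul]; exact hw G hG)
    · have e4 := norm_mul_exp_arg_mul_I (qq S F F)
      have e5 : μ * conj μ = 1 := by rw [mul_conj, normSq_eq_norm_sq, hμ]; simp
      have : conj μ * qq S F F = (‖qq S F F‖ : ℝ) := by
        linear_combination (-conj μ) * e4 + (‖qq S F F‖ : ℂ) * e5
      rw [this, ofReal_re, he, h1, mul_one]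
  have hne := hF.ae_ne_zero fun h0 => by
    have : nn F = nn fun _ => 0 := nn_congr h0
    rw [h1] at this
    simp [nn] at this
  obtain ⟨n, hn⟩ := exists_ground h hw (p := fun x => ‖F x‖)
    (hne.mono fun x hx => norm_pos_iff.2 hx) (hN.pointwise h.toIsPre hw hμ).2
  exact hn.false hL

end Pool.Agent.Work.MP_f96e05_an
end

-- merged part: Pool.Agent.Work.MP_f96e05_an.Main
section
set_option autoImplicit false

open MeasureTheory Filter Topology Complex Metric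

namespace Pool.Agent.Work.MP_f96e05_an

theorem hyperbolic_open {φ : ℂ → ℂ} (hφ : IsInnerFn φ) {ω : ℂ} (hω : ‖ω‖ = 1) {α : ℝ}
    (hα1 : α < 1)
    (hα : Tendsto (fun r : ℝ => (φ (r * ω) - ω) / (r * ω - ω)) (𝓝[<] 1) (𝓝 α)) :
    numRange φ = ball 0 (sSup (norm '' numRange φ)) ∧ ¬ IsClosed (numRange φ) := by
  obtain ⟨S, hS⟩ := exists_bdry hφ
  obtain ⟨L, k, K, hL⟩ := hS.exists_hyp hω hα1 hα
  have e : numRange φ = WW S := Set.ext hS.mem_numRange
  have h1 : WW S = ball 0 (sSup (norm '' WW S)) := by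
    refine Set.Subset.antisymm ?_ (ball_subset_WW hS.isPre fun μ w hμ hb F hF =>
      hL.norm_le hS.isSys hμ hb hF.1)
    rintro _ ⟨F, hF, h1, rfl⟩
    exact mem_ball_zero_iff.2 (hL.not_attained hS.isSys (fun G hG => norm_qq_le hS.isPre hG) hF h1)
  rw [e]
  refine ⟨h1, ?_⟩
  rw [h1]
  refine not_isClosed_ball ?_
  have h2 := one_mem_WW (S := S)
  rw [h1] at h2
  exact pos_of_mem_ball h2

end Pool.Agent.Work.MP_f96e05_an
end

-- merged part: Pool.Agent.Work.MP_f96e05_an.FS.M3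
section
/-!
The finite shift case.
-/

set_option autoImplicit false

open MeasureTheory Filter Topology Complex Metric
open scoped ComplexConjugate InnerProductSpace

namespace Pool.Agent.Work.MP_f96e05_an

theorem finite_shift_open {φ : ℂ → ℂ} (hφ : IsInnerFn φ) {ω : ℂ} (hω : ‖ω‖ = 1)
    (hder : Tendsto (fun r : ℝ => (φ (r * ω) - ω) / (r * ω - ω)) (𝓝[<] 1) (𝓝 1)) (h0 : φ 0 ≠ 0)
    (hC : ∃ C : ℝ, ∀ n : ℕ, (1 - ‖φ^[n] 0‖ ^ 2) / ‖ω - φ^[n] 0‖ ^ 2 ≤ C) :
    numRange φ = ball 0 (sSup (norm '' numRange φ)) ∧ ¬ IsClosed (numRange φ) := by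
  obtain ⟨S, h⟩ := exists_bdry hφ
  have hJ := jul_of h hω hder
  obtain ⟨X, b, hL0⟩ := exists_lev0 h hω hJ (hC.imp fun C hC n => by
    unfold cay; rw [cay_im hω]; exact hC n)
  obtain ⟨σ, hL⟩ := hL0.exists_lev h hω hJ
  have hb := (hL.sector h hω hJ h0).1
  have e : numRange φ = WW S := Set.ext h.mem_numRange
  have hw1 := h.one_lt h0
  have h2 : WW S = ball 0 (sSup (norm '' WW S)) := by
    refine Set.Subset.antisymm ?_ (ball_subset_WW h.isPre fun μ w hμ hb' F hF =>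
      hL.norm_le h.isSys hω hb hμ hb' hF.1)
    rintro _ ⟨F, hF, hn, rfl⟩
    set w := sSup (norm '' WW S) with hw'
    have hw : ∀ G, MemLp G 2 mm → ‖qq S G G‖ ≤ w * nn G := fun G hG =>
      hL.norm_le h.isSys hω hb (μ := 1) (by simp) (fun G hG => by
        unfold Bnd
        rw [map_one, one_mul]
        exact (re_le_norm _).trans (norm_qq_le h.isPre hG)) hG
    refine mem_ball_zero_iff.2 (lt_of_le_of_ne (by simpa [hn] using hw F hF.1) fun he => ?_)
    let μ : ℂ := exp (arg (qq S F F) * I)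
    have hμ : ‖μ‖ = 1 := norm_exp_ofReal_mul_I _
    have hN : InN S μ w F := by
      refine inN_of_extremal h.isPre (fun G hG => ?_) hF.1 ?_
      · exact (re_le_norm _).trans (by rw [norm_mul, norm_conj, hμ, one_mul]; exact hw G hG)
      · have e4 := norm_mul_exp_arg_mul_I (qq S F F)
        have e5 : μ * conj μ = 1 := by rw [mul_conj, normSq_eq_norm_sq, hμ]; simp
        have : conj μ * qq S F F = (‖qq S F F‖ : ℝ) := by
          linear_combination (-conj μ) * e4 + (‖qq S F F‖ : ℂ) * e5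
        rw [this, ofReal_re, he, hn, mul_one]
    have h3 := no_extremal h h0 hL hω hb hw (fun ν G hν hG hne hN hn => by
      obtain ⟨r, hr⟩ := exists_ext h h0 hw hν hG hne hN
      exact hr.mu_eq hL hω hJ h0 hn) hμ hF hN
    have : nn F = nn fun _ => 0 := nn_congr h3
    rw [hn] at this
    simp [nn] at this
  rw [e]
  refine ⟨h2, ?_⟩
  rw [h2]
  exact not_isClosed_ball (by linarith only [hw1])

end Pool.Agent.Work.MP_f96e05_an
end
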